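import Mathlib

/-!
# Explicit choice of the parameters, case 1
-/

set_option autoImplicit false

namespace Pool.Agent.Lib.MP_648c71_nt.AllCub

/-- Bounds for the root. -/
private theorem C1_root {b c : ℤ} (hc : 0 < c) {R : ℝ} (hR : 0 < R) (h : R ^ 3 + b * R = c) :
    R ≤ ((2 + |b| + |c| : ℤ) : ℝ) ∧ 1 ≤ R * ((2 + |b| + |c| : ℤ) : ℝ) ∧ - R ^ 2 ≤ (b : ℝ) := by
  have hc1 : (1 : ℝ) ≤ c := by exact_mod_cast hc
  have hcast : ((2 + |b| + |c| : ℤ) : ℝ) = 2 + |(b : ℝ)| + |(c : ℝ)| := by push_cast; ring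
  rw [hcast]
  have hb1 := neg_abs_le (b : ℝ)
  have hb2 := le_abs_self (b : ℝ)
  have hb0 := abs_nonneg (b : ℝ)
  have hc2 := le_abs_self (c : ℝ)
  have hRb : R * (R ^ 2 + b) = c := by rw [← h]; ring
  have hpos : 0 < R ^ 2 + b := by
    by_contra hcon
    push Not at hcon
    have : R * (R ^ 2 + b) ≤ 0 := mul_nonpos_of_nonneg_of_nonpos hR.le hcon
    linarith
  refine ⟨?_, ?_, by linarith⟩
  · by_contra hcon
    push Not at hcon
    have hR2 : 2 < R := by linarith [abs_nonneg (c : ℝ)]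
    -- R ^ 2 + b > R * (|b| + 2) - |b| > |c|
    have h1 : R ^ 2 + b > 1 * |(c : ℝ)| := by nlinarith [abs_nonneg (c : ℝ)]
    have h2 : R * (R ^ 2 + b) > |(c : ℝ)| := by nlinarith [abs_nonneg (c : ℝ)]
    linarith
  · by_contra hcon
    push Not at hcon
    have hR1 : R < 1 := by
      by_contra h1
      push Not at h1
      nlinarith [abs_nonneg (c : ℝ)]
    have h2 : R ^ 2 + b ≤ 2 + |(b : ℝ)| + |(c : ℝ)| := by nlinarith [abs_nonneg (c : ℝ)]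
    have h3 : R * (R ^ 2 + b) ≤ R * (2 + |(b : ℝ)| + |(c : ℝ)|) := mul_le_mul_of_nonneg_left h2 hR.le
    linarith

/-- X2 (choice of the parameters, case 1). -/
theorem choice1 : ∃ K : ℕ, ∀ b c : ℤ, 0 < c → ∀ R : ℝ, 0 < R → R ^ 3 + b * R = c → (b : ℝ) ≤ 8 * R ^ 2 →
    ∃ N n a : ℤ, (0 < N ∧ N ≤ (2 + |b| + |c|) ^ K) ∧ (0 < n ∧ n ≤ (2 + |b| + |c|) ^ K) ∧
      (0 < a ∧ a ≤ (2 + |b| + |c|) ^ K) ∧ 11 ∣ N ∧ n % 11 = 1 ∧ a % 11 = 3 ∧ 400 * R * N ≤ n ∧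
      19 / 10 * R ≤ ((n : ℝ) ^ 2 + b * N ^ 2 - 3 * a ^ 2) / (6 * a * N) ∧
      ((n : ℝ) ^ 2 + b * N ^ 2 - 3 * a ^ 2) / (6 * a * N) ≤ 39 / 20 * R := by
  refine ⟨20, ?_⟩
  intro b c hc R hR hRc hb8
  obtain ⟨hRT, hRT1, hbR⟩ := C1_root hc hR hRc
  have hT3 : 3 ≤ 2 + |b| + |c| := by
    have h1 := abs_nonneg b
    have h2 : 1 ≤ |c| := Int.one_le_abs (by omega)
    omega
  generalize 2 + |b| + |c| = T at hRT hRT1 hT3 ⊢
  have hT3r : (3 : ℝ) ≤ T := by exact_mod_cast hT3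
  -- the parameters
  obtain ⟨N, hN⟩ : ∃ N : ℤ, N = 1210 * T := ⟨_, rfl⟩
  obtain ⟨n, hn⟩ : ∃ n : ℤ, n = 400 * N * T + 1 := ⟨_, rfl⟩
  have hNr : (N : ℝ) = 1210 * T := by rw [hN]; push_cast; ring
  have hnr : (n : ℝ) = 400 * N * T + 1 := by rw [hn]; push_cast; ring
  have hN0 : (3630 : ℝ) ≤ N := by rw [hNr]; linarith
  have hNpos : (0 : ℝ) < N := by linarith
  have hRN : 400 * R * N ≤ n := by
    rw [hnr]
    nlinarith [mul_le_mul_of_nonneg_left hRT hNpos.le]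
  have hRN0 : 1210 ≤ R * N := by
    rw [hNr]; nlinarith
  have hn0 : (0 : ℝ) < n := by nlinarith
  have hnbig : (484000 : ℝ) ≤ n := by nlinarith
  have hRNn : 160000 * (R ^ 2 * (N : ℝ) ^ 2) ≤ (n : ℝ) ^ 2 := by
    have h1 : (400 * R * N) ^ 2 ≤ (n : ℝ) ^ 2 := pow_le_pow_left₀ (by positivity) hRN 2
    nlinarith
  have hN2 : (0 : ℝ) < (N : ℝ) ^ 2 := by positivity
  -- E = n ^ 2 + b N ^ 2
  obtain ⟨E, hE⟩ : ∃ E : ℝ, E = (n : ℝ) ^ 2 + b * N ^ 2 := ⟨_, rfl⟩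
  have hE1 : 99 / 100 * (n : ℝ) ^ 2 ≤ E := by
    rw [hE]
    have h1 : - R ^ 2 * (N : ℝ) ^ 2 ≤ b * (N : ℝ) ^ 2 := mul_le_mul_of_nonneg_right hbR hN2.le
    nlinarith
  have hE2 : E ≤ 101 / 100 * (n : ℝ) ^ 2 := by
    rw [hE]
    have h1 : b * (N : ℝ) ^ 2 ≤ 8 * R ^ 2 * (N : ℝ) ^ 2 := mul_le_mul_of_nonneg_right hb8 hN2.le
    nlinarith
  have hn2 : (0 : ℝ) < (n : ℝ) ^ 2 := by positivity
  have hE0 : 0 < E := by nlinarith
  -- the real root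
  obtain ⟨m, hm⟩ : ∃ m : ℝ, m = 77 / 40 * R := ⟨_, rfl⟩
  have hm0 : 0 < m := by rw [hm]; positivity
  obtain ⟨S, hS⟩ : ∃ S : ℝ, S = Real.sqrt ((m * N) ^ 2 + E / 3) := ⟨_, rfl⟩
  have hS2 : S ^ 2 = (m * N) ^ 2 + E / 3 := by rw [hS]; exact Real.sq_sqrt (by positivity)
  have hS0 : 0 ≤ S := by rw [hS]; exact Real.sqrt_nonneg _
  obtain ⟨α, hα⟩ : ∃ α : ℝ, α = S - m * N := ⟨_, rfl⟩
  have hαE : 3 * α ^ 2 + 6 * (m * N) * α = E := by rw [hα]; nlinarith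
  have hmN : 0 < m * N := by positivity
  have hmNn : m * N ≤ n / 200 := by rw [hm]; nlinarith
  have hα1 : (n : ℝ) / 3 ≤ α := by
    by_contra hcon
    push Not at hcon
    have hSm : m * N < S := by
      by_contra h1
      push Not at h1
      have : S ^ 2 ≤ (m * N) ^ 2 := pow_le_pow_left₀ hS0 h1 2
      nlinarith
    have hαpos : 0 < α := by rw [hα]; linarith
    have h1 : α ^ 2 ≤ (n / 3) ^ 2 := pow_le_pow_left₀ hαpos.le hcon.le 2
    have h2 : (m * N) * α ≤ (n / 200) * (n / 3) := mul_le_mul hmNn hcon.le hαpos.le (by positivity)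
    nlinarith
  have hαpos : 0 < α := by linarith
  have hα2 : α ≤ n := by
    by_contra hcon
    push Not at hcon
    have h1 : (n : ℝ) ^ 2 ≤ α ^ 2 := pow_le_pow_left₀ hn0.le hcon.le 2
    have h2 : 0 < (m * N) * α := by positivity
    nlinarith
  -- the integer
  obtain ⟨a, ha⟩ : ∃ a : ℤ, a = 11 * ⌊α / 11⌋ + 3 := ⟨_, rfl⟩
  have har : (a : ℝ) = 11 * (⌊α / 11⌋ : ℝ) + 3 := by rw [ha]; push_cast; ring
  have hf1 := Int.floor_le (α / 11)
  have hf2 := Int.lt_floor_add_one (α / 11)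
  have ha1 : (a : ℝ) ≤ α + 3 := by rw [har]; linarith
  have ha2 : α - 8 ≤ (a : ℝ) := by rw [har]; linarith
  have ha3 : (n : ℝ) / 4 ≤ a := by linarith
  have hapos : (0 : ℝ) < a := by linarith
  -- the estimate
  have hkey : (E - 3 * (a : ℝ) ^ 2) / (6 * a * N) - m = (α - a) * (E / (a * α) + 3) / (6 * N) := by
    have h1 : m = (E - 3 * α ^ 2) / (6 * α * N) := by
      rw [← hαE]; field_simp; ring
    rw [h1]; field_simp; ring
  have hq0 : 0 ≤ E / (a * α) := by positivity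
  have hq1 : E / (a * α) ≤ 13 := by
    rw [div_le_iff₀ (by positivity)]
    have h1 : (n : ℝ) / 4 * (n / 3) ≤ a * α := mul_le_mul ha3 hα1 (by positivity) hapos.le
    nlinarith
  have hd1 : (α - a) * (E / (a * α) + 3) ≤ 128 := by
    have h1 : (α - a) * (E / (a * α) + 3) ≤ 8 * (E / (a * α) + 3) :=
      mul_le_mul_of_nonneg_right (by linarith) (by linarith)
    linarith
  have hd2 : -128 ≤ (α - a) * (E / (a * α) + 3) := by
    have h1 : (-3) * (E / (a * α) + 3) ≤ (α - a) * (E / (a * α) + 3) :=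
      mul_le_mul_of_nonneg_right (by linarith) (by linarith)
    linarith
  have h6N : (0 : ℝ) < 6 * N := by positivity
  have hb1 : (α - a) * (E / (a * α) + 3) / (6 * N) ≤ R / 40 := by
    rw [div_le_iff₀ h6N]; nlinarith
  have hb2 : - (R / 40) ≤ (α - a) * (E / (a * α) + 3) / (6 * N) := by
    rw [le_div_iff₀ h6N]; nlinarith
  -- sizes
  have hTpow : ∀ k : ℕ, (3 : ℤ) ^ k ≤ T ^ k := fun k => pow_le_pow_left₀ (by norm_num) hT3 k
  have hTpos : 0 < T := by omega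
  have hNK : N ≤ T ^ 20 := by
    have h1 := hTpow 19
    have h2 : T ^ 20 = T ^ 19 * T := by ring
    rw [h2, hN]
    have h3 : (1210 : ℤ) ≤ T ^ 19 := le_trans (by norm_num) h1
    exact mul_le_mul_of_nonneg_right h3 hTpos.le
  have hnK3 : n + 3 ≤ T ^ 20 := by
    have h1 := hTpow 18
    have h2 : T ^ 20 = T ^ 18 * T ^ 2 := by ring
    have h3 : (484004 : ℤ) ≤ T ^ 18 := le_trans (by norm_num) h1
    have h4 : 484004 * T ^ 2 ≤ T ^ 18 * T ^ 2 := mul_le_mul_of_nonneg_right h3 (by positivity)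
    rw [h2, hn, hN]
    nlinarith
  refine ⟨N, n, a, ⟨by rw [hN]; omega, hNK⟩, ⟨?_, by omega⟩, ⟨?_, ?_⟩, ⟨110 * T, by rw [hN]; ring⟩, ?_, ?_, hRN, ?_, ?_⟩
  · exact_mod_cast hn0
  · exact_mod_cast hapos
  · have h1 : (a : ℝ) ≤ ((n + 3 : ℤ) : ℝ) := by push_cast; linarith
    have h2 : a ≤ n + 3 := by exact_mod_cast h1
    omega
  · have h1 : n = 11 * (400 * 110 * T * T) + 1 := by rw [hn, hN]; ring
    omega
  · omega
  · rw [← hE]
    have : (E - 3 * (a : ℝ) ^ 2) / (6 * a * N) ≥ m - R / 40 := by linarith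
    rw [hm] at this
    linarith
  · rw [← hE]
    have : (E - 3 * (a : ℝ) ^ 2) / (6 * a * N) ≤ m + R / 40 := by linarith
    rw [hm] at this
    linarith

end Pool.Agent.Lib.MP_648c71_nt.AllCub
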