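import Mathlib

/-!
# Explicit form of AllCubics: choice of the parameters, case 2 (`b ≥ 8 R ^ 2`)
-/

set_option autoImplicit false

namespace Pool.Agent.Lib.MP_648c71_nt.AllCub

/-- The least admissible `X` satisfies the upper bound. -/
theorem choice2_X {b c X X0 η T : ℝ} (hT : 4 ≤ T) (hc : 1 ≤ c) (hη : η * (300 * T) = 1)
    (hX0 : X0 = X - η) (hX1 : 1 ≤ X) (hX5 : X ≤ 5 * T) (hX0p : 0 < X0) (hbX : b < X ^ 2)
    (hD : 9 * c * X ≤ (X ^ 2 - b) ^ 2)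
    (hn : ¬ (b < X0 ^ 2 ∧ 9 * c * X0 ≤ (X0 ^ 2 - b) ^ 2)) :
    (X ^ 2 - b) ^ 2 ≤ 10 * c * X := by
  have hηp : 0 < η := by
    by_contra h
    push Not at h
    nlinarith
  set D := X ^ 2 - b with hDd
  have hDp : 0 < D := by linarith
  have hcX : 1 ≤ c * X := by nlinarith
  have hD3 : 3 ≤ D := by nlinarith
  set ε := (X + X0) * η with hε
  have hεp : 0 < ε := by positivity
  have hε1 : ε ≤ 1 / 30 := by
    have h1 : X + X0 ≤ 10 * T := by linarith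
    have h2 : ε ≤ 10 * T * η := mul_le_mul_of_nonneg_right h1 hηp.le
    nlinarith
  have hD0 : X0 ^ 2 - b = D - ε := by
    rw [hDd, hε, hX0]
    ring
  have hbX0 : b < X0 ^ 2 := by linarith
  have h9 : (X0 ^ 2 - b) ^ 2 < 9 * c * X0 := by
    by_contra h
    push Not at h
    exact hn ⟨hbX0, h⟩
  rw [hD0] at h9
  have h10 : 9 * c * X0 ≤ 9 * (c * X) := by
    have : X0 ≤ X := by linarith
    nlinarith
  nlinarith

/-- A small change of `X` is allowed. -/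
theorem choice2_pert {b c X δ T : ℝ} (hT : 4 ≤ T) (hc : 1 ≤ c) (hX1 : 1 ≤ X) (hX5 : X ≤ 5 * T)
    (hbX : b < X ^ 2) (hD : 9 * c * X ≤ (X ^ 2 - b) ^ 2) (hD2 : (X ^ 2 - b) ^ 2 ≤ 10 * c * X)
    (hδ : 0 < δ) (hδ1 : δ * (100 * T) ≤ 1) :
    0 < X - δ ∧ (b : ℝ) ≤ (X - δ) ^ 2 ∧ 8 * c * (X - δ) < ((X - δ) ^ 2 - b) ^ 2 ∧
      ((X - δ) ^ 2 - b) ^ 2 < 22 * c * (X - δ) := by
  have hδ2 : δ ≤ 1 / 400 := by nlinarith
  set D := X ^ 2 - b with hDd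
  have hDp : 0 < D := by linarith
  have hcX : 1 ≤ c * X := by nlinarith
  have hD3 : 3 ≤ D := by nlinarith
  set e := 2 * X * δ - δ ^ 2 with he
  have hep : 0 < e := by nlinarith
  have he1 : e ≤ 1 / 10 := by
    have h1 : 2 * X * δ ≤ 10 * T * δ := by nlinarith
    nlinarith
  have hDe : (X - δ) ^ 2 - b = D - e := by
    rw [hDd, he]
    ring
  refine ⟨by linarith, by linarith, ?_, ?_⟩
  · rw [hDe]
    have h2 : D / 5 < c * X := by nlinarith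
    have h3 : (D - e) ^ 2 ≥ D ^ 2 - D / 5 := by nlinarith
    nlinarith
  · rw [hDe]
    have h3 : (D - e) ^ 2 ≤ D ^ 2 := by nlinarith
    have h4 : c * δ ≤ c * X / 400 := by nlinarith
    nlinarith

/-- One step of `a` changes `m` by at most `R / 20`. -/
theorem choice2_step {b X R T n N a : ℝ} (hT : 4 ≤ T) (hb0 : 0 ≤ b) (hbT : b ≤ T)
    (hR8 : 8 ≤ 9 * T * R) (hX5 : X ≤ 5 * T) (hRT : R ≤ T)
    (hN : N = 3300 * T) (hn : 14 * T * N ≤ n) (ha : 11 < a)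
    (h1 : (n ^ 2 + b * N ^ 2 - 3 * a ^ 2) / (3 * a * N) ≤ X + 39 / 20 * R)
    (h2 : X + 39 / 20 * R < (n ^ 2 + b * N ^ 2 - 3 * (a - 11) ^ 2) / (3 * (a - 11) * N)) :
    19 / 10 * R ≤ (n ^ 2 + b * N ^ 2 - 3 * a ^ 2) / (3 * a * N) - X := by
  have hNp : 0 < N := by rw [hN]; linarith
  have hnp : 0 < n := lt_of_lt_of_le (by positivity) hn
  have hn1 : N ≤ n := by
    have : N ≤ 14 * T * N := by nlinarith
    linarith
  have hn132 : 132 ≤ n := by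
    have : 132 ≤ N := by rw [hN]; linarith
    linarith
  have hZ : X + 39 / 20 * R ≤ 7 * T := by
    have : 39 / 20 * R ≤ 39 / 20 * T := by linarith
    linarith
  have ha3 : n / 3 ≤ a := by
    by_contra hcon
    push Not at hcon
    rw [div_le_iff₀ (by positivity)] at h1
    have e1 : (X + 39 / 20 * R) * (3 * a * N) ≤ 7 * T * (3 * a * N) :=
      mul_le_mul_of_nonneg_right hZ (by positivity)
    have e2 : 7 * T * (3 * a * N) ≤ 7 * T * (n * N) := by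
      apply mul_le_mul_of_nonneg_left _ (by positivity)
      apply mul_le_mul_of_nonneg_right _ hNp.le
      linarith
    have e3 : 7 * T * (n * N) ≤ n ^ 2 / 2 := by nlinarith
    have e4 : 3 * a ^ 2 ≤ n ^ 2 / 3 := by nlinarith
    have e5 : 0 ≤ b * N ^ 2 := by positivity
    nlinarith
  have ha4 : n / 4 ≤ a - 11 := by linarith
  have hbn : b * N ^ 2 ≤ n ^ 2 := by
    have e1 : b * N ^ 2 ≤ T * N * N := by nlinarith
    have e2 : T * N * N ≤ n * N := by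
      apply mul_le_mul_of_nonneg_right _ hNp.le
      nlinarith
    nlinarith
  have ha11 : 0 < a - 11 := by linarith
  have hdiff : (n ^ 2 + b * N ^ 2 - 3 * (a - 11) ^ 2) / (3 * (a - 11) * N)
      - (n ^ 2 + b * N ^ 2 - 3 * a ^ 2) / (3 * a * N)
      = 11 * (n ^ 2 + b * N ^ 2) / (3 * N * (a * (a - 11))) + 11 / N := by
    have h3 : a ≠ 0 := by linarith
    have h4 : a - 11 ≠ 0 := ha11.ne'
    field_simp
    ring
  have hb1 : 11 * (n ^ 2 + b * N ^ 2) / (3 * N * (a * (a - 11))) ≤ 88 / N := by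
    have h3 : n ^ 2 / 12 ≤ a * (a - 11) := by
      have : n / 3 * (n / 4) ≤ a * (a - 11) := by
        apply mul_le_mul ha3 ha4 (by positivity) (by linarith)
      nlinarith
    rw [div_le_div_iff₀ (by positivity) hNp]
    have h5 : 11 * (n ^ 2 + b * N ^ 2) ≤ 22 * n ^ 2 := by linarith
    have h6 : 22 * n ^ 2 ≤ 264 * (a * (a - 11)) := by linarith
    nlinarith
  have hb2 : 88 / N + 11 / N ≤ R / 20 := by
    rw [← add_div, div_le_div_iff₀ hNp (by norm_num), hN]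
    nlinarith
  linarith

theorem choice2_k0 {b c T X1 : ℝ} (hT : 4 ≤ T) (hbT : b ≤ T) (hcT : c ≤ T) (hc : 1 ≤ c)
    (e4 : 4 * T ≤ X1) (e5 : X1 ≤ 5 * T) : b < X1 ^ 2 ∧ 9 * c * X1 ≤ (X1 ^ 2 - b) ^ 2 := by
  have e6 : 16 * T ^ 2 ≤ X1 ^ 2 := by
    have := pow_le_pow_left₀ (by linarith : (0 : ℝ) ≤ 4 * T) e4 2
    nlinarith
  have e0 : T ≤ T ^ 2 := by nlinarith
  have e7 : 15 * T ^ 2 ≤ X1 ^ 2 - b := by linarith
  refine ⟨by linarith, ?_⟩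
  have e8 : 9 * c * X1 ≤ 9 * T * (5 * T) := by
    apply mul_le_mul _ e5 (by linarith) (by linarith)
    linarith
  have e9 : (15 * T ^ 2) ^ 2 ≤ (X1 ^ 2 - b) ^ 2 := pow_le_pow_left₀ (by positivity) e7 2
  have e11 : 1 ≤ T ^ 2 := by linarith
  have e10 : 9 * T * (5 * T) ≤ (15 * T ^ 2) ^ 2 := by
    have h1 : 9 * T * (5 * T) = 45 * T ^ 2 := by ring
    have h2 : (15 * T ^ 2) ^ 2 = 225 * (T ^ 2 * T ^ 2) := by ring
    rw [h1, h2]
    nlinarith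
  linarith

theorem choice2_one {b X : ℝ} (hb : 1 ≤ b) (hX : 0 < X) (h : b < X ^ 2) : 1 ≤ X := by
  nlinarith

theorem choice2_neg {b T N n : ℝ} (hT : 4 ≤ T) (hbT : b ≤ T) (hN : 0 < N) (hn : 0 < n) :
    n ^ 2 + b * N ^ 2 - 3 * (11 * (n + N * T) + 7) ^ 2 ≤ 0 := by
  have h4 : b * N ^ 2 ≤ (N * T) ^ 2 := by
    have h1 : b ≤ T ^ 2 := by nlinarith
    have h2 : b * N ^ 2 ≤ T ^ 2 * N ^ 2 := mul_le_mul_of_nonneg_right h1 (by positivity)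
    have h3 : (N * T) ^ 2 = T ^ 2 * N ^ 2 := by ring
    linarith
  have h5 : 0 ≤ n * (N * T) := by positivity
  have h6 : 0 ≤ (N * T) ^ 2 := by positivity
  have h7 : 0 < N * T := by positivity
  nlinarith

theorem choice2_N {T N : ℤ} (hT : 4 ≤ T) (hN : N = 3300 * T) : N ≤ T ^ 7 := by
  have h1 : (4 : ℤ) ^ 6 ≤ T ^ 6 := pow_le_pow_left₀ (by norm_num) hT 6
  have h2 : T ^ 7 = T ^ 6 * T := by ring
  rw [hN, h2]
  exact mul_le_mul_of_nonneg_right (le_trans (by norm_num) h1) (by omega)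

theorem choice2_n {T N n : ℤ} (hT : 4 ≤ T) (hN : N = 3300 * T) (hn : n = 8000 * T ^ 3 * N + 1) :
    n ≤ T ^ 18 := by
  have h1 : (4 : ℤ) ^ 13 ≤ T ^ 13 := pow_le_pow_left₀ (by norm_num) hT 13
  have h2 : n = 26400000 * T ^ 4 + 1 := by rw [hn, hN]; ring
  have h3 : T ^ 18 = T ^ 13 * T ^ 5 := by ring
  have h4 : 1 ≤ T ^ 4 := one_le_pow₀ (by omega)
  have h5 : T ^ 4 ≤ T ^ 5 := pow_le_pow_right₀ (by omega) (by norm_num)
  have h6 : (26400001 : ℤ) * T ^ 5 ≤ T ^ 13 * T ^ 5 :=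
    mul_le_mul_of_nonneg_right (le_trans (by norm_num) h1) (by positivity)
  rw [h2, h3]
  linarith

theorem choice2_a {T N n a : ℤ} {j : ℕ} (hT : 4 ≤ T) (hNb : N ≤ T ^ 7) (hnb : n ≤ T ^ 18)
    (hj : (j : ℤ) ≤ n + N * T) (ha : a = 11 * (j : ℤ) + 7) : a ≤ T ^ 22 := by
  have h1 : (4 : ℤ) ^ 4 ≤ T ^ 4 := pow_le_pow_left₀ (by norm_num) hT 4
  have h3 : T ^ 22 = T ^ 4 * T ^ 18 := by ring
  have h4 : N * T ≤ T ^ 18 := by
    have h5 : N * T ≤ T ^ 7 * T := mul_le_mul_of_nonneg_right hNb (by omega)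
    have h6 : T ^ 7 * T = T ^ 8 := by ring
    have h7 : T ^ 8 ≤ T ^ 18 := pow_le_pow_right₀ (by omega) (by norm_num)
    linarith
  have h5 : 1 ≤ T ^ 18 := one_le_pow₀ (by omega)
  have h6 : (29 : ℤ) * T ^ 18 ≤ T ^ 4 * T ^ 18 :=
    mul_le_mul_of_nonneg_right (le_trans (by norm_num) h1) (by positivity)
  rw [ha, h3]
  linarith

theorem choice2_xb {T x : ℤ} {k : ℕ} (hT : 4 ≤ T) (hk : (k : ℤ) ≤ 1200 * T ^ 2)
    (hx : x = 11 * (k : ℤ) + 1) : x ≤ T ^ 10 := by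
  have h1 : (4 : ℤ) ^ 8 ≤ T ^ 8 := pow_le_pow_left₀ (by norm_num) hT 8
  have h3 : T ^ 10 = T ^ 8 * T ^ 2 := by ring
  have h6 : (13201 : ℤ) * T ^ 2 ≤ T ^ 8 * T ^ 2 :=
    mul_le_mul_of_nonneg_right (le_trans (by norm_num) h1) (by positivity)
  have h8 : 1 ≤ T ^ 2 := one_le_pow₀ (by omega)
  rw [hx, h3]
  linarith

theorem choice2 : ∃ K : ℕ, ∀ b c : ℤ, 0 < c → ∀ R : ℝ, 0 < R → R ^ 3 + b * R = c → 8 * R ^ 2 ≤ (b : ℝ) →
    ∃ N n a x : ℤ, (0 < N ∧ N ≤ (2 + |b| + |c|) ^ K) ∧ (0 < n ∧ n ≤ (2 + |b| + |c|) ^ K) ∧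
      (0 < a ∧ a ≤ (2 + |b| + |c|) ^ K) ∧ (0 < x ∧ x ≤ (2 + |b| + |c|) ^ K) ∧
      11 ∣ N ∧ n % 11 = 1 ∧ a % 11 = 7 ∧ x % 11 = 1 ∧
      ∃ X Y δ : ℝ, X = x / N ∧ Y = ((n : ℝ) ^ 2 + b * N ^ 2 - 3 * a ^ 2) / (3 * a * N) - X ∧
        δ = (X ^ 2 + X * Y + Y ^ 2 + b) / (n / N + (X - Y) / 2) ∧
        0 < (n : ℝ) / N + (X - Y) / 2 ∧
        ((b : ℝ) ≤ X ^ 2 ∧ 8 * c * X < (X ^ 2 - b) ^ 2 ∧ (X ^ 2 - b) ^ 2 < 22 * c * X ∧
          19 / 10 * R ≤ Y ∧ Y < 2 * R) ∧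
        (0 < X - δ ∧ (b : ℝ) ≤ (X - δ) ^ 2 ∧ 8 * c * (X - δ) < ((X - δ) ^ 2 - b) ^ 2 ∧
          ((X - δ) ^ 2 - b) ^ 2 < 22 * c * (X - δ) ∧ 19 / 10 * R ≤ Y + δ ∧ Y + δ < 2 * R) := by
  refine ⟨40, fun b c hc R hR hRc hb8 => ?_⟩
  have hb0 : 0 < b := by
    have : (0 : ℝ) < b := lt_of_lt_of_le (by positivity) hb8
    exact_mod_cast this
  rw [abs_of_pos hb0, abs_of_pos hc]
  set T : ℤ := 2 + b + c with hTd
  have hT4 : 4 ≤ T := by omega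
  have hTR : (4 : ℝ) ≤ (T : ℝ) := by exact_mod_cast hT4
  have hb1 : (1 : ℝ) ≤ (b : ℝ) := by exact_mod_cast hb0
  have hc1 : (1 : ℝ) ≤ (c : ℝ) := by exact_mod_cast hc
  have hbT : (b : ℝ) ≤ T := by
    have : b ≤ T := by omega
    exact_mod_cast this
  have hcT : (c : ℝ) ≤ T := by
    have : c ≤ T := by omega
    exact_mod_cast this
  have hRT : R ≤ T := by
    have h1 : R ≤ b * R := le_mul_of_one_le_left hR.le hb1
    have h2 : 0 < R ^ 3 := by positivity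
    linarith
  have hR8 : 8 ≤ 9 * (T : ℝ) * R := by
    have h1 : (c : ℝ) = R * (R ^ 2 + b) := by rw [← hRc]; ring
    have h2 : R * (R ^ 2 + b) ≤ R * (9 / 8 * b) := by
      apply mul_le_mul_of_nonneg_left _ hR.le
      linarith
    have h3 : (b : ℝ) * R ≤ T * R := mul_le_mul_of_nonneg_right hbT hR.le
    linarith
  -- the parameters
  obtain ⟨N, hN⟩ : ∃ N : ℤ, N = 3300 * T := ⟨_, rfl⟩
  obtain ⟨n, hn⟩ : ∃ n : ℤ, n = 8000 * T ^ 3 * N + 1 := ⟨_, rfl⟩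
  have hNR : (N : ℝ) = 3300 * T := by rw [hN]; push_cast; ring
  have hNp : (0 : ℝ) < N := by rw [hNR]; linarith
  have hnR : (n : ℝ) = 8000 * (T : ℝ) ^ 3 * N + 1 := by rw [hn]; push_cast; ring
  have hT3 : (64 : ℝ) ≤ (T : ℝ) ^ 3 := by
    have := pow_le_pow_left₀ (by norm_num : (0 : ℝ) ≤ 4) hTR 3
    norm_num at this ⊢
    linarith
  have hT3T : (T : ℝ) ≤ (T : ℝ) ^ 3 := le_self_pow₀ (by linarith) (by norm_num)
  have hn14 : 14 * (T : ℝ) * N ≤ n := by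
    rw [hnR]
    have : (T : ℝ) * N ≤ (T : ℝ) ^ 3 * N := mul_le_mul_of_nonneg_right hT3T hNp.le
    have h0 : 0 ≤ (T : ℝ) ^ 3 * N := by positivity
    linarith
  have hnp : (0 : ℝ) < n := lt_of_lt_of_le (by positivity) hn14
  have hnN : 8000 * (T : ℝ) ^ 3 ≤ (n : ℝ) / N := by
    rw [le_div_iff₀ hNp, hnR]
    linarith
  have hNZ : 0 < N := by exact_mod_cast hNp
  have hnZ : 0 < n := by exact_mod_cast hnp
  have hTZ : 0 < T := by omega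
  -- choice of `x`
  have hk0 : (b : ℝ) < (((11 * (((1200 * T ^ 2).toNat : ℕ) : ℤ) + 1 : ℤ) : ℝ) / N) ^ 2 ∧
      9 * c * (((11 * (((1200 * T ^ 2).toNat : ℕ) : ℤ) + 1 : ℤ) : ℝ) / N)
        ≤ ((((11 * (((1200 * T ^ 2).toNat : ℕ) : ℤ) + 1 : ℤ) : ℝ) / N) ^ 2 - b) ^ 2 ∧
      (((11 * (((1200 * T ^ 2).toNat : ℕ) : ℤ) + 1 : ℤ) : ℝ) / N) ≤ 5 * T := by
    rw [Int.toNat_of_nonneg (by positivity)]
    have e1 : ((11 * (1200 * T ^ 2) + 1 : ℤ) : ℝ) / N = 4 * T + 1 / (3300 * T) := by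
      rw [hNR]
      push_cast
      field_simp
      ring
    rw [e1]
    have e2 : (0 : ℝ) < 1 / (3300 * T) := by positivity
    have e3 : 1 / (3300 * (T : ℝ)) ≤ 1 := by
      rw [div_le_iff₀ (by positivity)]
      linarith
    set X1 : ℝ := 4 * T + 1 / (3300 * T) with hX1
    have e4 : 4 * (T : ℝ) ≤ X1 := by linarith
    have e5 : X1 ≤ 5 * T := by linarith
    have e6 := choice2_k0 hTR hbT hcT hc1 e4 e5
    exact ⟨e6.1, e6.2, e5⟩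
  have exP : ∃ k : ℕ, (b : ℝ) < (((11 * (k : ℤ) + 1 : ℤ) : ℝ) / N) ^ 2 ∧
      9 * c * (((11 * (k : ℤ) + 1 : ℤ) : ℝ) / N) ≤ ((((11 * (k : ℤ) + 1 : ℤ) : ℝ) / N) ^ 2 - b) ^ 2 :=
    ⟨_, hk0.1, hk0.2.1⟩
  classical
  obtain ⟨k, hk⟩ : ∃ k : ℕ, k = Nat.find exP := ⟨_, rfl⟩
  have hkP := Nat.find_spec exP
  have hkle : Nat.find exP ≤ (1200 * T ^ 2).toNat := Nat.find_min' exP ⟨hk0.1, hk0.2.1⟩
  rw [← hk] at hkP hkle
  have hkpos : k ≠ 0 := by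
    intro h0
    rw [h0] at hkP
    have h1 := hkP.1
    have h2 : ((11 * ((0 : ℕ) : ℤ) + 1 : ℤ) : ℝ) = 1 := by norm_num
    rw [h2] at h1
    have h3 : (1 : ℝ) / N ≤ 1 := by
      rw [div_le_one hNp, hNR]
      linarith
    have h4 : (0 : ℝ) ≤ 1 / N := by positivity
    have h5 : ((1 : ℝ) / N) ^ 2 ≤ 1 := pow_le_one₀ h4 h3
    linarith
  have hkm := Nat.find_min exP (m := k - 1) (by rw [← hk]; omega)
  have hkZ : (k : ℤ) ≤ 1200 * T ^ 2 := by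
    have h1 : (k : ℤ) ≤ (((1200 * T ^ 2).toNat : ℕ) : ℤ) := by exact_mod_cast hkle
    rwa [Int.toNat_of_nonneg (by positivity)] at h1
  obtain ⟨x, hx⟩ : ∃ x : ℤ, x = 11 * (k : ℤ) + 1 := ⟨_, rfl⟩
  rw [← hx] at hkP
  obtain ⟨X, hX⟩ : ∃ X : ℝ, X = (x : ℝ) / N := ⟨_, rfl⟩
  rw [← hX] at hkP
  have hxp : 0 < x := by omega
  have hXp : 0 < X := by
    rw [hX]
    have : (0 : ℝ) < x := by exact_mod_cast hxp
    positivity
  have hX1 : 1 ≤ X := choice2_one hb1 hXp hkP.1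
  have hX5 : X ≤ 5 * T := by
    refine le_trans ?_ hk0.2.2
    rw [hX, hx]
    apply div_le_div_of_nonneg_right _ hNp.le
    have h1 : (k : ℤ) ≤ (((1200 * T ^ 2).toNat : ℕ) : ℤ) := by exact_mod_cast hkle
    have h2 : 11 * (k : ℤ) + 1 ≤ 11 * (((1200 * T ^ 2).toNat : ℕ) : ℤ) + 1 := by omega
    exact_mod_cast h2
  have hX0 : ((11 * ((k - 1 : ℕ) : ℤ) + 1 : ℤ) : ℝ) / N = X - 11 / N := by
    rw [hX, hx, Nat.cast_sub (by omega), ← sub_div]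
    congr 1
    push_cast
    ring
  rw [hX0] at hkm
  have hX0p : 0 < X - 11 / N := by
    rw [← hX0]
    have : (0 : ℝ) < ((11 * ((k - 1 : ℕ) : ℤ) + 1 : ℤ) : ℝ) := by
      have : 0 < 11 * ((k - 1 : ℕ) : ℤ) + 1 := by omega
      exact_mod_cast this
    positivity
  have hη : 11 / (N : ℝ) * (300 * T) = 1 := by
    rw [hNR]
    field_simp
    norm_num
  have hD10 := choice2_X hTR hc1 hη rfl hX1 hX5 hX0p hkP.1 hkP.2 hkm
  -- choice of `a`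
  have hRp : 0 < X + 39 / 20 * R := by positivity
  have exQ : ∃ j : ℕ, ((n : ℝ) ^ 2 + b * N ^ 2 - 3 * ((11 * (j : ℤ) + 7 : ℤ) : ℝ) ^ 2)
      / (3 * ((11 * (j : ℤ) + 7 : ℤ) : ℝ) * N) ≤ X + 39 / 20 * R := by
    refine ⟨(n + N * T).toNat, ?_⟩
    rw [Int.toNat_of_nonneg (by positivity)]
    have h1 : ((11 * (n + N * T) + 7 : ℤ) : ℝ) = 11 * (n + N * T) + 7 := by push_cast; ring
    rw [h1]
    have h2 : (0 : ℝ) < n + N * T := by positivity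
    have h3 : (n : ℝ) ^ 2 + b * N ^ 2 - 3 * (11 * (n + N * T) + 7) ^ 2 ≤ 0 :=
      choice2_neg hTR hbT hNp hnp
    have h4 : ((n : ℝ) ^ 2 + b * N ^ 2 - 3 * (11 * (n + N * T) + 7) ^ 2)
        / (3 * (11 * (n + N * T) + 7) * N) ≤ 0 :=
      div_nonpos_of_nonpos_of_nonneg h3 (by positivity)
    linarith
  obtain ⟨j, hj⟩ : ∃ j : ℕ, j = Nat.find exQ := ⟨_, rfl⟩
  have hjQ := Nat.find_spec exQ
  have hjle : Nat.find exQ ≤ (n + N * T).toNat := by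
    refine Nat.find_min' exQ ?_
    rw [Int.toNat_of_nonneg (by positivity)]
    have h1 : ((11 * (n + N * T) + 7 : ℤ) : ℝ) = 11 * (n + N * T) + 7 := by push_cast; ring
    rw [h1]
    have h2 : (0 : ℝ) < n + N * T := by positivity
    have h3 : (n : ℝ) ^ 2 + b * N ^ 2 - 3 * (11 * (n + N * T) + 7) ^ 2 ≤ 0 :=
      choice2_neg hTR hbT hNp hnp
    have h4 : ((n : ℝ) ^ 2 + b * N ^ 2 - 3 * (11 * (n + N * T) + 7) ^ 2)
        / (3 * (11 * (n + N * T) + 7) * N) ≤ 0 :=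
      div_nonpos_of_nonpos_of_nonneg h3 (by positivity)
    linarith
  rw [← hj] at hjQ hjle
  have hn132 : (132 : ℝ) ≤ n := by
    have h1 : (132 : ℝ) ≤ N := by rw [hNR]; linarith
    have h2 : (N : ℝ) ≤ 14 * T * N := le_mul_of_one_le_left hNp.le (by linarith)
    linarith
  have hjpos : j ≠ 0 := by
    intro h0
    rw [h0] at hjQ
    have h2 : ((11 * ((0 : ℕ) : ℤ) + 7 : ℤ) : ℝ) = 7 := by norm_num
    rw [h2, div_le_iff₀ (by positivity)] at hjQ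
    have h3 : X + 39 / 20 * R ≤ 7 * T := by linarith
    have h4 : (X + 39 / 20 * R) * (3 * 7 * N) ≤ 7 * T * (3 * 7 * N) :=
      mul_le_mul_of_nonneg_right h3 (by positivity)
    have h5 : 0 ≤ (b : ℝ) * N ^ 2 := by positivity
    have h6 : 132 * (14 * (T : ℝ) * N) ≤ n * n := mul_le_mul hn132 hn14 (by positivity) hnp.le
    have h8 : (147 : ℝ) ≤ T * N := by
      have h9 : (147 : ℝ) ≤ N := by rw [hNR]; linarith
      have h10 : (N : ℝ) ≤ T * N := le_mul_of_one_le_left hNp.le (by linarith)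
      linarith
    have h11 : (n : ℝ) ^ 2 = n * n := sq _
    linarith
  have hjm := Nat.find_min exQ (m := j - 1) (by rw [← hj]; omega)
  have hjZ : (j : ℤ) ≤ n + N * T := by
    have h1 : (j : ℤ) ≤ (((n + N * T).toNat : ℕ) : ℤ) := by exact_mod_cast hjle
    rwa [Int.toNat_of_nonneg (by positivity)] at h1
  obtain ⟨a, ha⟩ : ∃ a : ℤ, a = 11 * (j : ℤ) + 7 := ⟨_, rfl⟩
  rw [← ha] at hjQ
  have hap : 11 < a := by omega
  have hapR : (11 : ℝ) < a := by exact_mod_cast hap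
  have ha11 : ((11 * ((j - 1 : ℕ) : ℤ) + 7 : ℤ) : ℝ) = (a : ℝ) - 11 := by
    rw [ha, Nat.cast_sub (by omega)]
    push_cast
    ring
  rw [ha11] at hjm
  push Not at hjm
  have hlow := choice2_step hTR (by linarith) hbT hR8 hX5 hRT hNR hn14 hapR hjQ hjm
  obtain ⟨Y, hY⟩ : ∃ Y : ℝ, Y = ((n : ℝ) ^ 2 + b * N ^ 2 - 3 * a ^ 2) / (3 * a * N) - X := ⟨_, rfl⟩
  rw [← hY] at hlow
  have hYup : Y ≤ 39 / 20 * R := by rw [hY]; linarith
  have hYp : 0 < Y := by linarith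
  -- the denominator of `δ`
  have hden : 4000 * (T : ℝ) ^ 3 ≤ (n : ℝ) / N + (X - Y) / 2 := by
    have h1 : Y ≤ 2 * T := by linarith
    linarith
  have hdenp : 0 < (n : ℝ) / N + (X - Y) / 2 := lt_of_lt_of_le (by positivity) hden
  obtain ⟨δ, hδ⟩ : ∃ δ : ℝ, δ = (X ^ 2 + X * Y + Y ^ 2 + b) / (n / N + (X - Y) / 2) := ⟨_, rfl⟩
  have hnum : X ^ 2 + X * Y + Y ^ 2 + b ≤ 40 * (T : ℝ) ^ 2 := by
    have h1 : Y ≤ 2 * T := by linarith
    have h2 : X ^ 2 ≤ (5 * (T : ℝ)) ^ 2 := pow_le_pow_left₀ hXp.le hX5 2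
    have h3 : Y ^ 2 ≤ (2 * (T : ℝ)) ^ 2 := pow_le_pow_left₀ hYp.le h1 2
    have h4 : X * Y ≤ 5 * T * (2 * T) := mul_le_mul hX5 h1 hYp.le (by positivity)
    have h5 : (T : ℝ) ≤ (T : ℝ) ^ 2 := le_self_pow₀ (by linarith) (by norm_num)
    linarith
  have hδp : 0 < δ := by rw [hδ]; positivity
  have hδ1 : δ * (100 * T) ≤ 1 := by
    rw [hδ, div_mul_eq_mul_div, div_le_one hdenp]
    have h1 : (X ^ 2 + X * Y + Y ^ 2 + b) * (100 * T) ≤ 40 * (T : ℝ) ^ 2 * (100 * T) :=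
      mul_le_mul_of_nonneg_right hnum (by positivity)
    have h2 : 40 * (T : ℝ) ^ 2 * (100 * T) = 4000 * (T : ℝ) ^ 3 := by ring
    linarith
  have hδR : δ ≤ R / 40 := by
    have h1 : δ * (100 * T) ≤ 1 := hδ1
    have h2 : 8 ≤ 9 * (T : ℝ) * R := hR8
    have h3 : (0 : ℝ) < T := by linarith
    have h4 : δ * (100 * T) ≤ R / 40 * (100 * T) := by linarith
    exact le_of_mul_le_mul_right h4 (by positivity)
  obtain ⟨p1, p2, p3, p4⟩ := choice2_pert hTR hc1 hX1 hX5 hkP.1 hkP.2 hD10 hδp hδ1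
  -- bounds
  have hmono : ∀ m : ℕ, m ≤ 40 → T ^ m ≤ T ^ 40 := fun m hm => pow_le_pow_right₀ (by omega) hm
  have hNb : N ≤ T ^ 7 := choice2_N hT4 hN
  have hnb : n ≤ T ^ 18 := choice2_n hT4 hN hn
  have hab : a ≤ T ^ 22 := choice2_a hT4 hNb hnb hjZ ha
  have hxb : x ≤ T ^ 10 := choice2_xb hT4 hkZ hx
  refine ⟨N, n, a, x, ⟨hNZ, hNb.trans (hmono 7 (by norm_num))⟩, ⟨hnZ, hnb.trans (hmono 18 (by norm_num))⟩,
    ⟨by omega, hab.trans (hmono 22 (by norm_num))⟩, ⟨hxp, hxb.trans (hmono 10 (by norm_num))⟩,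
    ⟨300 * T, by rw [hN]; ring⟩, ?_, by omega, by omega, X, Y, δ, hX, hY, hδ, hdenp,
    ⟨hkP.1.le, ?_, ?_, hlow, by linarith⟩, p1, p2, p3, p4, by linarith, by linarith⟩
  · have h1 : n = 11 * (8000 * T ^ 3 * (300 * T)) + 1 := by rw [hn, hN]; ring
    omega
  · have : 0 < (c : ℝ) * X := by positivity
    linarith [hkP.2]
  · have : 0 < (c : ℝ) * X := by positivity
    linarith

end Pool.Agent.Lib.MP_648c71_nt.AllCub
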