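import Pool.Agent.Lib.MP_648c71_nt.EX.Key

/-!
# The configuration of good arguments, from the choice of the parameters
-/

set_option autoImplicit false

namespace Pool.Agent.Lib.MP_648c71_nt.AllCub

/-- The fourth point of the four-term identity. -/
def wf (b c x y : ℚ) : ℚ := ((x + y) * (x * y) - c) / ((x + y) ^ 2 + b - x * y)

/-- The double. -/
def df (b c x : ℚ) : ℚ := (x ^ 4 - 2 * b * x ^ 2 - 8 * c * x + b ^ 2) / (4 * fc b c x)

/-- The shift. -/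
def sf (b x y ν : ℚ) : ℚ := (x ^ 2 + x * y + y ^ 2 + b) / (ν + (x - y) / 2)

/-- The product of the six values. -/
theorem six_g {g : ℚ → ℤ} (hg : GMul g) {b c x y ν τ δ : ℚ} (hδ : δ = sf b x y ν)
    (hq : (x + y) ^ 2 + b - x * y ≠ 0) (hq' : (x + y) ^ 2 + b - (x - δ) * (y + δ) ≠ 0)
    (hτ : ν ^ 2 + (3 * (x + y) ^ 2 / 4 + b) = 3 * τ ^ 2) (hτ0 : τ ≠ 0) (hn : ν + (x - y) / 2 ≠ 0)
    (h3 : fc b c (wf b c x y) ≠ 0) (h6 : fc b c (wf b c (x - δ) (y + δ)) ≠ 0) :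
    g (fc b c x) * g (fc b c y) * g (fc b c (wf b c x y)) *
      (g (fc b c (x - δ)) * g (fc b c (y + δ)) * g (fc b c (wf b c (x - δ) (y + δ)))) = g 3 := by
  have e1 : x + y - x = y := by ring
  have e2 : x + y - (x - δ) = y + δ := by ring
  have e3 : x - δ + (y + δ) = x + y := by ring
  have e4 : x - (x + y) / 2 = (x - y) / 2 := by ring
  have k := key_g hg (b := b) (c := c) (h := x + y) (x := x) (x' := x - δ) (n := ν) (τ := τ)
    (w := wf b c x y) (w' := wf b c (x - δ) (y + δ)) (by rw [e1]; exact hq) (by rw [e2]; exact hq')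
    (by rw [e1]; rfl) (by rw [e2]; unfold wf; rw [e3]) hτ hτ0 (by rw [e4]; exact hn)
    (by
      have hd : δ * (ν + (x - y) / 2) = x ^ 2 + x * y + y ^ 2 + b := by
        rw [hδ]
        unfold sf
        rw [div_mul_cancel₀ _ hn]
      rw [e4, eq_div_iff hn]
      linear_combination -hd) h3 h6
  rw [e1, e2] at k
  exact k

theorem ndvd {n : ℤ} (h : (n : ZMod 11) ≠ 0) : ¬ (11 : ℤ) ∣ n := fun h1 =>
  h ((ZMod.intCast_zmod_eq_zero_iff_dvd n 11).2 h1)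

/-- The shifted points, over the denominator `L U`. -/
theorem shift_form {b X Y L E : ℤ} (hL : L ≠ 0) (hU : 2 * E + X - Y ≠ 0) {x y ν δ : ℚ} (hx : x = X / L)
    (hy : y = Y / L) (hν : ν = E / L) (hδ : δ = sf b x y ν) :
    x - δ = ((X * (2 * E + X - Y) - 2 * (X ^ 2 + X * Y + Y ^ 2 + b * L ^ 2) : ℤ) : ℚ) /
        ((L * (2 * E + X - Y) : ℤ) : ℚ) ∧
      y + δ = ((Y * (2 * E + X - Y) + 2 * (X ^ 2 + X * Y + Y ^ 2 + b * L ^ 2) : ℤ) : ℚ) /
        ((L * (2 * E + X - Y) : ℤ) : ℚ) := by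
  have hLq : (L : ℚ) ≠ 0 := by exact_mod_cast hL
  have hUq : (2 : ℚ) * E + X - Y ≠ 0 := by exact_mod_cast hU
  have hd : δ = 2 * (X ^ 2 + X * Y + Y ^ 2 + b * L ^ 2) / (L * (2 * E + X - Y)) := by
    have e : ν + (x - y) / 2 = (2 * E + X - Y) / (2 * L) := by
      rw [hx, hy, hν]
      field_simp
      ring
    rw [hδ]
    unfold sf
    rw [e, hx, hy]
    field_simp
  constructor
  · rw [hd, hx]
    push_cast
    field_simp
  · rw [hd, hy]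
    push_cast
    field_simp

/-- Data in integers, with the residues modulo `11`. -/
structure Dat (b : ℤ) (x y ν τ : ℚ) (X Y L E : ℤ) : Prop where
  hL : (11 : ℤ) ∣ L
  hL0 : L ≠ 0
  hx : x = X / L
  hy : y = Y / L
  hν : ν = E / L
  hX : ((X : ℤ) : ZMod 11) ≠ 0
  hY : ((Y : ℤ) : ZMod 11) ≠ 0
  hXY : ((X + Y : ℤ) : ZMod 11) ≠ 0
  hU : ((2 * E + X - Y : ℤ) : ZMod 11) ≠ 0
  hX' : ((X * (2 * E + X - Y) - 2 * (X ^ 2 + X * Y + Y ^ 2 + b * L ^ 2) : ℤ) : ZMod 11) ≠ 0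
  hY' : ((Y * (2 * E + X - Y) + 2 * (X ^ 2 + X * Y + Y ^ 2 + b * L ^ 2) : ℤ) : ZMod 11) ≠ 0
  hτ : ν ^ 2 + (3 * (x + y) ^ 2 / 4 + b) = 3 * τ ^ 2
  hτ0 : τ ≠ 0

/-- All conclusions of the 11-adic computation. -/
theorem Dat.all {b c : ℤ} {x y ν τ : ℚ} {X Y L E : ℤ} (h : Dat b x y ν τ X Y L E) {δ : ℚ}
    (hδ : δ = sf b x y ν) (hq : 0 < (x + y) ^ 2 + b - x * y) (hq' : 0 < (x + y) ^ 2 + b - (x - δ) * (y + δ))
    {g : ℚ → ℤ} (hg : GMul g) :
    E11 x ∧ E11 y ∧ E11 (wf b c x y) ∧ E11 (x - δ) ∧ E11 (y + δ) ∧ E11 (wf b c (x - δ) (y + δ)) ∧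
      E11 (df b c x) ∧ E11 (df b c (x - δ)) ∧
      g (fc b c x) * g (fc b c y) * g (fc b c (wf b c x y)) *
      (g (fc b c (x - δ)) * g (fc b c (y + δ)) * g (fc b c (wf b c (x - δ) (y + δ)))) = g 3 := by
  obtain ⟨hL, hL0, hx, hy, hν, hX, hY, hXY, hU, hX', hY', hτ, hτ0⟩ := h
  have hU0 : 2 * E + X - Y ≠ 0 := by
    intro h0
    apply hU
    rw [h0]
    simp
  have hLU : (11 : ℤ) ∣ L * (2 * E + X - Y) := hL.mul_right _
  have hLU0 : L * (2 * E + X - Y) ≠ 0 := mul_ne_zero hL0 hU0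
  obtain ⟨s1, s2⟩ := shift_form (b := b) hL0 hU0 hx hy hν hδ
  have hLq : (L : ℚ) ≠ 0 := by exact_mod_cast hL0
  have hLUq : ((L * (2 * E + X - Y) : ℤ) : ℚ) ≠ 0 := by exact_mod_cast hLU0
  have q1 : (X + Y) ^ 2 + b * L ^ 2 - X * Y ≠ 0 := by
    intro h0
    have h1 : ((X : ℚ) + Y) ^ 2 + b * L ^ 2 - X * Y = 0 := by exact_mod_cast h0
    have e : (x + y) ^ 2 + b - x * y = (((X : ℚ) + Y) ^ 2 + b * L ^ 2 - X * Y) / L ^ 2 := by
      rw [hx, hy]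
      field_simp
    rw [e, h1, zero_div] at hq
    exact lt_irrefl _ hq
  obtain ⟨X', hX'd⟩ : ∃ X' : ℤ, X' = X * (2 * E + X - Y) - 2 * (X ^ 2 + X * Y + Y ^ 2 + b * L ^ 2) := ⟨_, rfl⟩
  obtain ⟨Y', hY'd⟩ : ∃ Y' : ℤ, Y' = Y * (2 * E + X - Y) + 2 * (X ^ 2 + X * Y + Y ^ 2 + b * L ^ 2) := ⟨_, rfl⟩
  obtain ⟨L', hL'd⟩ : ∃ L' : ℤ, L' = L * (2 * E + X - Y) := ⟨_, rfl⟩
  rw [← hX'd] at s1 hX'
  rw [← hY'd] at s2 hY'
  rw [← hL'd] at s1 s2 hLU hLU0 hLUq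
  have hXY' : ((X' + Y' : ℤ) : ZMod 11) ≠ 0 := by
    have e : X' + Y' = (X + Y) * (2 * E + X - Y) := by
      rw [hX'd, hY'd]
      ring
    rw [e, Int.cast_mul]
    have : Fact (Nat.Prime 11) := ⟨by norm_num⟩
    exact mul_ne_zero hXY hU
  have q2 : (X' + Y') ^ 2 + b * L' ^ 2 - X' * Y' ≠ 0 := by
    intro h0
    have h1 : ((X' : ℚ) + Y') ^ 2 + b * L' ^ 2 - X' * Y' = 0 := by exact_mod_cast h0
    have e : (x + y) ^ 2 + b - (x - δ) * (y + δ) = (((X' : ℚ) + Y') ^ 2 + b * L' ^ 2 - X' * Y') / L' ^ 2 := by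
      have : x + y = (x - δ) + (y + δ) := by ring
      rw [this, s1, s2]
      field_simp
    rw [e, h1, zero_div] at hq'
    exact lt_irrefl _ hq'
  have w1 : E11 (wf b c x y) := e11_w (ndvd hX) (ndvd hY) (ndvd hXY) hL hL0 q1 hx hy
  have w2 : E11 (wf b c (x - δ) (y + δ)) := e11_w (ndvd hX') (ndvd hY') (ndvd hXY') hLU hLU0 q2 s1 s2
  refine ⟨?_, ?_, w1, ?_, ?_, w2, e11_dup (ndvd hX) hL hL0 hx, e11_dup (ndvd hX') hLU hLU0 s1, ?_⟩
  · rw [hx]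
    exact e11_x (ndvd hX) hL hL0
  · rw [hy]
    exact e11_x (ndvd hY) hL hL0
  · rw [s1]
    exact e11_x (ndvd hX') hLU hLU0
  · rw [s2]
    exact e11_x (ndvd hY') hLU hLU0
  · refine six_g hg hδ hq.ne' hq'.ne' hτ hτ0 ?_ w1.val w2.val
    have e : ν + (x - y) / 2 = (2 * E + X - Y) / (2 * L) := by
      rw [hx, hy, hν]
      field_simp
      ring
    rw [e]
    have hUq : (2 : ℚ) * E + X - Y ≠ 0 := by exact_mod_cast hU0
    exact div_ne_zero hUq (mul_ne_zero two_ne_zero hLq)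

/-- The data of case 1. -/
theorem dat1 {b N n a : ℤ} (hN : 0 < N) (ha : 0 < a) (h11 : (11 : ℤ) ∣ N) (hn1 : n % 11 = 1)
    (ha1 : a % 11 = 3) {m : ℚ} (hm : m = ((n : ℚ) ^ 2 + b * N ^ 2 - 3 * a ^ 2) / (6 * a * N)) (hm0 : 0 < m) :
    Dat b m m ((n : ℚ) / N) ((a : ℚ) / N + m) (n ^ 2 + b * N ^ 2 - 3 * a ^ 2) (n ^ 2 + b * N ^ 2 - 3 * a ^ 2)
      (6 * a * N) (6 * a * n) := by
  have hNq : (N : ℚ) ≠ 0 := by exact_mod_cast hN.ne'
  have haq : (a : ℚ) ≠ 0 := by exact_mod_cast ha.ne'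
  have cN : ((N : ℤ) : ZMod 11) = 0 := (ZMod.intCast_zmod_eq_zero_iff_dvd N 11).2 h11
  have cn : ((n : ℤ) : ZMod 11) = 1 := by
    have h := (ZMod.intCast_eq_intCast_iff n 1 11).2 (by simpa [Int.ModEq] using hn1)
    rw [h]; rfl
  have ca : ((a : ℤ) : ZMod 11) = 3 := by
    have h := (ZMod.intCast_eq_intCast_iff a 3 11).2 (by simpa [Int.ModEq] using ha1)
    rw [h]; rfl
  refine ⟨h11.mul_left _, by positivity, ?_, ?_, ?_, ?_, ?_, ?_, ?_, ?_, ?_, ?_, ?_⟩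
  · rw [hm]; push_cast; rfl
  · rw [hm]; push_cast; rfl
  · push_cast; field_simp
  · push_cast
    rw [cN, cn, ca]
    generalize ((b : ℤ) : ZMod 11) = β
    revert β
    decide
  · push_cast
    rw [cN, cn, ca]
    generalize ((b : ℤ) : ZMod 11) = β
    revert β
    decide
  · push_cast
    rw [cN, cn, ca]
    generalize ((b : ℤ) : ZMod 11) = β
    revert β
    decide
  · push_cast
    rw [cN, cn, ca]
    generalize ((b : ℤ) : ZMod 11) = β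
    revert β
    decide
  · push_cast
    rw [cN, cn, ca]
    generalize ((b : ℤ) : ZMod 11) = β
    revert β
    decide
  · push_cast
    rw [cN, cn, ca]
    generalize ((b : ℤ) : ZMod 11) = β
    revert β
    decide
  · rw [hm]
    field_simp
    ring
  · have h1 : (0 : ℚ) < (a : ℚ) / N := div_pos (by exact_mod_cast ha) (by exact_mod_cast hN)
    linarith

/-- The data of case 2. -/
theorem dat2 {b N n a x0 : ℤ} (hN : 0 < N) (ha : 0 < a) (h11 : (11 : ℤ) ∣ N) (hn1 : n % 11 = 1)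
    (ha1 : a % 11 = 7) (hx1 : x0 % 11 = 1) {x y : ℚ} (hx : x = (x0 : ℚ) / N)
    (hy : y = ((n : ℚ) ^ 2 + b * N ^ 2 - 3 * a ^ 2) / (3 * a * N) - x) (h0 : 0 < x + y) :
    Dat b x y ((n : ℚ) / N) ((a : ℚ) / N + (x + y) / 2) (3 * a * x0)
      (n ^ 2 + b * N ^ 2 - 3 * a ^ 2 - 3 * a * x0) (3 * a * N) (3 * a * n) := by
  have hNq : (N : ℚ) ≠ 0 := by exact_mod_cast hN.ne'
  have haq : (a : ℚ) ≠ 0 := by exact_mod_cast ha.ne'
  have cN : ((N : ℤ) : ZMod 11) = 0 := (ZMod.intCast_zmod_eq_zero_iff_dvd N 11).2 h11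
  have cn : ((n : ℤ) : ZMod 11) = 1 := by
    have h := (ZMod.intCast_eq_intCast_iff n 1 11).2 (by simpa [Int.ModEq] using hn1)
    rw [h]; rfl
  have ca : ((a : ℤ) : ZMod 11) = 7 := by
    have h := (ZMod.intCast_eq_intCast_iff a 7 11).2 (by simpa [Int.ModEq] using ha1)
    rw [h]; rfl
  have cx : ((x0 : ℤ) : ZMod 11) = 1 := by
    have h := (ZMod.intCast_eq_intCast_iff x0 1 11).2 (by simpa [Int.ModEq] using hx1)
    rw [h]; rfl
  refine ⟨h11.mul_left _, by positivity, ?_, ?_, ?_, ?_, ?_, ?_, ?_, ?_, ?_, ?_, ?_⟩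
  · rw [hx]; push_cast; field_simp
  · rw [hy, hx]; push_cast; field_simp
  · push_cast; field_simp
  · push_cast; rw [ca, cx]; decide
  · push_cast
    rw [cN, cn, ca, cx]
    generalize ((b : ℤ) : ZMod 11) = β
    revert β
    decide
  · push_cast
    rw [cN, cn, ca, cx]
    generalize ((b : ℤ) : ZMod 11) = β
    revert β
    decide
  · push_cast
    rw [cN, cn, ca, cx]
    generalize ((b : ℤ) : ZMod 11) = β
    revert β
    decide
  · push_cast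
    rw [cN, cn, ca, cx]
    generalize ((b : ℤ) : ZMod 11) = β
    revert β
    decide
  · push_cast
    rw [cN, cn, ca, cx]
    generalize ((b : ℤ) : ZMod 11) = β
    revert β
    decide
  · have e : x + y = ((n : ℚ) ^ 2 + b * N ^ 2 - 3 * a ^ 2) / (3 * a * N) := by
      rw [hy]; ring
    rw [e]
    field_simp
    ring
  · have h1 : (0 : ℚ) < (a : ℚ) / N := div_pos (by exact_mod_cast ha) (by exact_mod_cast hN)
    linarith

end Pool.Agent.Lib.MP_648c71_nt.AllCub
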