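import Pool.Agent.Lib.MP_648c71_nt.EX.Config
import Pool.Agent.Lib.MP_648c71_nt.EX.Choice1
import Pool.Agent.Lib.MP_648c71_nt.EX.Choice2

/-!
# Both signs at admissible arguments of polynomial height
-/

set_option autoImplicit false

namespace Pool.Agent.Lib.MP_648c71_nt.AllCub

theorem real1 {b c R m δ ν : ℝ} (hR : 0 < R) (hc : R ^ 3 + b * R = c) (hc0 : 0 < c) (hb : b ≤ 8 * R ^ 2)
    (h1 : 19 / 10 * R ≤ m) (h2 : m ≤ 39 / 20 * R) (hν : 400 * R ≤ ν) (hδ : δ * ν = 3 * m ^ 2 + b) :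
    0 < δ ∧ 0 < (m + m) ^ 2 + b - m * m ∧ 0 < (m - δ + (m + δ)) ^ 2 + b - (m - δ) * (m + δ) ∧ 0 < m - δ ∧
      m + δ < 2 * R ∧ 0 < (m + m) * (m * m) - c ∧
      (m + m) * (m * m) - c < 2 * R * ((m + m) ^ 2 + b - m * m) ∧
      0 < (m - δ + (m + δ)) * ((m - δ) * (m + δ)) - c ∧
      (m - δ + (m + δ)) * ((m - δ) * (m + δ)) - c <
        2 * R * ((m - δ + (m + δ)) ^ 2 + b - (m - δ) * (m + δ)) := by
  have hb2 : 0 < R ^ 2 + b := by
    by_contra hcon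
    push Not at hcon
    have : R * (R ^ 2 + b) ≤ 0 := mul_nonpos_of_nonneg_of_nonpos hR.le hcon
    nlinarith
  have hm0 : 0 < m := by linarith
  have hR2 : 0 < R ^ 2 := by positivity
  have hR3 : 0 < R ^ 3 := by positivity
  have m2l : (19 / 10 * R) ^ 2 ≤ m ^ 2 := pow_le_pow_left₀ (by positivity) h1 2
  have m2u : m ^ 2 ≤ (39 / 20 * R) ^ 2 := pow_le_pow_left₀ hm0.le h2 2
  have m3l : (19 / 10 * R) ^ 3 ≤ m ^ 3 := pow_le_pow_left₀ (by positivity) h1 3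
  have hD : 0 < 3 * m ^ 2 + b := by nlinarith
  have hDu : 3 * m ^ 2 + b ≤ 39 / 2 * R ^ 2 := by nlinarith
  have hν0 : 0 < ν := by linarith
  have hδ0 : 0 < δ := by
    by_contra hcon
    push Not at hcon
    have : δ * ν ≤ 0 := mul_nonpos_of_nonpos_of_nonneg hcon hν0.le
    linarith
  have hδu : δ ≤ 39 / 800 * R := by
    by_contra hcon
    push Not at hcon
    have h3 : 39 / 800 * R * (400 * R) < δ * ν :=
      mul_lt_mul hcon hν (by positivity) hδ0.le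
    nlinarith
  have hδ2 : δ ^ 2 ≤ (39 / 800 * R) ^ 2 := pow_le_pow_left₀ hδ0.le hδu 2
  have hbR : -R ^ 3 < b * R := by nlinarith
  have hbR2 : b * R ≤ 8 * R ^ 3 := by nlinarith
  have n1 : 0 < (m + m) * (m * m) - c := by nlinarith
  have n2 : (m + m) * (m * m) - c < 2 * R * ((m + m) ^ 2 + b - m * m) := by
    have e : 2 * R * ((m + m) ^ 2 + b - m * m) - ((m + m) * (m * m) - c) =
        2 * m ^ 2 * (3 * R - m) + 3 * (b * R) + R ^ 3 := by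
      rw [← hc]; ring
    have h3 : 0 < 2 * m ^ 2 * (3 * R - m) + 3 * (b * R) + R ^ 3 := by
      have h4 : (19 / 10 * R) ^ 2 * (21 / 20 * R) ≤ m ^ 2 * (3 * R - m) :=
        mul_le_mul m2l (by linarith) (by positivity) (by positivity)
      nlinarith
    linarith
  have e5 : (m - δ + (m + δ)) * ((m - δ) * (m + δ)) - c = (m + m) * (m * m) - c - 2 * m * δ ^ 2 := by ring
  have e6 : (m - δ + (m + δ)) ^ 2 + b - (m - δ) * (m + δ) = (m + m) ^ 2 + b - m * m + δ ^ 2 := by ring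
  have hmδ : 2 * m * δ ^ 2 ≤ 2 * (39 / 20 * R) * (39 / 800 * R) ^ 2 :=
    mul_le_mul (by linarith) hδ2 (by positivity) (by positivity)
  have hmδ0 : 0 ≤ 2 * m * δ ^ 2 := by positivity
  refine ⟨hδ0, by nlinarith, ?_, by linarith, by linarith, n1, n2, ?_, ?_⟩
  · rw [e6]; nlinarith
  · rw [e5]; nlinarith
  · rw [e5, e6]
    nlinarith

theorem real2 {b c R X Y : ℝ} (hR : 0 < R) (hc : R ^ 3 + b * R = c) (hc0 : 0 < c) (hb : 8 * R ^ 2 ≤ b)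
    (hX : 0 < X) (hX2 : b ≤ X ^ 2) (h3 : 8 * c * X < (X ^ 2 - b) ^ 2) (h4 : (X ^ 2 - b) ^ 2 < 22 * c * X)
    (h1 : 19 / 10 * R ≤ Y) (h2 : Y < 2 * R) :
    0 < (X + Y) ^ 2 + b - X * Y ∧ 0 < (X + Y) * (X * Y) - c ∧
      (X + Y) * (X * Y) - c < 2 * R * ((X + Y) ^ 2 + b - X * Y) ∧
      0 < X ^ 4 - 2 * b * X ^ 2 - 8 * c * X + b ^ 2 ∧
      X ^ 4 - 2 * b * X ^ 2 - 8 * c * X + b ^ 2 < 2 * R * (4 * (X ^ 3 + b * X + c)) ∧
      0 < 4 * (X ^ 3 + b * X + c) := by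
  have hb0 : 0 < b := lt_of_lt_of_le (by positivity) hb
  have hY0 : 0 < Y := by linarith
  have hbR : 0 < b * R := by positivity
  have hR3 : 8 * R ^ 3 ≤ b * R := by nlinarith
  have hXY : 0 < X * Y := by positivity
  refine ⟨by nlinarith, ?_, ?_, by nlinarith, ?_, by positivity⟩
  · have h5 : b * (19 / 10 * R) ≤ X ^ 2 * Y := mul_le_mul hX2 h1 (by positivity) (by positivity)
    have h6 : 0 < X * Y ^ 2 := by positivity
    nlinarith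
  · have e : 2 * R * ((X + Y) ^ 2 + b - X * Y) - ((X + Y) * (X * Y) - c) =
        X ^ 2 * (2 * R - Y) + X * Y * (2 * R - Y) + 2 * R * Y ^ 2 + 2 * R * b + c := by ring
    have h5 : 0 < X ^ 2 * (2 * R - Y) := mul_pos (by positivity) (by linarith)
    have h6 : 0 < X * Y * (2 * R - Y) := mul_pos hXY (by linarith)
    have h7 : 0 < 2 * R * Y ^ 2 := by positivity
    nlinarith
  · have h5 : c * X ≤ 9 / 8 * (b * R) * X := mul_le_mul_of_nonneg_right (by linarith) hX.le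
    have h6 : b * X * R ≤ X ^ 3 * R := by
      have : b * (X * R) ≤ X ^ 2 * (X * R) := mul_le_mul_of_nonneg_right hX2 (by positivity)
      linarith [this, show b * (X * R) = b * X * R by ring, show X ^ 2 * (X * R) = X ^ 3 * R by ring]
    have h7 : 0 < c * R := by positivity
    have h8 : 0 < b * R * X := by positivity
    nlinarith

section
variable {ι : Type*} {H : ι → ℕ}

theorem PB.fcf (hH : ∀ i, 2 ≤ H i) {b c v : ι → ℚ} (hb : PB H b) (hc : PB H c) (hv : PB H v) :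
    PB H (fun i => fc (b i) (c i) (v i)) :=
  ((hv.pow hH 3).add hH (hb.mul hH hv)).add hH hc

theorem PB.wff (hH : ∀ i, 2 ≤ H i) {b c x y : ι → ℚ} (hb : PB H b) (hc : PB H c) (hx : PB H x)
    (hy : PB H y) : PB H (fun i => wf (b i) (c i) (x i) (y i)) :=
  ((((hx.add hH hy).mul hH (hx.mul hH hy)).sub hH hc)).div hH
    ((((hx.add hH hy).pow hH 2).add hH hb).sub hH (hx.mul hH hy))

theorem PB.dff (hH : ∀ i, 2 ≤ H i) {b c x : ι → ℚ} (hb : PB H b) (hc : PB H c) (hx : PB H x) :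
    PB H (fun i => df (b i) (c i) (x i)) :=
  ((((hx.pow hH 4).sub hH (((PB.const hH 2).mul hH hb).mul hH (hx.pow hH 2))).sub hH
    (((PB.const hH 8).mul hH hc).mul hH hx)).add hH (hb.pow hH 2)).div hH
    ((PB.const hH 4).mul hH (PB.fcf hH hb hc hx))

theorem PB.sff (hH : ∀ i, 2 ≤ H i) {b x y ν : ι → ℚ} (hb : PB H b) (hx : PB H x) (hy : PB H y)
    (hν : PB H ν) : PB H (fun i => sf (b i) (x i) (y i) (ν i)) :=
  ((((hx.pow hH 2).add hH (hx.mul hH hy)).add hH (hy.pow hH 2)).add hH hb).div hH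
    (hν.add hH ((hx.sub hH hy).div hH (PB.const hH 2)))

end

/-- The size. -/
def Sz (b c : ℤ) : ℕ := 2 + b.natAbs + c.natAbs

theorem Sz_two (b c : ℤ) : 2 ≤ Sz b c := by unfold Sz; omega

/-- The index set: `(b, c, N, n, a, x)`. -/
def I6 (K0 : ℕ) : Type := {v : ℤ × ℤ × ℤ × ℤ × ℤ × ℤ // v.2.2.1.natAbs ≤ Sz v.1 v.2.1 ^ K0 ∧
  v.2.2.2.1.natAbs ≤ Sz v.1 v.2.1 ^ K0 ∧ v.2.2.2.2.1.natAbs ≤ Sz v.1 v.2.1 ^ K0 ∧
  v.2.2.2.2.2.natAbs ≤ Sz v.1 v.2.1 ^ K0}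

section
variable {K0 : ℕ}

def I6.b (v : I6 K0) : ℤ := v.1.1
def I6.c (v : I6 K0) : ℤ := v.1.2.1
def I6.N (v : I6 K0) : ℤ := v.1.2.2.1
def I6.n (v : I6 K0) : ℤ := v.1.2.2.2.1
def I6.a (v : I6 K0) : ℤ := v.1.2.2.2.2.1
def I6.x (v : I6 K0) : ℤ := v.1.2.2.2.2.2
def I6.H (v : I6 K0) : ℕ := Sz v.b v.c

theorem I6.H2 (v : I6 K0) : 2 ≤ v.H := Sz_two _ _

theorem I6.pb : PB (I6.H (K0 := K0)) (fun v => (v.b : ℚ)) :=
  PB.int I6.H2 ⟨1, fun v => by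
    rw [pow_one]
    change v.b.natAbs ≤ 2 + v.b.natAbs + v.c.natAbs
    omega⟩
theorem I6.pc : PB (I6.H (K0 := K0)) (fun v => (v.c : ℚ)) :=
  PB.int I6.H2 ⟨1, fun v => by
    rw [pow_one]
    change v.c.natAbs ≤ 2 + v.b.natAbs + v.c.natAbs
    omega⟩
theorem I6.pN : PB (I6.H (K0 := K0)) (fun v => (v.N : ℚ)) := PB.int I6.H2 ⟨K0, fun v => v.2.1⟩
theorem I6.pn : PB (I6.H (K0 := K0)) (fun v => (v.n : ℚ)) := PB.int I6.H2 ⟨K0, fun v => v.2.2.1⟩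
theorem I6.pa : PB (I6.H (K0 := K0)) (fun v => (v.a : ℚ)) := PB.int I6.H2 ⟨K0, fun v => v.2.2.2.1⟩
theorem I6.px : PB (I6.H (K0 := K0)) (fun v => (v.x : ℚ)) := PB.int I6.H2 ⟨K0, fun v => v.2.2.2.2⟩

end

theorem conv_bd {b c N : ℤ} {K : ℕ} (h0 : 0 < N) (h : N ≤ (2 + |b| + |c|) ^ K) : N.natAbs ≤ Sz b c ^ K := by
  unfold Sz
  zify
  rw [abs_of_pos h0]
  exact h

theorem HB.mono {B C : ℕ} {x : ℚ} (h : HB B x) (hBC : B ≤ C) : HB C x := ⟨h.1.trans hBC, h.2.trans hBC⟩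

/-- The hyperbolic pair `h = (n^2 + b N^2 - 3 a^2)/(k a N)`. -/
def hf (b N n a k : ℚ) : ℚ := (n ^ 2 + b * N ^ 2 - 3 * a ^ 2) / (k * a * N)

theorem PB.hff {K0 : ℕ} (k : ℚ) : PB (I6.H (K0 := K0)) (fun v => hf v.b v.N v.n v.a k) :=
  (((I6.pn.pow I6.H2 2).add I6.H2 (I6.pb.mul I6.H2 (I6.pN.pow I6.H2 2))).sub I6.H2
    ((PB.const I6.H2 3).mul I6.H2 (I6.pa.pow I6.H2 2))).div I6.H2
    (((PB.const I6.H2 k).mul I6.H2 I6.pa).mul I6.H2 I6.pN)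

theorem config1 : ∃ K : ℕ, ∀ b c : ℤ, 0 < c → ∀ R : ℝ, 0 < R → R ^ 3 + b * R = c → (b : ℝ) ≤ 8 * R ^ 2 →
    ∀ g : ℚ → ℤ, GMul g → g 3 = -1 → ∀ s : ℤ, s = 1 ∨ s = -1 →
    ∃ r : ℚ, Adm b c r ∧ HB (Sz b c ^ K) r ∧ g (fc b c r) = s := by
  obtain ⟨K0, hK0⟩ := choice1
  have pm : PB (I6.H (K0 := K0)) (fun v => hf v.b v.N v.n v.a 6) := PB.hff 6
  have pν : PB (I6.H (K0 := K0)) (fun v => (v.n : ℚ) / v.N) := I6.pn.div I6.H2 I6.pN
  have pδ := PB.sff I6.H2 I6.pb pm pm pν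
  have px' := pm.sub I6.H2 pδ
  have py' := pm.add I6.H2 pδ
  obtain ⟨k1, h1⟩ := PB.wff I6.H2 I6.pb I6.pc pm pm
  obtain ⟨k2, h2⟩ := px'
  obtain ⟨k3, h3⟩ := py'
  obtain ⟨k4, h4⟩ := PB.wff I6.H2 I6.pb I6.pc (pm.sub I6.H2 pδ) (pm.add I6.H2 pδ)
  refine ⟨k1 + k2 + k3 + k4, fun b c hc R hR hRc hb g hg hg3 s hs => ?_⟩
  obtain ⟨N, n, a, ⟨hN, hN'⟩, ⟨hn, hn'⟩, ⟨ha, ha'⟩, h11, hn1, ha1, hnR, hm1, hm2⟩ := hK0 b c hc R hR hRc hb
  obtain ⟨v, hv⟩ : ∃ v : I6 K0, v = ⟨(b, c, N, n, a, N), conv_bd hN hN', conv_bd hn hn', conv_bd ha ha',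
    conv_bd hN hN'⟩ := ⟨_, rfl⟩
  have vb : v.b = b := by rw [hv]; rfl
  have vc : v.c = c := by rw [hv]; rfl
  have vN : v.N = N := by rw [hv]; rfl
  have vn : v.n = n := by rw [hv]; rfl
  have va : v.a = a := by rw [hv]; rfl
  have vH : v.H = Sz b c := by unfold I6.H; rw [vb, vc]
  have H1 := h1 v
  have H2 := h2 v
  have H3 := h3 v
  have H4 := h4 v
  simp only [vb, vc, vN, vn, va, vH] at H1 H2 H3 H4
  obtain ⟨m, hm⟩ : ∃ m, m = hf b N n a 6 := ⟨_, rfl⟩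
  obtain ⟨δ, hδ⟩ : ∃ δ, δ = sf b m m ((n : ℚ) / N) := ⟨_, rfl⟩
  rw [← hm] at H1 H2 H3 H4
  rw [← hδ] at H2 H3 H4
  have hmono : ∀ {k : ℕ} {x : ℚ}, k ≤ k1 + k2 + k3 + k4 → HB (Sz b c ^ k) x →
      HB (Sz b c ^ (k1 + k2 + k3 + k4)) x := fun hk h =>
    h.mono (Nat.pow_le_pow_right (by have := Sz_two b c; omega) hk)
  have hNR : (0 : ℝ) < N := by exact_mod_cast hN
  have hmR : (m : ℝ) = ((n : ℝ) ^ 2 + b * N ^ 2 - 3 * a ^ 2) / (6 * a * N) := by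
    rw [hm]; unfold hf; push_cast; rfl
  rw [← hmR] at hm1 hm2
  have hcR : (0 : ℝ) < c := by exact_mod_cast hc
  have hmR0 : (0 : ℝ) < m := by linarith
  have hm0 : 0 < m := by exact_mod_cast hmR0
  have hνR : 400 * R ≤ (n : ℝ) / N := by
    rw [le_div_iff₀ hNR]
    exact hnR
  have hν0 : (0 : ℝ) < (n : ℝ) / N := by linarith
  have hδR : (δ : ℝ) * ((n : ℝ) / N) = 3 * (m : ℝ) ^ 2 + b := by
    rw [hδ]
    unfold sf
    push_cast
    rw [sub_self, zero_div, add_zero, div_mul_cancel₀ _ hν0.ne']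
    ring
  obtain ⟨r0, r1, r2, r3, r4, r5, r6, r7, r8⟩ := real1 hR hRc hcR hb hm1 hm2 hνR hδR
  have hq : 0 < (m + m) ^ 2 + (b : ℚ) - m * m := by exact_mod_cast r1
  have hq' : 0 < (m + m) ^ 2 + (b : ℚ) - (m - δ) * (m + δ) := by
    have e : (m - δ + (m + δ)) = m + m := by ring
    have : 0 < (m - δ + (m + δ)) ^ 2 + (b : ℚ) - (m - δ) * (m + δ) := by exact_mod_cast r2
    rwa [e] at this
  have D := dat1 (b := b) hN ha h11 hn1 ha1 (m := m) hm hm0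
  obtain ⟨e1, e2, e3, e4, e5, e6, -, -, P⟩ := D.all (c := c) hδ hq hq' hg
  have A1 : Adm b c (wf b c m m) := by
    refine adm_of hR hc hRc ?_ ?_ e3
    · unfold wf
      exact div_pos (by exact_mod_cast r5) hq
    · unfold wf
      push_cast
      rw [div_lt_iff₀ r1]
      exact r6
  have A2 : Adm b c (m - δ) := by
    refine adm_of hR hc hRc (by exact_mod_cast r3) ?_ e4
    push_cast
    linarith
  have A3 : Adm b c (m + δ) := by
    refine adm_of hR hc hRc ?_ (by push_cast; exact r4) e5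
    have : (0 : ℝ) < m + δ := by linarith
    exact_mod_cast this
  have A4 : Adm b c (wf b c (m - δ) (m + δ)) := by
    refine adm_of hR hc hRc ?_ ?_ e6
    · unfold wf
      exact div_pos (by exact_mod_cast r7) (by exact_mod_cast r2)
    · unfold wf
      push_cast
      rw [div_lt_iff₀ r2]
      exact r8
  have P' : g (fc b c (wf b c m m)) * g (fc b c (m - δ)) * g (fc b c (m + δ)) *
      g (fc b c (wf b c (m - δ) (m + δ))) = -1 := by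
    have := hg.sq _ (e1.val (b := b) (c := c))
    rw [← hg3, ← P]
    linear_combination (-(g (fc b c (wf b c m m)) * g (fc b c (m - δ)) * g (fc b c (m + δ)) *
      g (fc b c (wf b c (m - δ) (m + δ))))) * this
  rcases both4 (hg.sq _ A1.val) (hg.sq _ A2.val) (hg.sq _ A3.val) (hg.sq _ A4.val) hs P' with h | h | h | h
  · exact ⟨_, A1, hmono (by omega) H1, h⟩
  · exact ⟨_, A2, hmono (by omega) H2, h⟩
  · exact ⟨_, A3, hmono (by omega) H3, h⟩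
  · exact ⟨_, A4, hmono (by omega) H4, h⟩

theorem config2 : ∃ K : ℕ, ∀ b c : ℤ, 0 < c → ∀ R : ℝ, 0 < R → R ^ 3 + b * R = c → 8 * R ^ 2 ≤ (b : ℝ) →
    ∀ g : ℚ → ℤ, GMul g → g 3 = -1 → ∀ s : ℤ, s = 1 ∨ s = -1 →
    ∃ r : ℚ, Adm b c r ∧ HB (Sz b c ^ K) r ∧ g (fc b c r) = s := by
  obtain ⟨K0, hK0⟩ := choice2
  have pν : PB (I6.H (K0 := K0)) (fun v => (v.n : ℚ) / v.N) := I6.pn.div I6.H2 I6.pN
  have px : PB (I6.H (K0 := K0)) (fun v => (v.x : ℚ) / v.N) := I6.px.div I6.H2 I6.pN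
  have py := (PB.hff (K0 := K0) 3).sub I6.H2 px
  have pδ := PB.sff I6.H2 I6.pb px py pν
  have px' := px.sub I6.H2 pδ
  have py' := py.add I6.H2 pδ
  obtain ⟨k1, h1⟩ := PB.dff I6.H2 I6.pb I6.pc px
  obtain ⟨k2, h2⟩ := (PB.hff (K0 := K0) 3).sub I6.H2 px
  obtain ⟨k3, h3⟩ := PB.wff I6.H2 I6.pb I6.pc px py
  obtain ⟨k4, h4⟩ := PB.dff I6.H2 I6.pb I6.pc px'
  obtain ⟨k5, h5⟩ := py.add I6.H2 pδ
  obtain ⟨k6, h6⟩ := PB.wff I6.H2 I6.pb I6.pc px' py'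
  refine ⟨k1 + k2 + k3 + k4 + k5 + k6, fun b c hc R hR hRc hb g hg hg3 s hs => ?_⟩
  obtain ⟨N, n, a, x0, ⟨hN, hN'⟩, ⟨hn, hn'⟩, ⟨ha, ha'⟩, ⟨hx, hx'⟩, h11, hn1, ha1, hx1, X, Y, Δ, hX, hY, hΔ, hν,
    ⟨c1, c2, c3, c4, c5⟩, ⟨d0, d1, d2, d3, d4, d5⟩⟩ := hK0 b c hc R hR hRc hb
  obtain ⟨v, hv⟩ : ∃ v : I6 K0, v = ⟨(b, c, N, n, a, x0), conv_bd hN hN', conv_bd hn hn', conv_bd ha ha',
    conv_bd hx hx'⟩ := ⟨_, rfl⟩
  have vb : v.b = b := by rw [hv]; rfl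
  have vc : v.c = c := by rw [hv]; rfl
  have vN : v.N = N := by rw [hv]; rfl
  have vn : v.n = n := by rw [hv]; rfl
  have va : v.a = a := by rw [hv]; rfl
  have vx : v.x = x0 := by rw [hv]; rfl
  have vH : v.H = Sz b c := by unfold I6.H; rw [vb, vc]
  have H1 := h1 v
  have H2 := h2 v
  have H3 := h3 v
  have H4 := h4 v
  have H5 := h5 v
  have H6 := h6 v
  simp only [vb, vc, vN, vn, va, vx, vH] at H1 H2 H3 H4 H5 H6
  obtain ⟨x, hxd⟩ : ∃ x, x = (x0 : ℚ) / N := ⟨_, rfl⟩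
  obtain ⟨y, hyd⟩ : ∃ y, y = hf b N n a 3 - x := ⟨_, rfl⟩
  rw [← hxd] at H1 H2 H3 H4 H5 H6
  rw [← hyd] at H2 H3 H4 H5 H6
  obtain ⟨δ, hδ⟩ : ∃ δ, δ = sf b x y ((n : ℚ) / N) := ⟨_, rfl⟩
  rw [← hδ] at H4 H5 H6
  have hmono : ∀ {k : ℕ} {x : ℚ}, k ≤ k1 + k2 + k3 + k4 + k5 + k6 → HB (Sz b c ^ k) x →
      HB (Sz b c ^ (k1 + k2 + k3 + k4 + k5 + k6)) x := fun hk h =>
    h.mono (Nat.pow_le_pow_right (by have := Sz_two b c; omega) hk)
  have xR : (x : ℝ) = X := by rw [hxd, hX]; push_cast; rfl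
  have yR : (y : ℝ) = Y := by rw [hyd, hY, ← xR]; unfold hf; push_cast; rfl
  have δR : (δ : ℝ) = Δ := by rw [hδ, hΔ, ← xR, ← yR]; unfold sf; push_cast; rfl
  have hcR : (0 : ℝ) < c := by exact_mod_cast hc
  have hNR : (0 : ℝ) < N := by exact_mod_cast hN
  have hX0 : 0 < X := by
    rw [hX]
    exact div_pos (by exact_mod_cast hx) hNR
  obtain ⟨r1, r2, r3, r4, r5, r6⟩ := real2 hR hRc hcR hb hX0 c1 c2 c3 c4 c5
  obtain ⟨s1, s2, s3, s4, s5, s6⟩ := real2 hR hRc hcR hb d0 d1 d2 d3 d4 d5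
  rw [← xR, ← yR] at r1 r2 r3
  rw [← xR] at r4 r5 r6 hX0
  rw [← xR, ← yR, ← δR] at s1 s2 s3
  rw [← xR, ← δR] at s4 s5 s6 d0
  rw [← yR] at c4 c5
  rw [← yR, ← δR] at d4 d5
  have hq : 0 < (x + y) ^ 2 + (b : ℚ) - x * y := by exact_mod_cast r1
  have hq' : 0 < (x + y) ^ 2 + (b : ℚ) - (x - δ) * (y + δ) := by
    have e : (x - δ + (y + δ)) = x + y := by ring
    have : 0 < (x - δ + (y + δ)) ^ 2 + (b : ℚ) - (x - δ) * (y + δ) := by exact_mod_cast s1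
    rwa [e] at this
  have hxy : 0 < x + y := by
    have h7 : (0 : ℝ) < x + y := by linarith
    exact_mod_cast h7
  have D := dat2 (b := b) hN ha h11 hn1 ha1 hx1 (x := x) (y := y) hxd hyd hxy
  obtain ⟨e1, e2, e3, e4, e5, e6, e7, e8, P⟩ := D.all (c := c) hδ hq hq' hg
  have fx : (4 : ℚ) * fc (b : ℚ) c x = 4 * (x ^ 3 + b * x + c) := rfl
  have fx' : (4 : ℚ) * fc (b : ℚ) c (x - δ) = 4 * ((x - δ) ^ 3 + b * (x - δ) + c) := rfl
  have A1 : Adm b c (df b c x) := by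
    refine adm_of hR hc hRc ?_ ?_ e7
    · unfold df
      rw [fx]
      exact div_pos (by exact_mod_cast r4) (by exact_mod_cast r6)
    · unfold df
      rw [fx]
      push_cast
      rw [div_lt_iff₀ r6]
      exact r5
  have A2 : Adm b c y := by
    refine adm_of hR hc hRc ?_ c5 e2
    have : (0 : ℝ) < y := by linarith
    exact_mod_cast this
  have A3 : Adm b c (wf b c x y) := by
    refine adm_of hR hc hRc ?_ ?_ e3
    · unfold wf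
      exact div_pos (by exact_mod_cast r2) hq
    · unfold wf
      push_cast
      rw [div_lt_iff₀ r1]
      exact r3
  have A4 : Adm b c (df b c (x - δ)) := by
    refine adm_of hR hc hRc ?_ ?_ e8
    · unfold df
      rw [fx']
      exact div_pos (by exact_mod_cast s4) (by exact_mod_cast s6)
    · unfold df
      rw [fx']
      push_cast
      rw [div_lt_iff₀ s6]
      exact s5
  have A5 : Adm b c (y + δ) := by
    refine adm_of hR hc hRc ?_ (by push_cast; exact d5) e5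
    have : (0 : ℝ) < y + δ := by linarith
    exact_mod_cast this
  have A6 : Adm b c (wf b c (x - δ) (y + δ)) := by
    refine adm_of hR hc hRc ?_ ?_ e6
    · unfold wf
      exact div_pos (by exact_mod_cast s2) (by exact_mod_cast s1)
    · unfold wf
      push_cast
      rw [div_lt_iff₀ s1]
      exact s3
  have G1 : g (fc b c (df b c x)) = g (fc b c x) := dup_g hg e1.val rfl A1.val
  have G4 : g (fc b c (df b c (x - δ))) = g (fc b c (x - δ)) := dup_g hg e4.val rfl A4.val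
  have P' : g (fc b c (df b c x)) * g (fc b c y) * g (fc b c (wf b c x y)) *
      g (fc b c (df b c (x - δ))) * g (fc b c (y + δ)) * g (fc b c (wf b c (x - δ) (y + δ))) = -1 := by
    rw [G1, G4, ← hg3, ← P]
    ring
  rcases both6 (hg.sq _ A1.val) (hg.sq _ A2.val) (hg.sq _ A3.val) (hg.sq _ A4.val) (hg.sq _ A5.val)
    (hg.sq _ A6.val) hs P' with h | h | h | h | h | h
  · exact ⟨_, A1, hmono (by omega) H1, h⟩
  · exact ⟨_, A2, hmono (by omega) H2, h⟩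
  · exact ⟨_, A3, hmono (by omega) H3, h⟩
  · exact ⟨_, A4, hmono (by omega) H4, h⟩
  · exact ⟨_, A5, hmono (by omega) H5, h⟩
  · exact ⟨_, A6, hmono (by omega) H6, h⟩

/-- The root. -/
theorem exists_root {b c : ℤ} (hc : 0 < c) : ∃ R : ℝ, 0 < R ∧ R ^ 3 + b * R = c := by
  have hcR : (0 : ℝ) < c := by exact_mod_cast hc
  have hcont : Continuous (fun R : ℝ => R ^ 3 + b * R) := by fun_prop
  obtain ⟨T, hT⟩ : ∃ T : ℝ, T = 1 + |(b : ℝ)| + c := ⟨_, rfl⟩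
  have hb := neg_abs_le (b : ℝ)
  have hb0 := abs_nonneg (b : ℝ)
  have hT1 : 1 ≤ T := by rw [hT]; linarith
  have h1 : (c : ℝ) ≤ T ^ 3 + b * T := by
    have h2 : T ^ 3 + b * T = T * (T ^ 2 + b) := by ring
    have h3 : 1 + c ≤ T ^ 2 + b := by nlinarith
    have h4 : 1 * (1 + c) ≤ T * (T ^ 2 + b) := mul_le_mul hT1 h3 (by linarith) (by linarith)
    linarith
  have hmem : (c : ℝ) ∈ Set.Icc ((0 : ℝ) ^ 3 + b * 0) (T ^ 3 + b * T) := ⟨by linarith, h1⟩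
  obtain ⟨R, hR1, hR2⟩ := intermediate_value_Icc (by linarith : (0 : ℝ) ≤ T) hcont.continuousOn hmem
  refine ⟨R, lt_of_le_of_ne hR1.1 ?_, hR2⟩
  rintro rfl
  dsimp only at hR2
  linarith

/-- X4: the configuration. -/
theorem config : ∃ K : ℕ, ∀ b c : ℤ, 0 < c → ∀ g : ℚ → ℤ, GMul g → g 3 = -1 → ∀ s : ℤ, s = 1 ∨ s = -1 →
    ∃ r : ℚ, Adm b c r ∧ HB ((2 + b.natAbs + c.natAbs) ^ K) r ∧ g (-1) * g (fc b c r) = s := by
  obtain ⟨K1, h1⟩ := config1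
  obtain ⟨K2, h2⟩ := config2
  refine ⟨K1 + K2, fun b c hc g hg hg3 s hs => ?_⟩
  have hg1 : g (-1) * g (-1) = 1 := hg.sq _ (by norm_num)
  have hs' : g (-1) * s = 1 ∨ g (-1) * s = -1 := by
    rcases mul_self_eq_one_iff.1 hg1 with h | h <;> rcases hs with rfl | rfl <;> rw [h] <;> norm_num
  have hmono : ∀ {k : ℕ} {x : ℚ}, k ≤ K1 + K2 → HB (Sz b c ^ k) x →
      HB (Sz b c ^ (K1 + K2)) x := fun hk h =>
    h.mono (Nat.pow_le_pow_right (by have := Sz_two b c; omega) hk)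
  obtain ⟨R, hR, hRc⟩ := exists_root (b := b) hc
  rcases le_total (b : ℝ) (8 * R ^ 2) with hb | hb
  · obtain ⟨r, hr1, hr2, hr3⟩ := h1 b c hc R hR hRc hb g hg hg3 _ hs'
    exact ⟨r, hr1, hmono (by omega) hr2, by rw [hr3, ← mul_assoc, hg1, one_mul]⟩
  · obtain ⟨r, hr1, hr2, hr3⟩ := h2 b c hc R hR hRc hb g hg hg3 _ hs'
    exact ⟨r, hr1, hmono (by omega) hr2, by rw [hr3, ← mul_assoc, hg1, one_mul]⟩

end Pool.Agent.Lib.MP_648c71_nt.AllCub
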