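import Pool.Agent.Lib.MP_648c71_nt.EX.DefsE
import Pool.Agent.Lib.MP_648c71_nt.Diag.Cnt2

/-!
# The counts, everything explicit
-/

namespace MP648Diag

open Filter Pool.Agent.Lib.MP_648c71_nt Pool.Agent.Lib.MP_648c71_nt.AllCub

/-- the number `B` bounds `y₀`, the base 2 logarithm of the starting point (for `y = 1`), and the reciprocal of
the constant in the count -/
def GoodE (a b c d : ℤ) (B : ℕ) : Prop :=
  ∃ y₀ : ℤ, 0 < y₀ ∧ y₀ ≤ B ∧ ∀ y : ℤ, 0 < y → y₀ ∣ y → ∀ X : ℕ, y * 2 ^ B ≤ X →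
    (∀ s : ℤ, (s = 1 ∨ s = -1) →
      Real.log (X / y) / B ≤ (((Finset.Icc (1 : ℤ) X).filter (fun n => lam (form a b c d n y) = s)).card : ℝ)) ∨
    (∀ s : ℤ, (s = 1 ∨ s = -1) →
      Real.log (X / y) / B ≤
        (((Finset.Icc (1 : ℤ) X).filter (fun n => lam (form a b c d (-n) y) = s)).card : ℝ))

theorem GoodE.mono {a b c d : ℤ} {B C : ℕ} (h : GoodE a b c d B) (hBC : B ≤ C) : GoodE a b c d C := by
  obtain ⟨y₀, h1, h2, h3⟩ := h
  refine ⟨y₀, h1, h2.trans (by exact_mod_cast hBC), fun y hy hd X hX => ?_⟩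
  have hB : (0 : ℝ) < B := by
    have : (0 : ℤ) < B := lt_of_lt_of_le h1 h2
    exact_mod_cast this
  have hCB : (B : ℝ) ≤ C := by exact_mod_cast hBC
  have hX' : y * 2 ^ B ≤ (X : ℤ) :=
    (mul_le_mul_of_nonneg_left (pow_le_pow_right₀ (by norm_num) hBC) hy.le).trans hX
  have hyX : y ≤ (X : ℤ) := by
    refine le_trans ?_ hX'
    exact le_mul_of_one_le_right hy.le (one_le_pow₀ (by norm_num))
  have hyR : (0 : ℝ) < y := by exact_mod_cast hy
  have hlog : 0 ≤ Real.log (X / y) := by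
    apply Real.log_nonneg
    rw [one_le_div hyR]
    exact_mod_cast hyX
  have hle : Real.log (X / y) / C ≤ Real.log (X / y) / B := div_le_div_of_nonneg_left hlog hB hCB
  rcases h3 y hy hd X hX' with h | h
  · exact Or.inl fun s hs => hle.trans (h s hs)
  · exact Or.inr fun s hs => hle.trans (h s hs)

theorem goodE_neg {a b c d : ℤ} {B : ℕ} (h : GoodE (-a) (-b) (-c) (-d) B) : GoodE a b c d B := by
  unfold GoodE at h ⊢
  simpa only [form_neg'] using h

/-- a sequence at a given denominator, with explicit constants -/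
def SeqK (q : ℕ) (g : ℚ → ℤ) (b c : ℚ) (s : ℤ) (B : ℕ) : Prop :=
  ∃ n : ℕ → ℤ, (∀ k, |n k| ≤ ((2 : ℤ) ^ B) ^ (k + 1)) ∧
    (∀ (v : ℤ) (N : ℕ), ((Finset.range N).filter (fun k => n k = v)).card ≤ B) ∧
    ∀ k, g (fc b c ((n k : ℚ) / q)) = s

theorem SeqK.mul {q : ℕ} {g : ℚ → ℤ} {b c : ℚ} {s : ℤ} {B B' : ℕ} (h : SeqK q g b c s B) {m : ℕ} (hm : 0 < m)
    (hB : B + m ≤ B') : SeqK (q * m) g b c s B' := by
  obtain ⟨n, h1, h2, h3⟩ := h
  have hmZ : (0:ℤ) < m := by exact_mod_cast hm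
  refine ⟨fun k => n k * m, fun k => ?_, fun v N => ?_, fun k => ?_⟩
  · rw [abs_mul, abs_of_pos hmZ]
    have e1 : (m : ℤ) ≤ ((2 : ℤ) ^ m) ^ (k + 1) := by
      have e2 : (m : ℤ) ≤ (2 : ℤ) ^ m := by exact_mod_cast (Nat.lt_two_pow_self).le
      calc (m : ℤ) ≤ (2 : ℤ) ^ m := e2
        _ = ((2 : ℤ) ^ m) ^ 1 := (pow_one _).symm
        _ ≤ ((2 : ℤ) ^ m) ^ (k + 1) := pow_le_pow_right₀ (one_le_pow₀ (by norm_num)) (by omega)
    calc |n k| * m ≤ ((2 : ℤ) ^ B) ^ (k + 1) * ((2 : ℤ) ^ m) ^ (k + 1) :=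
          mul_le_mul (h1 k) e1 (by omega) (by positivity)
      _ = ((2 : ℤ) ^ (B + m)) ^ (k + 1) := by rw [← mul_pow, ← pow_add]
      _ ≤ ((2 : ℤ) ^ B') ^ (k + 1) :=
          pow_le_pow_left₀ (by positivity) (pow_le_pow_right₀ (by norm_num) hB) _
  · by_cases hv : (m : ℤ) ∣ v
    · obtain ⟨w, hw⟩ := hv
      refine le_trans (Finset.card_le_card ?_) ((h2 w N).trans (by omega))
      intro k hk
      simp only [Finset.mem_filter, Finset.mem_range] at hk ⊢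
      refine ⟨hk.1, ?_⟩
      have := hk.2
      rw [hw, mul_comm] at this
      exact mul_left_cancel₀ hmZ.ne' this
    · have : (Finset.range N).filter (fun k => n k * m = v) = ∅ := by
        apply Finset.filter_eq_empty_iff.2
        intro k _ hk
        exact hv ⟨n k, by rw [← hk]; ring⟩
      rw [this]
      simp
  · have := h3 k
    rw [← this]
    congr 1
    push_cast
    have hmQ : (m:ℚ) ≠ 0 := by exact_mod_cast hm.ne'
    rw [mul_div_mul_right _ _ hmQ]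

/-- the count -/
theorem SeqK.count {q : ℕ} {g : ℚ → ℤ} {b c : ℚ} {s : ℤ} {B : ℕ} (hB : 1 ≤ B) (h : SeqK q g b c s B)
    {M X : ℕ} (hX : 2 ^ (4 * B ^ 2 * (2 * M + 4)) ≤ X) :
    1 / (4 * (B : ℝ) ^ 2) * Real.log X ≤ (((Finset.Icc (-(X:ℤ)) X).filter
        (fun n => (M:ℤ) < |n| ∧ g (fc b c ((n : ℚ) / q)) = s)).card : ℝ) := by
  obtain ⟨n, h1', h2, h3⟩ := h
  obtain ⟨C, hC⟩ : ∃ C : ℕ, C = 2 ^ B := ⟨_, rfl⟩
  have hC2 : 2 ≤ C := by
    rw [hC]
    calc 2 = 2 ^ 1 := rfl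
      _ ≤ 2 ^ B := Nat.pow_le_pow_right (by norm_num) hB
  have h1 : ∀ k, |n k| ≤ (C:ℤ) ^ (k + 1) := fun k => by
    rw [hC]
    push_cast
    exact h1' k
  have hKR : (1:ℝ) ≤ B := by exact_mod_cast hB
  have hlogC : Real.log C ≤ B := by
    rw [hC]
    push_cast
    rw [Real.log_pow]
    have := Real.log_two_lt_d9
    nlinarith
  have hlogC0 : 0 ≤ Real.log C := Real.log_nonneg (by exact_mod_cast (by omega : 1 ≤ C))
  rw [show 2 ^ (4 * B ^ 2 * (2 * M + 4)) = C ^ (4 * B * (2 * M + 4)) by rw [hC, ← pow_mul]; congr 1; ring] at hX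
  obtain ⟨L, hL⟩ : ∃ L, L = Nat.log C X := ⟨_, rfl⟩
  have hX1 : 1 ≤ X := le_trans (Nat.one_le_pow _ _ (by omega)) hX
  have hXpos : X ≠ 0 := by omega
  have hLX : C ^ L ≤ X := by rw [hL]; exact Nat.pow_log_le_self C hXpos
  have hXL : X < C ^ (L + 1) := by rw [hL]; exact Nat.lt_pow_succ_log_self (by omega) X
  have hLbig : 4 * B * (2 * M + 4) ≤ L := by
    rw [hL]
    exact (Nat.le_log_iff_pow_le (by omega) hXpos).2 hX
  have hlogX : Real.log X ≤ (L + 1) * Real.log C := by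
    have : Real.log X ≤ Real.log ((C:ℝ) ^ (L + 1)) := by
      apply Real.log_le_log (by exact_mod_cast hX1)
      exact_mod_cast hXL.le
    rw [Real.log_pow] at this
    push_cast at this
    exact this
  -- the image
  have himg : L ≤ B * ((Finset.range L).image n).card := by
    have := Finset.card_le_mul_card_image (s := Finset.range L) (f := n) B (fun v _ => h2 v L)
    rw [Finset.card_range] at this
    rw [mul_comm] at this
    linarith
  have hsub : ((Finset.range L).image n).filter (fun v => (M:ℤ) < |v|) ⊆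
      (Finset.Icc (-(X:ℤ)) X).filter (fun n => (M:ℤ) < |n| ∧ g (fc b c ((n : ℚ) / q)) = s) := by
    intro v hv
    simp only [Finset.mem_filter, Finset.mem_image, Finset.mem_range, Finset.mem_Icc] at hv ⊢
    obtain ⟨⟨k, hk, hkv⟩, hv2⟩ := hv
    rw [← hkv] at hv2 ⊢
    refine ⟨?_, hv2, h3 k⟩
    have e1 : |n k| ≤ X := by
      refine le_trans (h1 k) ?_
      have e2 : C ^ (k + 1) ≤ X := le_trans (Nat.pow_le_pow_right (by omega) (by omega)) hLX
      exact_mod_cast e2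
    exact abs_le.1 e1
  have hfil : ((Finset.range L).image n).card ≤
      (((Finset.range L).image n).filter (fun v => (M:ℤ) < |v|)).card + (2 * M + 1) := by
    have e1 := Finset.card_filter_add_card_filter_not (s := (Finset.range L).image n)
      (fun v => (M:ℤ) < |v|)
    have e2 : (((Finset.range L).image n).filter (fun v => ¬ (M:ℤ) < |v|)).card ≤ 2 * M + 1 := by
      have : ((Finset.range L).image n).filter (fun v => ¬ (M:ℤ) < |v|) ⊆ Finset.Icc (-(M:ℤ)) M := by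
        intro v hv
        simp only [Finset.mem_filter, not_lt] at hv
        rw [Finset.mem_Icc]
        exact abs_le.1 hv.2
      refine le_trans (Finset.card_le_card this) ?_
      rw [Int.card_Icc]
      omega
    omega
  have hcard := Finset.card_le_card hsub
  have hmain : L ≤ B * (((Finset.Icc (-(X:ℤ)) X).filter
      (fun n => (M:ℤ) < |n| ∧ g (fc b c ((n : ℚ) / q)) = s)).card + (2 * M + 1)) := by
    refine le_trans himg ?_
    apply Nat.mul_le_mul_left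
    omega
  obtain ⟨N, hN⟩ : ∃ N, N = ((Finset.Icc (-(X:ℤ)) X).filter
      (fun n => (M:ℤ) < |n| ∧ g (fc b c ((n : ℚ) / q)) = s)).card := ⟨_, rfl⟩
  rw [← hN] at hmain ⊢
  have m1 : (L:ℝ) ≤ B * (N + (2 * M + 1)) := by exact_mod_cast hmain
  have m2 : (4:ℝ) * B * (2 * M + 4) ≤ L := by exact_mod_cast hLbig
  have hB0 : (0:ℝ) ≤ M := by positivity
  have m3 : (L:ℝ) + 1 ≤ 4 * B * N := by nlinarith
  rw [div_mul_eq_mul_div, one_mul, div_le_iff₀ (by positivity)]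
  calc Real.log X ≤ (L + 1) * Real.log C := hlogX
    _ ≤ (4 * B * N) * Real.log C := mul_le_mul_of_nonneg_right m3 hlogC0
    _ ≤ (4 * B * N) * B := mul_le_mul_of_nonneg_left hlogC (by positivity)
    _ = (N:ℝ) * (4 * (B : ℝ) ^ 2) := by ring

/-- four counts with the same denominator -/
theorem four_countsE {P Q : ℚ} {B : ℕ}
    (H : ∀ g : ℚ → ℤ, (g = gl ∨ g = gs) → ∀ s : ℤ, s = 1 ∨ s = -1 → SeqE g P Q s B) :
    ∃ q : ℕ, 0 < q ∧ q ≤ B ^ 4 ∧ ∀ g : ℚ → ℤ, (g = gl ∨ g = gs) → ∀ s : ℤ, s = 1 ∨ s = -1 →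
      SeqK q g P Q s (B + B ^ 3) := by
  obtain ⟨q1, hq1, hb1, H1⟩ := H gl (Or.inl rfl) 1 (Or.inl rfl)
  obtain ⟨q2, hq2, hb2, H2⟩ := H gl (Or.inl rfl) (-1) (Or.inr rfl)
  obtain ⟨q3, hq3, hb3, H3⟩ := H gs (Or.inr rfl) 1 (Or.inl rfl)
  obtain ⟨q4, hq4, hb4, H4⟩ := H gs (Or.inr rfl) (-1) (Or.inr rfl)
  have hprod : ∀ x y z : ℕ, x ≤ B → y ≤ B → z ≤ B → B + x * y * z ≤ B + B ^ 3 := by
    intro x y z hx hy hz
    have : x * y * z ≤ B * B * B := Nat.mul_le_mul (Nat.mul_le_mul hx hy) hz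
    have e : B ^ 3 = B * B * B := by ring
    omega
  have K1 : SeqK (q1 * q2 * q3 * q4) gl P Q 1 (B + B ^ 3) := by
    have := SeqK.mul (q := q1) (m := q2 * q3 * q4) (B := B) H1 (by positivity) (hprod q2 q3 q4 hb2 hb3 hb4)
    rwa [show q1 * (q2 * q3 * q4) = q1 * q2 * q3 * q4 by ring] at this
  have K2 : SeqK (q1 * q2 * q3 * q4) gl P Q (-1) (B + B ^ 3) := by
    have := SeqK.mul (q := q2) (m := q1 * q3 * q4) (B := B) H2 (by positivity) (hprod q1 q3 q4 hb1 hb3 hb4)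
    rwa [show q2 * (q1 * q3 * q4) = q1 * q2 * q3 * q4 by ring] at this
  have K3 : SeqK (q1 * q2 * q3 * q4) gs P Q 1 (B + B ^ 3) := by
    have := SeqK.mul (q := q3) (m := q1 * q2 * q4) (B := B) H3 (by positivity) (hprod q1 q2 q4 hb1 hb2 hb4)
    rwa [show q3 * (q1 * q2 * q4) = q1 * q2 * q3 * q4 by ring] at this
  have K4 : SeqK (q1 * q2 * q3 * q4) gs P Q (-1) (B + B ^ 3) := by
    have := SeqK.mul (q := q4) (m := q1 * q2 * q3) (B := B) H4 (by positivity) (hprod q1 q2 q3 hb1 hb2 hb3)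
    rwa [show q4 * (q1 * q2 * q3) = q1 * q2 * q3 * q4 by ring] at this
  refine ⟨q1 * q2 * q3 * q4, by positivity, ?_, fun g hg s hs => ?_⟩
  · calc q1 * q2 * q3 * q4 ≤ B * B * B * B :=
        Nat.mul_le_mul (Nat.mul_le_mul (Nat.mul_le_mul hb1 hb2) hb3) hb4
      _ = B ^ 4 := by ring
  rcases hg with hg | hg <;> rcases hs with hs | hs <;> rw [hg, hs]
  · exact K1
  · exact K2
  · exact K3
  · exact K4

/-- the transfer from the depressed cubic -/
theorem transferE {a b c d : ℤ} (ha : 0 < a) {P Q : ℤ} (hP : P = 9 * a * c - 3 * b ^ 2)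
    (hQ : Q = 27 * a ^ 2 * d - 9 * a * b * c + 2 * b ^ 3) {q : ℕ} (hq : 0 < q) {δ : ℝ} (hδ : 0 < δ)
    {B X₁ : ℕ} (hB : (B:ℤ) = q * (|P| + |Q| + 1 + |b|))
    (hX₁ : ∀ X : ℕ, X₁ ≤ X → ∀ g : ℚ → ℤ, (g = gl ∨ g = gs) → ∀ s : ℤ, s = 1 ∨ s = -1 →
      δ * Real.log X ≤ (((Finset.Icc (-(X:ℤ)) X).filter
        (fun n => (B:ℤ) < |n| ∧ g (fc P Q ((n : ℚ) / q)) = s)).card : ℝ))
    {y r : ℤ} (hy : 0 < y) (hr : y = 3 * a * q * r) (hr0 : 0 < r) {β ρ : ℕ} (hβ : (β:ℤ) = |b| * q)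
    (hρ : (ρ:ℤ) = r) {X : ℕ} (hX : ρ * (2 + 2 * β + X₁) ≤ X) :
    (∀ s : ℤ, (s = 1 ∨ s = -1) →
      δ / 2 * Real.log (X / y) ≤
        (((Finset.Icc (1 : ℤ) X).filter (fun n => lam (form a b c d n y) = s)).card : ℝ)) ∨
    (∀ s : ℤ, (s = 1 ∨ s = -1) →
      δ / 2 * Real.log (X / y) ≤
        (((Finset.Icc (1 : ℤ) X).filter (fun n => lam (form a b c d (-n) y) = s)).card : ℝ)) := by
  have hqZ : (0:ℤ) < q := by exact_mod_cast hq
  have hqQ : (0:ℚ) < q := by exact_mod_cast hq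
  have hρ0 : 0 < ρ := by
    have : (0:ℤ) < ρ := by rw [hρ]; exact hr0
    exact_mod_cast this
  obtain ⟨X', hX'⟩ : ∃ X', X' = X / ρ - β := ⟨_, rfl⟩
  have hdiv : 2 + 2 * β + X₁ ≤ X / ρ := by
    rw [Nat.le_div_iff_mul_le hρ0, mul_comm]
    exact hX
  have hX'1 : X₁ ≤ X' := by omega
  have hX'r : (X' + β) * ρ ≤ X := by
    have h1 : X' + β = X / ρ := by omega
    rw [h1]
    exact Nat.div_mul_le_self X ρ
  have hyR : (0:ℝ) < y := by exact_mod_cast hy
  have hXpos : 0 < X := lt_of_lt_of_le (Nat.mul_pos hρ0 (by omega)) hX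
  have hlog : Real.log (X / y) ≤ Real.log X' := by
    have h0 : (0:ℝ) < X := by exact_mod_cast hXpos
    apply Real.log_le_log (div_pos h0 hyR)
    rw [div_le_iff₀ hyR]
    have h1 : X < (X / ρ + 1) * ρ := by
      have := Nat.lt_mul_div_succ X hρ0
      rw [mul_comm]
      exact this
    have h2 : X / ρ + 1 ≤ 3 * X' := by omega
    have h3 : X ≤ 3 * X' * ρ := h1.le.trans (Nat.mul_le_mul_right _ h2)
    have h4 : (3 * ρ : ℤ) ≤ y := by
      rw [hr, hρ]
      have h5 : (1:ℤ) ≤ a * q := by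
        have : (0:ℤ) < a * q := by positivity
        omega
      have h6 : 3 * r * 1 ≤ 3 * r * (a * q) := mul_le_mul_of_nonneg_left h5 (by positivity)
      calc 3 * r = 3 * r * 1 := (mul_one _).symm
        _ ≤ 3 * r * (a * q) := h6
        _ = 3 * a * q * r := by ring
    have h5 : (X:ℤ) ≤ X' * y := by
      have h6 : (X:ℤ) ≤ 3 * X' * ρ := by exact_mod_cast h3
      have h7 : (X':ℤ) * (3 * ρ) ≤ X' * y := mul_le_mul_of_nonneg_left h4 (by positivity)
      calc (X:ℤ) ≤ 3 * X' * ρ := h6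
        _ = X' * (3 * ρ) := by ring
        _ ≤ X' * y := h7
    exact_mod_cast h5
  -- the four numbers
  let Pc : ℤ → ℕ := fun σ => ((Finset.Icc (-(X':ℤ)) X').filter
    (fun n => ((B:ℤ) < |n| ∧ gl (fc (P:ℚ) Q ((n : ℚ) / q)) = σ) ∧ 0 < n)).card
  let Mc : ℤ → ℕ := fun σ => ((Finset.Icc (-(X':ℤ)) X').filter
    (fun n => ((B:ℤ) < |n| ∧ gl (fc (P:ℚ) Q ((n : ℚ) / q)) = σ) ∧ ¬ 0 < n)).card
  have hsum : ∀ σ : ℤ, ((Finset.Icc (-(X':ℤ)) X').filter
      (fun n => (B:ℤ) < |n| ∧ gl (fc (P:ℚ) Q ((n : ℚ) / q)) = σ)).card = Pc σ + Mc σ := by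
    intro σ
    have := Finset.card_filter_add_card_filter_not (s := (Finset.Icc (-(X':ℤ)) X').filter
      (fun n => (B:ℤ) < |n| ∧ gl (fc (P:ℚ) Q ((n : ℚ) / q)) = σ)) (fun n => 0 < n)
    rw [Finset.filter_filter, Finset.filter_filter] at this
    exact this.symm
  -- the sign of the cubic
  have hbig : ∀ n : ℤ, (B:ℤ) < |n| → |(P:ℚ)| + |(Q:ℚ)| + 1 ≤ |(n:ℚ) / q| := by
    intro n hn
    rw [abs_div, abs_of_pos hqQ, le_div_iff₀ hqQ]
    have h1 : (q:ℤ) * (|P| + |Q| + 1 + |b|) ≤ |n| := by rw [← hB]; exact hn.le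
    have h2 : (q:ℤ) * (|P| + |Q| + 1) ≤ |n| := by
      have h0 : (0:ℤ) ≤ q * |b| := by positivity
      have h01 : (q:ℤ) * (|P| + |Q| + 1 + |b|) = q * (|P| + |Q| + 1) + q * |b| := by ring
      rw [h01] at h1
      linarith only [h0, h1]
    have h3 : ((q * (|P| + |Q| + 1) : ℤ) : ℚ) ≤ ((|n| : ℤ) : ℚ) := by exact_mod_cast h2
    push_cast at h3
    linarith
  have hposn : ∀ n : ℤ, (B:ℤ) < |n| → 0 < n → gs (fc (P:ℚ) Q ((n : ℚ) / q)) = gl (fc (P:ℚ) Q ((n : ℚ) / q)) := by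
    intro n hn hn0
    have h1 := hbig n hn
    have h2 : (0:ℚ) ≤ (n:ℚ) / q := by
      have : (0:ℚ) < n := by exact_mod_cast hn0
      positivity
    rw [abs_of_nonneg h2] at h1
    have h3 : 0 < fc (P:ℚ) Q ((n:ℚ) / q) := cubic_pos h1
    unfold gs
    rw [sign_pos h3]
    norm_num
  have hnegn : ∀ n : ℤ, (B:ℤ) < |n| → ¬ 0 < n →
      gs (fc (P:ℚ) Q ((n : ℚ) / q)) = - gl (fc (P:ℚ) Q ((n : ℚ) / q)) := by
    intro n hn hn0
    have h1 := hbig n hn
    have h2 : (n:ℚ) / q ≤ 0 := by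
      have : (n:ℚ) ≤ 0 := by exact_mod_cast (not_lt.1 hn0)
      exact div_nonpos_of_nonpos_of_nonneg this hqQ.le
    rw [abs_of_nonpos h2] at h1
    have h3 : fc (P:ℚ) Q ((n:ℚ) / q) < 0 := cubic_neg (by linarith)
    unfold gs
    rw [sign_neg h3]
    norm_num
  have hsum2 : ∀ σ : ℤ, ((Finset.Icc (-(X':ℤ)) X').filter
      (fun n => (B:ℤ) < |n| ∧ gs (fc (P:ℚ) Q ((n : ℚ) / q)) = σ)).card = Pc σ + Mc (-σ) := by
    intro σ
    have := Finset.card_filter_add_card_filter_not (s := (Finset.Icc (-(X':ℤ)) X').filter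
      (fun n => (B:ℤ) < |n| ∧ gs (fc (P:ℚ) Q ((n : ℚ) / q)) = σ)) (fun n => 0 < n)
    rw [Finset.filter_filter, Finset.filter_filter] at this
    rw [← this]
    congr 1
    · congr 1
      apply Finset.filter_congr
      intro n _
      constructor
      · rintro ⟨⟨h1, h2⟩, h3⟩
        rw [hposn n h1 h3] at h2
        exact ⟨⟨h1, h2⟩, h3⟩
      · rintro ⟨⟨h1, h2⟩, h3⟩
        rw [← hposn n h1 h3] at h2
        exact ⟨⟨h1, h2⟩, h3⟩
    · congr 1
      apply Finset.filter_congr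
      intro n _
      constructor
      · rintro ⟨⟨h1, h2⟩, h3⟩
        rw [hnegn n h1 h3] at h2
        exact ⟨⟨h1, by linarith⟩, h3⟩
      · rintro ⟨⟨h1, h2⟩, h3⟩
        refine ⟨⟨h1, ?_⟩, h3⟩
        rw [hnegn n h1 h3, h2, neg_neg]
  -- transfer
  have hylam : lam y = 1 ∨ lam y = -1 := lam_eq_one_or hy.ne'
  have haQ : (0:ℚ) < a := by exact_mod_cast ha
  have htr : ∀ n : ℤ, lam (form a b c d ((n - b * q) * r) y) = - lam y * gl (fc (P:ℚ) Q ((n : ℚ) / q)) := by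
    intro n
    have h1 := val_id (a := a) (b := b) (c := c) (d := d) ha hy ((n - b * q) * r)
    rw [← hP, ← hQ] at h1
    have hrQ : (0:ℚ) < r := by exact_mod_cast hr0
    have hyr : (y : ℚ) = 3 * a * q * r := by exact_mod_cast hr
    have e : (3 * a * (((n - b * q) * r : ℤ) : ℚ) / y + b : ℚ) = (n:ℚ) / q := by
      rw [hyr]
      push_cast
      field_simp
      ring
    rw [e] at h1
    rw [h1]
    rcases hylam with h | h <;> rw [h] <;> ring
  have hbq : |b * (q:ℤ)| = β := by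
    rw [hβ, abs_mul, abs_of_pos hqZ]
  have hBβ : (β:ℤ) ≤ B := by
    rw [hβ, hB]
    have h0 : 0 ≤ (q:ℤ) * (|P| + |Q| + 1) := by positivity
    have h01 : (q:ℤ) * (|P| + |Q| + 1 + |b|) = q * (|P| + |Q| + 1) + |b| * q := by ring
    rw [h01]
    linarith only [h0]
  have hX'rZ : ((X':ℤ) + β) * r ≤ X := by
    rw [← hρ]
    exact_mod_cast hX'r
  have hPle : ∀ σ : ℤ, Pc σ ≤ ((Finset.Icc (1:ℤ) X).filter
      (fun n => lam (form a b c d n y) = - lam y * σ)).card := by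
    intro σ
    apply Finset.card_le_card_of_injOn (fun n => (n - b * q) * r)
    · intro n hn
      simp only [Finset.coe_filter, Set.mem_ofPred_eq, Finset.mem_Icc] at hn ⊢
      obtain ⟨⟨h1, h2⟩, ⟨h3, h4⟩, h5⟩ := hn
      have h6 : b * (q:ℤ) ≤ β := by rw [← hbq]; exact le_abs_self _
      have h7 : -(β:ℤ) ≤ b * q := by rw [← hbq]; exact neg_abs_le _
      rw [abs_of_pos h5] at h3
      refine ⟨⟨?_, ?_⟩, ?_⟩
      · have : 1 ≤ n - b * q := by omega
        exact le_trans hr0 (le_mul_of_one_le_left hr0.le this)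
      · refine le_trans ?_ hX'rZ
        exact mul_le_mul_of_nonneg_right (by omega) hr0.le
      · rw [htr, h4]
    · intro n _ m _ hnm
      have := mul_right_cancel₀ hr0.ne' hnm
      omega
  have hMle : ∀ σ : ℤ, Mc σ ≤ ((Finset.Icc (1:ℤ) X).filter
      (fun n => lam (form a b c d (-n) y) = - lam y * σ)).card := by
    intro σ
    apply Finset.card_le_card_of_injOn (fun n => -((n - b * q) * r))
    · intro n hn
      simp only [Finset.coe_filter, Set.mem_ofPred_eq, Finset.mem_Icc] at hn ⊢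
      obtain ⟨⟨h1, h2⟩, ⟨h3, h4⟩, h5⟩ := hn
      have h6 : b * (q:ℤ) ≤ β := by rw [← hbq]; exact le_abs_self _
      have h7 : -(β:ℤ) ≤ b * q := by rw [← hbq]; exact neg_abs_le _
      rw [abs_of_nonpos (by omega)] at h3
      refine ⟨⟨?_, ?_⟩, ?_⟩
      · have : 1 ≤ -(n - b * q) := by omega
        have e : -((n - b * q) * r) = (-(n - b * q)) * r := by ring
        rw [e]
        exact le_trans hr0 (le_mul_of_one_le_left hr0.le this)
      · have e : -((n - b * q) * r) = (-(n - b * q)) * r := by ring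
        rw [e]
        refine le_trans ?_ hX'rZ
        exact mul_le_mul_of_nonneg_right (by omega) hr0.le
      · rw [neg_neg, htr, h4]
    · intro n _ m _ hnm
      have h8 : (n - b * q) * r = (m - b * q) * r := neg_injective hnm
      have := mul_right_cancel₀ hr0.ne' h8
      omega
  -- conclusion
  by_contra hcon
  push Not at hcon
  obtain ⟨⟨s1, hs1, h1⟩, ⟨s2, hs2, h2⟩⟩ := hcon
  have hσ : ∀ s : ℤ, s = 1 ∨ s = -1 → (- lam y * s = 1 ∨ - lam y * s = -1) ∧ - lam y * (- lam y * s) = s := by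
    intro s hs
    rcases hylam with h | h <;> rcases hs with h' | h' <;> rw [h, h'] <;> norm_num
  obtain ⟨σ1, hσ1⟩ : ∃ σ1, σ1 = - lam y * s1 := ⟨_, rfl⟩
  obtain ⟨σ2, hσ2⟩ : ∃ σ2, σ2 = - lam y * s2 := ⟨_, rfl⟩
  have k1 := hσ s1 hs1
  have k2 := hσ s2 hs2
  rw [← hσ1] at k1
  rw [← hσ2] at k2
  have p1 : (Pc σ1 : ℝ) < δ / 2 * Real.log (X / y) := by
    refine lt_of_le_of_lt ?_ h1
    have := hPle σ1
    rw [k1.2] at this
    exact_mod_cast this
  have p2 : (Mc σ2 : ℝ) < δ / 2 * Real.log (X / y) := by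
    refine lt_of_le_of_lt ?_ h2
    have := hMle σ2
    rw [k2.2] at this
    exact_mod_cast this
  have p3 : δ * Real.log X' ≤ (Pc σ1 : ℝ) + Mc σ2 := by
    rcases eq_or_ne σ1 σ2 with h | h
    · have h3 := hX₁ X' hX'1 gl (Or.inl rfl) σ1 k1.1
      rw [hsum σ1] at h3
      rw [← h]
      exact_mod_cast h3
    · have h4 : σ2 = -σ1 := by
        rcases k1.1 with h5 | h5 <;> rcases k2.1 with h6 | h6 <;> rw [h5, h6] at h ⊢ <;> simp at h ⊢
      have h3 := hX₁ X' hX'1 gs (Or.inr rfl) σ1 k1.1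
      rw [hsum2 σ1] at h3
      rw [h4]
      exact_mod_cast h3
  have p4 : δ * Real.log (X / y) ≤ δ * Real.log X' := mul_le_mul_of_nonneg_left hlog hδ.le
  linarith

end MP648Diag
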