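import Pool.Agent.Lib.MP_648c71_nt.EX.CountE

/-!
# Cubics whose discriminant is a square: both signs on each half line, everything explicit
-/

namespace MP648Diag

open Filter Pool.Agent.Lib.MP_648c71_nt Pool.Agent.Lib.MP_648c71_nt.AllCub

/-- the identity between the values at conjugate arguments -/
theorem cyc_id {P Q r s w Y x : ℚ} (hP : P ≠ 0) (h : r ^ 2 = -4 * P ^ 3 - 27 * Q ^ 2)
    (hx : x = -r / (3 * P)) (hw : s + w = (9 * Q - r) / (6 * P))
    (hY : x * Y = s ^ 2 - (s + w) * s + 2 * P / 3) : fc P Q s * fc P Q w = -x ^ 3 * fc P Q Y := by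
  obtain ⟨k, hk⟩ : ∃ k, k = s + w := ⟨_, rfl⟩
  rw [← hk] at hw hY
  have hws : w = k - s := by rw [hk]; ring
  have hr : r = 9 * Q - 6 * P * k := by
    rw [hw]
    field_simp
    ring
  have hR : 27 * Q ^ 2 - 27 * P * Q * k + 9 * P ^ 2 * k ^ 2 + P ^ 3 = 0 := by
    rw [hr] at h
    linear_combination h / 4
  have hx2 : x = 2 * k - 3 * Q / P := by
    rw [hx, hr]
    field_simp
    ring
  have e1 : x ^ 3 * fc P Q Y = (x * Y) ^ 3 + P * x ^ 2 * (x * Y) + Q * x ^ 3 := by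
    unfold fc
    ring
  have e2 : -x ^ 3 * fc P Q Y = -(x ^ 3 * fc P Q Y) := by ring
  rw [e2, e1, hY, hws, hx2]
  unfold fc
  field_simp
  linear_combination (-9 * P ^ 2 * (s * (k - s)) + (27 * P * Q * k + 8 * P ^ 3 - 27 * Q ^ 2)) * hR

/-- numerator of `s`, denominator `6 p q` -/
def cA (p q : ℕ) (u : ℤ) (n : ℤ) : ℤ := u * q - 6 * p * n

/-- numerator of `Y`, denominator `2 r (6 p q)^2` -/
def cN (p q : ℕ) (u : ℤ) (n : ℤ) : ℤ :=
  6 * p * cA p q u n ^ 2 - u * (6 * p * q) * cA p q u n - 4 * p ^ 2 * (6 * p * q) ^ 2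

def ct (p r β c Q : ℕ) : ℕ := 4 * p ^ 2 + 2 * r * β + c + p + Q + 1

def cM (p r β c Q q : ℕ) : ℕ := q * (ct p r β c Q + c + p + Q + 1)

def cA1 (p c q : ℕ) : ℕ := 6 * p + c * q

def cD (p r c q : ℕ) : ℕ :=
  72 * r * p ^ 2 * q + 2 * r * (6 * p * q) * cA1 p c q + 6 * p * cA1 p c q ^ 2 + c * (6 * p * q) * cA1 p c q

/-- the three arguments at a large negative `n` -/
theorem cyc_step {P Q : ℤ} {r p q c : ℕ} (hp : P = -(p:ℤ)) (hp0 : 0 < p) (hr : 0 < r)
    (h : (r:ℤ) ^ 2 = -4 * P ^ 3 - 27 * Q ^ 2) (hq : 0 < q) (hc : c = ((r:ℤ) - 9 * Q).natAbs) {β : ℕ} {n : ℤ}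
    (hn : n < 0) (hM : (cM p r β c Q.natAbs q : ℤ) < |n|) :
    (6 * p * q : ℤ) * ct p r β c Q.natAbs ≤ cA p q ((r:ℤ) - 9 * Q) n ∧
    (β : ℤ) * (2 * r * (6 * p * q) ^ 2) < cA p q ((r:ℤ) - 9 * Q) n * (2 * r * (6 * p * q)) ∧
    (β : ℤ) * (2 * r * (6 * p * q) ^ 2) < cN p q ((r:ℤ) - 9 * Q) n ∧
    ∃ e : ℤ, (e = gl ((r:ℚ) / (3 * p))) ∧
    gl (fc P Q ((cA p q ((r:ℤ) - 9 * Q) n * (2 * r * (6 * p * q)) : ℤ) / ((2 * r * (6 * p * q) ^ 2 : ℕ) : ℚ))) *
      gl (fc P Q ((n : ℚ) / q)) =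
      e * gl (fc P Q ((cN p q ((r:ℤ) - 9 * Q) n : ℤ) / ((2 * r * (6 * p * q) ^ 2 : ℕ) : ℚ))) := by
  obtain ⟨u, hu⟩ : ∃ u : ℤ, u = (r:ℤ) - 9 * Q := ⟨_, rfl⟩
  rw [← hu] at hc ⊢
  obtain ⟨A, hA⟩ : ∃ A, A = cA p q u n := ⟨_, rfl⟩
  obtain ⟨t, ht⟩ : ∃ t, t = ct p r β c Q.natAbs := ⟨_, rfl⟩
  have hpZ : (1:ℤ) ≤ p := by exact_mod_cast hp0
  have hrZ : (1:ℤ) ≤ r := by exact_mod_cast hr
  have hqZ : (1:ℤ) ≤ q := by exact_mod_cast hq
  have hcZ : (c:ℤ) = |u| := by rw [hc]; push_cast; rfl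
  have hc1 : -(c:ℤ) ≤ u := by rw [hcZ]; exact neg_abs_le u
  have hc2 : u ≤ c := by rw [hcZ]; exact le_abs_self u
  have hc0 : (0:ℤ) ≤ c := by positivity
  have hβ0 : (0:ℤ) ≤ β := by positivity
  obtain ⟨a1, ha1⟩ : ∃ a1 : ℤ, a1 = 6 * p * q := ⟨_, rfl⟩
  have ha1pos : 0 < a1 := by rw [ha1]; positivity
  have htZ : (t:ℤ) = 4 * p ^ 2 + 2 * r * β + c + p + Q.natAbs + 1 := by
    rw [ht]
    unfold ct
    push_cast
    ring
  have hM2 : (q:ℤ) * (t + c + p + Q.natAbs + 1) < -n := by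
    have : (cM p r β c Q.natAbs q : ℤ) = q * (t + c + p + Q.natAbs + 1) := by
      rw [ht]
      unfold cM
      push_cast
      ring
    rw [this, abs_of_neg hn] at hM
    exact hM
  have hAt : a1 * t ≤ A := by
    rw [hA, ha1]
    unfold cA
    have e1 : (q:ℤ) * (t + c) ≤ -n := by
      have : (0:ℤ) ≤ q * (p + Q.natAbs + 1) := by positivity
      have e : (q:ℤ) * (t + c + p + Q.natAbs + 1) = q * (t + c) + q * (p + Q.natAbs + 1) := by ring
      linarith
    have e2 : 6 * (p:ℤ) * (q * (t + c)) ≤ 6 * p * (-n) := mul_le_mul_of_nonneg_left e1 (by positivity)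
    have e3 : -((c:ℤ) * q) ≤ u * q := by
      have := mul_le_mul_of_nonneg_right hc1 (show (0:ℤ) ≤ q by positivity)
      linarith
    have e4 : (c:ℤ) * q ≤ 6 * p * q * c := by
      have : (0:ℤ) ≤ (6 * p - 1) * (q * c) := mul_nonneg (by linarith) (by positivity)
      linarith
    linarith
  have htpos : (0:ℤ) < t := by rw [htZ]; positivity
  have hApos : 0 < A := lt_of_lt_of_le (mul_pos ha1pos htpos) hAt
  rw [← hA, ← ht, ← ha1]
  have hN : cN p q u n = 6 * p * A ^ 2 - u * a1 * A - 4 * p ^ 2 * a1 ^ 2 := by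
    unfold cN
    rw [← hA, ← ha1]
  have hβt : (β:ℤ) < t := by
    rw [htZ]
    have : (β:ℤ) ≤ 2 * r * β := by nlinarith
    have h2 : (0:ℤ) ≤ 4 * p ^ 2 := by positivity
    have h3 : (0:ℤ) ≤ Q.natAbs := by positivity
    linarith
  refine ⟨hAt, ?_, ?_, gl ((r:ℚ) / (3 * p)), rfl, ?_⟩
  · have e1 : (β:ℤ) * a1 < A := lt_of_lt_of_le (by nlinarith) hAt
    have e2 : (0:ℤ) < 2 * r * a1 := by positivity
    have e3 : (β:ℤ) * a1 * (2 * r * a1) < A * (2 * r * a1) := mul_lt_mul_of_pos_right e1 e2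
    calc (β:ℤ) * (2 * r * a1 ^ 2) = (β:ℤ) * a1 * (2 * r * a1) := by ring
      _ < _ := e3
  · rw [hN]
    -- `6 p A ≥ 6 p a1 t`, `6 p t ≥ c + 1`
    have e1 : (c:ℤ) + 1 ≤ 6 * p * t := by
      have : (t:ℤ) ≤ 6 * p * t := by nlinarith
      have h2 : (0:ℤ) ≤ 4 * p ^ 2 := by positivity
      have h3 : (0:ℤ) ≤ Q.natAbs := by positivity
      have h4 : (0:ℤ) ≤ 2 * r * β := by positivity
      linarith
    have e2 : a1 * (6 * p * t) * A ≤ 6 * p * A ^ 2 := by
      have := mul_le_mul_of_nonneg_left hAt (show (0:ℤ) ≤ 6 * p * A by positivity)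
      calc a1 * (6 * p * t) * A = 6 * p * A * (a1 * t) := by ring
        _ ≤ 6 * p * A * A := this
        _ = 6 * p * A ^ 2 := by ring
    have e3 : a1 * (c + 1) * A ≤ a1 * (6 * p * t) * A :=
      mul_le_mul_of_nonneg_right (mul_le_mul_of_nonneg_left e1 ha1pos.le) hApos.le
    have e4 : u * a1 * A ≤ a1 * c * A := by
      have := mul_le_mul_of_nonneg_right hc2 (show (0:ℤ) ≤ a1 * A by positivity)
      linarith
    have e5 : a1 * (a1 * t) ≤ a1 * A := mul_le_mul_of_nonneg_left hAt ha1pos.le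
    have e6 : a1 ^ 2 * (4 * p ^ 2 + 2 * r * β) < a1 ^ 2 * t := by
      apply mul_lt_mul_of_pos_left _ (by positivity)
      rw [htZ]
      have h3 : (0:ℤ) ≤ Q.natAbs := by positivity
      linarith
    linarith
  · -- the identity
    have hpQ : (p:ℚ) ≠ 0 := by exact_mod_cast hp0.ne'
    have hrQ : (r:ℚ) ≠ 0 := by exact_mod_cast hr.ne'
    have hqQ : (q:ℚ) ≠ 0 := by exact_mod_cast hq.ne'
    obtain ⟨s, hs⟩ : ∃ s : ℚ, s = (A:ℚ) / (6 * p * q) := ⟨_, rfl⟩
    obtain ⟨w, hw⟩ : ∃ w : ℚ, w = (n:ℚ) / q := ⟨_, rfl⟩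
    obtain ⟨Y, hY⟩ : ∃ Y : ℚ, Y = (cN p q u n : ℚ) / (2 * r * (6 * p * q) ^ 2) := ⟨_, rfl⟩
    obtain ⟨x, hx⟩ : ∃ x : ℚ, x = (r:ℚ) / (3 * p) := ⟨_, rfl⟩
    have i1 : ((A * (2 * r * a1) : ℤ) : ℚ) / ((2 * r * (6 * p * q) ^ 2 : ℕ) : ℚ) = s := by
      rw [hs, ha1]
      push_cast
      field_simp
    have i2 : ((cN p q u n : ℤ) : ℚ) / ((2 * r * (6 * p * q) ^ 2 : ℕ) : ℚ) = Y := by
      rw [hY]
      push_cast
      rfl
    rw [i1, i2, ← hw, ← hx]
    have hPQ : (P:ℚ) = -(p:ℚ) := by rw [hp]; push_cast; ring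
    have key := cyc_id (P := (P:ℚ)) (Q := (Q:ℚ)) (r := (r:ℚ)) (s := s) (w := w) (Y := Y) (x := x)
      (by rw [hPQ]; exact neg_ne_zero.2 hpQ) (by exact_mod_cast h) (by rw [hx, hPQ]; field_simp) (by
        rw [hs, hw, hPQ, hA, hu]
        unfold cA
        push_cast
        field_simp
        ring) (by
        have hN' : (cN p q u n : ℚ) = 6 * p * A ^ 2 - u * (6 * p * q) * A - 4 * p ^ 2 * (6 * p * q) ^ 2 := by
          rw [hN, ha1]
          push_cast
          ring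
        have hsw : s + w = (u:ℚ) / (6 * p) := by
          rw [hs, hw, hA]
          unfold cA
          push_cast
          field_simp
          ring
        rw [hsw, hx, hY, hs, hPQ, hN']
        field_simp
        ring)
    have G := congrArg gl key
    have hx0 : x ≠ 0 := by rw [hx]; positivity
    have g3 : gl (-x ^ 3) = gl x := by
      rw [show -x ^ 3 = -1 * x * (x * x) by ring, gl_mul, gl_mul, gl_mul x x, gl_cm.self hx0]
      have : gl (-1) = 1 := by
        have h1 := gl_int (-1)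
        push_cast at h1
        rw [h1, lam_neg, lam_one]
      rw [this]
      ring
    rw [gl_mul, gl_mul, g3] at G
    exact G

theorem cyc_upper {r p q c : ℕ} {u : ℤ} (hc : c = u.natAbs) {X : ℕ} (hX : 1 ≤ X) {n : ℤ} (hn : |n| ≤ X)
    (hA0 : 0 ≤ cA p q u n) :
    (72 * r * p ^ 2 * q : ℤ) * n ≤ cD p r c q * X ^ 2 ∧
    cA p q u n * (2 * r * (6 * p * q)) ≤ cD p r c q * X ^ 2 ∧ cN p q u n ≤ cD p r c q * X ^ 2 := by
  have hXZ : (1:ℤ) ≤ X := by exact_mod_cast hX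
  have hcZ : (c:ℤ) = |u| := by rw [hc]; push_cast; rfl
  have hc1 : -(c:ℤ) ≤ u := by rw [hcZ]; exact neg_abs_le u
  have hc2 : u ≤ c := by rw [hcZ]; exact le_abs_self u
  obtain ⟨h1, h2⟩ := abs_le.1 hn
  have hXX : (X:ℤ) ≤ X ^ 2 := by nlinarith
  obtain ⟨A, hA⟩ : ∃ A, A = cA p q u n := ⟨_, rfl⟩
  rw [← hA] at hA0 ⊢
  have hA1 : A ≤ cA1 p c q * X := by
    rw [hA]
    unfold cA cA1
    push_cast
    have e1 : u * q ≤ c * q := mul_le_mul_of_nonneg_right hc2 (by positivity)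
    have e2 : (c:ℤ) * q ≤ c * q * X := le_mul_of_one_le_right (by positivity) hXZ
    have e3 : -(6 * (p:ℤ) * n) ≤ 6 * p * X := by
      have := mul_le_mul_of_nonneg_left h1 (show (0:ℤ) ≤ 6 * p by positivity)
      linarith
    linarith
  obtain ⟨A1, hA1'⟩ : ∃ A1, A1 = cA1 p c q := ⟨_, rfl⟩
  have hD : (cD p r c q : ℤ) = 72 * r * p ^ 2 * q + 2 * r * (6 * p * q) * A1 + 6 * p * A1 ^ 2 +
      c * (6 * p * q) * A1 := by
    unfold cD
    rw [hA1']
    push_cast
    ring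
  rw [← hA1'] at hA1
  have hA1nn : (0:ℤ) ≤ A1 := by positivity
  have d1 : (0:ℤ) ≤ 72 * r * p ^ 2 * q := by positivity
  have d2 : (0:ℤ) ≤ 2 * r * (6 * p * q) * A1 := by positivity
  have d3 : (0:ℤ) ≤ 6 * p * A1 ^ 2 := by positivity
  have d4 : (0:ℤ) ≤ c * (6 * p * q) * A1 := by positivity
  have hX2 : (0:ℤ) ≤ (X:ℤ) ^ 2 := by positivity
  refine ⟨?_, ?_, ?_⟩
  · calc (72 * r * p ^ 2 * q : ℤ) * n ≤ (72 * r * p ^ 2 * q : ℤ) * X := mul_le_mul_of_nonneg_left h2 d1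
      _ ≤ (72 * r * p ^ 2 * q : ℤ) * X ^ 2 := mul_le_mul_of_nonneg_left hXX d1
      _ ≤ _ := mul_le_mul_of_nonneg_right (by rw [hD]; linarith) hX2
  · have e1 : A * (2 * r * (6 * p * q)) ≤ (A1 * X) * (2 * r * (6 * p * q)) :=
      mul_le_mul_of_nonneg_right hA1 (by positivity)
    calc A * (2 * r * (6 * p * q)) ≤ (A1 * X) * (2 * r * (6 * p * q)) := e1
      _ = (2 * r * (6 * p * q) * A1) * X := by ring
      _ ≤ (2 * r * (6 * p * q) * A1) * X ^ 2 := mul_le_mul_of_nonneg_left hXX d2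
      _ ≤ _ := mul_le_mul_of_nonneg_right (by rw [hD]; linarith) hX2
  · have hN : cN p q u n = 6 * p * A ^ 2 - u * (6 * p * q) * A - 4 * p ^ 2 * (6 * p * q) ^ 2 := by
      unfold cN
      rw [← hA]
    rw [hN]
    have e1 : A ^ 2 ≤ (A1 * X) ^ 2 := pow_le_pow_left₀ hA0 hA1 2
    have e2 : 6 * p * A ^ 2 ≤ 6 * p * (A1 * X) ^ 2 := mul_le_mul_of_nonneg_left e1 (by positivity)
    have e3 : -(u * (6 * p * q) * A) ≤ c * (6 * p * q) * A := by
      have := mul_le_mul_of_nonneg_right hc1 (show (0:ℤ) ≤ (6 * p * q) * A by positivity)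
      linarith
    have e4 : (c:ℤ) * (6 * p * q) * A ≤ c * (6 * p * q) * (A1 * X) :=
      mul_le_mul_of_nonneg_left hA1 (by positivity)
    have e5 : (c:ℤ) * (6 * p * q) * (A1 * X) ≤ c * (6 * p * q) * A1 * X ^ 2 := by
      calc (c:ℤ) * (6 * p * q) * (A1 * X) = c * (6 * p * q) * A1 * X := by ring
        _ ≤ _ := mul_le_mul_of_nonneg_left hXX d4
    have e6 : (0:ℤ) ≤ 4 * p ^ 2 * (6 * p * q) ^ 2 := by positivity
    have e7 : 6 * (p:ℤ) * (A1 * X) ^ 2 = 6 * p * A1 ^ 2 * X ^ 2 := by ring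
    have e8 : (6 * p * A1 ^ 2 + c * (6 * p * q) * A1 : ℤ) * X ^ 2 ≤ cD p r c q * X ^ 2 :=
      mul_le_mul_of_nonneg_right (by rw [hD]; linarith) hX2
    linarith

/-- the count on the positive side -/
theorem cyc_count {P Q : ℤ} {r p q c B : ℕ} (hp : P = -(p:ℤ)) (hp0 : 0 < p) (hr : 0 < r)
    (h : (r:ℤ) ^ 2 = -4 * P ^ 3 - 27 * Q ^ 2) (hq : 0 < q) (hc : c = ((r:ℤ) - 9 * Q).natAbs) (hB : 1 ≤ B)
    (H : ∀ g : ℚ → ℤ, (g = gl ∨ g = gs) → ∀ s : ℤ, s = 1 ∨ s = -1 → SeqK q g P Q s B) {β : ℕ} {X' : ℕ}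
    (hX' : cD p r c q * (cD p r c q + 3 + 2 ^ (4 * B ^ 2 * (2 * cM p r β c Q.natAbs q + 4))) ^ 2 ≤ X')
    {σ : ℤ} (hσ : σ = 1 ∨ σ = -1) :
    1 / (48 * (B : ℝ) ^ 2) * Real.log X' ≤ (((Finset.Icc (1:ℤ) X').filter (fun m =>
      ((β * (2 * r * (6 * p * q) ^ 2) : ℕ) : ℤ) < m ∧
        gl (fc (P:ℚ) Q ((m : ℚ) / ((2 * r * (6 * p * q) ^ 2 : ℕ) : ℚ))) = σ)).card : ℝ) := by
  obtain ⟨M, hM⟩ : ∃ M, M = cM p r β c Q.natAbs q := ⟨_, rfl⟩
  obtain ⟨D, hD⟩ : ∃ D, D = cD p r c q := ⟨_, rfl⟩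
  obtain ⟨e0, he0⟩ : ∃ e0, e0 = 4 * B ^ 2 * (2 * M + 4) := ⟨_, rfl⟩
  rw [← hM, ← hD, ← he0] at hX'
  have hD0 : 0 < D := by
    rw [hD]
    unfold cD
    positivity
  obtain ⟨X, hX⟩ : ∃ X, X = Nat.sqrt (X' / D) := ⟨_, rfl⟩
  have hX1 : D + 3 + 2 ^ e0 ≤ X := by
    rw [hX]
    apply Nat.le_sqrt'.2
    rw [Nat.le_div_iff_mul_le hD0, mul_comm]
    exact hX'
  have h2e : 0 < 2 ^ e0 := Nat.two_pow_pos _
  have hX2 : D * X ^ 2 ≤ X' := by
    have h1 : X * X ≤ X' / D := by rw [hX]; exact Nat.sqrt_le _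
    rw [Nat.le_div_iff_mul_le hD0] at h1
    calc D * X ^ 2 = X * X * D := by ring
      _ ≤ X' := h1
  have hX3 : X' ≤ X ^ 4 := by
    have h1 : X' / D < (X + 1) * (X + 1) := by rw [hX]; exact Nat.lt_succ_sqrt _
    rw [Nat.div_lt_iff_lt_mul hD0] at h1
    refine h1.le.trans ?_
    have h2 : D ≤ X := by omega
    have h3 : (X + 1) * (X + 1) ≤ X ^ 3 := by
      have : 3 ≤ X := by omega
      nlinarith [Nat.mul_le_mul this this]
    calc (X + 1) * (X + 1) * D ≤ X ^ 3 * X := Nat.mul_le_mul h3 h2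
      _ = X ^ 4 := by ring
  have hXpos : 1 ≤ X := by omega
  have hX'pos : 1 ≤ X' := by
    refine le_trans ?_ hX2
    exact Nat.mul_pos hD0 (Nat.pow_pos hXpos)
  have hlog : Real.log X' ≤ 4 * Real.log X := by
    have h1 : (X':ℝ) ≤ (X:ℝ) ^ 4 := by exact_mod_cast hX3
    have h2 : (0:ℝ) < X' := by exact_mod_cast hX'pos
    have h3 := Real.log_le_log h2 h1
    rw [Real.log_pow] at h3
    push_cast at h3
    exact h3
  obtain ⟨T, hT⟩ : ∃ T, T = (Finset.Icc (1:ℤ) X').filter (fun m =>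
      ((β * (2 * r * (6 * p * q) ^ 2) : ℕ) : ℤ) < m ∧
        gl (fc (P:ℚ) Q ((m : ℚ) / ((2 * r * (6 * p * q) ^ 2 : ℕ) : ℚ))) = σ) := ⟨_, rfl⟩
  rw [← hT]
  -- the choice of the sequence
  obtain ⟨x, hx⟩ : ∃ x : ℚ, x = (r:ℚ) / (3 * p) := ⟨_, rfl⟩
  have hx0 : x ≠ 0 := by
    have h1 : (r:ℚ) ≠ 0 := by exact_mod_cast hr.ne'
    have h2 : (p:ℚ) ≠ 0 := by exact_mod_cast hp0.ne'
    rw [hx]
    exact div_ne_zero h1 (mul_ne_zero (by norm_num) h2)
  obtain ⟨e, he⟩ : ∃ e, e = gl x := ⟨_, rfl⟩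
  have hev : e = 1 ∨ e = -1 := by rw [he]; exact gl_cm.val x hx0
  obtain ⟨g, s, hg, hs, hchoice⟩ : ∃ (g : ℚ → ℤ) (s : ℤ), (g = gl ∨ g = gs) ∧ (s = 1 ∨ s = -1) ∧
      ∀ w : ℚ, |(P:ℚ)| + |(Q:ℚ)| + 1 ≤ |w| → g (fc P Q w) = s →
        (0 ≤ w → gl (fc P Q w) = σ) ∧ (w ≤ 0 → gl (fc P Q w) = -e) := by
    rcases eq_or_ne σ (-e) with h1 | h1
    · refine ⟨gl, -e, Or.inl rfl, ?_, fun w _ hw => ⟨fun _ => ?_, fun _ => hw⟩⟩
      · rcases hev with h2 | h2 <;> rw [h2] <;> norm_num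
      · rw [h1]
        exact hw
    · have h2 : σ = e := by
        rcases hσ with h3 | h3 <;> rcases hev with h4 | h4 <;> rw [h3, h4] at h1 ⊢ <;> simp at h1 ⊢
      refine ⟨gs, e, Or.inr rfl, hev, fun w hw1 hw => ⟨fun hw2 => ?_, fun hw2 => ?_⟩⟩
      · rw [abs_of_nonneg hw2] at hw1
        have h3 : 0 < fc (P:ℚ) Q w := cubic_pos hw1
        unfold gs at hw
        rw [sign_pos h3] at hw
        rw [h2, ← hw]
        norm_num
      · rw [abs_of_nonpos hw2] at hw1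
        have h3 : fc (P:ℚ) Q w < 0 := cubic_neg (by linarith)
        unfold gs at hw
        rw [sign_neg h3] at hw
        rw [← hw]
        norm_num
  obtain ⟨S, hS⟩ : ∃ S, S = (Finset.Icc (-(X:ℤ)) X).filter
      (fun n => (M:ℤ) < |n| ∧ g (fc P Q ((n : ℚ) / q)) = s) := ⟨_, rfl⟩
  have hcount : 1 / (4 * (B : ℝ) ^ 2) * Real.log X ≤ (S.card : ℝ) := by
    rw [hS]
    apply (H g hg s hs).count hB
    rw [← he0]
    omega
  have hqQ : (0:ℚ) < q := by exact_mod_cast hq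
  have hPa : |(P:ℚ)| = p := by
    rw [hp]
    push_cast
    rw [abs_neg]
    exact abs_of_nonneg (by positivity)
  have hMge : q * (p + Q.natAbs + 1) ≤ M := by
    rw [hM]
    unfold cM
    apply Nat.mul_le_mul_left
    omega
  have hbig : ∀ n : ℤ, (M:ℤ) < |n| → |(P:ℚ)| + |(Q:ℚ)| + 1 ≤ |(n:ℚ) / q| := by
    intro n hn
    rw [abs_div, abs_of_pos hqQ, le_div_iff₀ hqQ, hPa]
    have h1 : ((q * (p + Q.natAbs + 1) : ℕ) : ℤ) ≤ |n| := le_trans (by exact_mod_cast hMge) hn.le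
    have h3 : (((q * (p + Q.natAbs + 1) : ℕ) : ℤ) : ℚ) ≤ ((|n| : ℤ) : ℚ) := by exact_mod_cast h1
    push_cast at h3
    linarith
  obtain ⟨u, hu⟩ : ∃ u : ℤ, u = (r:ℤ) - 9 * Q := ⟨_, rfl⟩
  obtain ⟨q2, hq2⟩ : ∃ q2 : ℕ, q2 = 2 * r * (6 * p * q) ^ 2 := ⟨_, rfl⟩
  rw [← hq2] at hT
  have hq20 : 0 < q2 := by rw [hq2]; positivity
  -- the cover
  have hmem : ∀ n ∈ S, |n| ≤ X ∧ (M:ℤ) < |n| ∧ (0 < n → gl (fc P Q ((n : ℚ) / q)) = σ) ∧
      (n < 0 → gl (fc P Q ((n : ℚ) / q)) = -e) := by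
    intro n hn
    rw [hS, Finset.mem_filter, Finset.mem_Icc] at hn
    obtain ⟨h1, h2, h3⟩ := hn
    have h4 := hchoice _ (hbig n h2) h3
    refine ⟨abs_le.2 h1, h2, fun h5 => h4.1 ?_, fun h5 => h4.2 ?_⟩
    · have : (0:ℚ) < n := by exact_mod_cast h5
      positivity
    · have : (n:ℚ) ≤ 0 := by exact_mod_cast h5.le
      exact div_nonpos_of_nonpos_of_nonneg this hqQ.le
  have hstep := fun (n : ℤ) (hn : n < 0) (hM' : (M:ℤ) < |n|) =>
    cyc_step (β := β) hp hp0 hr h hq hc hn (by rw [← hM]; exact hM')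
  rw [← hu] at hstep
  have hc' : c = u.natAbs := by rw [hc, hu]
  let S1 := S.filter (fun n => 0 < n)
  let S2 := S.filter (fun n => n < 0 ∧ gl (fc P Q ((cA p q u n * (2 * r * (6 * p * q)) : ℤ) / (q2 : ℚ))) = σ)
  let S3 := S.filter (fun n => n < 0 ∧ gl (fc P Q ((cN p q u n : ℤ) / (q2 : ℚ))) = σ)
  have hcover : S ⊆ S1 ∪ (S2 ∪ S3) := by
    intro n hn
    obtain ⟨h1, h2, h3, h4⟩ := hmem n hn
    rcases lt_trichotomy n 0 with h5 | h5 | h5
    · obtain ⟨-, -, -, e', he', h6⟩ := hstep n h5 h2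
      rw [← hx, ← he] at he'
      rw [he', h4 h5, ← hq2] at h6
      have h7 : fc (P:ℚ) Q ((cA p q u n * (2 * r * (6 * p * q)) : ℤ) / (q2 : ℚ)) ≠ 0 ∨ True := Or.inr trivial
      -- the two values are opposite
      obtain ⟨v1, hv1⟩ : ∃ v1, v1 = gl (fc P Q ((cA p q u n * (2 * r * (6 * p * q)) : ℤ) / (q2 : ℚ))) := ⟨_, rfl⟩
      obtain ⟨v2, hv2⟩ : ∃ v2, v2 = gl (fc P Q ((cN p q u n : ℤ) / (q2 : ℚ))) := ⟨_, rfl⟩
      have hv1v : v1 = 1 ∨ v1 = -1 := by
        rw [hv1]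
        apply gl_cm.val
        -- the argument is large
        apply cubic_ne
        obtain ⟨k1, -, -, -⟩ := hstep n h5 h2
        have k2 : ((cA p q u n * (2 * r * (6 * p * q)) : ℤ) : ℚ) / (q2 : ℚ) = (cA p q u n : ℚ) / (6 * p * q) := by
          have hpQ : (p:ℚ) ≠ 0 := by exact_mod_cast hp0.ne'
          have hrQ : (r:ℚ) ≠ 0 := by exact_mod_cast hr.ne'
          have hqQ' : (q:ℚ) ≠ 0 := hqQ.ne'
          rw [hq2]
          push_cast
          field_simp
        have hW0 : (0:ℚ) ≤ (cA p q u n : ℚ) / (6 * p * q) := by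
          have k3 : (0:ℤ) ≤ cA p q u n := le_trans (by positivity) k1
          have k4 : (0:ℚ) ≤ (cA p q u n : ℚ) := by exact_mod_cast k3
          positivity
        rw [k2, abs_of_nonneg hW0, le_div_iff₀ (by
          have : (0:ℚ) < p := by exact_mod_cast hp0
          positivity), hPa]
        · have k3 : ((6 * p * q * ct p r β c Q.natAbs : ℤ) : ℚ) ≤ (cA p q u n : ℚ) := by exact_mod_cast k1
          have k4 : (p:ℚ) + |(Q:ℚ)| + 1 ≤ ct p r β c Q.natAbs := by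
            have : ((p + Q.natAbs + 1 : ℕ) : ℚ) ≤ (ct p r β c Q.natAbs : ℚ) := by
              have : p + Q.natAbs + 1 ≤ ct p r β c Q.natAbs := by
                unfold ct
                omega
              exact_mod_cast this
            rw [Nat.cast_add, Nat.cast_add, Nat.cast_natAbs, Int.cast_abs, Nat.cast_one] at this
            exact this
          have k5 := mul_le_mul_of_nonneg_left k4 (show (0:ℚ) ≤ 6 * p * q by positivity)
          push_cast at k3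
          linarith
      have hopp : v2 = -v1 := by
        have h8 : v1 * -e = e * v2 := by
          rw [hv1, hv2]
          exact h6
        rcases hev with h9 | h9 <;> rw [h9] at h8 <;> linarith
      rw [Finset.mem_union, Finset.mem_union]
      right
      rcases eq_or_ne v1 σ with h9 | h9
      · left
        exact Finset.mem_filter.2 ⟨hn, h5, by rw [← hv1]; exact h9⟩
      · right
        refine Finset.mem_filter.2 ⟨hn, h5, ?_⟩
        rw [← hv2, hopp]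
        rcases hσ with h10 | h10 <;> rcases hv1v with h11 | h11 <;> rw [h10, h11] at h9 ⊢ <;> simp at h9 ⊢
    · rw [h5] at h2
      simp at h2
      omega
    · rw [Finset.mem_union]
      left
      exact Finset.mem_filter.2 ⟨hn, h5⟩
  have c1 : S1.card ≤ T.card := by
    apply Finset.card_le_card_of_injOn (fun n => (72 * r * p ^ 2 * q : ℤ) * n)
    · intro n hn
      have hn' := Finset.mem_filter.1 (Finset.mem_coe.1 hn)
      obtain ⟨h1, h2, h3, -⟩ := hmem n hn'.1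
      have h0 := hn'.2
      rw [Finset.mem_coe, hT, Finset.mem_filter, Finset.mem_Icc]
      have hK : (1:ℤ) ≤ 72 * r * p ^ 2 * q := by
        have : (0:ℤ) < 72 * r * p ^ 2 * q := by
          have a1 : (0:ℤ) < r := by exact_mod_cast hr
          have a2 : (0:ℤ) < p := by exact_mod_cast hp0
          have a3 : (0:ℤ) < q := by exact_mod_cast hq
          positivity
        omega
      refine ⟨⟨?_, ?_⟩, ?_, ?_⟩
      · nlinarith
      · have h6 : (72 * r * p ^ 2 * q : ℤ) * n ≤ cD p r c q * X ^ 2 := by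
          rw [abs_le] at h1
          have hXZ : (1:ℤ) ≤ X := by exact_mod_cast hXpos
          have hXX : (X:ℤ) ≤ X ^ 2 := by nlinarith
          have hDge : (72 * r * p ^ 2 * q : ℤ) ≤ cD p r c q := by
            have : 72 * r * p ^ 2 * q ≤ cD p r c q := by
              unfold cD
              omega
            exact_mod_cast this
          calc (72 * r * p ^ 2 * q : ℤ) * n ≤ (72 * r * p ^ 2 * q : ℤ) * X ^ 2 :=
                mul_le_mul_of_nonneg_left (h1.2.trans hXX) (by omega)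
            _ ≤ _ := mul_le_mul_of_nonneg_right hDge (by positivity)
        refine h6.trans ?_
        rw [← hD]
        exact_mod_cast hX2
      · -- `q β < n`
        have h6 : ((q * β : ℕ) : ℤ) < n := by
          rw [abs_of_pos h0] at h2
          refine lt_of_le_of_lt ?_ h2
          have : q * β ≤ M := by
            rw [hM]
            unfold cM
            apply Nat.mul_le_mul_left
            unfold ct
            have : β ≤ 2 * r * β := by nlinarith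
            omega
          exact_mod_cast this
        have h7 : (72 * r * p ^ 2 * q : ℤ) * ((q * β : ℕ) : ℤ) < (72 * r * p ^ 2 * q : ℤ) * n :=
          mul_lt_mul_of_pos_left h6 (by omega)
        refine lt_of_le_of_lt (le_of_eq ?_) h7
        rw [hq2]
        push_cast
        ring
      · have h8 : (((72 * r * p ^ 2 * q : ℤ) * n : ℤ) : ℚ) / (q2 : ℚ) = (n:ℚ) / q := by
          have hpQ : (p:ℚ) ≠ 0 := by exact_mod_cast hp0.ne'
          have hrQ : (r:ℚ) ≠ 0 := by exact_mod_cast hr.ne'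
          have hqQ' : (q:ℚ) ≠ 0 := hqQ.ne'
          rw [hq2]
          push_cast
          field_simp
          ring
        rw [h8]
        exact h3 h0
    · intro n _ m _ hnm
      have hK : (0:ℤ) < 72 * r * p ^ 2 * q := by
        have a1 : (0:ℤ) < r := by exact_mod_cast hr
        have a2 : (0:ℤ) < p := by exact_mod_cast hp0
        have a3 : (0:ℤ) < q := by exact_mod_cast hq
        positivity
      exact mul_left_cancel₀ hK.ne' hnm
  have c2 : S2.card ≤ T.card := by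
    apply Finset.card_le_card_of_injOn (fun n => cA p q u n * (2 * r * (6 * p * q)))
    · intro n hn
      have hn' := Finset.mem_filter.1 (Finset.mem_coe.1 hn)
      obtain ⟨h1, h2, -, -⟩ := hmem n hn'.1
      obtain ⟨h5, h6⟩ := hn'.2
      obtain ⟨k1, k2, -, -⟩ := hstep n h5 h2
      have hA0 : 0 ≤ cA p q u n := le_trans (by positivity) k1
      rw [Finset.mem_coe, hT, Finset.mem_filter, Finset.mem_Icc]
      have hup := (cyc_upper (r := r) hc' hXpos h1 hA0).2.1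
      have k2' : ((β * q2 : ℕ) : ℤ) < cA p q u n * (2 * r * (6 * p * q)) := by
        rw [hq2]
        push_cast
        exact k2
      refine ⟨⟨?_, ?_⟩, k2', h6⟩
      · have : (0:ℤ) ≤ ((β * q2 : ℕ) : ℤ) := by positivity
        dsimp only
        omega
      · refine hup.trans ?_
        rw [← hD]
        exact_mod_cast hX2
    · intro n _ m _ hnm
      have hK : (0:ℤ) < 2 * r * (6 * p * q) := by
        have a1 : (0:ℤ) < r := by exact_mod_cast hr
        have a2 : (0:ℤ) < p := by exact_mod_cast hp0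
        have a3 : (0:ℤ) < q := by exact_mod_cast hq
        positivity
      have h7 := mul_right_cancel₀ hK.ne' hnm
      unfold cA at h7
      have h8 : (6 * p : ℤ) * n = 6 * p * m := by linarith
      have a2 : (0:ℤ) < 6 * p := by
        have : (0:ℤ) < p := by exact_mod_cast hp0
        positivity
      exact mul_left_cancel₀ a2.ne' h8
  have c3 : S3.card ≤ T.card := by
    apply Finset.card_le_card_of_injOn (fun n => cN p q u n)
    · intro n hn
      have hn' := Finset.mem_filter.1 (Finset.mem_coe.1 hn)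
      obtain ⟨h1, h2, -, -⟩ := hmem n hn'.1
      obtain ⟨h5, h6⟩ := hn'.2
      obtain ⟨k1, -, k2, -⟩ := hstep n h5 h2
      have hA0 : 0 ≤ cA p q u n := le_trans (by positivity) k1
      rw [Finset.mem_coe, hT, Finset.mem_filter, Finset.mem_Icc]
      have hup := (cyc_upper (r := r) hc' hXpos h1 hA0).2.2
      have k2' : ((β * q2 : ℕ) : ℤ) < cN p q u n := by
        rw [hq2]
        push_cast
        exact k2
      refine ⟨⟨?_, ?_⟩, k2', h6⟩
      · have : (0:ℤ) ≤ ((β * q2 : ℕ) : ℤ) := by positivity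
        dsimp only
        omega
      · refine hup.trans ?_
        rw [← hD]
        exact_mod_cast hX2
    · intro n hn m hm hnm
      have hn' := Finset.mem_filter.1 (Finset.mem_coe.1 hn)
      have hm' := Finset.mem_filter.1 (Finset.mem_coe.1 hm)
      obtain ⟨k1, -, -, -⟩ := hstep n hn'.2.1 (hmem n hn'.1).2.1
      obtain ⟨k2, -, -, -⟩ := hstep m hm'.2.1 (hmem m hm'.1).2.1
      obtain ⟨A, hA⟩ : ∃ A, A = cA p q u n := ⟨_, rfl⟩
      obtain ⟨A', hA'⟩ : ∃ A', A' = cA p q u m := ⟨_, rfl⟩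
      have a1 : (0:ℤ) < r := by exact_mod_cast hr
      have a2 : (0:ℤ) < p := by exact_mod_cast hp0
      have a3 : (0:ℤ) < q := by exact_mod_cast hq
      rw [← hA] at k1
      rw [← hA'] at k2
      have e1 : (A - A') * (6 * p * (A + A') - u * (6 * p * q)) = 0 := by
        have h7 : cN p q u n = cN p q u m := hnm
        unfold cN at h7
        rw [← hA, ← hA'] at h7
        linear_combination h7
      have hct : (c:ℤ) + 1 ≤ ct p r β c Q.natAbs := by
        have : c + 1 ≤ ct p r β c Q.natAbs := by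
          unfold ct
          omega
        exact_mod_cast this
      have hcu : u ≤ c := by
        rw [hc']
        push_cast
        exact le_abs_self u
      have e2 : 0 < 6 * p * (A + A') - u * (6 * p * q) := by
        have f1 : (6 * p * q : ℤ) * (c + 1) ≤ A := le_trans (mul_le_mul_of_nonneg_left hct (by positivity)) k1
        have f2 : (0:ℤ) ≤ A' := le_trans (by positivity) k2
        have f3 : u * (6 * p * q) ≤ c * (6 * p * q) := mul_le_mul_of_nonneg_right hcu (by positivity)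
        have f4 : (0:ℤ) < 6 * p * q := by positivity
        have f5 : A ≤ 6 * p * A := by
          have : (0:ℤ) ≤ A := le_trans (by positivity) f1
          nlinarith
        have f6 : (0:ℤ) ≤ 6 * p * A' := by positivity
        nlinarith
      have e3 : A = A' := by
        rcases mul_eq_zero.1 e1 with h8 | h8
        · linarith
        · exact absurd h8 e2.ne'
      rw [hA, hA'] at e3
      unfold cA at e3
      have h8 : (6 * p : ℤ) * n = 6 * p * m := by linarith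
      have a4 : (0:ℤ) < 6 * p := by positivity
      exact mul_left_cancel₀ a4.ne' h8
  have hfin : S.card ≤ 3 * T.card := by
    have h1 := (Finset.card_le_card hcover).trans (Finset.card_union_le _ _)
    have h2 := Finset.card_union_le S2 S3
    omega
  have hfinR : (S.card : ℝ) ≤ 3 * T.card := by exact_mod_cast hfin
  have hBR : (0:ℝ) < B := by exact_mod_cast hB
  have h1 : 1 / (48 * (B : ℝ) ^ 2) * Real.log X' ≤ 1 / (48 * (B : ℝ) ^ 2) * (4 * Real.log X) :=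
    mul_le_mul_of_nonneg_left hlog (by positivity)
  have h2 : 1 / (48 * (B : ℝ) ^ 2) * (4 * Real.log X) = (1 / (4 * (B : ℝ) ^ 2) * Real.log X) / 3 := by
    field_simp
    ring
  linarith

end MP648Diag
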