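import Pool.Agent.Lib.MP_648c71_nt.EX.Defs

/-!
# Everything explicit: definition
-/

set_option autoImplicit false

namespace Pool.Agent.Lib.MP_648c71_nt.AllCub

/-- `Seq` with a bound `B` for the denominator, for the logarithm (to the base 2) of the growth constant and
for the multiplicities. -/
def SeqE (g : ℚ → ℤ) (b c : ℚ) (s : ℤ) (B : ℕ) : Prop :=
  ∃ q : ℕ, 0 < q ∧ q ≤ B ∧ ∃ n : ℕ → ℤ, (∀ k, |n k| ≤ ((2 : ℤ) ^ B) ^ (k + 1)) ∧
    (∀ (v : ℤ) (N : ℕ), ((Finset.range N).filter (fun k => n k = v)).card ≤ B) ∧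
    ∀ k, g (fc b c ((n k : ℚ) / q)) = s

theorem SeqE.mono {g : ℚ → ℤ} {b c : ℚ} {s : ℤ} {B B' : ℕ} (h : SeqE g b c s B) (hB : B ≤ B') :
    SeqE g b c s B' := by
  obtain ⟨q, h0, h1, n, h2, h3, h4⟩ := h
  refine ⟨q, h0, h1.trans hB, n, fun k => (h2 k).trans ?_, fun v N => (h3 v N).trans hB, h4⟩
  exact pow_le_pow_left₀ (by positivity) (pow_le_pow_right₀ (by norm_num) hB) _

theorem SeqE.seqB {g : ℚ → ℤ} {b c : ℚ} {s : ℤ} {B : ℕ} (h : SeqE g b c s B) : SeqB g b c s B := by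
  obtain ⟨q, h0, h1, n, h2, h3, h4⟩ := h
  exact ⟨q, h0, h1, 2 ^ B, B, n, fun k => by push_cast; exact h2 k, h3, h4⟩

end Pool.Agent.Lib.MP_648c71_nt.AllCub
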