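import Pool.Agent.Lib.MP_648c71_nt.EX.Pell
import Pool.Agent.Lib.MP_648c71_nt.AC.Case2

/-!
# A Pell solution which is large and of bounded size
-/

set_option autoImplicit false

namespace Pool.Agent.Lib.MP_648c71_nt.AllCub

theorem pell_E : ∃ K : ℕ, ∀ d : ℤ, 0 < d → ¬ IsSquare d → ∀ M : ℕ, ∃ a e : ℤ, (M : ℤ) ≤ e ∧ 2 ≤ a ∧ 1 ≤ e ∧
    a ^ 2 - d * e ^ 2 = 1 ∧ a ≤ 2 ^ ((K + d.natAbs) ^ K * (M + 1)) := by
  refine ⟨65, fun d hd hns M => ?_⟩
  obtain ⟨a, e, hp, ha1, he1, hab⟩ := exists_pell (by omega) hns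
  have ha2 : 2 ≤ a := by
    by_contra hcon
    have h1 : a = 1 := by omega
    rw [h1] at hp
    have h2 : 1 ≤ d * e ^ 2 := by nlinarith [mul_pos hd (show 0 < e ^ 2 by positivity)]
    linarith
  have hf := orb_facts d a e a e hd ha2 he1 hp ha1 he1
  have hea : e ≤ a := by nlinarith
  have hlow : ∀ k : ℕ, (k : ℤ) + 1 ≤ (orb d a e a e k).2 := by
    intro k
    induction k with
    | zero => simpa [orb] using he1
    | succ k ih =>
      have e2 : (orb d a e a e (k + 1)).2 = e * (orb d a e a e k).1 + a * (orb d a e a e k).2 := rfl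
      have p1 : 1 ≤ (orb d a e a e k).1 := ha1.trans (hf k).1
      have t3 : 0 < e * (orb d a e a e k).1 := by positivity
      have t4 : 2 * (orb d a e a e k).2 ≤ a * (orb d a e a e k).2 :=
        mul_le_mul_of_nonneg_right ha2 (by linarith)
      rw [e2]
      push_cast
      linarith
  refine ⟨(orb d a e a e M).1, (orb d a e a e M).2, ?_, ha2.trans (hf M).1, he1.trans (hf M).2.1, ?_, ?_⟩
  · have := hlow M
    linarith
  · rw [(hf M).2.2.1]
    exact hp
  · obtain ⟨D, hD⟩ : ∃ D : ℕ, D = d.natAbs := ⟨_, rfl⟩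
    have hdD : (D : ℤ) = d := by rw [hD, Int.natCast_natAbs, abs_of_pos hd]
    have hdt : d.toNat = D := by
      rw [hD]
      omega
    rw [← hD]
    have h2p : ∀ n : ℕ, (n : ℤ) ≤ 2 ^ n := fun n => by exact_mod_cast Nat.lt_two_pow_self.le
    have b1 : (2 * d + 1) ^ pM d ≤ (2 : ℤ) ^ ((2 * D + 1) * pM d) := by
      rw [pow_mul]
      apply pow_le_pow_left₀ (by linarith)
      have := h2p (2 * D + 1)
      push_cast at this
      rw [hdD] at this
      exact this
    have b2 : 2 * (d + 1) ^ 2 ≤ (2 : ℤ) ^ (1 + 2 * (D + 1)) := by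
      rw [pow_add, pow_one, mul_comm 2 (D + 1), pow_mul]
      have := h2p (D + 1)
      push_cast at this
      rw [hdD] at this
      have h3 : (d + 1) ^ 2 ≤ (2 ^ (D + 1)) ^ 2 := pow_le_pow_left₀ (by linarith) this 2
      linarith
    have b3 : d + 3 ≤ (2 : ℤ) ^ (D + 3) := by
      have := h2p (D + 3)
      push_cast at this
      rw [hdD] at this
      exact this
    obtain ⟨E, hE⟩ : ∃ E : ℕ, E = (D + 3) + (1 + 2 * (D + 1)) + 2 * ((2 * D + 1) * pM d) := ⟨_, rfl⟩
    have b4 : (d + 3) * a ≤ (2 : ℤ) ^ E := by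
      have c1 : a ≤ (2 : ℤ) ^ (1 + 2 * (D + 1)) * (2 ^ ((2 * D + 1) * pM d) * 2 ^ ((2 * D + 1) * pM d)) := by
        refine hab.trans ?_
        apply mul_le_mul b2 _ (by positivity) (by positivity)
        exact mul_le_mul b1 b1 (by positivity) (by positivity)
      calc (d + 3) * a ≤ 2 ^ (D + 3) *
            ((2 : ℤ) ^ (1 + 2 * (D + 1)) * (2 ^ ((2 * D + 1) * pM d) * 2 ^ ((2 * D + 1) * pM d))) :=
            mul_le_mul b3 c1 (by linarith) (by positivity)
        _ = 2 ^ E := by
          rw [hE, ← pow_add, ← pow_add, ← pow_add]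
          congr 1
          ring
    have b5 : (orb d a e a e M).1 ≤ ((2 : ℤ) ^ E) ^ (M + 1) := by
      have c2 := (hf M).2.2.2.1
      have c3 : 0 ≤ (orb d a e a e M).2 := le_trans (by linarith) (hf M).2.1
      have c4 : (a + d * e) ^ M * (a + e) ≤ ((2 : ℤ) ^ E) ^ (M + 1) := by
        rw [pow_succ]
        have hde : 0 < d * e := by positivity
        have hde2 : d * e ≤ d * a := mul_le_mul_of_nonneg_left hea hd.le
        apply mul_le_mul
        · apply pow_le_pow_left₀ (by linarith)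
          linarith
        · have : 0 < d * a := by positivity
          linarith
        · linarith
        · positivity
      linarith
    refine b5.trans ?_
    rw [← pow_mul]
    apply pow_le_pow_right₀ (by norm_num)
    apply Nat.mul_le_mul_right
    obtain ⟨n, hn⟩ : ∃ n : ℕ, n = 65 + D := ⟨_, rfl⟩
    have hpM : pM d = (4 * D + 3) * ((2 * D + 2) * (2 * D + 2)) := by
      unfold pM
      rw [hdt]
    have c5 : E ≤ n ^ 5 := by
      rw [hE, hpM]
      have c6 : (2 * D + 1) * ((4 * D + 3) * ((2 * D + 2) * (2 * D + 2))) ≤ (2 * n) * ((4 * n) * ((2 * n) * (2 * n))) := by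
        apply Nat.mul_le_mul (by omega)
        apply Nat.mul_le_mul (by omega)
        apply Nat.mul_le_mul <;> omega
      have c7 : (2 * n) * ((4 * n) * ((2 * n) * (2 * n))) = 32 * n ^ 4 := by ring
      have c8 : (D + 3) + (1 + 2 * (D + 1)) ≤ 3 * n := by omega
      have c9 : 3 * n ≤ n ^ 4 := by
        have h3 : 3 ≤ n ^ 3 := by
          calc 3 ≤ n ^ 1 := by rw [pow_one]; omega
            _ ≤ n ^ 3 := Nat.pow_le_pow_right (by omega) (by norm_num)
        calc 3 * n ≤ n ^ 3 * n := Nat.mul_le_mul_right _ h3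
          _ = n ^ 4 := (pow_succ _ _).symm
      have c10 : 65 * n ^ 4 ≤ n ^ 5 := by
        calc 65 * n ^ 4 ≤ n * n ^ 4 := Nat.mul_le_mul_right _ (by omega)
          _ = n ^ 5 := by ring
      omega
    rw [← hn]
    exact c5.trans (Nat.pow_le_pow_right (by omega) (by norm_num))

end Pool.Agent.Lib.MP_648c71_nt.AllCub
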