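import Pool.Agent.Lib.MP_648c71_nt.EX.Orbit
import Pool.Agent.Lib.MP_648c71_nt.EX.DefsE
import Pool.Agent.Lib.MP_648c71_nt.EX.PellE

/-!
# The seven-term orbit, fully explicit
-/

set_option autoImplicit false

namespace Pool.Agent.Lib.MP_648c71_nt.AllCub

/-- A sequence of growth `C`, multiplicity at most two, which is at least `R` everywhere. -/
def NiceE (W : ℕ → ℚ) (R : ℚ) (C : ℕ) : Prop :=
  (∀ k, |W k| ≤ (C : ℚ) ^ (k + 1)) ∧
    (∀ (v : ℚ) (N : ℕ), ((Finset.range N).filter (fun k => W k = v)).card ≤ 2) ∧ ∀ k, R ≤ |W k|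

/-- An integer sequence: `≥ M`, growth `G`, strictly increasing. -/
structure TS (t : ℕ → ℤ) (M G : ℕ) : Prop where
  one : ∀ k, 1 ≤ t k
  low : ∀ k, (M : ℤ) ≤ t k
  mono : StrictMono t
  grow : ∀ k, t k ≤ (G : ℤ) ^ (k + 1)

theorem TS.sq {t : ℕ → ℤ} {M G : ℕ} (h : TS t M G) : TS (fun k => t k ^ 2) M (G ^ 2) where
  one := fun k => one_le_pow₀ (h.one k)
  low := fun k => by
    have h1 := h.one k
    have h2 := h.low k
    nlinarith
  mono := fun i j hij => by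
    have h1 := h.one i
    have h2 : t i < t j := h.mono hij
    have h3 : t i ^ 2 < t j ^ 2 := pow_lt_pow_left₀ h2 (by linarith) two_ne_zero
    exact h3
  grow := fun k => by
    have h1 := h.one k
    push_cast
    rw [← pow_mul, mul_comm, pow_mul]
    exact pow_le_pow_left₀ (by linarith) (h.grow k) 2

theorem TS.G_one {t : ℕ → ℤ} {M G : ℕ} (h : TS t M G) : 1 ≤ G := by
  by_contra hcon
  have h0 : G = 0 := by omega
  have h1 := h.one 0
  have h2 := h.grow 0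
  rw [h0] at h2
  simp at h2
  omega

/-- The threshold. -/
def th (A B Γ b c : ℚ) : ℕ := A.den * (B.num.natAbs + Γ.num.natAbs + 1 + b.num.natAbs + c.num.natAbs)

theorem natAbs_ge (x : ℚ) : |x| ≤ x.num.natAbs := by
  have h1 : |x| = (x.num.natAbs : ℚ) / x.den := by
    conv_lhs => rw [← Rat.num_div_den x]
    rw [abs_div, Nat.cast_natAbs, Int.cast_abs, Nat.abs_cast]
  rw [h1]
  have h2 : (1 : ℚ) ≤ x.den := by exact_mod_cast x.den_pos
  exact div_le_self (Nat.cast_nonneg _) h2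

theorem den_ge {x : ℚ} (hx : x ≠ 0) : 1 ≤ |x| * x.den := by
  have h1 : |x| * x.den = (x.num.natAbs : ℚ) := by
    have h2 : (x.den : ℚ) ≠ 0 := by exact_mod_cast x.den_nz
    have h3 : |x| = (x.num.natAbs : ℚ) / x.den := by
      conv_lhs => rw [← Rat.num_div_den x]
      rw [abs_div, Nat.cast_natAbs, Int.cast_abs, Nat.abs_cast]
    rw [h3]
    field_simp
  rw [h1]
  have h2 : 1 ≤ x.num.natAbs := Nat.one_le_iff_ne_zero.2 (Int.natAbs_ne_zero.2 (Rat.num_ne_zero.2 hx))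
  exact_mod_cast h2

theorem th_spec {A B Γ b c : ℚ} (hA : A ≠ 0) {M : ℕ} (hM : th A B Γ b c ≤ M) {t : ℚ} (ht : (M : ℚ) ≤ t) :
    |B| + |Γ| + (1 + |b| + |c|) ≤ |A| * t := by
  obtain ⟨S, hS⟩ : ∃ S : ℕ, S = B.num.natAbs + Γ.num.natAbs + 1 + b.num.natAbs + c.num.natAbs := ⟨_, rfl⟩
  have h1 : |B| + |Γ| + (1 + |b| + |c|) ≤ S := by
    rw [hS]
    push_cast
    have := natAbs_ge B
    have := natAbs_ge Γ
    have := natAbs_ge b
    have := natAbs_ge c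
    linarith
  have h2 := den_ge hA
  have h3 : (A.den : ℚ) * S ≤ t := by
    refine le_trans ?_ ht
    have : A.den * S ≤ M := by
      rw [hS]
      exact hM
    exact_mod_cast this
  have hS0 : (0 : ℚ) ≤ S := Nat.cast_nonneg _
  calc |B| + |Γ| + (1 + |b| + |c|) ≤ 1 * S := by linarith
    _ ≤ (|A| * A.den) * S := mul_le_mul_of_nonneg_right h2 hS0
    _ = |A| * (A.den * S) := by ring
    _ ≤ |A| * t := mul_le_mul_of_nonneg_left h3 (abs_nonneg A)

/-- The coefficient sum. -/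
def cs (A B Γ : ℚ) : ℕ := A.num.natAbs + B.num.natAbs + Γ.num.natAbs

theorem cs_spec (A B Γ : ℚ) {t : ℕ → ℤ} {M G : ℕ} (ht : TS t M G) (k : ℕ) :
    |A * (t k : ℚ) ^ 2 + B * t k + Γ| ≤ (((cs A B Γ + 1) * G ^ 2 : ℕ) : ℚ) ^ (k + 1) := by
  have h1 : (1 : ℚ) ≤ t k := by exact_mod_cast ht.one k
  have h2 : (t k : ℚ) ≤ (G : ℚ) ^ (k + 1) := by exact_mod_cast ht.grow k
  have h3 : (t k : ℚ) ≤ (t k : ℚ) ^ 2 := by nlinarith
  have h4 : (1 : ℚ) ≤ (t k : ℚ) ^ 2 := by nlinarith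
  have h5 : (t k : ℚ) ^ 2 ≤ ((G : ℚ) ^ 2) ^ (k + 1) := by
    rw [← pow_mul, mul_comm, pow_mul]
    exact pow_le_pow_left₀ (by linarith) h2 2
  have i1 : |A * (t k : ℚ) ^ 2| ≤ (A.num.natAbs : ℚ) * (t k : ℚ) ^ 2 := by
    rw [abs_mul, abs_of_nonneg (by positivity : (0 : ℚ) ≤ (t k : ℚ) ^ 2)]
    exact mul_le_mul_of_nonneg_right (natAbs_ge A) (by positivity)
  have i2 : |B * (t k : ℚ)| ≤ (B.num.natAbs : ℚ) * (t k : ℚ) ^ 2 := by
    rw [abs_mul, abs_of_nonneg (by linarith : (0 : ℚ) ≤ (t k : ℚ))]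
    exact mul_le_mul (natAbs_ge B) h3 (by linarith) (Nat.cast_nonneg _)
  have i3 : |Γ| ≤ (Γ.num.natAbs : ℚ) * (t k : ℚ) ^ 2 := by
    calc |Γ| ≤ (Γ.num.natAbs : ℚ) * 1 := by rw [mul_one]; exact natAbs_ge Γ
      _ ≤ _ := mul_le_mul_of_nonneg_left h4 (Nat.cast_nonneg _)
  have i4 : |A * (t k : ℚ) ^ 2 + B * t k + Γ| ≤ (cs A B Γ : ℚ) * (t k : ℚ) ^ 2 := by
    calc |A * (t k : ℚ) ^ 2 + B * t k + Γ| ≤ |A * (t k : ℚ) ^ 2 + B * t k| + |Γ| := abs_add_le _ _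
      _ ≤ |A * (t k : ℚ) ^ 2| + |B * t k| + |Γ| := by
        have := abs_add_le (A * (t k : ℚ) ^ 2) (B * t k)
        linarith
      _ ≤ _ := by
        unfold cs
        push_cast
        linarith
  push_cast
  rw [mul_pow]
  have i5 : (cs A B Γ : ℚ) ≤ ((cs A B Γ : ℚ) + 1) ^ (k + 1) := by
    have h0 : (0 : ℚ) ≤ cs A B Γ := Nat.cast_nonneg _
    calc (cs A B Γ : ℚ) ≤ ((cs A B Γ : ℚ) + 1) ^ 1 := by rw [pow_one]; linarith
      _ ≤ _ := pow_le_pow_right₀ (by linarith) (by omega)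
  refine i4.trans ?_
  exact mul_le_mul i5 h5 (by positivity) (by positivity)

theorem nice_quad {A B Γ b c : ℚ} (hA : A ≠ 0) {t : ℕ → ℤ} {M G : ℕ} (ht : TS t M G)
    (hM : th A B Γ b c ≤ M) :
    NiceE (fun k => A * (t k : ℚ) ^ 2 + B * t k + Γ) (1 + |b| + |c|) ((cs A B Γ + 1) * G ^ 2) := by
  have hinj : Function.Injective t := ht.mono.injective
  refine ⟨cs_spec A B Γ ht, ?_, ?_⟩
  · intro v N
    by_contra hcon
    push Not at hcon
    obtain ⟨i, hi, j, hj, l, hl, hij, hil, hjl⟩ := Finset.two_lt_card.1 hcon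
    rw [Finset.mem_filter] at hi hj hl
    have e1 : ((t i : ℚ) - t j) * (A * ((t i : ℚ) + t j) + B) = 0 := by
      have a1 := hi.2
      have a2 := hj.2
      linear_combination a1 - a2
    have e2 : ((t i : ℚ) - t l) * (A * ((t i : ℚ) + t l) + B) = 0 := by
      have a1 := hi.2
      have a2 := hl.2
      linear_combination a1 - a2
    have n1 : (t i : ℚ) - t j ≠ 0 := fun h => hij (hinj (by exact_mod_cast sub_eq_zero.1 h))
    have n2 : (t i : ℚ) - t l ≠ 0 := fun h => hil (hinj (by exact_mod_cast sub_eq_zero.1 h))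
    have f1 := (mul_eq_zero.1 e1).resolve_left n1
    have f2 := (mul_eq_zero.1 e2).resolve_left n2
    have f3 : A * ((t j : ℚ) - t l) = 0 := by linear_combination f1 - f2
    exact hjl (hinj (by exact_mod_cast sub_eq_zero.1 ((mul_eq_zero.1 f3).resolve_left hA)))
  · intro k
    have h1 : (1 : ℚ) ≤ t k := by exact_mod_cast ht.one k
    have h2 : (M : ℚ) ≤ t k := by exact_mod_cast ht.low k
    have h3 := th_spec (b := b) (c := c) hA hM h2
    have h4 : |A| * (t k : ℚ) ^ 2 ≤ |A * (t k : ℚ) ^ 2 + B * t k + Γ| + |B| * t k + |Γ| := by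
      have e : A * (t k : ℚ) ^ 2 = (A * (t k : ℚ) ^ 2 + B * t k + Γ) - B * t k - Γ := by ring
      have e0 : |A| * (t k : ℚ) ^ 2 = |A * (t k : ℚ) ^ 2| := by
        rw [abs_mul, abs_of_nonneg (by positivity : (0 : ℚ) ≤ (t k : ℚ) ^ 2)]
      have e1 : |B| * t k = |B * t k| := by
        rw [abs_mul, abs_of_nonneg (by linarith : (0 : ℚ) ≤ (t k : ℚ))]
      rw [e0, e1]
      conv_lhs => rw [e]
      refine (abs_sub _ _).trans ?_
      have := abs_sub (A * (t k : ℚ) ^ 2 + B * t k + Γ) (B * t k)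
      linarith
    have hb := abs_nonneg b
    have hc := abs_nonneg c
    have hB := abs_nonneg B
    have hΓ := abs_nonneg Γ
    have h5 : (|B| + |Γ| + (1 + |b| + |c|)) * t k ≤ |A| * t k * t k :=
      mul_le_mul_of_nonneg_right h3 (by linarith)
    have h6 : |Γ| ≤ |Γ| * t k := le_mul_of_one_le_right hΓ h1
    have h7 : (1 + |b| + |c|) ≤ (1 + |b| + |c|) * t k := le_mul_of_one_le_right (by positivity) h1
    nlinarith

theorem nice_lin {B Γ b c : ℚ} (hB : B ≠ 0) {t : ℕ → ℤ} {M G : ℕ} (ht : TS t M G)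
    (hM : th B 0 Γ b c ≤ M) :
    NiceE (fun k => 0 * (t k : ℚ) ^ 2 + B * t k + Γ) (1 + |b| + |c|) ((cs 0 B Γ + 1) * G ^ 2) := by
  have hinj : Function.Injective t := ht.mono.injective
  refine ⟨cs_spec 0 B Γ ht, ?_, ?_⟩
  · intro v N
    refine (Finset.card_le_one.2 ?_).trans (by norm_num)
    intro i hi j hj
    rw [Finset.mem_filter] at hi hj
    have e : B * ((t i : ℚ) - t j) = 0 := by
      have a1 := hi.2
      have a2 := hj.2
      linear_combination a1 - a2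
    exact hinj (by exact_mod_cast sub_eq_zero.1 ((mul_eq_zero.1 e).resolve_left hB))
  · intro k
    have h1 : (1 : ℚ) ≤ t k := by exact_mod_cast ht.one k
    have h2 : (M : ℚ) ≤ t k := by exact_mod_cast ht.low k
    have h3 := th_spec (b := b) (c := c) hB hM h2
    rw [abs_zero, zero_add] at h3
    change 1 + |b| + |c| ≤ |0 * (t k : ℚ) ^ 2 + B * t k + Γ|
    rw [zero_mul, zero_add]
    have e1 : |B| * t k = |B * t k| := by
      rw [abs_mul, abs_of_nonneg (by linarith : (0 : ℚ) ≤ (t k : ℚ))]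
    have h4 : |B * t k| ≤ |B * t k + Γ| + |Γ| := by
      calc |B * (t k : ℚ)| = |(B * t k + Γ) - Γ| := by congr 1; ring
        _ ≤ _ := abs_sub _ _
    linarith

/-- The choice of one of the seven sequences. -/
theorem pickE {g : ℚ → ℤ} {b c : ℚ} {s : ℤ} {C B : ℕ} {R : ℚ} (W : Fin 7 → ℕ → ℚ) (hW : ∀ i, NiceE (W i) R C)
    (N : Fin 7 → ℕ) (hN : ∀ i, 0 < N i) (hden : ∀ i k, (W i k).den ∣ N i) (hB : ∏ i, N i ≤ B) (h14 : 14 ≤ B)
    (hC : (∏ i, N i) * C ≤ 2 ^ B)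
    (h : ∀ k, ∃ i, g (fc b c (W i k)) = s) : SeqE g b c s B := by
  obtain ⟨q, hq⟩ : ∃ q : ℕ, q = ∏ i, N i := ⟨_, rfl⟩
  rw [← hq] at hB hC
  have hq0 : 0 < q := by
    rw [hq]
    exact Finset.prod_pos fun i _ => hN i
  have hqQ : (0 : ℚ) < q := by exact_mod_cast hq0
  have hint : ∀ i k, ∃ n : ℤ, W i k = n / q := by
    intro i k
    have h1 : (W i k).den ∣ q := (hden i k).trans (by
      rw [hq]
      exact Finset.dvd_prod_of_mem N (Finset.mem_univ i))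
    obtain ⟨m, hm⟩ := h1
    refine ⟨(W i k).num * m, ?_⟩
    have h3 : (m : ℚ) ≠ 0 := by
      intro h0
      rw [hm] at hqQ
      push_cast at hqQ
      rw [h0, mul_zero] at hqQ
      exact lt_irrefl _ hqQ
    rw [hm]
    push_cast
    rw [mul_div_mul_right _ _ h3]
    exact (Rat.num_div_den _).symm
  choose ν hν using hint
  choose ι hι using h
  refine ⟨q, hq0, hB, fun k => ν (ι k) k, ?_, ?_, ?_⟩
  · intro k
    have h1 : ((ν (ι k) k : ℤ) : ℚ) = W (ι k) k * q := by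
      rw [hν]
      field_simp
    have hq1 : (1 : ℚ) ≤ q := by exact_mod_cast hq0
    have h3 : |((ν (ι k) k : ℤ) : ℚ)| ≤ ((2 : ℚ) ^ B) ^ (k + 1) := by
      rw [h1, abs_mul, abs_of_pos hqQ]
      have i1 := (hW (ι k)).1 k
      have i2 : (q : ℚ) ≤ (q : ℚ) ^ (k + 1) := by
        calc (q : ℚ) = (q : ℚ) ^ 1 := (pow_one _).symm
          _ ≤ _ := pow_le_pow_right₀ hq1 (by omega)
      calc |W (ι k) k| * q ≤ (C : ℚ) ^ (k + 1) * (q : ℚ) ^ (k + 1) :=
            mul_le_mul i1 i2 hqQ.le (by positivity)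
        _ = ((q * C : ℕ) : ℚ) ^ (k + 1) := by push_cast; rw [mul_pow]; ring
        _ ≤ _ := by
          apply pow_le_pow_left₀ (Nat.cast_nonneg _)
          exact_mod_cast hC
    exact_mod_cast h3
  · intro v M
    have hsub : (Finset.range M).filter (fun k => ν (ι k) k = v) ⊆
        Finset.univ.biUnion (fun i => (Finset.range M).filter (fun k => W i k = v / q)) := by
      intro k hk
      rw [Finset.mem_filter] at hk
      rw [Finset.mem_biUnion]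
      refine ⟨ι k, Finset.mem_univ _, ?_⟩
      rw [Finset.mem_filter]
      refine ⟨hk.1, ?_⟩
      rw [hν, hk.2]
    refine (Finset.card_le_card hsub).trans (Finset.card_biUnion_le.trans ?_)
    refine (Finset.sum_le_sum fun i _ => (hW i).2.1 (v / q) M).trans ?_
    simpa using h14
  · intro k
    dsimp only
    rw [← hν]
    exact hι k

theorem NiceE.mono {W : ℕ → ℚ} {R : ℚ} {C C' : ℕ} (h : NiceE W R C) (hC : C ≤ C') : NiceE W R C' :=
  ⟨fun k => (h.1 k).trans (pow_le_pow_left₀ (Nat.cast_nonneg _) (by exact_mod_cast hC) _), h.2⟩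

theorem TS.monoG {t : ℕ → ℤ} {M G G' : ℕ} (h : TS t M G) (hG : G ≤ G') : TS t M G' where
  one := h.one
  low := h.low
  mono := h.mono
  grow := fun k => (h.grow k).trans (pow_le_pow_left₀ (Int.natCast_nonneg _) (by exact_mod_cast hG) _)

theorem ts_orb {D a e : ℤ} (hD : 0 < D) (ha : 2 ≤ a) (he : 1 ≤ e) (hp : a ^ 2 - D * e ^ 2 = 1) {M G : ℕ}
    (hM : (M : ℤ) ≤ e) (hG : a + D * e + (a + e) ≤ G) :
    TS (fun k => (orb D a e a e k).1) M G ∧ TS (fun k => (orb D a e a e k).2) M G := by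
  have ha1 : 1 ≤ a := by linarith
  have hf := orb_facts D a e a e hD ha he hp ha1 he
  have hDe : 0 < D * e := by positivity
  have hea : e ≤ a := by nlinarith
  have h1 : ∀ k, (1 : ℤ) ≤ (orb D a e a e k).1 ∧ (1 : ℤ) ≤ (orb D a e a e k).2 := fun k =>
    ⟨ha1.trans (hf k).1, he.trans (hf k).2.1⟩
  have hlt : ∀ k, (orb D a e a e k).2 < (orb D a e a e (k + 1)).2 := by
    intro k
    have e2 : (orb D a e a e (k + 1)).2 = e * (orb D a e a e k).1 + a * (orb D a e a e k).2 := rfl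
    rw [e2]
    obtain ⟨p1, p2⟩ := h1 k
    have t3 : 0 < e * (orb D a e a e k).1 := by positivity
    have t4 : 2 * (orb D a e a e k).2 ≤ a * (orb D a e a e k).2 :=
      mul_le_mul_of_nonneg_right ha (by linarith)
    linarith
  have hbound : ∀ k, (orb D a e a e k).1 + (orb D a e a e k).2 ≤ (G : ℤ) ^ (k + 1) := by
    intro k
    refine (hf k).2.2.2.1.trans ?_
    rw [pow_succ]
    apply mul_le_mul
    · exact pow_le_pow_left₀ (by linarith) (by linarith) k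
    · linarith
    · linarith
    · positivity
  refine ⟨⟨fun k => (h1 k).1, fun k => hM.trans (hea.trans (hf k).1), strictMono_nat_of_lt_succ fun k =>
      (hf k).2.2.2.2, fun k => ?_⟩, ⟨fun k => (h1 k).2, fun k => hM.trans (hf k).2.1,
      strictMono_nat_of_lt_succ hlt, fun k => ?_⟩⟩
  · have h2 := hbound k
    have h3 := (h1 k).2
    linarith
  · have h2 := hbound k
    have h3 := (h1 k).1
    linarith

/-- The sum of the thresholds. -/
def TH (b c u : ℚ) : ℕ :=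
  let m : ℚ := -fc b c u / (3 * u)
  let q : ℚ := m + (3 * u ^ 2 + b)
  let β : ℚ := q * (m.den : ℚ) / 2
  th (-(1 / (4 * fc b c u)) * q ^ 2) (-(m / 2) / fc b c u * q)
      (((m + b - u ^ 2) * (b - u ^ 2 - m) / 4 - 2 * u * c) / fc b c u) b c +
    th (-(1 / (4 * fc b c u)) * q ^ 2) ((m / 2) / fc b c u * q)
      (((-m + b - u ^ 2) * (b - u ^ 2 + m) / 4 - 2 * u * c) / fc b c u) b c +
    th (-(1 / fc b c (-2 * u)) * β ^ 4) ((u ^ 2 - (b - 5 * u ^ 2)) / fc b c (-2 * u) * β ^ 2)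
      (((b - 5 * u ^ 2) * u ^ 2 + 4 * u * c) / fc b c (-2 * u)) b c +
    th β 0 u b c + th (-β) 0 u b c + th β 0 (-(2 * u)) b c + th (-β) 0 (-(2 * u)) b c

/-- The sum of the coefficients. -/
def CS (b c u : ℚ) : ℕ :=
  let m : ℚ := -fc b c u / (3 * u)
  let q : ℚ := m + (3 * u ^ 2 + b)
  let β : ℚ := q * (m.den : ℚ) / 2
  cs (-(1 / (4 * fc b c u)) * q ^ 2) (-(m / 2) / fc b c u * q)
      (((m + b - u ^ 2) * (b - u ^ 2 - m) / 4 - 2 * u * c) / fc b c u) +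
    cs (-(1 / (4 * fc b c u)) * q ^ 2) ((m / 2) / fc b c u * q)
      (((-m + b - u ^ 2) * (b - u ^ 2 + m) / 4 - 2 * u * c) / fc b c u) +
    cs (-(1 / fc b c (-2 * u)) * β ^ 4) ((u ^ 2 - (b - 5 * u ^ 2)) / fc b c (-2 * u) * β ^ 2)
      (((b - 5 * u ^ 2) * u ^ 2 + 4 * u * c) / fc b c (-2 * u)) +
    cs 0 β u + cs 0 (-β) u + cs 0 β (-(2 * u)) + cs 0 (-β) (-(2 * u)) + 1

/-- The Pell discriminant. -/
def PD (b c u : ℚ) : ℕ := (-fc b c u / (3 * u)).num.natAbs * (-fc b c u / (3 * u)).den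

/-- The final bound. -/
def EE (K0 : ℕ) (b c u : ℚ) : ℕ :=
  DD b c u + CS b c u + 4 * (PD b c u + 3) + 4 * ((K0 + PD b c u) ^ K0 * (TH b c u + 1)) + 14

theorem EE_NB {ι : Type*} {H : ι → ℕ} (hH : ∀ i, 2 ≤ H i) {b c u : ι → ℚ} (hb : PB H b) (hc : PB H c)
    (hu : PB H u) (K0 : ℕ) : NB H (fun i => EE K0 (b i) (c i) (u i)) := by
  have K := fun x : ℚ => PB.const hH x
  have hfc : ∀ {v : ι → ℚ}, PB H v → PB H (fun i => fc (b i) (c i) (v i)) := fun hv =>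
    ((hv.pow hH 3).add hH (hb.mul hH hv)).add hH hc
  have hF := hfc hu
  have hF2 : PB H (fun i => fc (b i) (c i) (-2 * u i)) := hfc ((K (-2)).mul hH hu)
  have hm : PB H (fun i => -fc (b i) (c i) (u i) / (3 * u i)) := hF.neg.div hH ((K 3).mul hH hu)
  have hu2 : PB H (fun i => u i ^ 2) := hu.pow hH 2
  have hq : PB H (fun i => -fc (b i) (c i) (u i) / (3 * u i) + (3 * u i ^ 2 + b i)) :=
    hm.add hH (((K 3).mul hH hu2).add hH hb)
  have hmd : PB H (fun i => (((-fc (b i) (c i) (u i) / (3 * u i)).den : ℕ) : ℚ)) := by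
    have h := hm.den
    obtain ⟨L, hL⟩ := h
    refine (PB.iff hH).2 ⟨⟨L, fun i => ?_⟩, ?_⟩
    · simpa using hL i
    · simpa using NB.const hH 1
  have hβ : PB H (fun i => (-fc (b i) (c i) (u i) / (3 * u i) + (3 * u i ^ 2 + b i)) *
      (((-fc (b i) (c i) (u i) / (3 * u i)).den : ℕ) : ℚ) / 2) := (hq.mul hH hmd).div hH (K 2)
  have hα : PB H (fun i => -(1 / (4 * fc (b i) (c i) (u i)))) :=
    ((K 1).div hH ((K 4).mul hH hF)).neg
  have h2uc : PB H (fun i => 2 * u i * c i) := ((K 2).mul hH hu).mul hH hc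
  have h4uc : PB H (fun i => 4 * u i * c i) := ((K 4).mul hH hu).mul hH hc
  have h5 : PB H (fun i => b i - 5 * u i ^ 2) := hb.sub hH ((K 5).mul hH hu2)
  have h2u : PB H (fun i => -(2 * u i)) := ((K 2).mul hH hu).neg
  have a1 := hα.mul hH (hq.pow hH 2)
  have b1 := ((hm.div hH (K 2)).neg.div hH hF).mul hH hq
  have c1 := ((((hm.add hH hb).sub hH hu2).mul hH ((hb.sub hH hu2).sub hH hm)).div hH (K 4)).sub hH h2uc |>.div hH hF
  have b2 := ((hm.div hH (K 2)).div hH hF).mul hH hq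
  have c2 := ((((hm.neg.add hH hb).sub hH hu2).mul hH ((hb.sub hH hu2).add hH hm)).div hH (K 4)).sub hH h2uc |>.div hH hF
  have a3 := ((K 1).div hH hF2).neg.mul hH (hβ.pow hH 4)
  have b3 := ((hu2.sub hH h5).div hH hF2).mul hH (hβ.pow hH 2)
  have c3 := ((h5.mul hH hu2).add hH h4uc).div hH hF2
  have hth : ∀ {A B Γ : ι → ℚ}, PB H A → PB H B → PB H Γ → NB H (fun i => th (A i) (B i) (Γ i) (b i) (c i)) :=
    fun hA hB hΓ => hA.den.mul ((((hB.num.add hH hΓ.num).add hH (NB.const hH 1)).add hH hb.num).add hH hc.num)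
  have hcs : ∀ {A B Γ : ι → ℚ}, PB H A → PB H B → PB H Γ → NB H (fun i => cs (A i) (B i) (Γ i)) :=
    fun hA hB hΓ => (hA.num.add hH hB.num).add hH hΓ.num
  have hTH : NB H (fun i => TH (b i) (c i) (u i)) :=
    ((((((hth a1 b1 c1).add hH (hth a1 b2 c2)).add hH (hth a3 b3 c3)).add hH (hth hβ (K 0) hu)).add hH
      (hth hβ.neg (K 0) hu)).add hH (hth hβ (K 0) h2u)).add hH (hth hβ.neg (K 0) h2u)
  have hCS : NB H (fun i => CS (b i) (c i) (u i)) :=
    (((((((hcs a1 b1 c1).add hH (hcs a1 b2 c2)).add hH (hcs a3 b3 c3)).add hH (hcs (K 0) hβ hu)).add hH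
      (hcs (K 0) hβ.neg hu)).add hH (hcs (K 0) hβ h2u)).add hH (hcs (K 0) hβ.neg h2u)).add hH (NB.const hH 1)
  have hPD : NB H (fun i => PD (b i) (c i) (u i)) := hm.num.mul hm.den
  have hDD := DD_NB hH hb hc hu
  exact (((hDD.add hH hCS).add hH ((NB.const hH 4).mul (hPD.add hH (NB.const hH 3)))).add hH
    ((NB.const hH 4).mul ((((NB.const hH K0).add hH hPD).pow K0).mul (hTH.add hH (NB.const hH 1))))).add hH
    (NB.const hH 14)

theorem two_pow_ge (n : ℕ) : n ≤ 2 ^ n := Nat.lt_two_pow_self.le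

/-- The orbit of `u`, `r = -2u`, fully explicit. -/
theorem orbit_uE {K0 : ℕ} (hK0 : ∀ d : ℤ, 0 < d → ¬ IsSquare d → ∀ M : ℕ, ∃ a e : ℤ, (M : ℤ) ≤ e ∧ 2 ≤ a ∧
    1 ≤ e ∧ a ^ 2 - d * e ^ 2 = 1 ∧ a ≤ 2 ^ ((K0 + d.natAbs) ^ K0 * (M + 1)))
    {g : ℚ → ℤ} (hg : GMul g) {b c : ℚ} (u : ℚ) (hu : u ≠ 0)
    (hf2 : fc b c (-2 * u) ≠ 0) (hm : 0 < -fc b c u / (3 * u))
    (hns : ¬ IsSquare (-fc b c u / (3 * u))) : SeqE g b c (g (-1) * g (fc b c (-2 * u))) (EE K0 b c u) := by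
  obtain ⟨m, hmd⟩ : ∃ m, m = -fc b c u / (3 * u) := ⟨_, rfl⟩
  rw [← hmd] at hm hns
  have hfu : fc b c u ≠ 0 := by
    intro h0
    rw [h0] at hmd
    simp at hmd
    exact hm.ne' hmd
  have hkap : m + (3 * u ^ 2 + b) ≠ 0 := by
    intro h0
    apply hf2
    have h1 : m * (3 * u) = -fc b c u := by
      rw [hmd]
      field_simp
    unfold fc at h1 ⊢
    have h2 : m = -(3 * u ^ 2 + b) := by linarith
    rw [h2] at h1
    linear_combination h1
  obtain ⟨q, hq⟩ : ∃ q, q = m + (3 * u ^ 2 + b) := ⟨_, rfl⟩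
  rw [← hq] at hkap
  -- the parametrisation
  have hden : (m.den : ℤ) ≠ 0 := by exact_mod_cast m.den_nz
  have hdenq : (m.den : ℚ) ≠ 0 := by exact_mod_cast m.den_nz
  have hnum : 0 < m.num := Rat.num_pos.2 hm
  have hd : 0 < m.num * m.den := mul_pos hnum (by exact_mod_cast m.den_pos)
  have hmm : m = (m.num : ℚ) / m.den := (Rat.num_div_den m).symm
  have hdns : ¬ IsSquare (m.num * m.den) := by
    rintro ⟨z, hz⟩
    apply hns
    refine ⟨(z : ℚ) / m.den, ?_⟩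
    have hz' : (m.num : ℚ) * m.den = z * z := by exact_mod_cast hz
    have : m = ((m.num : ℚ) * m.den) / (m.den * m.den) := by
      conv_lhs => rw [hmm]
      field_simp
    calc m = ((m.num : ℚ) * m.den) / (m.den * m.den) := this
      _ = (z * z : ℚ) / (m.den * m.den) := by rw [hz']
      _ = _ := by rw [div_mul_div_comm]
  have hPD : (m.num * m.den).natAbs = PD b c u := by
    unfold PD
    rw [← hmd, Int.natAbs_mul, Int.natAbs_natCast]
  obtain ⟨a, e, heM, ha2, he1, hp, haB⟩ := hK0 _ hd hdns (TH b c u)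
  rw [hPD] at haB
  have ha1 : 1 ≤ a := by linarith
  have hea : e ≤ a := by nlinarith
  obtain ⟨x, hx⟩ : ∃ x : ℕ → ℤ, x = fun k => (orb (m.num * m.den) a e a e k).1 := ⟨_, rfl⟩
  obtain ⟨y, hy⟩ : ∃ y : ℕ → ℤ, y = fun k => (orb (m.num * m.den) a e a e k).2 := ⟨_, rfl⟩
  have hxy : ∀ k, x k ^ 2 - m.num * m.den * y k ^ 2 = 1 := by
    intro k
    rw [hx, hy, ← hp]
    exact (orb_facts (m.num * m.den) a e a e hd ha2 he1 hp ha1 he1 k).2.2.1
  obtain ⟨P, hP⟩ : ∃ P : ℕ, P = (K0 + PD b c u) ^ K0 * (TH b c u + 1) := ⟨_, rfl⟩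
  rw [← hP] at haB
  obtain ⟨G, hG⟩ : ∃ G : ℕ, G = (PD b c u + 3) * 2 ^ P := ⟨_, rfl⟩
  have hG1 : a + m.num * m.den * e + (a + e) ≤ (G : ℤ) := by
    rw [hG]
    push_cast
    have h1 : m.num * m.den = (PD b c u : ℤ) := by
      rw [← hPD, Int.natCast_natAbs, abs_of_pos hd]
    rw [h1]
    have h2 : (PD b c u : ℤ) * e ≤ (PD b c u : ℤ) * a := mul_le_mul_of_nonneg_left hea (Int.natCast_nonneg _)
    have h3 : ((PD b c u : ℤ) + 3) * a ≤ ((PD b c u : ℤ) + 3) * 2 ^ P :=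
      mul_le_mul_of_nonneg_left haB (by positivity)
    linarith
  obtain ⟨tx, ty⟩ := ts_orb hd ha2 he1 hp heM hG1
  rw [← hx] at tx
  rw [← hy] at ty
  have ty2 := ty.sq
  have hG0 : 1 ≤ G := tx.G_one
  have hGG : G ≤ G ^ 2 := by nlinarith
  have tx' := tx.monoG hGG
  have ty' := ty.monoG hGG
  obtain ⟨β, hβ⟩ : ∃ β : ℚ, β = q * (m.den : ℚ) / 2 := ⟨_, rfl⟩
  have hqm : β ≠ 0 := by
    rw [hβ]
    exact div_ne_zero (mul_ne_zero hkap hdenq) (by norm_num)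
  have hTH : TH b c u = th (-(1 / (4 * fc b c u)) * q ^ 2) (-(m / 2) / fc b c u * q)
      (((m + b - u ^ 2) * (b - u ^ 2 - m) / 4 - 2 * u * c) / fc b c u) b c +
    th (-(1 / (4 * fc b c u)) * q ^ 2) ((m / 2) / fc b c u * q)
      (((-m + b - u ^ 2) * (b - u ^ 2 + m) / 4 - 2 * u * c) / fc b c u) b c +
    th (-(1 / fc b c (-2 * u)) * β ^ 4) ((u ^ 2 - (b - 5 * u ^ 2)) / fc b c (-2 * u) * β ^ 2)
      (((b - 5 * u ^ 2) * u ^ 2 + 4 * u * c) / fc b c (-2 * u)) b c +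
    th β 0 u b c + th (-β) 0 u b c + th β 0 (-(2 * u)) b c + th (-β) 0 (-(2 * u)) b c := by
    rw [hβ, hq, hmd]
    rfl
  have hCS : CS b c u = cs (-(1 / (4 * fc b c u)) * q ^ 2) (-(m / 2) / fc b c u * q)
      (((m + b - u ^ 2) * (b - u ^ 2 - m) / 4 - 2 * u * c) / fc b c u) +
    cs (-(1 / (4 * fc b c u)) * q ^ 2) ((m / 2) / fc b c u * q)
      (((-m + b - u ^ 2) * (b - u ^ 2 + m) / 4 - 2 * u * c) / fc b c u) +
    cs (-(1 / fc b c (-2 * u)) * β ^ 4) ((u ^ 2 - (b - 5 * u ^ 2)) / fc b c (-2 * u) * β ^ 2)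
      (((b - 5 * u ^ 2) * u ^ 2 + 4 * u * c) / fc b c (-2 * u)) +
    cs 0 β u + cs 0 (-β) u + cs 0 β (-(2 * u)) + cs 0 (-β) (-(2 * u)) + 1 := by
    rw [hβ, hq, hmd]
    rfl
  have hprod0 : DD b c u = dn (-(1 / (4 * fc b c u)) * q ^ 2) (-(m / 2) / fc b c u * q)
      (((m + b - u ^ 2) * (b - u ^ 2 - m) / 4 - 2 * u * c) / fc b c u) *
    dn (-(1 / (4 * fc b c u)) * q ^ 2) ((m / 2) / fc b c u * q)
      (((-m + b - u ^ 2) * (b - u ^ 2 + m) / 4 - 2 * u * c) / fc b c u) *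
    dn (-(1 / fc b c (-2 * u)) * β ^ 4) ((u ^ 2 - (b - 5 * u ^ 2)) / fc b c (-2 * u) * β ^ 2)
      (((b - 5 * u ^ 2) * u ^ 2 + 4 * u * c) / fc b c (-2 * u)) *
    dn 0 β u * dn 0 (-β) u * dn 0 β (-(2 * u)) * dn 0 (-β) (-(2 * u)) := by
    rw [hβ, hq, hmd]
    rfl
  obtain ⟨C, hC⟩ : ∃ C : ℕ, C = CS b c u * (G ^ 2) ^ 2 := ⟨_, rfl⟩
  have hCle : ∀ {n : ℕ}, n + 1 ≤ CS b c u → (n + 1) * (G ^ 2) ^ 2 ≤ C := fun h => by
    rw [hC]
    exact Nat.mul_le_mul_right _ h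
  have hF4 : -(1 / (4 * fc b c u)) ≠ 0 := neg_ne_zero.2 (one_div_ne_zero (mul_ne_zero (by norm_num) hfu))
  obtain ⟨XX, hXX⟩ : ∃ XX : ℕ → ℚ, XX = fun k => q * (x k : ℚ) := ⟨_, rfl⟩
  obtain ⟨VV, hVV⟩ : ∃ VV : ℕ → ℚ, VV = fun k => β * (y k : ℚ) := ⟨_, rfl⟩
  -- the seven sequences
  obtain ⟨Y1, hY1⟩ : ∃ Y1 : ℕ → ℚ, Y1 = fun k =>
    ((XX k + m + b - u ^ 2) / 2 * (b - u ^ 2 - (XX k + m + b - u ^ 2) / 2) - 2 * u * c) / fc b c u := ⟨_, rfl⟩
  obtain ⟨Y2, hY2⟩ : ∃ Y2 : ℕ → ℚ, Y2 = fun k =>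
    (((XX k + m + b - u ^ 2) / 2 - m) * (b - u ^ 2 - (XX k + m + b - u ^ 2) / 2 + m) - 2 * u * c) /
      fc b c u := ⟨_, rfl⟩
  obtain ⟨Y3, hY3⟩ : ∃ Y3 : ℕ → ℚ, Y3 = fun k =>
    ((b - 5 * u ^ 2 + VV k ^ 2) * (u ^ 2 - VV k ^ 2) + 4 * u * c) / fc b c (-2 * u) := ⟨_, rfl⟩
  have f1 : Y1 = fun k => (-(1 / (4 * fc b c u)) * q ^ 2) * (x k : ℚ) ^ 2 +
      (-(m / 2) / fc b c u * q) * x k +
      (((m + b - u ^ 2) * (b - u ^ 2 - m) / 4 - 2 * u * c) / fc b c u) := by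
    funext k
    rw [hY1, hXX]
    field_simp
    ring
  have f2 : Y2 = fun k => (-(1 / (4 * fc b c u)) * q ^ 2) * (x k : ℚ) ^ 2 +
      ((m / 2) / fc b c u * q) * x k +
      (((-m + b - u ^ 2) * (b - u ^ 2 + m) / 4 - 2 * u * c) / fc b c u) := by
    funext k
    rw [hY2, hXX]
    field_simp
    ring
  have f3 : Y3 = fun k => (-(1 / fc b c (-2 * u)) * β ^ 4) * ((y k ^ 2 : ℤ) : ℚ) ^ 2 +
      ((u ^ 2 - (b - 5 * u ^ 2)) / fc b c (-2 * u) * β ^ 2) * ((y k ^ 2 : ℤ) : ℚ) +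
      (((b - 5 * u ^ 2) * u ^ 2 + 4 * u * c) / fc b c (-2 * u)) := by
    funext k
    rw [hY3, hVV]
    push_cast
    field_simp
    ring
  have f4 : (fun k => u + VV k) = fun k => 0 * (y k : ℚ) ^ 2 + β * y k + u := by
    funext k
    rw [hVV]
    ring
  have f5 : (fun k => u - VV k) = fun k => 0 * (y k : ℚ) ^ 2 + (-β) * y k + u := by
    funext k
    rw [hVV]
    ring
  have f6 : (fun k => VV k - 2 * u) = fun k => 0 * (y k : ℚ) ^ 2 + β * y k + (-(2 * u)) := by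
    funext k
    rw [hVV]
    ring
  have f7 : (fun k => -VV k - 2 * u) = fun k => 0 * (y k : ℚ) ^ 2 + (-β) * y k + (-(2 * u)) := by
    funext k
    rw [hVV]
    ring
  have n1 : NiceE Y1 (1 + |b| + |c|) C := by
    rw [f1]
    exact (nice_quad (mul_ne_zero hF4 (pow_ne_zero 2 hkap)) tx' (by rw [hTH]; omega)).mono
      (hCle (by rw [hCS]; omega))
  have n2 : NiceE Y2 (1 + |b| + |c|) C := by
    rw [f2]
    exact (nice_quad (mul_ne_zero hF4 (pow_ne_zero 2 hkap)) tx' (by rw [hTH]; omega)).mono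
      (hCle (by rw [hCS]; omega))
  have n3 : NiceE Y3 (1 + |b| + |c|) C := by
    rw [f3]
    exact (nice_quad (mul_ne_zero (neg_ne_zero.2 (one_div_ne_zero hf2)) (pow_ne_zero 4 hqm)) ty2
      (by rw [hTH]; omega)).mono (hCle (by rw [hCS]; omega))
  have n4 : NiceE (fun k => u + VV k) (1 + |b| + |c|) C := by
    rw [f4]
    exact (nice_lin hqm ty' (by rw [hTH]; omega)).mono (hCle (by rw [hCS]; omega))
  have n5 : NiceE (fun k => u - VV k) (1 + |b| + |c|) C := by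
    rw [f5]
    exact (nice_lin (neg_ne_zero.2 hqm) ty' (by rw [hTH]; omega)).mono (hCle (by rw [hCS]; omega))
  have n6 : NiceE (fun k => VV k - 2 * u) (1 + |b| + |c|) C := by
    rw [f6]
    exact (nice_lin hqm ty' (by rw [hTH]; omega)).mono (hCle (by rw [hCS]; omega))
  have n7 : NiceE (fun k => -VV k - 2 * u) (1 + |b| + |c|) C := by
    rw [f7]
    exact (nice_lin (neg_ne_zero.2 hqm) ty' (by rw [hTH]; omega)).mono (hCle (by rw [hCS]; omega))
  obtain ⟨W, hW⟩ : ∃ W : Fin 7 → ℕ → ℚ, W = ![Y1, Y2, Y3, fun k => u + VV k, fun k => u - VV k,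
    fun k => VV k - 2 * u, fun k => -VV k - 2 * u] := ⟨_, rfl⟩
  obtain ⟨N, hN⟩ : ∃ N : Fin 7 → ℕ, N = ![dn (-(1 / (4 * fc b c u)) * q ^ 2) (-(m / 2) / fc b c u * q)
      (((m + b - u ^ 2) * (b - u ^ 2 - m) / 4 - 2 * u * c) / fc b c u),
    dn (-(1 / (4 * fc b c u)) * q ^ 2) ((m / 2) / fc b c u * q)
      (((-m + b - u ^ 2) * (b - u ^ 2 + m) / 4 - 2 * u * c) / fc b c u),
    dn (-(1 / fc b c (-2 * u)) * β ^ 4) ((u ^ 2 - (b - 5 * u ^ 2)) / fc b c (-2 * u) * β ^ 2)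
      (((b - 5 * u ^ 2) * u ^ 2 + 4 * u * c) / fc b c (-2 * u)),
    dn 0 β u, dn 0 (-β) u, dn 0 β (-(2 * u)), dn 0 (-β) (-(2 * u))] := ⟨_, rfl⟩
  have w0 : W 0 = Y1 := by rw [hW]; rfl
  have w1 : W 1 = Y2 := by rw [hW]; rfl
  have w2 : W 2 = Y3 := by rw [hW]; rfl
  have w3 : W 3 = fun k => u + VV k := by rw [hW]; rfl
  have w4 : W 4 = fun k => u - VV k := by rw [hW]; rfl
  have w5 : W 5 = fun k => VV k - 2 * u := by rw [hW]; rfl
  have w6 : W 6 = fun k => -VV k - 2 * u := by rw [hW]; rfl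
  have hnice : ∀ i, NiceE (W i) (1 + |b| + |c|) C := by
    intro i
    fin_cases i
    · exact w0 ▸ n1
    · exact w1 ▸ n2
    · exact w2 ▸ n3
    · exact w3 ▸ n4
    · exact w4 ▸ n5
    · exact w5 ▸ n6
    · exact w6 ▸ n7
  have hNpos : ∀ i, 0 < N i := by
    intro i
    rw [hN]
    fin_cases i <;> exact dn_pos _ _ _
  have hWden : ∀ i k, (W i k).den ∣ N i := by
    intro i k
    rw [hN, hW]
    fin_cases i
    · change (Y1 k).den ∣ _
      rw [f1]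
      exact dn_dvd _ _ _ _
    · change (Y2 k).den ∣ _
      rw [f2]
      exact dn_dvd _ _ _ _
    · change (Y3 k).den ∣ _
      rw [f3]
      exact dn_dvd _ _ _ _
    · change ((fun k => u + VV k) k).den ∣ _
      rw [f4]
      exact dn_dvd _ _ _ _
    · change ((fun k => u - VV k) k).den ∣ _
      rw [f5]
      exact dn_dvd _ _ _ _
    · change ((fun k => VV k - 2 * u) k).den ∣ _
      rw [f6]
      exact dn_dvd _ _ _ _
    · change ((fun k => -VV k - 2 * u) k).den ∣ _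
      rw [f7]
      exact dn_dvd _ _ _ _
  have hprod : ∏ i, N i = DD b c u := by
    rw [Fin.prod_univ_seven, hN, hprod0]
    rfl
  have hEE : EE K0 b c u = DD b c u + CS b c u + 4 * (PD b c u + 3) + 4 * P + 14 := by
    rw [hP]
    rfl
  have hbig : DD b c u * C ≤ 2 ^ EE K0 b c u := by
    have e1 := two_pow_ge (DD b c u)
    have e2 := two_pow_ge (CS b c u)
    have e3 := two_pow_ge (PD b c u + 3)
    have e4 : (G ^ 2) ^ 2 ≤ 2 ^ (4 * (PD b c u + 3) + 4 * P) := by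
      calc (G ^ 2) ^ 2 = (PD b c u + 3) ^ 4 * 2 ^ (4 * P) := by rw [hG]; ring
        _ ≤ (2 ^ (PD b c u + 3)) ^ 4 * 2 ^ (4 * P) := Nat.mul_le_mul_right _ (Nat.pow_le_pow_left e3 4)
        _ = _ := by rw [← pow_mul, ← pow_add]; ring_nf
    rw [hC]
    calc DD b c u * (CS b c u * (G ^ 2) ^ 2)
        ≤ 2 ^ DD b c u * (2 ^ CS b c u * 2 ^ (4 * (PD b c u + 3) + 4 * P)) :=
          Nat.mul_le_mul e1 (Nat.mul_le_mul e2 e4)
      _ = 2 ^ (DD b c u + (CS b c u + (4 * (PD b c u + 3) + 4 * P))) := by rw [← pow_add, ← pow_add]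
      _ ≤ _ := Nat.pow_le_pow_right (by norm_num) (by rw [hEE]; omega)
  apply pickE W hnice N hNpos hWden (by rw [hprod, hEE]; omega) (by rw [hEE]; omega)
    (by rw [hprod]; exact hbig)
  intro k
  have hne : ∀ i, fc b c (W i k) ≠ 0 := fun i => fc_ne_large b c ((hnice i).2.2 k)
  have hX : XX k ^ 2 - 4 * m * VV k ^ 2 = (m + (3 * u ^ 2 + b)) ^ 2 := by
    rw [← hq, hXX, hVV, hβ]
    dsimp only
    have hxy' : (x k : ℚ) ^ 2 - (m.num : ℚ) * m.den * (y k : ℚ) ^ 2 = 1 := by exact_mod_cast hxy k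
    have e1 : m * m.den = m.num := by
      rw [Rat.mul_den_eq_num]
    have e2 : (q * (x k : ℚ)) ^ 2 - 4 * m * (q * m.den / 2 * (y k : ℚ)) ^ 2 =
        q ^ 2 * ((x k : ℚ) ^ 2 - (m * m.den) * m.den * (y k : ℚ) ^ 2) := by ring
    rw [e2, e1, hxy', mul_one]
  have key := seven_term b c u (VV k) (XX k) (by norm_num) (by norm_num) hu hfu hf2 m hmd hX
    ((XX k + m + b - u ^ 2) / 2) (Y1 k) (Y2 k) (Y3 k) rfl (by rw [hY1]) (by rw [hY2]) (by rw [hY3])
  have Gk := congrArg g key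
  have hm0 : m ≠ 0 := hm.ne'
  have p1 : g (fc b c u ^ 6) = 1 := by
    rw [show fc b c u ^ 6 = (fc b c u ^ 3) ^ 2 by ring]
    exact hg.pow_two (pow_ne_zero 3 hfu)
  have p2 : g (-m ^ 6) = g (-1) := by
    rw [show -m ^ 6 = -1 * (m ^ 3) ^ 2 by ring, hg.mul, hg.pow_two (pow_ne_zero 3 hm0), mul_one]
  have p3 : g (fc b c (-2 * u) ^ 3) = g (fc b c (-2 * u)) := by
    rw [show fc b c (-2 * u) ^ 3 = fc b c (-2 * u) * fc b c (-2 * u) ^ 2 by ring, hg.mul,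
      hg.pow_two hf2, mul_one]
  rw [hg.mul, hg.mul, hg.mul, hg.mul, hg.mul, hg.mul, hg.mul, hg.mul, p1, p2, p3, one_mul] at Gk
  have hs2 : (g (-1) * g (fc b c (-2 * u))) * (g (-1) * g (fc b c (-2 * u))) = 1 := by
    calc _ = (g (-1) * g (-1)) * (g (fc b c (-2 * u)) * g (fc b c (-2 * u))) := by ring
      _ = 1 := by rw [hg.sq _ (by norm_num), hg.sq _ hf2, one_mul]
  have q0 := hne 0
  have q1 := hne 1
  have q2 := hne 2
  have q3 := hne 3
  have q4 := hne 4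
  have q5 := hne 5
  have q6 := hne 6
  rw [w0] at q0
  rw [w1] at q1
  rw [w2] at q2
  rw [w3] at q3
  rw [w4] at q4
  rw [w5] at q5
  rw [w6] at q6
  rcases seven_sign (hg.sq _ q0) (hg.sq _ q1) (hg.sq _ q2) (hg.sq _ q3) (hg.sq _ q4) (hg.sq _ q5)
    (hg.sq _ q6) hs2 (by rw [Gk]; ring) with h | h | h | h | h | h | h
  · exact ⟨0, by rw [w0]; exact h⟩
  · exact ⟨1, by rw [w1]; exact h⟩
  · exact ⟨2, by rw [w2]; exact h⟩
  · exact ⟨3, by rw [w3]; exact h⟩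
  · exact ⟨4, by rw [w4]; exact h⟩
  · exact ⟨5, by rw [w5]; exact h⟩
  · exact ⟨6, by rw [w6]; exact h⟩

/-- The orbits, fully explicit. -/
theorem orbit_PE {ι : Type*} {H : ι → ℕ} (hH : ∀ i, 2 ≤ H i) {b c r : ι → ℚ} (hb : PB H b) (hc : PB H c)
    (hr : PB H r) : ∃ K : ℕ, ∀ i, Adm (b i) (c i) (r i) → ∀ g : ℚ → ℤ, GMul g →
      SeqE g (b i) (c i) (g (-1) * g (fc (b i) (c i) (r i))) (H i ^ K) := by
  obtain ⟨K0, hK0⟩ := pell_E
  have hu : PB H (fun i => -(r i) / 2) := hr.neg.div hH (PB.const hH 2)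
  obtain ⟨K, hK⟩ := EE_NB hH hb hc hu K0
  refine ⟨K, fun i hA g hg => ?_⟩
  have hu0 : -(r i) / 2 ≠ 0 := by
    intro h0
    apply hA.ne
    linarith
  have e1 : -2 * (-(r i) / 2) = r i := by ring
  have hr0 := hA.ne
  have e2 : -fc (b i) (c i) (-(r i) / 2) / (3 * (-(r i) / 2)) =
      (8 * c i - 4 * b i * r i - r i ^ 3) / (12 * r i) := by
    unfold fc
    field_simp
    ring
  have := orbit_uE hK0 hg (b := b i) (c := c i) (-(r i) / 2) hu0 (by rw [e1]; exact hA.val)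
    (by rw [e2]; exact hA.pos) (by rw [e2]; exact hA.nonsq)
  rw [e1] at this
  exact this.mono (hK i)

end Pool.Agent.Lib.MP_648c71_nt.AllCub
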