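import Pool.Agent.Lib.MP_648c71_nt.EX.Defs
import Pool.Agent.Lib.MP_648c71_nt.Diag.Zero3

/-!
The cubics `T^3 + b T`: everything explicit.
-/

set_option autoImplicit false

namespace MP648Diag

open Filter Pool.Agent.Lib.MP_648c71_nt Pool.Agent.Lib.MP_648c71_nt.AllCub

/-- `C1` bounds the growth of the five arguments -/
def ZGrow (t : ℕ) (m kk b : ℚ) (C1 : ℕ) (x y : ℕ → ℤ) : Prop :=
  ∀ k : ℕ, |zY t m kk (x k) (y k)| ≤ (C1:ℚ) ^ (k + 1) ∧ |(1 + 4 / t) * zY t m kk (x k) (y k)| ≤ (C1:ℚ) ^ (k + 1) ∧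
    |(-((1 + 4 / t) * zY t m kk (x k) (y k)) - m - zV t m kk (x k) (y k)) / 2| ≤ (C1:ℚ) ^ (k + 1) ∧
    |(-((1 + 4 / t) * zY t m kk (x k) (y k)) - m + zV t m kk (x k) (y k)) / 2| ≤ (C1:ℚ) ^ (k + 1) ∧
    |((1 + 4 / t) ^ 2 + (4 * (1 + 4 / t) + 4 + t) / 4) / m * zY t m kk (x k) (y k) ^ 2
      + (1 + 4 / t) * zY t m kk (x k) (y k) + b * (1 + t / 4) / m| ≤ (C1:ℚ) ^ (k + 1)

theorem cover_E {g : ℚ → ℤ} {b c : ℚ} {s : ℤ} {q : ℕ} (hq0 : 0 < q) (w : Fin 5 → ℕ → ℚ)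
    (hint : ∀ j k, ∃ n : ℤ, w j k = n / q) {C1 : ℕ} (hC1 : 1 ≤ C1) (hC : ∀ i k, |w i k| ≤ (C1:ℚ) ^ (k + 1))
    (hK : ∀ i, ∀ (v : ℚ) (N : ℕ), ((Finset.range N).filter (fun k => w i k = v)).card ≤ 2)
    (k₀ : ℕ) (hcov : ∀ k, k₀ ≤ k → ∃ i, g (fc b c (w i k)) = s) :
    ∃ n : ℕ → ℤ, (∀ k, |n k| ≤ ((C1 ^ (k₀ + 1) * q : ℕ) : ℤ) ^ (k + 1)) ∧
      (∀ (v : ℤ) (N : ℕ), ((Finset.range N).filter (fun k => n k = v)).card ≤ 10) ∧
      ∀ k, g (fc b c ((n k : ℚ) / q)) = s := by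
  choose i hi using fun k : ℕ => hcov (k + k₀) (Nat.le_add_left _ _)
  have hqQ : (0:ℚ) < q := by exact_mod_cast hq0
  choose n hn using hint
  refine ⟨fun k => n (i k) (k + k₀), fun k => ?_, fun v N => ?_, fun k => ?_⟩
  · have h1 : |w (i k) (k + k₀)| ≤ (C1:ℚ) ^ (k + k₀ + 1) := hC (i k) (k + k₀)
    have h2 : |(n (i k) (k + k₀) : ℚ)| ≤ (C1:ℚ) ^ (k + k₀ + 1) * q := by
      have h3 : (n (i k) (k + k₀) : ℚ) = w (i k) (k + k₀) * q := by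
        rw [hn (i k) (k + k₀)]
        field_simp
      rw [h3, abs_mul, abs_of_pos hqQ]
      exact mul_le_mul_of_nonneg_right h1 hqQ.le
    have h4 : |n (i k) (k + k₀)| ≤ (C1:ℤ) ^ (k + k₀ + 1) * q := by exact_mod_cast h2
    refine le_trans h4 ?_
    push_cast
    rw [mul_pow, ← pow_mul]
    have hC1' : (1:ℤ) ≤ C1 := by exact_mod_cast hC1
    apply mul_le_mul
    · apply pow_le_pow_right₀ hC1'
      nlinarith
    · calc (q:ℤ) = (q:ℤ) ^ 1 := (pow_one _).symm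
        _ ≤ (q:ℤ) ^ (k + 1) := pow_le_pow_right₀ (by exact_mod_cast hq0) (by omega)
    · positivity
    · positivity
  · have hsub : (Finset.range N).filter (fun k => n (i k) (k + k₀) = v) ⊆
        Finset.univ.biUnion (fun j : Fin 5 => (Finset.range N).filter (fun k => w j (k + k₀) = (v:ℚ) / q)) := by
      intro k hk
      simp only [Finset.mem_filter, Finset.mem_range, Finset.mem_biUnion, Finset.mem_univ, true_and] at hk ⊢
      exact ⟨i k, hk.1, by rw [hn (i k) (k + k₀), hk.2]⟩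
    refine le_trans (Finset.card_le_card hsub) ?_
    refine le_trans Finset.card_biUnion_le ?_
    have h10 : ∀ j ∈ (Finset.univ : Finset (Fin 5)),
        ((Finset.range N).filter (fun k => w j (k + k₀) = (v:ℚ) / q)).card ≤ 2 := by
      intro j _
      refine le_trans ?_ (hK j ((v:ℚ) / q) (N + k₀))
      apply Finset.card_le_card_of_injOn (fun k => k + k₀)
      · intro k hk
        simp only [Finset.coe_filter, Finset.mem_range, Set.mem_ofPred_eq] at hk ⊢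
        exact ⟨by omega, hk.2⟩
      · intro k _ l _ hkl
        simpa using hkl
    refine le_trans (Finset.sum_le_sum h10) ?_
    simp
  · rw [← hn]
    exact hi k

theorem zero_orbit_E {g : ℚ → ℤ} (hg : GMul g) {b : ℚ} (t : ℕ) (ht : 0 < t)
    {x y : ℕ → ℤ} (hxy : ∀ k, x k ^ 2 - (1 + t : ℤ) * y k ^ 2 = 1) (hx1 : ∀ k, 1 ≤ x k) (hy1 : ∀ k, 1 ≤ y k)
    (hxm : StrictMono x) (hym : StrictMono y)
    {m kk : ℚ} (hm : 0 < m) (hk : 0 < kk) (hk2 : kk ^ 2 = m ^ 2 + t * b)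
    {q : ℕ} (hq : 0 < q) (hden : ZDen q t m kk b) {C1 : ℕ} (hC1 : 1 ≤ C1) (hgrow : ZGrow t m kk b C1 x y)
    {k₀ : ℕ} (hk₀ : (|b| + 1) * (1 + 2 / (1 + 4 / t) + 1 / (((1 + 4 / t) ^ 2 + (4 * (1 + 4 / t) + 4 + t) / 4) / m))
      + |b * (1 + t / 4) / m| / (((1 + 4 / t) ^ 2 + (4 * (1 + 4 / t) + 4 + t) / 4) / m) + 1
      ≤ kk / (1 + 4 / t) * k₀) :
    ∃ n : ℕ → ℤ, (∀ k, |n k| ≤ ((C1 ^ (k₀ + 1) * q : ℕ) : ℤ) ^ (k + 1)) ∧
      (∀ (v : ℤ) (N : ℕ), ((Finset.range N).filter (fun k => n k = v)).card ≤ 10) ∧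
      ∀ k, g (fc b 0 ((n k : ℚ) / q)) = g (-m) := by
  have htQ : (0:ℚ) < t := by exact_mod_cast ht
  obtain ⟨e, he⟩ : ∃ e : ℚ, e = 1 + 4 / t := ⟨_, rfl⟩
  have he0 : 0 < e := by rw [he]; positivity
  have hte : (t:ℚ) * e = t + 4 := by
    rw [he]
    field_simp
  have hxyQ : ∀ k, (x k : ℚ) ^ 2 - (1 + t) * (y k) ^ 2 = 1 := fun k => by exact_mod_cast hxy k
  have hx1Q : ∀ k, (1:ℚ) ≤ x k := fun k => by exact_mod_cast hx1 k
  have hy1Q : ∀ k, (1:ℚ) ≤ y k := fun k => by exact_mod_cast hy1 k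
  obtain ⟨α, hα⟩ : ∃ α : ℚ, α = (e + 2) * m / (e ^ 2 * (1 + t)) := ⟨_, rfl⟩
  obtain ⟨β, hβ⟩ : ∃ β : ℚ, β = kk / e := ⟨_, rfl⟩
  obtain ⟨γ, hγ⟩ : ∃ γ : ℚ, γ = (e + 2) * m / e := ⟨_, rfl⟩
  have hα0 : 0 < α := by rw [hα]; positivity
  have hβ0 : 0 < β := by rw [hβ]; positivity
  have hγ0 : 0 < γ := by rw [hγ]; positivity
  let Y : ℕ → ℚ := fun k => α * ((x k : ℚ) - 1) + β * y k
  let V : ℕ → ℚ := fun k => kk * x k + γ * y k
  -- monotonicity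
  have hYm : StrictMono Y := by
    intro k l hkl
    have h1 : (x k : ℚ) < x l := by exact_mod_cast hxm hkl
    have h2 : (y k : ℚ) < y l := by exact_mod_cast hym hkl
    have h3 := mul_lt_mul_of_pos_left h1 hα0
    have h4 := mul_lt_mul_of_pos_left h2 hβ0
    show α * ((x k : ℚ) - 1) + β * y k < α * ((x l : ℚ) - 1) + β * y l
    linarith
  have hVm : StrictMono V := by
    intro k l hkl
    have h1 : (x k : ℚ) < x l := by exact_mod_cast hxm hkl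
    have h2 : (y k : ℚ) < y l := by exact_mod_cast hym hkl
    have h3 := mul_lt_mul_of_pos_left h1 hk
    have h4 := mul_lt_mul_of_pos_left h2 hγ0
    show kk * x k + γ * y k < kk * x l + γ * y l
    linarith
  have hY0 : ∀ k, 0 < Y k := by
    intro k
    have h1 := hx1Q k
    have h2 := hy1Q k
    have h3 : 0 ≤ α * ((x k : ℚ) - 1) := mul_nonneg hα0.le (by linarith)
    have h4 : 0 < β * y k := by positivity
    show 0 < α * ((x k : ℚ) - 1) + β * y k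
    linarith
  have hV0 : ∀ k, 0 < V k := by
    intro k
    have h1 := hx1Q k
    have h2 := hy1Q k
    show 0 < kk * x k + γ * y k
    positivity
  -- the conic
  have hconic : ∀ k, V k ^ 2 = ((e + 2) * Y k + m) ^ 2 + t * (Y k ^ 2 + b) := by
    intro k
    have e3 : (e + 2) ^ 2 + t = e ^ 2 * (1 + t) := by
      have h1 : (t:ℚ) ≠ 0 := htQ.ne'
      rw [he]
      field_simp
      ring
    have e5 : Y k * (e ^ 2 * (1 + t)) + (e + 2) * m = (e + 2) * m * x k + y k * (e * (1 + t) * kk) := by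
      show (α * ((x k : ℚ) - 1) + β * y k) * (e ^ 2 * (1 + t)) + (e + 2) * m = _
      rw [hα, hβ]
      field_simp
      ring
    have e2 : e * V k = x k * kk * e + y k * ((e + 2) * m) := by
      show e * (kk * x k + γ * y k) = _
      rw [hγ]
      field_simp
    have e6 : (Y k * (e ^ 2 * (1 + t)) + (e + 2) * m) ^ 2 - (1 + t) * (e * V k) ^ 2 =
        ((e + 2) * m) ^ 2 - (1 + t) * e ^ 2 * kk ^ 2 := by
      rw [e5, e2]
      linear_combination (((e + 2) * m) ^ 2 - (1 + t) * e ^ 2 * kk ^ 2) * hxyQ k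
    have hne : (1 + (t:ℚ)) * e ^ 2 ≠ 0 := by positivity
    apply mul_left_cancel₀ hne
    have e7 : (1 + (t:ℚ)) * e ^ 2 * (((e + 2) * Y k + m) ^ 2 + t * (Y k ^ 2 + b)) =
        (Y k * (e ^ 2 * (1 + t)) + (e + 2) * m) ^ 2 - ((e + 2) * m) ^ 2 + (1 + t) * e ^ 2 * (m ^ 2 + t * b) := by
      have : (1 + (t:ℚ)) * e ^ 2 * (((e + 2) * Y k + m) ^ 2 + t * (Y k ^ 2 + b)) =
        (1 + (t:ℚ)) * e ^ 2 * (((e + 2) ^ 2 + t) * Y k ^ 2 + 2 * (e + 2) * m * Y k + m ^ 2 + t * b) := by ring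
      rw [this, e3]
      ring
    rw [e7, ← hk2]
    linear_combination -e6
  obtain ⟨A, hA⟩ : ∃ A : ℚ, A = (e ^ 2 + (4 * e + 4 + t) / 4) / m := ⟨_, rfl⟩
  obtain ⟨E, hE⟩ : ∃ E : ℚ, E = b * (1 + t / 4) / m := ⟨_, rfl⟩
  have hA0 : 0 < A := by rw [hA]; positivity
  let w : Fin 5 → ℕ → ℚ := ![Y, fun k => e * Y k, fun k => (-(e * Y k) - m - V k) / 2,
    fun k => (-(e * Y k) - m + V k) / 2, fun k => A * Y k ^ 2 + e * Y k + E]
  have hmu : ∀ i, ∀ (v : ℚ) (N : ℕ), ((Finset.range N).filter (fun k => w i k = v)).card ≤ 2 := by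
    intro i
    fin_cases i
    · exact fun v N => (mult_inj hYm.injective v N).trans one_le_two
    · refine fun v N => (mult_inj (w := fun k => e * Y k) ?_ v N).trans one_le_two
      intro k l hkl
      exact hYm.injective (mul_left_cancel₀ he0.ne' hkl)
    · refine fun v N => (mult_inj (w := fun k => (-(e * Y k) - m - V k) / 2) ?_ v N).trans one_le_two
      apply StrictAnti.injective
      intro k l hkl
      have h1 := hYm hkl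
      have h2 := hVm hkl
      have h3 := mul_lt_mul_of_pos_left h1 he0
      show (-(e * Y l) - m - V l) / 2 < (-(e * Y k) - m - V k) / 2
      linarith
    · have hA' : (e + 2) ^ 2 + t - e ^ 2 ≠ 0 := by
        have : (e + 2) ^ 2 + t - e ^ 2 = 4 * e + 4 + t := by ring
        rw [this]
        positivity
      refine mult_quad (u := Y) hYm.injective hA' (fun ξ => 2 * (e + 2) * m - 2 * e * (2 * ξ + m))
        (fun ξ => m ^ 2 + t * b - (2 * ξ + m) ^ 2) ?_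
      intro k
      have h1 : V k = 2 * ((-(e * Y k) - m + V k) / 2) + e * Y k + m := by ring
      have h2 := hconic k
      obtain ⟨ξ, hξ⟩ : ∃ ξ, ξ = (-(e * Y k) - m + V k) / 2 := ⟨_, rfl⟩
      show ((e + 2) ^ 2 + t - e ^ 2) * Y k ^ 2 + (2 * (e + 2) * m - 2 * e * (2 * ((-(e * Y k) - m + V k) / 2) + m)) * Y k
        + (m ^ 2 + t * b - (2 * ((-(e * Y k) - m + V k) / 2) + m) ^ 2) = 0
      rw [← hξ] at h1 ⊢
      rw [h1] at h2
      linear_combination -h2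
    · refine fun v N => (mult_inj (w := fun k => A * Y k ^ 2 + e * Y k + E) ?_ v N).trans one_le_two
      apply StrictMono.injective
      intro k l hkl
      have h1 := hYm hkl
      have h2 := hY0 k
      have h3 := mul_lt_mul_of_pos_left h1 he0
      have h4 : Y k ^ 2 < Y l ^ 2 := by nlinarith
      have h5 := mul_lt_mul_of_pos_left h4 hA0
      show A * Y k ^ 2 + e * Y k + E < A * Y l ^ 2 + e * Y l + E
      linarith
  have hgr : ∀ i k, |w i k| ≤ (C1:ℚ) ^ (k + 1) := by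
    intro i k
    obtain ⟨h1, h2, h3, h4, h5⟩ := hgrow k
    unfold zY at h1
    unfold zY at h2
    unfold zY zV at h3
    unfold zY zV at h4
    unfold zY at h5
    rw [← he, ← hα, ← hβ] at h1
    rw [← he, ← hα, ← hβ] at h2
    rw [← he, ← hα, ← hβ, ← hγ] at h3
    rw [← he, ← hα, ← hβ, ← hγ] at h4
    rw [← he, ← hα, ← hβ, ← hA, ← hE] at h5
    fin_cases i
    · exact h1
    · exact h2
    · exact h3
    · exact h4
    · exact h5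
  -- largeness of `Y`
  have hYk : ∀ k : ℕ, β * k ≤ Y k := by
    intro k
    have h1 := hx1Q k
    have h3 : 0 ≤ α * ((x k : ℚ) - 1) := mul_nonneg hα0.le (by linarith)
    have h4 : (k:ℤ) ≤ y k := by
      induction k with
      | zero => have := hy1 0; push_cast; omega
      | succ k ih =>
        have h7 : y k < y (k + 1) := hym (Nat.lt_succ_self k)
        have ih' := ih (hx1Q k) (mul_nonneg hα0.le (by linarith [hx1Q k]))
        push_cast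
        linarith
    have h5 : (k:ℚ) ≤ y k := by exact_mod_cast h4
    show β * k ≤ α * ((x k : ℚ) - 1) + β * y k
    have h6 := mul_le_mul_of_nonneg_left h5 hβ0.le
    linarith
  obtain ⟨S, hS⟩ : ∃ S : ℚ, S = (|b| + 1) * (1 + 2 / e + 1 / A) + |E| / A + 1 := ⟨_, rfl⟩
  rw [← he, ← hA, ← hE, ← hS, ← hβ] at hk₀
  have hint : ∀ i k, ∃ n : ℤ, w i k = n / q := by
    intro i k
    obtain ⟨h1, h2, h3, h4, h5⟩ := hden (x k) (y k)
    unfold zY at h1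
    unfold zY at h2
    unfold zY zV at h3
    unfold zY zV at h4
    unfold zY at h5
    rw [← he, ← hα, ← hβ] at h1
    rw [← he, ← hα, ← hβ] at h2
    rw [← he, ← hα, ← hβ, ← hγ] at h3
    rw [← he, ← hα, ← hβ, ← hγ] at h4
    rw [← he, ← hα, ← hβ, ← hA, ← hE] at h5
    fin_cases i
    · exact h1
    · exact h2
    · exact h3
    · exact h4
    · exact h5
  refine cover_E hq w hint hC1 hgr hmu k₀ fun k hk' => ?_
  have hYS : S ≤ Y k := by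
    refine le_trans ?_ (hYk k)
    have h1 : (k₀:ℚ) ≤ k := by exact_mod_cast hk'
    exact le_trans hk₀ (mul_le_mul_of_nonneg_left h1 hβ0.le)
  have hb0 : 0 ≤ |b| := abs_nonneg b
  have hS1 : 1 ≤ S := by
    rw [hS]
    have : 0 ≤ (|b| + 1) * (1 + 2 / e + 1 / A) + |E| / A := by positivity
    linarith
  have hSb : |b| + 1 ≤ S := by
    rw [hS]
    have : 0 ≤ (|b| + 1) * (2 / e + 1 / A) + |E| / A + 1 := by positivity
    nlinarith
  have hSe : 2 * (|b| + 1) ≤ e * S := by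
    have h1 : (|b| + 1) * (2 / e) ≤ S := by
      rw [hS]
      have : 0 ≤ (|b| + 1) * (1 + 1 / A) + |E| / A + 1 := by positivity
      nlinarith
    have h2 := mul_le_mul_of_nonneg_left h1 he0.le
    have h3 : e * ((|b| + 1) * (2 / e)) = 2 * (|b| + 1) := by field_simp
    linarith
  have hY1 : 1 ≤ Y k := le_trans hS1 hYS
  have hVB : (e + 2) * Y k + m ≤ V k := by
    apply abs_le_of_sq_le_sq' _ (hV0 k).le |>.2
    rw [hconic k]
    have h1 : 0 ≤ Y k ^ 2 + b := by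
      have h2 : -|b| ≤ b := neg_abs_le b
      have h3 : |b| + 1 ≤ Y k := le_trans hSb hYS
      nlinarith
    have : 0 ≤ (t:ℚ) * (Y k ^ 2 + b) := by positivity
    linarith
  have heY : 2 * (|b| + 1) ≤ e * Y k := le_trans hSe (mul_le_mul_of_nonneg_left hYS he0.le)
  have n0 : fc b 0 (Y k) ≠ 0 := by
    apply fc_ne
    rw [abs_of_pos (hY0 k), abs_zero]
    linarith
  have n1 : fc b 0 (e * Y k) ≠ 0 := by
    apply fc_ne
    rw [abs_of_pos (mul_pos he0 (hY0 k)), abs_zero]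
    linarith
  have n2 : fc b 0 ((-(e * Y k) - m - V k) / 2) ≠ 0 := by
    apply fc_ne
    refine le_trans ?_ (neg_le_abs _)
    rw [abs_zero]
    have := hV0 k
    linarith
  have n3 : fc b 0 ((-(e * Y k) - m + V k) / 2) ≠ 0 := by
    apply fc_ne
    refine le_trans ?_ (le_abs_self _)
    rw [abs_zero]
    have h3 : |b| + 1 ≤ Y k := le_trans hSb hYS
    linarith
  have n4 : fc b 0 (A * Y k ^ 2 + e * Y k + E) ≠ 0 := by
    apply fc_ne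
    refine le_trans ?_ (le_abs_self _)
    rw [abs_zero]
    have h1 : (|b| + 1) / A + |E| / A ≤ Y k := by
      refine le_trans ?_ hYS
      rw [hS]
      have h2 : 0 ≤ (|b| + 1) * (1 + 2 / e) + 1 := by positivity
      have h3 : (|b| + 1) * (1 + 2 / e + 1 / A) = (|b| + 1) * (1 + 2 / e) + (|b| + 1) / A := by ring
      linarith
    have h2 : |b| + 1 + |E| ≤ A * Y k := by
      have h3 := mul_le_mul_of_nonneg_left h1 hA0.le
      have h4 : A * ((|b| + 1) / A + |E| / A) = |b| + 1 + |E| := by field_simp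
      linarith
    have h3 : A * Y k ≤ A * Y k ^ 2 := by
      apply mul_le_mul_of_nonneg_left _ hA0.le
      nlinarith
    have h4 := neg_abs_le E
    have h5 : 0 < e * Y k := mul_pos he0 (hY0 k)
    linarith
  have key := zero_point hg (b := b) (t := (t:ℚ)) (e := e) (m := m) (y := Y k) (v := V k) hte hm.ne' (hconic k)
    rfl rfl rfl (z := A * Y k ^ 2 + e * Y k + E) (by rw [hA, hE]) n0 n1 n2 n3 n4
  -- one of the five signs
  have hpm : ∀ z : ℚ, fc b 0 z ≠ 0 → g (fc b 0 z) = 1 ∨ g (fc b 0 z) = -1 := by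
    intro z hz
    rcases mul_self_eq_one_iff.1 (hg.sq _ hz) with h | h
    · exact Or.inl h
    · exact Or.inr h
  have hgm : g (-m) = 1 ∨ g (-m) = -1 := by
    rcases mul_self_eq_one_iff.1 (hg.sq (-m) (neg_ne_zero.2 hm.ne')) with h | h
    · exact Or.inl h
    · exact Or.inr h
  by_contra hcon
  push Not at hcon
  have c0 : g (fc b 0 (Y k)) ≠ g (-m) := hcon 0
  have c1 : g (fc b 0 (e * Y k)) ≠ g (-m) := hcon 1
  have c2 : g (fc b 0 ((-(e * Y k) - m - V k) / 2)) ≠ g (-m) := hcon 2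
  have c3 : g (fc b 0 ((-(e * Y k) - m + V k) / 2)) ≠ g (-m) := hcon 3
  have c4 : g (fc b 0 (A * Y k ^ 2 + e * Y k + E)) ≠ g (-m) := hcon 4
  have p0 := hpm _ n0
  have p1 := hpm _ n1
  have p2 := hpm _ n2
  have p3 := hpm _ n3
  have p4 := hpm _ n4
  generalize g (fc b 0 (Y k)) = a0 at *
  generalize g (fc b 0 (e * Y k)) = a1 at *
  generalize g (fc b 0 ((-(e * Y k) - m - V k) / 2)) = a2 at *
  generalize g (fc b 0 ((-(e * Y k) - m + V k) / 2)) = a3 at *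
  generalize g (fc b 0 (A * Y k ^ 2 + e * Y k + E)) = a4 at *
  generalize g (-m) = G at *
  have q : ∀ a : ℤ, (a = 1 ∨ a = -1) → a ≠ G → a = -G := by
    intro a ha hne
    rcases ha with ha | ha <;> rcases hgm with h | h <;> rw [ha, h] at hne ⊢ <;> simp at hne ⊢
  rw [q a0 p0 c0, q a1 p1 c1, q a2 p2 c2, q a3 p3 c3, q a4 p4 c4] at key
  rcases hgm with h | h <;> rw [h] at key <;> norm_num at key



theorem grow_aux {r P Y V e m A E : ℚ} (hr : 1 ≤ r) (hP : 1 ≤ P) (Y0 : 0 ≤ Y) (eY0 : 0 ≤ e * Y)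
    (h1 : Y ≤ 2 * r * P) (h2 : e * Y ≤ 5 * r * P) (V0 : 0 ≤ V) (h3 : V ≤ 6 * r * P) (m0 : 0 ≤ m) (h4 : m ≤ 2 * r)
    (AY0 : 0 ≤ A * Y ^ 2) (h5 : A * Y ^ 2 ≤ 63 * r ^ 3 * P ^ 2) (h6 : |E| ≤ 3 * r ^ 2) :
    |Y| ≤ 71 * r ^ 3 * P ^ 2 ∧ |e * Y| ≤ 71 * r ^ 3 * P ^ 2 ∧ |(-(e * Y) - m - V) / 2| ≤ 71 * r ^ 3 * P ^ 2 ∧
      |(-(e * Y) - m + V) / 2| ≤ 71 * r ^ 3 * P ^ 2 ∧ |A * Y ^ 2 + e * Y + E| ≤ 71 * r ^ 3 * P ^ 2 := by
  have hr0 : 0 < r := by linarith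
  have hP0 : 0 < P := by linarith
  have f1 : r ≤ r ^ 3 := by
    calc r = r ^ 1 := (pow_one r).symm
      _ ≤ r ^ 3 := pow_le_pow_right₀ hr (by norm_num)
  have f2 : P ≤ P ^ 2 := by
    calc P = P ^ 1 := (pow_one P).symm
      _ ≤ P ^ 2 := pow_le_pow_right₀ hP (by norm_num)
  have f3 : r * P ≤ r ^ 3 * P ^ 2 := mul_le_mul f1 f2 hP0.le (by positivity)
  have f4 : r ≤ r ^ 3 * P ^ 2 := by
    have : r * 1 ≤ r * P := mul_le_mul_of_nonneg_left hP hr0.le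
    linarith
  have f5 : r ^ 2 ≤ r ^ 3 * P ^ 2 := by
    have g1 : r ^ 2 ≤ r ^ 3 := pow_le_pow_right₀ hr (by norm_num)
    have g2 : (1:ℚ) ≤ P ^ 2 := one_le_pow₀ hP
    calc r ^ 2 ≤ r ^ 3 * 1 := by linarith
      _ ≤ r ^ 3 * P ^ 2 := mul_le_mul_of_nonneg_left g2 (by positivity)
  have f6 : 0 ≤ r * P := by positivity
  have hE := abs_le.1 h6
  obtain ⟨T, hT⟩ : ∃ T, T = r ^ 3 * P ^ 2 := ⟨_, rfl⟩
  obtain ⟨U, hU⟩ : ∃ U, U = r * P := ⟨_, rfl⟩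
  have e1 : 71 * r ^ 3 * P ^ 2 = 71 * T := by rw [hT]; ring
  have e2 : 63 * r ^ 3 * P ^ 2 = 63 * T := by rw [hT]; ring
  have e3 : 2 * r * P = 2 * U := by rw [hU]; ring
  have e4 : 5 * r * P = 5 * U := by rw [hU]; ring
  have e5 : 6 * r * P = 6 * U := by rw [hU]; ring
  rw [e1]
  rw [e2] at h5
  rw [e3] at h1
  rw [e4] at h2
  rw [e5] at h3
  rw [← hT, ← hU] at f3
  rw [← hT] at f4 f5
  rw [← hU] at f6
  refine ⟨?_, ?_, ?_, ?_, ?_⟩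
  · rw [abs_of_nonneg Y0]; linarith
  · rw [abs_of_nonneg eY0]; linarith
  · rw [abs_le]; constructor <;> linarith
  · rw [abs_le]; constructor <;> linarith
  · rw [abs_le]; constructor <;> linarith [hE.1, hE.2]

/-- the growth, first conic -/
theorem zgrow_one {b : ℤ} {r M K : ℚ} (hr : 1 ≤ r) (hrb : |(b:ℚ)| ≤ r) (hM : 1 ≤ M) (hM2 : M ≤ 2 * r ^ 2)
    (hK : 1 ≤ K) (hK2 : K ≤ 2 * r ^ 2) {x y : ℕ → ℤ} {C : ℕ} (hC : 1 ≤ C) (hx1 : ∀ k, 1 ≤ x k) (hy1 : ∀ k, 1 ≤ y k)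
    (hxC : ∀ k, x k ≤ (C:ℤ) ^ (k + 1)) (hyC : ∀ k, y k ≤ (C:ℤ) ^ (k + 1)) {C1 : ℕ} (hC1 : (C1:ℚ) = 71 * r ^ 3 * C ^ 2) :
    ZGrow 1 (M / (2 * r)) (K / (2 * r)) b C1 x y := by
  intro k
  have hr0 : 0 < r := by linarith
  obtain ⟨P, hP⟩ : ∃ P : ℚ, P = (C:ℚ) ^ (k + 1) := ⟨_, rfl⟩
  have hCQ : (1:ℚ) ≤ C := by exact_mod_cast hC
  have hP1 : 1 ≤ P := by rw [hP]; exact one_le_pow₀ hCQ
  have hx : (1:ℚ) ≤ x k := by exact_mod_cast hx1 k
  have hy : (1:ℚ) ≤ y k := by exact_mod_cast hy1 k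
  have hxP : (x k : ℚ) ≤ P := by rw [hP]; exact_mod_cast hxC k
  have hyP : (y k : ℚ) ≤ P := by rw [hP]; exact_mod_cast hyC k
  have hfin : 71 * r ^ 3 * P ^ 2 ≤ (C1:ℚ) ^ (k + 1) := by
    rw [hC1, mul_pow (71 * r ^ 3), ← pow_mul, hP, ← pow_mul, mul_comm 2 (k + 1)]
    apply mul_le_mul_of_nonneg_right _ (by positivity)
    have h1 : (1:ℚ) ≤ 71 * r ^ 3 := by
      have : (1:ℚ) ≤ r ^ 3 := one_le_pow₀ hr
      linarith
    calc 71 * r ^ 3 = (71 * r ^ 3) ^ 1 := (pow_one _).symm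
      _ ≤ _ := pow_le_pow_right₀ h1 (by omega)
  obtain ⟨m, hm⟩ : ∃ m : ℚ, m = M / (2 * r) := ⟨_, rfl⟩
  obtain ⟨kk, hkk⟩ : ∃ kk : ℚ, kk = K / (2 * r) := ⟨_, rfl⟩
  have hm0 : 0 < m := by rw [hm]; positivity
  have hk0 : 0 < kk := by rw [hkk]; positivity
  have hmr : m ≤ r := by
    rw [hm, div_le_iff₀ (by positivity)]
    linarith
  have hkr : kk ≤ r := by
    rw [hkk, div_le_iff₀ (by positivity)]
    linarith
  rw [← hm, ← hkk]
  have eY : zY 1 m kk (x k) (y k) = 7 / 50 * m * ((x k : ℚ) - 1) + kk / 5 * y k := by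
    unfold zY
    push_cast
    ring
  have eV : zV 1 m kk (x k) (y k) = kk * x k + 7 / 5 * m * y k := by
    unfold zV
    push_cast
    ring
  obtain ⟨Y, hY⟩ : ∃ Y : ℚ, Y = zY 1 m kk (x k) (y k) := ⟨_, rfl⟩
  obtain ⟨V, hV⟩ : ∃ V : ℚ, V = zV 1 m kk (x k) (y k) := ⟨_, rfl⟩
  rw [← hY, ← hV]
  rw [← hY] at eY
  rw [← hV] at eV
  have g1 : m * ((x k : ℚ) - 1) ≤ r * P := mul_le_mul hmr (by linarith) (by linarith) (by linarith)
  have g2 : kk * y k ≤ r * P := mul_le_mul hkr hyP (by linarith) (by linarith)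
  have g3 : kk * x k ≤ r * P := mul_le_mul hkr hxP (by linarith) (by linarith)
  have g4 : m * y k ≤ r * P := mul_le_mul hmr hyP (by linarith) (by linarith)
  have g5 : 0 ≤ m * ((x k : ℚ) - 1) := mul_nonneg hm0.le (by linarith)
  have g6 : 0 ≤ kk * y k := mul_nonneg hk0.le (by linarith)
  have g7 : 0 ≤ kk * x k := mul_nonneg hk0.le (by linarith)
  have g8 : 0 ≤ m * y k := mul_nonneg hm0.le (by linarith)
  have Y0 : 0 ≤ Y := by rw [eY]; linarith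
  have Y1 : Y ≤ r * P := by rw [eY]; linarith
  have V0 : 0 ≤ V := by rw [eV]; linarith
  have V1 : V ≤ 6 * r * P := by rw [eV]; linarith
  have hA : ((1 + 4 / ((1:ℕ):ℚ)) ^ 2 + (4 * (1 + 4 / ((1:ℕ):ℚ)) + 4 + ((1:ℕ):ℚ)) / 4) / m = 125 * r / (2 * M) := by
    rw [hm]
    push_cast
    field_simp
    ring
  have hE : (b:ℚ) * (1 + ((1:ℕ):ℚ) / 4) / m = 5 * b * r / (2 * M) := by
    rw [hm]
    push_cast
    field_simp
    ring
  rw [hA, hE]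
  have hA1 : 125 * r / (2 * M) ≤ 63 * r := by
    rw [div_le_iff₀ (by positivity)]
    nlinarith
  have hA0 : 0 ≤ 125 * r / (2 * M) := by positivity
  have hY2 : Y ^ 2 ≤ (r * P) ^ 2 := pow_le_pow_left₀ Y0 Y1 2
  have hAY : 125 * r / (2 * M) * Y ^ 2 ≤ 63 * r ^ 3 * P ^ 2 := by
    calc 125 * r / (2 * M) * Y ^ 2 ≤ (63 * r) * (r * P) ^ 2 := mul_le_mul hA1 hY2 (by positivity) (by positivity)
      _ = 63 * r ^ 3 * P ^ 2 := by ring
  have hEb : |5 * (b:ℚ) * r / (2 * M)| ≤ 3 * r ^ 2 := by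
    rw [abs_div, abs_mul, abs_mul, abs_of_pos (by norm_num : (0:ℚ) < 5), abs_of_pos hr0,
      abs_of_pos (by positivity : (0:ℚ) < 2 * M), div_le_iff₀ (by positivity)]
    have h1 : |(b:ℚ)| * r ≤ r * r := mul_le_mul_of_nonneg_right hrb hr0.le
    nlinarith
  have key := grow_aux (e := 1 + 4 / ((1:ℕ):ℚ)) hr hP1 Y0 (by push_cast; linarith)
    (by nlinarith) (by push_cast; linarith) V0 V1 hm0.le (by linarith) (mul_nonneg hA0 (by positivity)) hAY hEb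
  obtain ⟨k1, k2, k3, k4, k5⟩ := key
  exact ⟨k1.trans hfin, k2.trans hfin, k3.trans hfin, k4.trans hfin, k5.trans hfin⟩

/-- the growth, second conic -/
theorem zgrow_four {b : ℤ} {r M K : ℚ} (hr : 1 ≤ r) (hrb : |(b:ℚ)| ≤ r) (hM : 1 ≤ M) (hM2 : M ≤ 2 * r ^ 2)
    (hK : 1 ≤ K) (hK2 : K ≤ 2 * r ^ 2) {x y : ℕ → ℤ} {C : ℕ} (hC : 1 ≤ C) (hx1 : ∀ k, 1 ≤ x k) (hy1 : ∀ k, 1 ≤ y k)
    (hxC : ∀ k, x k ≤ (C:ℤ) ^ (k + 1)) (hyC : ∀ k, y k ≤ (C:ℤ) ^ (k + 1)) {C1 : ℕ} (hC1 : (C1:ℚ) = 71 * r ^ 3 * C ^ 2) :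
    ZGrow 4 (2 * (M / (2 * r))) (2 * (K / (2 * r))) b C1 x y := by
  intro k
  have hr0 : 0 < r := by linarith
  obtain ⟨P, hP⟩ : ∃ P : ℚ, P = (C:ℚ) ^ (k + 1) := ⟨_, rfl⟩
  have hCQ : (1:ℚ) ≤ C := by exact_mod_cast hC
  have hP1 : 1 ≤ P := by rw [hP]; exact one_le_pow₀ hCQ
  have hx : (1:ℚ) ≤ x k := by exact_mod_cast hx1 k
  have hy : (1:ℚ) ≤ y k := by exact_mod_cast hy1 k
  have hxP : (x k : ℚ) ≤ P := by rw [hP]; exact_mod_cast hxC k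
  have hyP : (y k : ℚ) ≤ P := by rw [hP]; exact_mod_cast hyC k
  have hfin : 71 * r ^ 3 * P ^ 2 ≤ (C1:ℚ) ^ (k + 1) := by
    rw [hC1, mul_pow (71 * r ^ 3), ← pow_mul, hP, ← pow_mul, mul_comm 2 (k + 1)]
    apply mul_le_mul_of_nonneg_right _ (by positivity)
    have h1 : (1:ℚ) ≤ 71 * r ^ 3 := by
      have : (1:ℚ) ≤ r ^ 3 := one_le_pow₀ hr
      linarith
    calc 71 * r ^ 3 = (71 * r ^ 3) ^ 1 := (pow_one _).symm
      _ ≤ _ := pow_le_pow_right₀ h1 (by omega)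
  obtain ⟨m, hm⟩ : ∃ m : ℚ, m = 2 * (M / (2 * r)) := ⟨_, rfl⟩
  obtain ⟨kk, hkk⟩ : ∃ kk : ℚ, kk = 2 * (K / (2 * r)) := ⟨_, rfl⟩
  have hm' : m = M / r := by rw [hm]; field_simp
  have hkk' : kk = K / r := by rw [hkk]; field_simp
  have hm0 : 0 < m := by rw [hm]; positivity
  have hk0 : 0 < kk := by rw [hkk]; positivity
  have hmr : m ≤ 2 * r := by
    rw [hm', div_le_iff₀ (by positivity)]
    linarith
  have hkr : kk ≤ 2 * r := by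
    rw [hkk', div_le_iff₀ (by positivity)]
    linarith
  rw [← hm, ← hkk]
  have eY : zY 4 m kk (x k) (y k) = 1 / 5 * m * ((x k : ℚ) - 1) + kk / 2 * y k := by
    unfold zY
    push_cast
    ring
  have eV : zV 4 m kk (x k) (y k) = kk * x k + 2 * m * y k := by
    unfold zV
    push_cast
    ring
  obtain ⟨Y, hY⟩ : ∃ Y : ℚ, Y = zY 4 m kk (x k) (y k) := ⟨_, rfl⟩
  obtain ⟨V, hV⟩ : ∃ V : ℚ, V = zV 4 m kk (x k) (y k) := ⟨_, rfl⟩
  rw [← hY, ← hV]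
  rw [← hY] at eY
  rw [← hV] at eV
  have g1 : m * ((x k : ℚ) - 1) ≤ 2 * r * P := mul_le_mul hmr (by linarith) (by linarith) (by linarith)
  have g2 : kk * y k ≤ 2 * r * P := mul_le_mul hkr hyP (by linarith) (by linarith)
  have g3 : kk * x k ≤ 2 * r * P := mul_le_mul hkr hxP (by linarith) (by linarith)
  have g4 : m * y k ≤ 2 * r * P := mul_le_mul hmr hyP (by linarith) (by linarith)
  have g5 : 0 ≤ m * ((x k : ℚ) - 1) := mul_nonneg hm0.le (by linarith)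
  have g6 : 0 ≤ kk * y k := mul_nonneg hk0.le (by linarith)
  have g7 : 0 ≤ kk * x k := mul_nonneg hk0.le (by linarith)
  have g8 : 0 ≤ m * y k := mul_nonneg hm0.le (by linarith)
  have Y0 : 0 ≤ Y := by rw [eY]; linarith
  have Y1 : Y ≤ 7 / 5 * (r * P) := by rw [eY]; linarith
  have V0 : 0 ≤ V := by rw [eV]; linarith
  have V1 : V ≤ 6 * r * P := by rw [eV]; linarith
  have hrP : 0 ≤ r * P := by positivity
  have hA : ((1 + 4 / ((4:ℕ):ℚ)) ^ 2 + (4 * (1 + 4 / ((4:ℕ):ℚ)) + 4 + ((4:ℕ):ℚ)) / 4) / m = 8 * r / M := by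
    rw [hm']
    push_cast
    field_simp
    ring
  have hE : (b:ℚ) * (1 + ((4:ℕ):ℚ) / 4) / m = 2 * b * r / M := by
    rw [hm']
    push_cast
    field_simp
    ring
  rw [hA, hE]
  have hA1 : 8 * r / M ≤ 8 * r := by
    rw [div_le_iff₀ (by positivity)]
    nlinarith
  have hA0 : 0 ≤ 8 * r / M := by positivity
  have hY2 : Y ^ 2 ≤ (7 / 5 * (r * P)) ^ 2 := pow_le_pow_left₀ Y0 Y1 2
  have hAY : 8 * r / M * Y ^ 2 ≤ 63 * r ^ 3 * P ^ 2 := by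
    calc 8 * r / M * Y ^ 2 ≤ (8 * r) * (7 / 5 * (r * P)) ^ 2 := mul_le_mul hA1 hY2 (by positivity) (by positivity)
      _ = 392 / 25 * (r ^ 3 * P ^ 2) := by ring
      _ ≤ 63 * (r ^ 3 * P ^ 2) := mul_le_mul_of_nonneg_right (by norm_num) (by positivity)
      _ = 63 * r ^ 3 * P ^ 2 := by ring
  have hEb : |2 * (b:ℚ) * r / M| ≤ 3 * r ^ 2 := by
    rw [abs_div, abs_mul, abs_mul, abs_of_pos (by norm_num : (0:ℚ) < 2), abs_of_pos hr0,
      abs_of_pos (by positivity : (0:ℚ) < M), div_le_iff₀ (by positivity)]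
    have h1 : |(b:ℚ)| * r ≤ r * r := mul_le_mul_of_nonneg_right hrb hr0.le
    nlinarith
  have key := grow_aux (e := 1 + 4 / ((4:ℕ):ℚ)) hr hP1 Y0 (by push_cast; linarith)
    (by linarith) (by push_cast; linarith) V0 V1 hm0.le (by linarith) (mul_nonneg hA0 (by positivity)) hAY hEb
  obtain ⟨k1, k2, k3, k4, k5⟩ := key
  exact ⟨k1.trans hfin, k2.trans hfin, k3.trans hfin, k4.trans hfin, k5.trans hfin⟩

/-- the case `Q = 0`, everything explicit: `x, y` are the solutions of the Pell equations -/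
theorem zero_E_aux {C : ℕ} (hC : 1 ≤ C) {x2 y2 x5 y5 : ℕ → ℤ}
    (hxy2 : ∀ k, x2 k ^ 2 - (1 + (1:ℕ) : ℤ) * y2 k ^ 2 = 1) (hx2 : ∀ k, 1 ≤ x2 k) (hy2 : ∀ k, 1 ≤ y2 k)
    (hxm2 : StrictMono x2) (hym2 : StrictMono y2) (hxC2 : ∀ k, x2 k ≤ (C:ℤ) ^ (k + 1))
    (hyC2 : ∀ k, y2 k ≤ (C:ℤ) ^ (k + 1))
    (hxy5 : ∀ k, x5 k ^ 2 - (1 + (4:ℕ) : ℤ) * y5 k ^ 2 = 1) (hx5 : ∀ k, 1 ≤ x5 k) (hy5 : ∀ k, 1 ≤ y5 k)
    (hxm5 : StrictMono x5) (hym5 : StrictMono y5) (hxC5 : ∀ k, x5 k ≤ (C:ℤ) ^ (k + 1))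
    (hyC5 : ∀ k, y5 k ≤ (C:ℤ) ^ (k + 1))
    {g : ℚ → ℤ} (hg : GMul g) (h2 : g 2 = -1) (b : ℤ) {q : ℕ}
    (hq : (q:ℤ) = 40000 * (|b| + 1) ^ 2 * ((|b| + 1) ^ 2 - b)) (s : ℤ) (hs : s = 1 ∨ s = -1) :
    ∃ n : ℕ → ℤ, (∀ k, |n k| ≤ (((71 * (b.natAbs + 1) ^ 3 * C ^ 2) ^ (50 * (b.natAbs + 1) ^ 3 + 1) * q : ℕ) : ℤ) ^ (k + 1)) ∧
      (∀ (v : ℤ) (N : ℕ), ((Finset.range N).filter (fun k => n k = v)).card ≤ 10) ∧
      ∀ k, g (fc (b:ℚ) 0 ((n k : ℚ) / q)) = s := by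
  have hb0 : 0 ≤ |b| := abs_nonneg b
  have hb1 : b ≤ |b| := le_abs_self b
  have hb2 : -|b| ≤ b := neg_abs_le b
  obtain ⟨r, hr⟩ : ∃ r : ℤ, r = |b| + 1 := ⟨_, rfl⟩
  rw [← hr] at hq
  have hr0 : 0 < r := by rw [hr]; linarith
  have hr1 : |b| < r ^ 2 := by rw [hr]; nlinarith
  obtain ⟨M, hM⟩ : ∃ M : ℤ, M = r ^ 2 - b := ⟨_, rfl⟩
  obtain ⟨K, hK⟩ : ∃ K : ℤ, K = r ^ 2 + b := ⟨_, rfl⟩
  rw [← hM] at hq
  have hM0 : 0 < M := by rw [hM]; linarith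
  have hK0 : 0 < K := by rw [hK]; linarith
  have hM2 : M ≤ 2 * r ^ 2 := by rw [hM]; linarith
  have hK2 : K ≤ 2 * r ^ 2 := by rw [hK]; linarith
  have hq0 : 0 < q := by
    have : (0:ℤ) < q := by rw [hq]; positivity
    exact_mod_cast this
  have hrQ : (1:ℚ) ≤ r := by exact_mod_cast hr0
  have hrb : |(b:ℚ)| ≤ r := by
    have : |b| ≤ r := by rw [hr]; linarith
    exact_mod_cast this
  have hMQ : (1:ℚ) ≤ M := by exact_mod_cast hM0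
  have hKQ : (1:ℚ) ≤ K := by exact_mod_cast hK0
  have hMQ2 : (M:ℚ) ≤ 2 * r ^ 2 := by exact_mod_cast hM2
  have hKQ2 : (K:ℚ) ≤ 2 * r ^ 2 := by exact_mod_cast hK2
  have hr0Q : (0:ℚ) < r := by linarith
  have hM0Q : (0:ℚ) < M := by linarith
  have hK0Q : (0:ℚ) < K := by linarith
  have hm : (0:ℚ) < (M:ℚ) / (2 * r) := by positivity
  have hk : (0:ℚ) < (K:ℚ) / (2 * r) := by positivity
  have hrel : ((K:ℚ) / (2 * r)) ^ 2 = ((M:ℚ) / (2 * r)) ^ 2 + b := by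
    have h1 : (M:ℚ) = r ^ 2 - b := by exact_mod_cast hM
    have h3 : (K:ℚ) = r ^ 2 + b := by exact_mod_cast hK
    rw [h1, h3]
    field_simp
    ring
  have hrn : ((b.natAbs + 1 : ℕ) : ℤ) = r := by
    rw [hr, Nat.cast_add, Int.natCast_natAbs, Nat.cast_one]
  have hrnQ : ((b.natAbs + 1 : ℕ) : ℚ) = r := by rw [← hrn, Int.cast_natCast]
  have hC1Q : ((71 * (b.natAbs + 1) ^ 3 * C ^ 2 : ℕ) : ℚ) = 71 * (r:ℚ) ^ 3 * C ^ 2 := by
    push_cast at hrnQ ⊢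
    rw [hrnQ]
  have hC1 : 1 ≤ 71 * (b.natAbs + 1) ^ 3 * C ^ 2 := by
    have : 0 < 71 * (b.natAbs + 1) ^ 3 * C ^ 2 := by positivity
    omega
  have hk0Q : ((50 * (b.natAbs + 1) ^ 3 : ℕ) : ℚ) = 50 * (r:ℚ) ^ 3 := by
    push_cast at hrnQ ⊢
    rw [hrnQ]
  have hbr : |(b:ℚ)| + 1 = r := by
    have : |b| + 1 = r := hr.symm
    exact_mod_cast this
  have hb0Q : 0 ≤ |(b:ℚ)| := abs_nonneg _
  have hr2 : (r:ℚ) ≤ r ^ 2 := by nlinarith
  have r1 := zero_orbit_E hg (b := (b:ℚ)) 1 one_pos hxy2 hx2 hy2 hxm2 hym2 hm hk (by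
      push_cast
      linear_combination hrel) hq0 (zden_one hr0 hM0 hq) hC1
      (zgrow_one hrQ hrb hMQ hMQ2 hKQ hKQ2 hC hx2 hy2 hxC2 hyC2 hC1Q) (k₀ := 50 * (b.natAbs + 1) ^ 3) (by
    rw [hk0Q, hbr, abs_div, abs_of_pos hm]
    push_cast
    rw [abs_mul, abs_of_pos (by norm_num : (0:ℚ) < 1 + 1 / 4)]
    have e1 : (K:ℚ) / (2 * r) / (1 + 4 / 1) * (50 * (r:ℚ) ^ 3) = 5 * (K * r ^ 2) := by
      field_simp
      ring
    have e2 : (1:ℚ) / (((1 + 4 / 1) ^ 2 + (4 * (1 + 4 / 1) + 4 + 1) / 4) / ((M:ℚ) / (2 * r))) = 2 * M / (125 * r) := by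
      field_simp
      ring
    have e3 : |(b:ℚ)| * (1 + 1 / 4) / ((M:ℚ) / (2 * r)) / (((1 + 4 / 1) ^ 2 + (4 * (1 + 4 / 1) + 4 + 1) / 4) / ((M:ℚ) / (2 * r)))
        = |(b:ℚ)| / 25 := by
      field_simp
      ring
    rw [e1, e2, e3]
    have h1 : 2 * (M:ℚ) / (125 * r) ≤ r := by
      rw [div_le_iff₀ (by positivity)]
      nlinarith
    have h4 : (r:ℚ) * (1 + 2 / (1 + 4 / 1) + 2 * M / (125 * r)) ≤ r * (1 + 2 / 5 + r) := by
      apply mul_le_mul_of_nonneg_left _ hr0Q.le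
      linarith
    have h5 : (r:ℚ) ^ 2 ≤ K * r ^ 2 := le_mul_of_one_le_left (by positivity) hKQ
    nlinarith)
  have r2 := zero_orbit_E hg (b := (b:ℚ)) 4 (by norm_num) hxy5 hx5 hy5 hxm5 hym5 (m := 2 * ((M:ℚ) / (2 * r)))
      (kk := 2 * ((K:ℚ) / (2 * r))) (by linarith) (by linarith) (by
      push_cast
      linear_combination 4 * hrel) hq0 (zden_four hr0 hM0 hq) hC1
      (zgrow_four hrQ hrb hMQ hMQ2 hKQ hKQ2 hC hx5 hy5 hxC5 hyC5 hC1Q) (k₀ := 50 * (b.natAbs + 1) ^ 3) (by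
    rw [hk0Q, hbr, abs_div, abs_of_pos (by linarith : (0:ℚ) < 2 * ((M:ℚ) / (2 * r)))]
    push_cast
    rw [abs_mul, abs_of_pos (by norm_num : (0:ℚ) < 1 + 4 / 4)]
    have e1 : 2 * ((K:ℚ) / (2 * r)) / (1 + 4 / 4) * (50 * (r:ℚ) ^ 3) = 25 * (K * r ^ 2) := by
      field_simp
      ring
    have e2 : (1:ℚ) / (((1 + 4 / 4) ^ 2 + (4 * (1 + 4 / 4) + 4 + 4) / 4) / (2 * ((M:ℚ) / (2 * r)))) = M / (8 * r) := by
      field_simp
      ring
    have e3 : |(b:ℚ)| * (1 + 4 / 4) / (2 * ((M:ℚ) / (2 * r))) / (((1 + 4 / 4) ^ 2 + (4 * (1 + 4 / 4) + 4 + 4) / 4) / (2 * ((M:ℚ) / (2 * r))))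
        = |(b:ℚ)| / 4 := by
      field_simp
      ring
    rw [e1, e2, e3]
    have h1 : (M:ℚ) / (8 * r) ≤ r := by
      rw [div_le_iff₀ (by positivity)]
      nlinarith
    have h4 : (r:ℚ) * (1 + 2 / (1 + 4 / 4) + M / (8 * r)) ≤ r * (1 + 1 + r) := by
      apply mul_le_mul_of_nonneg_left _ hr0Q.le
      linarith
    have h5 : (r:ℚ) ^ 2 ≤ K * r ^ 2 := le_mul_of_one_le_left (by positivity) hKQ
    nlinarith)
  rw [show -(2 * ((M:ℚ) / (2 * r))) = 2 * (-((M:ℚ) / (2 * r))) by ring, hg.mul, h2] at r2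
  rcases mul_self_eq_one_iff.1 (hg.sq (-((M:ℚ) / (2 * r))) (neg_ne_zero.2 hm.ne')) with h | h
  · rw [h] at r1 r2
    rcases hs with h' | h' <;> rw [h']
    · exact r1
    · simpa using r2
  · rw [h] at r1 r2
    rcases hs with h' | h' <;> rw [h']
    · simpa using r2
    · exact r1

/-- X6 with everything explicit -/
theorem seqE_zero' : ∃ K : ℕ, ∀ b : ℤ, ∀ g : ℚ → ℤ, GMul g → (∀ n : ℤ, 0 < n → g (n : ℚ) = lam n) →
    ∀ s : ℤ, s = 1 ∨ s = -1 → ∃ q : ℕ, 0 < q ∧ q ≤ (2 + b.natAbs) ^ K ∧ ∃ n : ℕ → ℤ,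
      (∀ k, |n k| ≤ ((2:ℤ) ^ ((2 + b.natAbs) ^ K)) ^ (k + 1)) ∧
      (∀ (v : ℤ) (N : ℕ), ((Finset.range N).filter (fun k => n k = v)).card ≤ (2 + b.natAbs) ^ K) ∧
      ∀ k, g (fc (b:ℚ) 0 ((n k : ℚ) / q)) = s := by
  have hns2 : ¬ IsSquare (1 + (1:ℕ) : ℤ) := by
    rintro ⟨z, hz⟩
    push_cast at hz
    have h1 : z ≤ 1 := by nlinarith
    have h2 : -1 ≤ z := by nlinarith
    interval_cases z <;> norm_num at hz
  have hns5 : ¬ IsSquare (1 + (4:ℕ) : ℤ) := by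
    rintro ⟨z, hz⟩
    push_cast at hz
    have h1 : z ≤ 2 := by nlinarith
    have h2 : -2 ≤ z := by nlinarith
    interval_cases z <;> norm_num at hz
  obtain ⟨x2, y2, C2, a1, a2, a3, a4, a5, a6, a7⟩ := pell_seq (1 + (1:ℕ) : ℤ) (by norm_num) hns2
  obtain ⟨x5, y5, C5, b1, b2, b3, b4, b5, b6, b7⟩ := pell_seq (1 + (4:ℕ) : ℤ) (by norm_num) hns5
  obtain ⟨C, hC⟩ : ∃ C, C = C2 + C5 + 1 := ⟨_, rfl⟩
  have hC2 : ∀ k : ℕ, (C2:ℤ) ^ (k + 1) ≤ (C:ℤ) ^ (k + 1) := fun k =>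
    pow_le_pow_left₀ (by positivity) (by rw [hC]; push_cast; linarith [Int.natCast_nonneg C5]) _
  have hC5 : ∀ k : ℕ, (C5:ℤ) ^ (k + 1) ≤ (C:ℤ) ^ (k + 1) := fun k =>
    pow_le_pow_left₀ (by positivity) (by rw [hC]; push_cast; linarith [Int.natCast_nonneg C2]) _
  refine ⟨3621 * C ^ 2 + 80006, fun b g hg hlam s hs => ?_⟩
  have h2 : g 2 = -1 := by
    have h := hlam 2 (by norm_num)
    have h3 : lam 2 = -1 := by
      have := lam_prime Nat.prime_two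
      exact_mod_cast this
    rw [h3] at h
    exact_mod_cast h
  have hb0 : 0 ≤ |b| := abs_nonneg b
  have hb1 : b ≤ |b| := le_abs_self b
  have hb2 : -|b| ≤ b := neg_abs_le b
  have hpos : 0 < (|b| + 1) ^ 2 - b := by nlinarith
  have h0 : 0 < 40000 * (|b| + 1) ^ 2 * ((|b| + 1) ^ 2 - b) := by positivity
  obtain ⟨q, hq⟩ : ∃ q : ℕ, q = (40000 * (|b| + 1) ^ 2 * ((|b| + 1) ^ 2 - b)).toNat := ⟨_, rfl⟩
  have hqZ : (q:ℤ) = 40000 * (|b| + 1) ^ 2 * ((|b| + 1) ^ 2 - b) := by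
    rw [hq]
    exact Int.toNat_of_nonneg h0.le
  obtain ⟨n, n1, n2, n3⟩ := zero_E_aux (C := C) (by omega) a1 a2 a3 a4 a5 (fun k => (a6 k).trans (hC2 k))
    (fun k => (a7 k).trans (hC2 k)) b1 b2 b3 b4 b5 (fun k => (b6 k).trans (hC5 k))
    (fun k => (b7 k).trans (hC5 k)) hg h2 b hqZ s hs
  obtain ⟨ρ, hρ⟩ : ∃ ρ : ℕ, ρ = b.natAbs + 1 := ⟨_, rfl⟩
  have hρ1 : 1 ≤ ρ := by omega
  have hρZ : (ρ:ℤ) = |b| + 1 := by
    rw [hρ, Nat.cast_add, Int.natCast_natAbs, Nat.cast_one]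
  have hqle : q ≤ 80000 * ρ ^ 4 := by
    have h1 : (|b| + 1) ^ 2 - b ≤ 2 * (|b| + 1) ^ 2 := by nlinarith
    have h3 : (q:ℤ) ≤ 80000 * (ρ:ℤ) ^ 4 := by
      rw [hqZ, hρZ]
      calc 40000 * (|b| + 1) ^ 2 * ((|b| + 1) ^ 2 - b) ≤ 40000 * (|b| + 1) ^ 2 * (2 * (|b| + 1) ^ 2) :=
            mul_le_mul_of_nonneg_left h1 (by positivity)
        _ = 80000 * (|b| + 1) ^ 4 := by ring
    exact_mod_cast h3
  rw [← hρ] at n1
  have hB : 71 * ρ ^ 3 * C ^ 2 * (50 * ρ ^ 3 + 1) + q ≤ (2 + b.natAbs) ^ (3621 * C ^ 2 + 80006) := by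
    have f1 : 1 ≤ ρ ^ 3 := Nat.one_le_pow _ _ hρ1
    have f2 : ρ ^ 4 ≤ ρ ^ 6 := Nat.pow_le_pow_right hρ1 (by norm_num)
    have f3 : 71 * ρ ^ 3 * C ^ 2 * (50 * ρ ^ 3 + 1) ≤ 3621 * C ^ 2 * ρ ^ 6 := by
      have : 50 * ρ ^ 3 + 1 ≤ 51 * ρ ^ 3 := by omega
      calc 71 * ρ ^ 3 * C ^ 2 * (50 * ρ ^ 3 + 1) ≤ 71 * ρ ^ 3 * C ^ 2 * (51 * ρ ^ 3) := Nat.mul_le_mul_left _ this
        _ = 3621 * C ^ 2 * ρ ^ 6 := by ring
    have f4 : 71 * ρ ^ 3 * C ^ 2 * (50 * ρ ^ 3 + 1) + q ≤ (3621 * C ^ 2 + 80000) * ρ ^ 6 := by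
      have : (3621 * C ^ 2 + 80000) * ρ ^ 6 = 3621 * C ^ 2 * ρ ^ 6 + 80000 * ρ ^ 6 := by ring
      rw [this]
      omega
    calc 71 * ρ ^ 3 * C ^ 2 * (50 * ρ ^ 3 + 1) + q ≤ (3621 * C ^ 2 + 80000) * ρ ^ 6 := f4
      _ ≤ 2 ^ (3621 * C ^ 2 + 80000) * (2 + b.natAbs) ^ 6 :=
          Nat.mul_le_mul Nat.lt_two_pow_self.le (Nat.pow_le_pow_left (by omega) 6)
      _ ≤ (2 + b.natAbs) ^ (3621 * C ^ 2 + 80000) * (2 + b.natAbs) ^ 6 :=
          Nat.mul_le_mul_right _ (Nat.pow_le_pow_left (by omega) _)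
      _ = (2 + b.natAbs) ^ (3621 * C ^ 2 + 80006) := by rw [← pow_add]
  obtain ⟨B, hBe⟩ : ∃ B, B = (2 + b.natAbs) ^ (3621 * C ^ 2 + 80006) := ⟨_, rfl⟩
  rw [← hBe] at hB ⊢
  have h10 : 10 ≤ B := by
    rw [hBe]
    calc 10 ≤ 2 ^ 4 := by norm_num
      _ ≤ 2 ^ (3621 * C ^ 2 + 80006) := Nat.pow_le_pow_right (by norm_num) (by omega)
      _ ≤ _ := Nat.pow_le_pow_left (by omega) _
  refine ⟨q, ?_, by omega, n, fun k => (n1 k).trans ?_, fun v N => (n2 v N).trans h10, n3⟩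
  · have : (0:ℤ) < q := by rw [hqZ]; exact h0
    exact_mod_cast this
  · apply pow_le_pow_left₀ (by positivity)
    have h5 : (71 * ρ ^ 3 * C ^ 2) ^ (50 * ρ ^ 3 + 1) * q ≤ 2 ^ B := by
      calc (71 * ρ ^ 3 * C ^ 2) ^ (50 * ρ ^ 3 + 1) * q
          ≤ (2 ^ (71 * ρ ^ 3 * C ^ 2)) ^ (50 * ρ ^ 3 + 1) * 2 ^ q :=
            Nat.mul_le_mul (Nat.pow_le_pow_left Nat.lt_two_pow_self.le _) Nat.lt_two_pow_self.le
        _ = 2 ^ (71 * ρ ^ 3 * C ^ 2 * (50 * ρ ^ 3 + 1) + q) := by rw [← pow_mul, ← pow_add]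
        _ ≤ 2 ^ B := Nat.pow_le_pow_right (by norm_num) hB
    exact_mod_cast h5

end MP648Diag
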