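import Pool.Agent.Lib.MP_648c71_nt.EX.DefsE
import Pool.Agent.Lib.MP_648c71_nt.EX.ZeroE

set_option autoImplicit false

namespace Pool.Agent.Lib.MP_648c71_nt.AllCub

theorem seqE_zero : ∃ K : ℕ, ∀ b : ℤ, ∀ g : ℚ → ℤ, GMul g → (∀ n : ℤ, 0 < n → g (n : ℚ) = lam n) →
    ∀ s : ℤ, s = 1 ∨ s = -1 → SeqE g b 0 s ((2 + b.natAbs) ^ K) := by
  obtain ⟨K, hK⟩ := MP648Diag.seqE_zero'
  exact ⟨K, fun b g hg hlam s hs => hK b g hg hlam s hs⟩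

end Pool.Agent.Lib.MP_648c71_nt.AllCub
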