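import Pool.Agent.Lib.MP_648c71_nt.EX.CountE
import Pool.Agent.Lib.MP_648c71_nt.EX.SeqE
import Pool.Agent.Lib.MP_648c71_nt.EX.SeqE0
import Pool.Agent.Lib.MP_648c71_nt.Diag.AllCnt

/-!
# All cubics, everything explicit
-/

namespace MP648Diag

open Filter Pool.Agent.Lib.MP_648c71_nt Pool.Agent.Lib.MP_648c71_nt.AllCub

theorem seqE_all : ∃ K : ℕ, ∀ g : ℚ → ℤ, (g = gl ∨ g = gs) → ∀ b c : ℤ, ∀ s : ℤ, s = 1 ∨ s = -1 →
    SeqE g (b : ℚ) (c : ℚ) s ((2 + b.natAbs + c.natAbs) ^ K) := by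
  obtain ⟨K1, h1⟩ := seqE_ne
  obtain ⟨K2, h2⟩ := seqE_zero
  refine ⟨K1 + K2, fun g hg b c s hs => ?_⟩
  obtain ⟨c1, c2, -, c4, -, -⟩ := g_facts hg
  rcases eq_or_ne c 0 with h | h
  · rw [h, Int.cast_zero, Int.natAbs_zero, add_zero]
    exact (h2 b g c1.gmul c2 s hs).mono (Nat.pow_le_pow_right (by omega) (by omega))
  · exact (h1 b c h g c1.gmul c4 s hs).mono (Nat.pow_le_pow_right (by omega) (by omega))

theorem bound_PQ (a b c d : ℤ) : 2 + (9 * a * c - 3 * b ^ 2).natAbs +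
    (27 * a ^ 2 * d - 9 * a * b * c + 2 * b ^ 3).natAbs ≤
    52 * (1 + a.natAbs + b.natAbs + c.natAbs + d.natAbs) ^ 3 := by
  obtain ⟨x, hx⟩ : ∃ x, x = a.natAbs := ⟨_, rfl⟩
  obtain ⟨y, hy⟩ : ∃ y, y = b.natAbs := ⟨_, rfl⟩
  obtain ⟨z, hz⟩ : ∃ z, z = c.natAbs := ⟨_, rfl⟩
  obtain ⟨w, hw⟩ : ∃ w, w = d.natAbs := ⟨_, rfl⟩
  have e1 : (9 * a * c - 3 * b ^ 2).natAbs ≤ 9 * x * z + 3 * y ^ 2 := by
    refine (Int.natAbs_sub_le _ _).trans ?_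
    simp only [Int.natAbs_mul, Int.natAbs_pow, ← hx, ← hy, ← hz]
    norm_num
  have e2 : (27 * a ^ 2 * d - 9 * a * b * c + 2 * b ^ 3).natAbs ≤ 27 * x ^ 2 * w + 9 * x * y * z + 2 * y ^ 3 := by
    refine (Int.natAbs_add_le _ _).trans ?_
    refine Nat.add_le_add ((Int.natAbs_sub_le _ _).trans ?_) ?_
    · simp only [Int.natAbs_mul, Int.natAbs_pow, ← hx, ← hy, ← hz, ← hw]
      norm_num
    · simp only [Int.natAbs_mul, Int.natAbs_pow, ← hy]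
      norm_num
  rw [← hx, ← hy, ← hz, ← hw]
  obtain ⟨H, hH⟩ : ∃ H, H = 1 + x + y + z + w := ⟨_, rfl⟩
  rw [← hH]
  have hx1 : x ≤ H := by omega
  have hy1 : y ≤ H := by omega
  have hz1 : z ≤ H := by omega
  have hw1 : w ≤ H := by omega
  have h1 : 1 ≤ H := by omega
  have f1 : x * z ≤ H ^ 2 := by rw [pow_two]; exact Nat.mul_le_mul hx1 hz1
  have f2 : y ^ 2 ≤ H ^ 2 := Nat.pow_le_pow_left hy1 2
  have f3 : x ^ 2 * w ≤ H ^ 3 := by rw [pow_succ H 2]; exact Nat.mul_le_mul (Nat.pow_le_pow_left hx1 2) hw1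
  have f4 : x * y * z ≤ H ^ 3 := by
    rw [pow_succ H 2, pow_two]; exact Nat.mul_le_mul (Nat.mul_le_mul hx1 hy1) hz1
  have f5 : y ^ 3 ≤ H ^ 3 := Nat.pow_le_pow_left hy1 3
  have f6 : H ^ 2 ≤ H ^ 3 := Nat.pow_le_pow_right h1 (by omega)
  have f7 : 1 ≤ H ^ 3 := Nat.one_le_pow _ _ h1
  nlinarith

/-- the final bound, in terms of the bound `B` of the sequences -/
def EE (a b P Q B : ℕ) : ℕ :=
  3 * a * B ^ 4 + 8 * (B + B ^ 3) ^ 2 +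
    (2 + b * B ^ 4 + 4 * (B + B ^ 3) ^ 2 * (2 * (B ^ 4 * (P + Q + 1 + b)) + 4))

theorem countE {a b c d : ℤ} (ha : 0 < a) {B0 : ℕ}
    (H : ∀ g : ℚ → ℤ, (g = gl ∨ g = gs) → ∀ s : ℤ, s = 1 ∨ s = -1 →
      SeqE g ((9 * a * c - 3 * b ^ 2 : ℤ) : ℚ) ((27 * a ^ 2 * d - 9 * a * b * c + 2 * b ^ 3 : ℤ) : ℚ) s B0) :
    GoodE a b c d (EE a.natAbs b.natAbs (9 * a * c - 3 * b ^ 2).natAbs
      (27 * a ^ 2 * d - 9 * a * b * c + 2 * b ^ 3).natAbs B0) := by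
  obtain ⟨P, hP⟩ : ∃ P : ℤ, P = 9 * a * c - 3 * b ^ 2 := ⟨_, rfl⟩
  obtain ⟨Q, hQ⟩ : ∃ Q : ℤ, Q = 27 * a ^ 2 * d - 9 * a * b * c + 2 * b ^ 3 := ⟨_, rfl⟩
  obtain ⟨q, hq, hqB, hcnt⟩ := four_countsE H
  rw [← hP, ← hQ] at hcnt ⊢
  have hqZ : (0:ℤ) < q := by exact_mod_cast hq
  have hB0 : 1 ≤ B0 := by
    rcases Nat.eq_zero_or_pos B0 with h | h
    · rw [h] at hqB
      omega
    · exact h
  obtain ⟨B', hB'⟩ : ∃ B', B' = B0 + B0 ^ 3 := ⟨_, rfl⟩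
  rw [← hB'] at hcnt
  have hB'1 : 1 ≤ B' := by omega
  obtain ⟨M, hM⟩ : ∃ M : ℕ, M = q * (P.natAbs + Q.natAbs + 1 + b.natAbs) := ⟨_, rfl⟩
  have hMZ : (M:ℤ) = q * (|P| + |Q| + 1 + |b|) := by
    rw [hM]
    push_cast
    rfl
  obtain ⟨β, hβ⟩ : ∃ β : ℕ, β = b.natAbs * q := ⟨_, rfl⟩
  have hβZ : (β:ℤ) = |b| * q := by
    rw [hβ]
    push_cast
    rfl
  obtain ⟨e, he⟩ : ∃ e : ℕ, e = 4 * B' ^ 2 * (2 * M + 4) := ⟨_, rfl⟩
  have hδ : (0:ℝ) < 1 / (4 * (B' : ℝ) ^ 2) := by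
    have : (0:ℝ) < B' := by exact_mod_cast hB'1
    positivity
  have hX₁ : ∀ X : ℕ, 2 ^ e ≤ X → ∀ g : ℚ → ℤ, (g = gl ∨ g = gs) → ∀ s : ℤ, s = 1 ∨ s = -1 →
      1 / (4 * (B' : ℝ) ^ 2) * Real.log X ≤ (((Finset.Icc (-(X:ℤ)) X).filter
        (fun n => (M:ℤ) < |n| ∧ g (fc P Q ((n : ℚ) / q)) = s)).card : ℝ) := by
    intro X hX g hg s hs
    rw [he] at hX
    exact (hcnt g hg s hs).count hB'1 hX
  -- the size
  obtain ⟨E, hE⟩ : ∃ E, E = EE a.natAbs b.natAbs P.natAbs Q.natAbs B0 := ⟨_, rfl⟩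
  have hMB : M ≤ B0 ^ 4 * (P.natAbs + Q.natAbs + 1 + b.natAbs) := by
    rw [hM]
    exact Nat.mul_le_mul_right _ hqB
  have hβB : β ≤ b.natAbs * B0 ^ 4 := by
    rw [hβ]
    exact Nat.mul_le_mul_left _ hqB
  have heB : e ≤ 4 * (B0 + B0 ^ 3) ^ 2 * (2 * (B0 ^ 4 * (P.natAbs + Q.natAbs + 1 + b.natAbs)) + 4) := by
    rw [he, hB']
    exact Nat.mul_le_mul_left _ (by omega)
  have hEsum : E = 3 * a.natAbs * B0 ^ 4 + 8 * B' ^ 2 +
      (2 + b.natAbs * B0 ^ 4 + 4 * (B0 + B0 ^ 3) ^ 2 *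
        (2 * (B0 ^ 4 * (P.natAbs + Q.natAbs + 1 + b.natAbs)) + 4)) := by
    rw [hE, hB']
    rfl
  have hE1 : 3 * a.natAbs * B0 ^ 4 ≤ E := by omega
  have hE2 : 8 * B' ^ 2 ≤ E := by omega
  have hE3 : 2 + β + e ≤ E := by omega
  rw [← hE]
  refine ⟨3 * a * q, by positivity, ?_, fun y hy hdvd X hX => ?_⟩
  · have h1 : (q:ℤ) ≤ (B0:ℤ) ^ 4 := by exact_mod_cast hqB
    have h2 : (a.natAbs : ℤ) = a := Int.natAbs_of_nonneg ha.le
    have h3 : ((3 * a.natAbs * B0 ^ 4 : ℕ) : ℤ) ≤ E := by exact_mod_cast hE1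
    refine le_trans ?_ h3
    push_cast
    rw [abs_of_pos ha]
    exact mul_le_mul_of_nonneg_left h1 (by positivity)
  obtain ⟨r, hr⟩ := hdvd
  have hr0 : 0 < r := by
    by_contra hcon
    have : r ≤ 0 := by omega
    have h2 : 3 * a * q * r ≤ 0 := mul_nonpos_of_nonneg_of_nonpos (by positivity) this
    omega
  have hry : r ≤ y := by
    rw [hr]
    have h1 : (1:ℤ) ≤ 3 * a * q := by
      have : (0:ℤ) < 3 * a * q := by positivity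
      omega
    exact le_mul_of_one_le_left hr0.le h1
  obtain ⟨ρ, hρ⟩ : ∃ ρ : ℕ, (ρ:ℤ) = r := ⟨r.toNat, Int.toNat_of_nonneg hr0.le⟩
  obtain ⟨η, hη⟩ : ∃ η : ℕ, (η:ℤ) = y := ⟨y.toNat, Int.toNat_of_nonneg hy.le⟩
  have hρη : ρ ≤ η := by
    have : (ρ:ℤ) ≤ η := by rw [hρ, hη]; exact hry
    exact_mod_cast this
  have hη1 : 1 ≤ η := by
    have : (1:ℤ) ≤ η := by rw [hη]; omega
    exact_mod_cast this
  have hXN : η * 2 ^ E ≤ X := by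
    have : ((η * 2 ^ E : ℕ) : ℤ) ≤ X := by
      push_cast
      rw [hη]
      exact hX
    exact_mod_cast this
  have hX2 : ρ * (2 + 2 * β + 2 ^ e) ≤ X := by
    refine le_trans ?_ hXN
    have j2 : 1 ≤ 2 ^ e := Nat.one_le_two_pow
    have j3 : 3 + 2 * β ≤ 2 ^ (2 + β) := by
      have : β + 1 ≤ 2 ^ β := Nat.lt_two_pow_self
      rw [pow_add]
      omega
    have j4 : 2 + 2 * β + 2 ^ e ≤ 2 ^ E := by
      calc 2 + 2 * β + 2 ^ e ≤ (2 + 2 * β) * 2 ^ e + 2 ^ e :=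
            Nat.add_le_add_right (Nat.le_mul_of_pos_right _ j2) _
        _ = (3 + 2 * β) * 2 ^ e := by ring
        _ ≤ 2 ^ (2 + β) * 2 ^ e := Nat.mul_le_mul_right _ j3
        _ = 2 ^ (2 + β + e) := by rw [← pow_add]
        _ ≤ 2 ^ E := Nat.pow_le_pow_right (by norm_num) hE3
    exact Nat.mul_le_mul hρη j4
  have hEpos : (0:ℝ) < E := by
    have : 0 < E := by omega
    exact_mod_cast this
  have hB'R : (0:ℝ) < B' := by exact_mod_cast hB'1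
  have hyR : (0 : ℝ) < y := by exact_mod_cast hy
  have hyX : y ≤ (X : ℤ) := by
    refine le_trans ?_ hX
    exact le_mul_of_one_le_right hy.le (one_le_pow₀ (by norm_num))
  have hlog : 0 ≤ Real.log (X / y) := by
    apply Real.log_nonneg
    rw [one_le_div hyR]
    exact_mod_cast hyX
  have hfin : Real.log (X / y) / E ≤ 1 / (4 * (B' : ℝ) ^ 2) / 2 * Real.log (X / y) := by
    have h1 : (8 : ℝ) * (B' : ℝ) ^ 2 ≤ E := by exact_mod_cast hE2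
    have h2 : 1 / (4 * (B' : ℝ) ^ 2) / 2 * Real.log (X / y) = Real.log (X / y) / (8 * (B' : ℝ) ^ 2) := by
      field_simp
      ring
    rw [h2]
    exact div_le_div_of_nonneg_left hlog (by positivity) h1
  rcases transferE ha hP hQ hq hδ hMZ hX₁ hy hr hr0 hβZ hρ hX2 with h | h
  · exact Or.inl fun s hs => hfin.trans (h s hs)
  · exact Or.inr fun s hs => hfin.trans (h s hs)

/-- the height -/
def Ht (v : ℤ × ℤ × ℤ × ℤ) : ℕ :=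
  2 * (1 + v.1.natAbs + v.2.1.natAbs + v.2.2.1.natAbs + v.2.2.2.natAbs)

theorem Ht_two (v : ℤ × ℤ × ℤ × ℤ) : 2 ≤ Ht v := by
  unfold Ht
  omega

/-- ALL CUBICS, everything explicit. -/
theorem all_cubicsE : ∃ K : ℕ, ∀ a b c d : ℤ, a ≠ 0 →
    GoodE a b c d ((K * (1 + a.natAbs + b.natAbs + c.natAbs + d.natAbs)) ^ K) := by
  obtain ⟨K1, h1⟩ := seqE_all
  have hH := Ht_two
  have nPQ : NB Ht (fun v => 2 + (9 * v.1 * v.2.2.1 - 3 * v.2.1 ^ 2).natAbs +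
      (27 * v.1 ^ 2 * v.2.2.2 - 9 * v.1 * v.2.1 * v.2.2.1 + 2 * v.2.1 ^ 3).natAbs) := by
    have e1 : NB Ht Ht := ⟨1, fun v => by rw [pow_one]⟩
    refine ((NB.const hH 52).mul (e1.pow 3)).mono fun v => ?_
    refine (bound_PQ _ _ _ _).trans (Nat.mul_le_mul_left _ (Nat.pow_le_pow_left ?_ 3))
    unfold Ht
    omega
  have na : NB Ht (fun v => v.1.natAbs) := ⟨1, fun v => by rw [pow_one]; unfold Ht; dsimp only; omega⟩
  have nb : NB Ht (fun v => v.2.1.natAbs) := ⟨1, fun v => by rw [pow_one]; unfold Ht; dsimp only; omega⟩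
  have nP : NB Ht (fun v => (9 * v.1 * v.2.2.1 - 3 * v.2.1 ^ 2).natAbs) := nPQ.mono fun v => by omega
  have nQ : NB Ht (fun v => (27 * v.1 ^ 2 * v.2.2.2 - 9 * v.1 * v.2.1 * v.2.2.1 + 2 * v.2.1 ^ 3).natAbs) :=
    nPQ.mono fun v => by omega
  have nB := nPQ.pow K1
  have cc := fun n : ℕ => NB.const hH n
  have nB4 := nB.pow 4
  have nB' := ((nB.add hH (nB.pow 3)).pow 2)
  have nE : NB Ht (fun v => EE v.1.natAbs v.2.1.natAbs (9 * v.1 * v.2.2.1 - 3 * v.2.1 ^ 2).natAbs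
      (27 * v.1 ^ 2 * v.2.2.2 - 9 * v.1 * v.2.1 * v.2.2.1 + 2 * v.2.1 ^ 3).natAbs
      ((2 + (9 * v.1 * v.2.2.1 - 3 * v.2.1 ^ 2).natAbs +
        (27 * v.1 ^ 2 * v.2.2.2 - 9 * v.1 * v.2.1 * v.2.2.1 + 2 * v.2.1 ^ 3).natAbs) ^ K1)) :=
    ((((cc 3).mul na).mul nB4).add hH ((cc 8).mul nB')).add hH
      (((cc 2).add hH (nb.mul nB4)).add hH
        (((cc 4).mul nB').mul (((cc 2).mul (nB4.mul (((nP.add hH nQ).add hH (cc 1)).add hH nb))).add hH (cc 4))))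
  obtain ⟨K2, h2⟩ := nE
  refine ⟨K2 + 2, fun a b c d ha => ?_⟩
  have main : ∀ a b c d : ℤ, 0 < a → GoodE a b c d
      (((K2 + 2) * (1 + a.natAbs + b.natAbs + c.natAbs + d.natAbs)) ^ (K2 + 2)) := by
    intro a b c d ha
    refine (countE ha fun g hg s hs => h1 g hg _ _ s hs).mono ((h2 (a, b, c, d)).trans ?_)
    calc Ht (a, b, c, d) ^ K2 ≤ ((K2 + 2) * (1 + a.natAbs + b.natAbs + c.natAbs + d.natAbs)) ^ K2 :=
          Nat.pow_le_pow_left (Nat.mul_le_mul_right _ (by omega)) _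
      _ ≤ _ := Nat.pow_le_pow_right (Nat.mul_pos (by omega) (by omega)) (by omega)
  rcases lt_or_gt_of_ne ha with h | h
  · have := main (-a) (-b) (-c) (-d) (by linarith)
    rw [Int.natAbs_neg, Int.natAbs_neg, Int.natAbs_neg, Int.natAbs_neg] at this
    exact goodE_neg this
  · exact main a b c d h

end MP648Diag
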