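import Pool.Agent.Lib.MP_648c71_nt.EX.CycE
import Pool.Agent.Lib.MP_648c71_nt.EX.MainE

/-!
# Cubics whose discriminant is a square: assembly
-/

namespace MP648Diag

open Filter Pool.Agent.Lib.MP_648c71_nt Pool.Agent.Lib.MP_648c71_nt.AllCub

/-- both signs on the positive half line -/
def GoodP (a b c d : ℤ) (B : ℕ) : Prop :=
  ∃ y₀ : ℤ, 0 < y₀ ∧ y₀ ≤ B ∧ ∀ y : ℤ, 0 < y → y₀ ∣ y → ∀ X : ℕ, y * 2 ^ B ≤ X →
    ∀ s : ℤ, (s = 1 ∨ s = -1) →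
      Real.log (X / y) / B ≤ (((Finset.Icc (1 : ℤ) X).filter (fun n => lam (form a b c d n y) = s)).card : ℝ)

theorem GoodP.mono {a b c d : ℤ} {B C : ℕ} (h : GoodP a b c d B) (hBC : B ≤ C) : GoodP a b c d C := by
  obtain ⟨y₀, h1, h2, h3⟩ := h
  refine ⟨y₀, h1, h2.trans (by exact_mod_cast hBC), fun y hy hd X hX s hs => ?_⟩
  have hB : (0 : ℝ) < B := by
    have : (0 : ℤ) < B := lt_of_lt_of_le h1 h2
    exact_mod_cast this
  have hCB : (B : ℝ) ≤ C := by exact_mod_cast hBC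
  have hX' : y * 2 ^ B ≤ (X : ℤ) :=
    (mul_le_mul_of_nonneg_left (pow_le_pow_right₀ (by norm_num) hBC) hy.le).trans hX
  have hyX : y ≤ (X : ℤ) := by
    refine le_trans ?_ hX'
    exact le_mul_of_one_le_right hy.le (one_le_pow₀ (by norm_num))
  have hyR : (0 : ℝ) < y := by exact_mod_cast hy
  have hlog : 0 ≤ Real.log (X / y) := by
    apply Real.log_nonneg
    rw [one_le_div hyR]
    exact_mod_cast hyX
  exact (div_le_div_of_nonneg_left hlog hB hCB).trans (h3 y hy hd X hX' s hs)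

theorem goodP_neg {a b c d : ℤ} {B : ℕ} (h : GoodP (-a) (-b) (-c) (-d) B) : GoodP a b c d B := by
  unfold GoodP at h ⊢
  simpa only [form_neg'] using h

/-- the transfer on the positive side -/
theorem transferP {a b c d : ℤ} (ha : 0 < a) {P Q : ℤ} (hP : P = 9 * a * c - 3 * b ^ 2)
    (hQ : Q = 27 * a ^ 2 * d - 9 * a * b * c + 2 * b ^ 3) {q : ℕ} (hq : 0 < q) {δ : ℝ} (hδ : 0 < δ)
    {X₁ β : ℕ} (hβ : (β:ℤ) = |b| * q)
    (hX₁ : ∀ X : ℕ, X₁ ≤ X → ∀ σ : ℤ, σ = 1 ∨ σ = -1 →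
      δ * Real.log X ≤ (((Finset.Icc (1:ℤ) X).filter
        (fun m => (β:ℤ) < m ∧ gl (fc P Q ((m : ℚ) / (q : ℚ))) = σ)).card : ℝ))
    {y r : ℤ} (hy : 0 < y) (hr : y = 3 * a * q * r) (hr0 : 0 < r) {ρ : ℕ}
    (hρ : (ρ:ℤ) = r) {X : ℕ} (hX : ρ * (2 + 2 * β + X₁) ≤ X) {s : ℤ} (hs : s = 1 ∨ s = -1) :
    δ * Real.log (X / y) ≤
      (((Finset.Icc (1 : ℤ) X).filter (fun n => lam (form a b c d n y) = s)).card : ℝ) := by
  have hqZ : (0:ℤ) < q := by exact_mod_cast hq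
  have hqQ : (0:ℚ) < q := by exact_mod_cast hq
  have hρ0 : 0 < ρ := by
    have : (0:ℤ) < ρ := by rw [hρ]; exact hr0
    exact_mod_cast this
  obtain ⟨X', hX'⟩ : ∃ X', X' = X / ρ - β := ⟨_, rfl⟩
  have hdiv : 2 + 2 * β + X₁ ≤ X / ρ := by
    rw [Nat.le_div_iff_mul_le hρ0, mul_comm]
    exact hX
  have hX'1 : X₁ ≤ X' := by omega
  have hX'r : (X' + β) * ρ ≤ X := by
    have h1 : X' + β = X / ρ := by omega
    rw [h1]
    exact Nat.div_mul_le_self X ρ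
  have hyR : (0:ℝ) < y := by exact_mod_cast hy
  have hXpos : 0 < X := lt_of_lt_of_le (Nat.mul_pos hρ0 (by omega)) hX
  have hlog : Real.log (X / y) ≤ Real.log X' := by
    have h0 : (0:ℝ) < X := by exact_mod_cast hXpos
    apply Real.log_le_log (div_pos h0 hyR)
    rw [div_le_iff₀ hyR]
    have h1 : X < (X / ρ + 1) * ρ := by
      have := Nat.lt_mul_div_succ X hρ0
      rw [mul_comm]
      exact this
    have h2 : X / ρ + 1 ≤ 3 * X' := by omega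
    have h3 : X ≤ 3 * X' * ρ := h1.le.trans (Nat.mul_le_mul_right _ h2)
    have h4 : (3 * ρ : ℤ) ≤ y := by
      rw [hr, hρ]
      have h5 : (1:ℤ) ≤ a * q := by
        have : (0:ℤ) < a * q := by positivity
        omega
      have h6 : 3 * r * 1 ≤ 3 * r * (a * q) := mul_le_mul_of_nonneg_left h5 (by positivity)
      calc 3 * r = 3 * r * 1 := (mul_one _).symm
        _ ≤ 3 * r * (a * q) := h6
        _ = 3 * a * q * r := by ring
    have h5 : (X:ℤ) ≤ X' * y := by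
      have h6 : (X:ℤ) ≤ 3 * X' * ρ := by exact_mod_cast h3
      have h7 : (X':ℤ) * (3 * ρ) ≤ X' * y := mul_le_mul_of_nonneg_left h4 (by positivity)
      calc (X:ℤ) ≤ 3 * X' * ρ := h6
        _ = X' * (3 * ρ) := by ring
        _ ≤ X' * y := h7
    exact_mod_cast h5
  have hylam : lam y = 1 ∨ lam y = -1 := lam_eq_one_or hy.ne'
  have haQ : (0:ℚ) < a := by exact_mod_cast ha
  have htr : ∀ n : ℤ, lam (form a b c d ((n - b * q) * r) y) = - lam y * gl (fc (P:ℚ) Q ((n : ℚ) / q)) := by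
    intro n
    have h1 := val_id (a := a) (b := b) (c := c) (d := d) ha hy ((n - b * q) * r)
    rw [← hP, ← hQ] at h1
    have hrQ : (0:ℚ) < r := by exact_mod_cast hr0
    have hyr : (y : ℚ) = 3 * a * q * r := by exact_mod_cast hr
    have e : (3 * a * (((n - b * q) * r : ℤ) : ℚ) / y + b : ℚ) = (n:ℚ) / q := by
      rw [hyr]
      push_cast
      field_simp
      ring
    rw [e] at h1
    rw [h1]
    rcases hylam with h | h <;> rw [h] <;> ring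
  have hbq : |b * (q:ℤ)| = β := by
    rw [hβ, abs_mul, abs_of_pos hqZ]
  have hX'rZ : ((X':ℤ) + β) * r ≤ X := by
    rw [← hρ]
    exact_mod_cast hX'r
  obtain ⟨σ, hσ⟩ : ∃ σ, σ = - lam y * s := ⟨_, rfl⟩
  have hσ1 : σ = 1 ∨ σ = -1 := by
    rcases hylam with h | h <;> rcases hs with h' | h' <;> rw [hσ, h, h'] <;> norm_num
  have hσ2 : - lam y * σ = s := by
    rcases hylam with h | h <;> rcases hs with h' | h' <;> rw [hσ, h, h'] <;> norm_num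
  have hPle : ((Finset.Icc (1:ℤ) X').filter
      (fun m => (β:ℤ) < m ∧ gl (fc P Q ((m : ℚ) / (q : ℚ))) = σ)).card ≤
      ((Finset.Icc (1:ℤ) X).filter (fun n => lam (form a b c d n y) = s)).card := by
    apply Finset.card_le_card_of_injOn (fun n => (n - b * q) * r)
    · intro n hn
      rw [Finset.mem_coe, Finset.mem_filter, Finset.mem_Icc] at hn
      rw [Finset.mem_coe, Finset.mem_filter, Finset.mem_Icc]
      obtain ⟨⟨h1, h2⟩, h3, h4⟩ := hn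
      have h6 : b * (q:ℤ) ≤ β := by rw [← hbq]; exact le_abs_self _
      have h7 : -(β:ℤ) ≤ b * q := by rw [← hbq]; exact neg_abs_le _
      refine ⟨⟨?_, ?_⟩, ?_⟩
      · have : 1 ≤ n - b * q := by omega
        exact le_trans hr0 (le_mul_of_one_le_left hr0.le this)
      · refine le_trans ?_ hX'rZ
        exact mul_le_mul_of_nonneg_right (by omega) hr0.le
      · rw [htr, h4, hσ2]
    · intro n _ m _ hnm
      have := mul_right_cancel₀ hr0.ne' hnm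
      omega
  have h1 := hX₁ X' hX'1 σ hσ1
  have h2 : (((Finset.Icc (1:ℤ) X').filter
      (fun m => (β:ℤ) < m ∧ gl (fc P Q ((m : ℚ) / (q : ℚ))) = σ)).card : ℝ) ≤
      (((Finset.Icc (1:ℤ) X).filter (fun n => lam (form a b c d n y) = s)).card : ℝ) := by
    exact_mod_cast hPle
  exact (mul_le_mul_of_nonneg_left hlog hδ.le).trans (h1.trans h2)

/-- the final bound -/
def EP (a b p r c Q B q : ℕ) : ℕ :=
  3 * a * (2 * r * (6 * p * q) ^ 2) + 48 * (B + B ^ 3) ^ 2 +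
    (8 + b * (2 * r * (6 * p * q) ^ 2) + 3 * cD p r c q +
      2 * (4 * (B + B ^ 3) ^ 2 * (2 * cM p r b c Q q + 4)))

theorem sum_le_pow (a b : ℕ) : a + 2 ^ b ≤ 2 ^ (a + b) := by
  rw [pow_add]
  have h1 : a + 1 ≤ 2 ^ a := Nat.lt_two_pow_self
  have h2 : 1 ≤ 2 ^ b := Nat.one_le_two_pow
  calc a + 2 ^ b ≤ a * 2 ^ b + 1 * 2 ^ b := by
        rw [one_mul]
        exact Nat.add_le_add_right (Nat.le_mul_of_pos_right _ h2) _
    _ = (a + 1) * 2 ^ b := by ring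
    _ ≤ 2 ^ a * 2 ^ b := Nat.mul_le_mul_right _ h1

theorem countP {a b c d : ℤ} (ha : 0 < a) {r : ℕ} (hr : 0 < r)
    (hdisc : (r:ℤ) ^ 2 = -4 * (9 * a * c - 3 * b ^ 2) ^ 3 -
      27 * (27 * a ^ 2 * d - 9 * a * b * c + 2 * b ^ 3) ^ 2) {B0 : ℕ}
    (H : ∀ g : ℚ → ℤ, (g = gl ∨ g = gs) → ∀ s : ℤ, s = 1 ∨ s = -1 →
      SeqE g ((9 * a * c - 3 * b ^ 2 : ℤ) : ℚ) ((27 * a ^ 2 * d - 9 * a * b * c + 2 * b ^ 3 : ℤ) : ℚ) s B0) :
    ∃ q : ℕ, 0 < q ∧ q ≤ B0 ^ 4 ∧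
      GoodP a b c d (EP a.natAbs b.natAbs (9 * a * c - 3 * b ^ 2).natAbs r
        ((r:ℤ) - 9 * (27 * a ^ 2 * d - 9 * a * b * c + 2 * b ^ 3)).natAbs
        (27 * a ^ 2 * d - 9 * a * b * c + 2 * b ^ 3).natAbs B0 q) := by
  obtain ⟨P, hP⟩ : ∃ P : ℤ, P = 9 * a * c - 3 * b ^ 2 := ⟨_, rfl⟩
  obtain ⟨Q, hQ⟩ : ∃ Q : ℤ, Q = 27 * a ^ 2 * d - 9 * a * b * c + 2 * b ^ 3 := ⟨_, rfl⟩
  obtain ⟨q, hq, hqB, hcnt⟩ := four_countsE H
  rw [← hP, ← hQ] at hcnt hdisc ⊢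
  refine ⟨q, hq, hqB, ?_⟩
  have hB0 : 1 ≤ B0 := by
    rcases Nat.eq_zero_or_pos B0 with h | h
    · rw [h] at hqB
      omega
    · exact h
  obtain ⟨p, hp⟩ : ∃ p, p = P.natAbs := ⟨_, rfl⟩
  have hPneg : P < 0 := by
    by_contra hcon
    push Not at hcon
    have h1 : (0:ℤ) < (r:ℤ) ^ 2 := by positivity
    have h2 : 0 ≤ P ^ 3 := by positivity
    have h3 : 0 ≤ Q ^ 2 := by positivity
    linarith
  have hpP : P = -(p:ℤ) := by
    rw [hp]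
    push_cast
    rw [abs_of_neg hPneg]
    ring
  have hp0 : 0 < p := by
    rw [hp]
    exact Int.natAbs_pos.2 hPneg.ne
  obtain ⟨c1, hc1⟩ : ∃ c1, c1 = ((r:ℤ) - 9 * Q).natAbs := ⟨_, rfl⟩
  rw [← hp, ← hc1]
  obtain ⟨B', hB'⟩ : ∃ B', B' = B0 + B0 ^ 3 := ⟨_, rfl⟩
  rw [← hB'] at hcnt
  have hB'1 : 1 ≤ B' := by omega
  obtain ⟨q2, hq2⟩ : ∃ q2 : ℕ, q2 = 2 * r * (6 * p * q) ^ 2 := ⟨_, rfl⟩
  have hq20 : 0 < q2 := by rw [hq2]; positivity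
  obtain ⟨D, hD⟩ : ∃ D, D = cD p r c1 q := ⟨_, rfl⟩
  obtain ⟨M, hM⟩ : ∃ M, M = cM p r b.natAbs c1 Q.natAbs q := ⟨_, rfl⟩
  obtain ⟨e0, he0⟩ : ∃ e0, e0 = 4 * B' ^ 2 * (2 * M + 4) := ⟨_, rfl⟩
  obtain ⟨β, hβ⟩ : ∃ β : ℕ, β = b.natAbs * q2 := ⟨_, rfl⟩
  have hβZ : (β:ℤ) = |b| * q2 := by
    rw [hβ]
    push_cast
    rfl
  obtain ⟨E, hE⟩ : ∃ E, E = EP a.natAbs b.natAbs p r c1 Q.natAbs B0 q := ⟨_, rfl⟩
  have hEsum : E = 3 * a.natAbs * q2 + 48 * B' ^ 2 + (8 + β + 3 * D + 2 * e0) := by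
    rw [hE, hβ, hD, he0, hM, hq2, hB']
    rfl
  rw [← hE]
  have hE1 : 3 * a.natAbs * q2 ≤ E := by omega
  have hE2 : 48 * B' ^ 2 ≤ E := by omega
  have hE3 : 8 + β + 3 * D + 2 * e0 ≤ E := by omega
  have hδ : (0:ℝ) < 1 / (48 * (B' : ℝ) ^ 2) := by
    have : (0:ℝ) < B' := by exact_mod_cast hB'1
    positivity
  refine ⟨3 * a * q2, by positivity, ?_, fun y hy hdvd X hX s hs => ?_⟩
  · have h2 : (a.natAbs : ℤ) = a := Int.natAbs_of_nonneg ha.le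
    have h3 : ((3 * a.natAbs * q2 : ℕ) : ℤ) ≤ E := by exact_mod_cast hE1
    refine le_trans (le_of_eq ?_) h3
    push_cast
    rw [abs_of_pos ha]
  obtain ⟨m, hm⟩ := hdvd
  have hm0 : 0 < m := by
    by_contra hcon
    have : m ≤ 0 := by omega
    have h2 : 3 * a * q2 * m ≤ 0 := mul_nonpos_of_nonneg_of_nonpos (by positivity) this
    omega
  have hmy : m ≤ y := by
    rw [hm]
    have h1 : (1:ℤ) ≤ 3 * a * q2 := by
      have : (0:ℤ) < 3 * a * q2 := by positivity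
      omega
    exact le_mul_of_one_le_left hm0.le h1
  obtain ⟨ρ, hρ⟩ : ∃ ρ : ℕ, (ρ:ℤ) = m := ⟨m.toNat, Int.toNat_of_nonneg hm0.le⟩
  obtain ⟨η, hη⟩ : ∃ η : ℕ, (η:ℤ) = y := ⟨y.toNat, Int.toNat_of_nonneg hy.le⟩
  have hρη : ρ ≤ η := by
    have : (ρ:ℤ) ≤ η := by rw [hρ, hη]; exact hmy
    exact_mod_cast this
  have hXN : η * 2 ^ E ≤ X := by
    have : ((η * 2 ^ E : ℕ) : ℤ) ≤ X := by
      push_cast
      rw [hη]
      exact hX
    exact_mod_cast this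
  have hX2 : ρ * (2 + 2 * β + D * (D + 3 + 2 ^ e0) ^ 2) ≤ X := by
    refine le_trans (Nat.mul_le_mul hρη ?_) hXN
    have j1 : D + 3 + 2 ^ e0 ≤ 2 ^ (D + 3 + e0) := sum_le_pow (D + 3) e0
    have j2 : D ≤ 2 ^ D := Nat.lt_two_pow_self.le
    have j3 : D * (D + 3 + 2 ^ e0) ^ 2 ≤ 2 ^ (D + 2 * (D + 3 + e0)) := by
      calc D * (D + 3 + 2 ^ e0) ^ 2 ≤ 2 ^ D * (2 ^ (D + 3 + e0)) ^ 2 :=
            Nat.mul_le_mul j2 (Nat.pow_le_pow_left j1 2)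
        _ = 2 ^ (D + 2 * (D + 3 + e0)) := by
            rw [← pow_mul, ← pow_add]
            congr 1
            ring
    obtain ⟨w, hw⟩ : ∃ w, w = D + 2 * (D + 3 + e0) := ⟨_, rfl⟩
    rw [← hw] at j3
    have j4 : 3 + 2 * β ≤ 2 ^ (2 + β) := by
      have : β + 1 ≤ 2 ^ β := Nat.lt_two_pow_self
      rw [pow_add]
      omega
    have j5 : 1 ≤ 2 ^ w := Nat.one_le_two_pow
    calc 2 + 2 * β + D * (D + 3 + 2 ^ e0) ^ 2 ≤ (2 + 2 * β) * 2 ^ w + 2 ^ w :=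
          Nat.add_le_add (Nat.le_mul_of_pos_right _ j5) j3
      _ = (3 + 2 * β) * 2 ^ w := by ring
      _ ≤ 2 ^ (2 + β) * 2 ^ w := Nat.mul_le_mul_right _ j4
      _ = 2 ^ (2 + β + w) := by rw [← pow_add]
      _ ≤ 2 ^ E := Nat.pow_le_pow_right (by norm_num) (by omega)
  have hEpos : (0:ℝ) < E := by
    have : 0 < E := by omega
    exact_mod_cast this
  have hB'R : (0:ℝ) < B' := by exact_mod_cast hB'1
  have hyR : (0 : ℝ) < y := by exact_mod_cast hy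
  have hyX : y ≤ (X : ℤ) := by
    refine le_trans ?_ hX
    exact le_mul_of_one_le_right hy.le (one_le_pow₀ (by norm_num))
  have hlog : 0 ≤ Real.log (X / y) := by
    apply Real.log_nonneg
    rw [one_le_div hyR]
    exact_mod_cast hyX
  have hfin : Real.log (X / y) / E ≤ 1 / (48 * (B' : ℝ) ^ 2) * Real.log (X / y) := by
    have h1 : (48 : ℝ) * (B' : ℝ) ^ 2 ≤ E := by exact_mod_cast hE2
    have h2 : 1 / (48 * (B' : ℝ) ^ 2) * Real.log (X / y) = Real.log (X / y) / (48 * (B' : ℝ) ^ 2) := by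
      rw [one_div, inv_mul_eq_div]
    rw [h2]
    exact div_le_div_of_nonneg_left hlog (by positivity) h1
  refine hfin.trans (transferP ha hP hQ hq20 hδ hβZ (X₁ := D * (D + 3 + 2 ^ e0) ^ 2) ?_ hy hm hm0 hρ hX2 hs)
  intro X' hX' σ hσ
  have key := cyc_count (β := b.natAbs) hpP hp0 hr hdisc hq hc1 hB'1 hcnt (X' := X')
    (by rw [← hD, ← hM, ← he0]; exact hX') hσ
  rw [← hq2, ← hβ] at key
  exact key

def Pf (v : ℤ × ℤ × ℤ × ℤ) : ℤ := 9 * v.1 * v.2.2.1 - 3 * v.2.1 ^ 2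

def Qf (v : ℤ × ℤ × ℤ × ℤ) : ℤ := 27 * v.1 ^ 2 * v.2.2.2 - 9 * v.1 * v.2.1 * v.2.2.1 + 2 * v.2.1 ^ 3

theorem disc_id {a b c d r0 : ℤ}
    (h : b ^ 2 * c ^ 2 - 4 * a * c ^ 3 - 4 * b ^ 3 * d - 27 * a ^ 2 * d ^ 2 + 18 * a * b * c * d = r0 ^ 2) :
    (((27 * a * r0).natAbs : ℕ) : ℤ) ^ 2 = -4 * (9 * a * c - 3 * b ^ 2) ^ 3 -
      27 * (27 * a ^ 2 * d - 9 * a * b * c + 2 * b ^ 3) ^ 2 := by
  rw [Int.natCast_natAbs, sq_abs, mul_pow, ← h]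
  ring

theorem all_cyclic : ∃ K : ℕ, ∀ a b c d r0 : ℤ, a ≠ 0 → r0 ≠ 0 →
    b ^ 2 * c ^ 2 - 4 * a * c ^ 3 - 4 * b ^ 3 * d - 27 * a ^ 2 * d ^ 2 + 18 * a * b * c * d = r0 ^ 2 →
    GoodP a b c d ((K * (1 + a.natAbs + b.natAbs + c.natAbs + d.natAbs)) ^ K) := by
  obtain ⟨K1, h1⟩ := seqE_all
  let Bf : ℤ × ℤ × ℤ × ℤ → ℕ := fun v => (2 + (Pf v).natAbs + (Qf v).natAbs) ^ K1
  let ι := {v : (ℤ × ℤ × ℤ × ℤ) × ℕ × ℕ // v.2.1 ≤ Bf v.1 ^ 4 ∧ v.2.2 ≤ 4 * (Pf v.1).natAbs ^ 3}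
  let Hi : ι → ℕ := fun i => Ht i.1.1
  have hH : ∀ i, 2 ≤ Hi i := fun i => Ht_two _
  have cc := fun n : ℕ => NB.const hH n
  have nPQ : NB Hi (fun i => 2 + (Pf i.1.1).natAbs + (Qf i.1.1).natAbs) := by
    have e1 : NB Hi Hi := ⟨1, fun v => by rw [pow_one]⟩
    refine ((cc 52).mul (e1.pow 3)).mono fun i => ?_
    refine (bound_PQ _ _ _ _).trans (Nat.mul_le_mul_left _ (Nat.pow_le_pow_left ?_ 3))
    change _ ≤ Ht _
    unfold Ht
    omega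
  have na : NB Hi (fun i => i.1.1.1.natAbs) := ⟨1, fun i => by
    rw [pow_one]
    change _ ≤ Ht _
    unfold Ht
    dsimp only
    omega⟩
  have nb : NB Hi (fun i => i.1.1.2.1.natAbs) := ⟨1, fun i => by
    rw [pow_one]
    change _ ≤ Ht _
    unfold Ht
    dsimp only
    omega⟩
  have nP : NB Hi (fun i => (Pf i.1.1).natAbs) := nPQ.mono fun i => by omega
  have nQ : NB Hi (fun i => (Qf i.1.1).natAbs) := nPQ.mono fun i => by omega
  have nB : NB Hi (fun i => Bf i.1.1) := nPQ.pow K1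
  have nq : NB Hi (fun i => i.1.2.1) := (nB.pow 4).mono fun i => i.2.1
  have nr : NB Hi (fun i => i.1.2.2) := ((cc 4).mul (nP.pow 3)).mono fun i => i.2.2
  have nc : NB Hi (fun i => ((i.1.2.2:ℤ) - 9 * Qf i.1.1).natAbs) := by
    refine (nr.add hH ((cc 9).mul nQ)).mono fun i => ?_
    omega
  have nB' := (nB.add hH (nB.pow 3)).pow 2
  have nq2 := ((cc 2).mul nr).mul ((((cc 6).mul nP).mul nq).pow 2)
  have n6pq := ((cc 6).mul nP).mul nq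
  have nA1 := ((cc 6).mul nP).add hH (nc.mul nq)
  have nD := (((((cc 72).mul nr).mul (nP.pow 2)).mul nq).add hH ((((cc 2).mul nr).mul n6pq).mul nA1)).add hH
    (((cc 6).mul nP).mul (nA1.pow 2)) |>.add hH ((nc.mul n6pq).mul nA1)
  have nct := (((((cc 4).mul (nP.pow 2)).add hH (((cc 2).mul nr).mul nb)).add hH nc).add hH nP).add hH nQ |>.add hH (cc 1)
  have nM := nq.mul ((((nct.add hH nc).add hH nP).add hH nQ).add hH (cc 1))
  have nE : NB Hi (fun i => EP i.1.1.1.natAbs i.1.1.2.1.natAbs (Pf i.1.1).natAbs i.1.2.2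
      ((i.1.2.2:ℤ) - 9 * Qf i.1.1).natAbs (Qf i.1.1).natAbs (Bf i.1.1) i.1.2.1) :=
    ((((cc 3).mul na).mul nq2).add hH ((cc 48).mul nB')).add hH
      ((((cc 8).add hH (nb.mul nq2)).add hH ((cc 3).mul nD)).add hH
        ((cc 2).mul (((cc 4).mul nB').mul (((cc 2).mul nM).add hH (cc 4)))))
  obtain ⟨K2, h2⟩ := nE
  refine ⟨K2 + 2, fun a b c d r0 ha hr0 hdisc => ?_⟩
  have main : ∀ a b c d r0 : ℤ, 0 < a → r0 ≠ 0 →
      b ^ 2 * c ^ 2 - 4 * a * c ^ 3 - 4 * b ^ 3 * d - 27 * a ^ 2 * d ^ 2 + 18 * a * b * c * d = r0 ^ 2 →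
      GoodP a b c d (((K2 + 2) * (1 + a.natAbs + b.natAbs + c.natAbs + d.natAbs)) ^ (K2 + 2)) := by
    intro a b c d r0 ha hr0 hdisc
    obtain ⟨r, hr⟩ : ∃ r, r = (27 * a * r0).natAbs := ⟨_, rfl⟩
    have hrpos : 0 < r := by
      rw [hr]
      exact Int.natAbs_pos.2 (mul_ne_zero (mul_ne_zero (by norm_num) ha.ne') hr0)
    have hd := disc_id hdisc
    rw [← hr] at hd
    obtain ⟨q, hq, hqB, hG⟩ := countP ha hrpos hd (fun g hg s hs => h1 g hg _ _ s hs)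
    have hrb : r ≤ 4 * (9 * a * c - 3 * b ^ 2).natAbs ^ 3 := by
      obtain ⟨P, hP⟩ : ∃ P : ℤ, P = 9 * a * c - 3 * b ^ 2 := ⟨_, rfl⟩
      rw [← hP] at hd ⊢
      have e1 : -P ^ 3 ≤ |P| ^ 3 := by
        rw [← abs_pow]
        exact neg_le_abs (P ^ 3)
      have e2 : (0:ℤ) ≤ (27 * a ^ 2 * d - 9 * a * b * c + 2 * b ^ 3) ^ 2 := sq_nonneg _
      have e3 : (r:ℤ) ≤ (r:ℤ) ^ 2 := by
        have : (1:ℤ) ≤ r := by exact_mod_cast hrpos
        nlinarith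
      have e4 : (r:ℤ) ≤ 4 * |P| ^ 3 := by linarith
      have e5 : (r:ℤ) ≤ ((4 * P.natAbs ^ 3 : ℕ) : ℤ) := by
        push_cast
        exact e4
      exact_mod_cast e5
    refine hG.mono ((h2 ⟨((a, b, c, d), q, r), hqB, hrb⟩).trans ?_)
    calc Ht (a, b, c, d) ^ K2 ≤ ((K2 + 2) * (1 + a.natAbs + b.natAbs + c.natAbs + d.natAbs)) ^ K2 :=
          Nat.pow_le_pow_left (Nat.mul_le_mul_right _ (by omega)) _
      _ ≤ _ := Nat.pow_le_pow_right (Nat.mul_pos (by omega) (by omega)) (by omega)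
  rcases lt_or_gt_of_ne ha with h | h
  · have := main (-a) (-b) (-c) (-d) r0 (by linarith) hr0 (by rw [← hdisc]; ring)
    rw [Int.natAbs_neg, Int.natAbs_neg, Int.natAbs_neg, Int.natAbs_neg] at this
    exact goodP_neg this
  · exact main a b c d r0 h hr0 hdisc

/-- the final form: `y₀` and the bound are common to all parts -/
def Fin4 (a b c d : ℤ) (B : ℕ) : Prop :=
  ∃ y₀ : ℤ, 0 < y₀ ∧ y₀ ≤ B ∧ ∀ y : ℤ, 0 < y → y₀ ∣ y → ∀ X : ℕ, y * 2 ^ B ≤ X →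
    ((∀ s : ℤ, (s = 1 ∨ s = -1) →
      Real.log (X / y) / B ≤ (((Finset.Icc (1 : ℤ) X).filter (fun n => lam (form a b c d n y) = s)).card : ℝ)) ∨
    (∀ s : ℤ, (s = 1 ∨ s = -1) →
      Real.log (X / y) / B ≤
        (((Finset.Icc (1 : ℤ) X).filter (fun n => lam (form a b c d (-n) y) = s)).card : ℝ))) ∧
    (∀ r0 : ℤ, r0 ≠ 0 →
      b ^ 2 * c ^ 2 - 4 * a * c ^ 3 - 4 * b ^ 3 * d - 27 * a ^ 2 * d ^ 2 + 18 * a * b * c * d = r0 ^ 2 →
      (∀ s : ℤ, (s = 1 ∨ s = -1) →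
        Real.log (X / y) / B ≤ (((Finset.Icc (1 : ℤ) X).filter (fun n => lam (form a b c d n y) = s)).card : ℝ)) ∧
      (∀ s : ℤ, (s = 1 ∨ s = -1) →
        Real.log (X / y) / B ≤
          (((Finset.Icc (1 : ℤ) X).filter (fun n => lam (form a b c d (-n) y) = s)).card : ℝ)))

theorem flip_lam (a b c d n y : ℤ) : lam (form a (-b) c (-d) n y) = lam (form a b c d (-n) y) := by
  have : form a (-b) c (-d) n y = -form a b c d (-n) y := by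
    unfold form
    ring
  rw [this, lam_neg]

theorem all_final : ∃ K : ℕ, ∀ a b c d : ℤ, a ≠ 0 →
    Fin4 a b c d ((K * (1 + a.natAbs + b.natAbs + c.natAbs + d.natAbs)) ^ K) := by
  obtain ⟨K1, h1⟩ := all_cubicsE
  obtain ⟨K2, h2⟩ := all_cyclic
  refine ⟨K1 + 2 * K2 + 1, fun a b c d ha => ?_⟩
  obtain ⟨h, hh⟩ : ∃ h, h = 1 + a.natAbs + b.natAbs + c.natAbs + d.natAbs := ⟨_, rfl⟩
  have hh1 : 1 ≤ h := by omega
  have G1 := h1 a b c d ha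
  rw [← hh] at G1 ⊢
  obtain ⟨K, hK⟩ : ∃ K, K = K1 + 2 * K2 + 1 := ⟨_, rfl⟩
  rw [← hK]
  have hKh : 1 ≤ K * h := Nat.mul_pos (by omega) (by omega)
  have b1 : (K1 * h) ^ K1 ≤ (K * h) ^ K1 := Nat.pow_le_pow_left (Nat.mul_le_mul_right _ (by omega)) _
  have b2 : (K2 * h) ^ K2 ≤ (K * h) ^ K2 := Nat.pow_le_pow_left (Nat.mul_le_mul_right _ (by omega)) _
  have b3 : (K1 * h) ^ K1 ≤ (K * h) ^ K := b1.trans (Nat.pow_le_pow_right hKh (by omega))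
  have b4 : (K2 * h) ^ K2 ≤ (K * h) ^ K := b2.trans (Nat.pow_le_pow_right hKh (by omega))
  have G1' := G1.mono b3
  obtain ⟨y1, hy1, hy1B, -⟩ := G1
  obtain ⟨B, hB⟩ : ∃ B, B = (K * h) ^ K := ⟨_, rfl⟩
  rw [← hB] at b3 b4 G1' ⊢
  -- the bound of `y₀` in `GoodE`: we need the small one
  obtain ⟨y1, hy1, hy1B, P1⟩ : ∃ y₀ : ℤ, 0 < y₀ ∧ y₀ ≤ ((K1 * h) ^ K1 : ℕ) ∧
      ∀ y : ℤ, 0 < y → y₀ ∣ y → ∀ X : ℕ, y * 2 ^ B ≤ X →
    (∀ s : ℤ, (s = 1 ∨ s = -1) →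
      Real.log (X / y) / B ≤ (((Finset.Icc (1 : ℤ) X).filter (fun n => lam (form a b c d n y) = s)).card : ℝ)) ∨
    (∀ s : ℤ, (s = 1 ∨ s = -1) →
      Real.log (X / y) / B ≤
        (((Finset.Icc (1 : ℤ) X).filter (fun n => lam (form a b c d (-n) y) = s)).card : ℝ)) := by
    have G := h1 a b c d ha
    rw [← hh] at G
    obtain ⟨y1, hy1, hy1B, P1⟩ := G
    refine ⟨y1, hy1, hy1B, fun y hy hd X hX => ?_⟩
    have G2 : GoodE a b c d ((K1 * h) ^ K1) := ⟨y1, hy1, hy1B, P1⟩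
    have hX' : y * 2 ^ ((K1 * h) ^ K1) ≤ (X : ℤ) :=
      (mul_le_mul_of_nonneg_left (pow_le_pow_right₀ (by norm_num) b3) hy.le).trans hX
    have hB0 : (0 : ℝ) < ((K1 * h) ^ K1 : ℕ) := by
      have : (0 : ℤ) < ((K1 * h) ^ K1 : ℕ) := lt_of_lt_of_le hy1 hy1B
      exact_mod_cast this
    have hCB : (((K1 * h) ^ K1 : ℕ) : ℝ) ≤ B := by exact_mod_cast b3
    have hyX : y ≤ (X : ℤ) := by
      refine le_trans ?_ hX'
      exact le_mul_of_one_le_right hy.le (one_le_pow₀ (by norm_num))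
    have hyR : (0 : ℝ) < y := by exact_mod_cast hy
    have hlog : 0 ≤ Real.log (X / y) := by
      apply Real.log_nonneg
      rw [one_le_div hyR]
      exact_mod_cast hyX
    have hle := div_le_div_of_nonneg_left hlog hB0 hCB
    rcases P1 y hy hd X hX' with h | h
    · exact Or.inl fun s hs => hle.trans (h s hs)
    · exact Or.inr fun s hs => hle.trans (h s hs)
  by_cases hsq : ∃ r0 : ℤ, r0 ≠ 0 ∧
      b ^ 2 * c ^ 2 - 4 * a * c ^ 3 - 4 * b ^ 3 * d - 27 * a ^ 2 * d ^ 2 + 18 * a * b * c * d = r0 ^ 2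
  · obtain ⟨r0, hr0, hdisc⟩ := hsq
    have smallP : ∀ a b c d : ℤ, a ≠ 0 → h = 1 + a.natAbs + b.natAbs + c.natAbs + d.natAbs →
        b ^ 2 * c ^ 2 - 4 * a * c ^ 3 - 4 * b ^ 3 * d - 27 * a ^ 2 * d ^ 2 + 18 * a * b * c * d = r0 ^ 2 →
        ∃ y₀ : ℤ, 0 < y₀ ∧ y₀ ≤ ((K2 * h) ^ K2 : ℕ) ∧
          ∀ y : ℤ, 0 < y → y₀ ∣ y → ∀ X : ℕ, y * 2 ^ B ≤ X → ∀ s : ℤ, (s = 1 ∨ s = -1) →
          Real.log (X / y) / B ≤
            (((Finset.Icc (1 : ℤ) X).filter (fun n => lam (form a b c d n y) = s)).card : ℝ) := by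
      intro a b c d ha hh hdisc
      have G := h2 a b c d r0 ha hr0 hdisc
      rw [← hh] at G
      obtain ⟨y1, hy1, hy1B, P1⟩ := G
      refine ⟨y1, hy1, hy1B, fun y hy hd X hX s hs => ?_⟩
      have hX' : y * 2 ^ ((K2 * h) ^ K2) ≤ (X : ℤ) :=
        (mul_le_mul_of_nonneg_left (pow_le_pow_right₀ (by norm_num) b4) hy.le).trans hX
      have hB0 : (0 : ℝ) < ((K2 * h) ^ K2 : ℕ) := by
        have : (0 : ℤ) < ((K2 * h) ^ K2 : ℕ) := lt_of_lt_of_le hy1 hy1B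
        exact_mod_cast this
      have hCB : (((K2 * h) ^ K2 : ℕ) : ℝ) ≤ B := by exact_mod_cast b4
      have hyX : y ≤ (X : ℤ) := by
        refine le_trans ?_ hX'
        exact le_mul_of_one_le_right hy.le (one_le_pow₀ (by norm_num))
      have hyR : (0 : ℝ) < y := by exact_mod_cast hy
      have hlog : 0 ≤ Real.log (X / y) := by
        apply Real.log_nonneg
        rw [one_le_div hyR]
        exact_mod_cast hyX
      exact (div_le_div_of_nonneg_left hlog hB0 hCB).trans (P1 y hy hd X hX' s hs)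
    obtain ⟨y2, hy2, hy2B, P2⟩ := smallP a b c d ha hh hdisc
    obtain ⟨y3, hy3, hy3B, P3⟩ := smallP a (-b) c (-d) ha (by rw [Int.natAbs_neg, Int.natAbs_neg]; exact hh)
      (by rw [← hdisc]; ring)
    refine ⟨y1 * y2 * y3, by positivity, ?_, fun y hy hd X hX => ⟨P1 y hy ?_ X hX, fun _ _ _ => ⟨?_, ?_⟩⟩⟩
    · have e1 : y1 * y2 * y3 ≤ (((K * h) ^ K1 : ℕ) : ℤ) * (((K * h) ^ K2 : ℕ) : ℤ) * (((K * h) ^ K2 : ℕ) : ℤ) := by
        have f1 : y1 ≤ (((K * h) ^ K1 : ℕ) : ℤ) := hy1B.trans (by exact_mod_cast b1)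
        have f2 : y2 ≤ (((K * h) ^ K2 : ℕ) : ℤ) := hy2B.trans (by exact_mod_cast b2)
        have f3 : y3 ≤ (((K * h) ^ K2 : ℕ) : ℤ) := hy3B.trans (by exact_mod_cast b2)
        exact mul_le_mul (mul_le_mul f1 f2 hy2.le (by positivity)) f3 hy3.le (by positivity)
      refine e1.trans ?_
      have e2 : (K * h) ^ K1 * (K * h) ^ K2 * (K * h) ^ K2 ≤ B := by
        rw [hB, ← pow_add, ← pow_add]
        exact Nat.pow_le_pow_right hKh (by omega)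
      exact_mod_cast e2
    · exact dvd_trans (Dvd.intro (y2 * y3) (by ring)) hd
    · exact P2 y hy (dvd_trans (Dvd.intro (y1 * y3) (by ring)) hd) X hX
    · intro s hs
      have := P3 y hy (dvd_trans (Dvd.intro (y1 * y2) (by ring)) hd) X hX s hs
      simp only [flip_lam] at this
      exact this
  · refine ⟨y1, hy1, hy1B.trans (by exact_mod_cast b3), fun y hy hd X hX => ⟨P1 y hy hd X hX, fun r0 hr0 hdisc => ?_⟩⟩
    exact absurd ⟨r0, hr0, hdisc⟩ hsq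

end MP648Diag
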