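import Pool.Agent.Lib.MP_648c71_nt.AC.SeqDef

/-!
# Explicit denominators: definitions
-/

set_option autoImplicit false

namespace Pool.Agent.Lib.MP_648c71_nt.AllCub

/-- `Seq` with a bound `B` for the denominator `q`. -/
def SeqB (g : ℚ → ℤ) (b c : ℚ) (s : ℤ) (B : ℕ) : Prop :=
  ∃ q : ℕ, 0 < q ∧ q ≤ B ∧ ∃ (C K : ℕ) (n : ℕ → ℤ), (∀ k, |n k| ≤ (C : ℤ) ^ (k + 1)) ∧
    (∀ (v : ℤ) (N : ℕ), ((Finset.range N).filter (fun k => n k = v)).card ≤ K) ∧
    ∀ k, g (fc b c ((n k : ℚ) / q)) = s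

/-- An admissible argument of `T^3 + b T + c`. -/
structure Adm (b c r : ℚ) : Prop where
  ne : r ≠ 0
  val : fc b c r ≠ 0
  pos : 0 < (8 * c - 4 * b * r - r ^ 3) / (12 * r)
  nonsq : ¬ IsSquare ((8 * c - 4 * b * r - r ^ 3) / (12 * r))

/-- Height at most `B`. -/
def HB (B : ℕ) (x : ℚ) : Prop := x.num.natAbs ≤ B ∧ x.den ≤ B

/-- A family of rational numbers of polynomial height. -/
def PB {ι : Type*} (H : ι → ℕ) (X : ι → ℚ) : Prop := ∃ K : ℕ, ∀ i, HB (H i ^ K) (X i)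

/-- A family of natural numbers of polynomial size. -/
def NB {ι : Type*} (H : ι → ℕ) (X : ι → ℕ) : Prop := ∃ K : ℕ, ∀ i, X i ≤ H i ^ K

section
variable {ι : Type*} {H : ι → ℕ}

theorem NB.mul {X Y : ι → ℕ} (hX : NB H X) (hY : NB H Y) : NB H (fun i => X i * Y i) := by
  obtain ⟨K, hK⟩ := hX
  obtain ⟨L, hL⟩ := hY
  exact ⟨K + L, fun i => by rw [pow_add]; exact Nat.mul_le_mul (hK i) (hL i)⟩

theorem NB.add (hH : ∀ i, 2 ≤ H i) {X Y : ι → ℕ} (hX : NB H X) (hY : NB H Y) : NB H (fun i => X i + Y i) := by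
  obtain ⟨K, hK⟩ := hX
  obtain ⟨L, hL⟩ := hY
  refine ⟨K + L + 1, fun i => ?_⟩
  have h2 := hH i
  have h1 : 1 ≤ H i := by omega
  have a1 : H i ^ K ≤ H i ^ (K + L) := Nat.pow_le_pow_right h1 (by omega)
  have a2 : H i ^ L ≤ H i ^ (K + L) := Nat.pow_le_pow_right h1 (by omega)
  have := hK i
  have := hL i
  calc X i + Y i ≤ H i ^ (K + L) * 2 := by omega
    _ ≤ H i ^ (K + L) * H i := Nat.mul_le_mul_left _ h2
    _ = H i ^ (K + L + 1) := (pow_succ _ _).symm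

theorem NB.const (hH : ∀ i, 2 ≤ H i) (n : ℕ) : NB H (fun _ => n) :=
  ⟨n, fun i => (Nat.lt_two_pow_self).le.trans (Nat.pow_le_pow_left (hH i) n)⟩

theorem NB.mono {X Y : ι → ℕ} (hY : NB H Y) (h : ∀ i, X i ≤ Y i) : NB H X := by
  obtain ⟨K, hK⟩ := hY
  exact ⟨K, fun i => (h i).trans (hK i)⟩

theorem NB.pow {X : ι → ℕ} (hX : NB H X) (n : ℕ) : NB H (fun i => X i ^ n) := by
  obtain ⟨K, hK⟩ := hX
  exact ⟨K * n, fun i => by rw [pow_mul]; exact Nat.pow_le_pow_left (hK i) n⟩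

theorem PB.iff (hH : ∀ i, 2 ≤ H i) {X : ι → ℚ} :
    PB H X ↔ NB H (fun i => (X i).num.natAbs) ∧ NB H (fun i => (X i).den) := by
  constructor
  · rintro ⟨K, hK⟩
    exact ⟨⟨K, fun i => (hK i).1⟩, ⟨K, fun i => (hK i).2⟩⟩
  · rintro ⟨⟨K, hK⟩, ⟨L, hL⟩⟩
    refine ⟨K + L, fun i => ⟨(hK i).trans ?_, (hL i).trans ?_⟩⟩
    · exact Nat.pow_le_pow_right (by have := hH i; omega) (by omega)
    · exact Nat.pow_le_pow_right (by have := hH i; omega) (by omega)

theorem PB.den {X : ι → ℚ} (hX : PB H X) : NB H (fun i => (X i).den) := by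
  obtain ⟨K, hK⟩ := hX
  exact ⟨K, fun i => (hK i).2⟩

theorem PB.num {X : ι → ℚ} (hX : PB H X) : NB H (fun i => (X i).num.natAbs) := by
  obtain ⟨K, hK⟩ := hX
  exact ⟨K, fun i => (hK i).1⟩

theorem PB.const (hH : ∀ i, 2 ≤ H i) (x : ℚ) : PB H (fun _ => x) :=
  (PB.iff hH).2 ⟨NB.const hH _, NB.const hH _⟩

theorem PB.int (hH : ∀ i, 2 ≤ H i) {X : ι → ℤ} (hX : NB H (fun i => (X i).natAbs)) :
    PB H (fun i => (X i : ℚ)) :=
  (PB.iff hH).2 ⟨by simpa using hX, by simpa using NB.const hH 1⟩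

theorem PB.mul (hH : ∀ i, 2 ≤ H i) {X Y : ι → ℚ} (hX : PB H X) (hY : PB H Y) :
    PB H (fun i => X i * Y i) := by
  refine (PB.iff hH).2 ⟨(hX.num.mul hY.num).mono fun i => ?_, (hX.den.mul hY.den).mono fun i => ?_⟩
  · rw [← Int.natAbs_mul]
    have h := Rat.mul_num (X i) (Y i)
    rw [h, Int.natAbs_ediv_of_dvd]
    · exact Nat.div_le_self _ _
    · have := Nat.gcd_dvd_left ((X i).num * (Y i).num).natAbs ((X i).den * (Y i).den)
      exact Int.natCast_dvd.2 this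
  · exact Nat.le_of_dvd (Nat.mul_pos (X i).den_pos (Y i).den_pos) (Rat.mul_den_dvd _ _)

theorem PB.add (hH : ∀ i, 2 ≤ H i) {X Y : ι → ℚ} (hX : PB H X) (hY : PB H Y) :
    PB H (fun i => X i + Y i) := by
  refine (PB.iff hH).2 ⟨((hX.num.mul hY.den).add hH (hY.num.mul hX.den)).mono fun i => ?_,
    (hX.den.mul hY.den).mono fun i => ?_⟩
  · have h := Rat.add_num_den' (X i) (Y i)
    have hden : ((X i + Y i).den : ℤ) ≤ (X i).den * (Y i).den := by
      have := Nat.le_of_dvd (Nat.mul_pos (X i).den_pos (Y i).den_pos) (Rat.add_den_dvd (X i) (Y i))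
      exact_mod_cast this
    have h1 : (X i + Y i).num.natAbs * ((X i).den * (Y i).den) =
        ((X i).num * (Y i).den + (Y i).num * (X i).den).natAbs * (X i + Y i).den := by
      have := congrArg Int.natAbs h
      rw [Int.natAbs_mul, Int.natAbs_mul, Int.natAbs_mul, Int.natAbs_natCast, Int.natAbs_natCast,
        Int.natAbs_natCast] at this
      rw [← mul_assoc]
      exact this
    have h2 : ((X i).num * (Y i).den + (Y i).num * (X i).den).natAbs ≤
        (X i).num.natAbs * (Y i).den + (Y i).num.natAbs * (X i).den := by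
      refine (Int.natAbs_add_le _ _).trans ?_
      rw [Int.natAbs_mul, Int.natAbs_mul, Int.natAbs_natCast, Int.natAbs_natCast]
    have h3 : 0 < (X i).den * (Y i).den := Nat.mul_pos (X i).den_pos (Y i).den_pos
    have h4 : (X i + Y i).den ≤ (X i).den * (Y i).den := by exact_mod_cast hden
    by_contra hcon
    push Not at hcon
    have h5 : ((X i).num * (Y i).den + (Y i).num * (X i).den).natAbs * (X i + Y i).den ≤
        ((X i).num.natAbs * (Y i).den + (Y i).num.natAbs * (X i).den) * ((X i).den * (Y i).den) :=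
      Nat.mul_le_mul h2 h4
    have h6 := Nat.mul_lt_mul_of_pos_right hcon h3
    omega
  · exact Nat.le_of_dvd (Nat.mul_pos (X i).den_pos (Y i).den_pos) (Rat.add_den_dvd _ _)

theorem PB.neg {X : ι → ℚ} (hX : PB H X) : PB H (fun i => -X i) := by
  obtain ⟨K, hK⟩ := hX
  exact ⟨K, fun i => ⟨by simpa using (hK i).1, by simpa using (hK i).2⟩⟩

theorem PB.sub (hH : ∀ i, 2 ≤ H i) {X Y : ι → ℚ} (hX : PB H X) (hY : PB H Y) :
    PB H (fun i => X i - Y i) := by
  have := hX.add hH hY.neg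
  simpa [sub_eq_add_neg] using this

theorem PB.inv (hH : ∀ i, 2 ≤ H i) {X : ι → ℚ} (hX : PB H X) : PB H (fun i => (X i)⁻¹) := by
  refine (PB.iff hH).2 ⟨hX.den.mono fun i => ?_, (hX.num.add hH (NB.const hH 1)).mono fun i => ?_⟩
  · rcases eq_or_ne (X i) 0 with h | h
    · rw [h]; simp
    · rw [Rat.num_inv]
      rw [Int.natAbs_mul, Int.natAbs_natCast, Int.natAbs_sign_of_ne_zero (Rat.num_ne_zero.2 h), one_mul]
  · rcases eq_or_ne (X i) 0 with h | h
    · rw [h]; simp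
    · rw [Rat.den_inv]
      rw [if_neg (Rat.num_ne_zero.2 h)]
      omega

theorem PB.div (hH : ∀ i, 2 ≤ H i) {X Y : ι → ℚ} (hX : PB H X) (hY : PB H Y) :
    PB H (fun i => X i / Y i) := by
  have := hX.mul hH (hY.inv hH)
  simpa [div_eq_mul_inv] using this

theorem PB.pow (hH : ∀ i, 2 ≤ H i) {X : ι → ℚ} (hX : PB H X) (n : ℕ) :
    PB H (fun i => X i ^ n) := by
  induction n with
  | zero => simpa using PB.const hH (ι := ι) 1
  | succ n ih => simpa [pow_succ] using ih.mul hH hX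

end

end Pool.Agent.Lib.MP_648c71_nt.AllCub
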