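import Pool.Agent.Lib.MP_648c71_nt.EX.Defs

/-!
# The configuration: two four-term identities with the same sum, and 11-adic admissibility
-/

set_option autoImplicit false

namespace Pool.Agent.Lib.MP_648c71_nt.AllCub

/-- The form `A/(11B)`, `A` prime to `11`. -/
def E11 (r : ℚ) : Prop := ∃ A B : ℤ, ¬ (11 : ℤ) ∣ A ∧ B ≠ 0 ∧ r = A / (11 * B)

theorem zmod11 (s A : ZMod 11) (h : s * s = -A ^ 4) : A = 0 := by
  revert s A
  decide

theorem E11.val {b c : ℤ} {r : ℚ} (h : E11 r) : fc (b : ℚ) c r ≠ 0 := by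
  obtain ⟨A, B, hA, hB, hr⟩ := h
  intro h0
  have hBq : (B : ℚ) ≠ 0 := by exact_mod_cast hB
  have h1 : ((A ^ 3 + b * A * (11 * B) ^ 2 + c * (11 * B) ^ 3 : ℤ) : ℚ) = 0 := by
    rw [hr] at h0
    unfold fc at h0
    field_simp at h0
    push_cast
    linear_combination h0
  have h2 : A ^ 3 + b * A * (11 * B) ^ 2 + c * (11 * B) ^ 3 = 0 := by exact_mod_cast h1
  apply hA
  have h3 : (11 : ℤ) ∣ A ^ 3 := ⟨-(b * A * 11 * B ^ 2 + c * 121 * B ^ 3), by linear_combination h2⟩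
  exact Int.Prime.dvd_pow' (by norm_num) h3

theorem E11.nonsq {b c : ℤ} {r : ℚ} (h : E11 r) (h0 : r ≠ 0) :
    ¬ IsSquare ((8 * (c : ℚ) - 4 * b * r - r ^ 3) / (12 * r)) := by
  obtain ⟨A, B, hA, hB, hr⟩ := h
  rintro ⟨z, hz⟩
  have hBq : (B : ℚ) ≠ 0 := by exact_mod_cast hB
  obtain ⟨T, hT⟩ : ∃ T : ℤ, T = 12 * A * (8 * c * (11 * B) ^ 3 - 4 * b * A * (11 * B) ^ 2 - A ^ 3) := ⟨_, rfl⟩
  have hsq : IsSquare ((T : ℤ) : ℚ) := by
    refine ⟨12 * r * z * (11 * B) ^ 2, ?_⟩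
    have e1 : 8 * (c : ℚ) - 4 * b * r - r ^ 3 = z * z * (12 * r) := by
      rw [← hz]
      field_simp
    have e2 : (A : ℚ) = r * (11 * B) := by
      rw [hr]
      field_simp
    rw [hT]
    push_cast
    rw [e2]
    linear_combination (12 * r * (11 * B) ^ 4) * e1
  have hsq' : IsSquare T := Rat.isSquare_intCast_iff.1 hsq
  obtain ⟨s, hs⟩ := hsq'
  apply hA
  have h1 := congrArg (fun n : ℤ => (n : ZMod 11)) (hs.symm.trans hT)
  push_cast at h1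
  have h11 : (11 : ZMod 11) = 0 := by decide
  have h12 : (12 : ZMod 11) = 1 := by decide
  rw [h11, h12] at h1
  have h2 := zmod11 (s : ZMod 11) (A : ZMod 11) (by rw [h1]; ring)
  exact (ZMod.intCast_zmod_eq_zero_iff_dvd A 11).1 h2

theorem adm_of {b c : ℤ} {R : ℝ} (hR : 0 < R) (hc0 : 0 < c) (hRc : R ^ 3 + b * R = c) {r : ℚ} (h0 : 0 < r)
    (h1 : (r : ℝ) < 2 * R) (h : E11 r) : Adm b c r := by
  refine ⟨h0.ne', h.val, ?_, h.nonsq h0.ne'⟩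
  apply div_pos _ (by positivity)
  have hrR : (0 : ℝ) < r := by exact_mod_cast h0
  have hcR : (0 : ℝ) < c := by exact_mod_cast hc0
  have h2 : 0 < R ^ 2 + b := by
    by_contra hcon
    push Not at hcon
    have : R * (R ^ 2 + b) ≤ 0 := mul_nonpos_of_nonneg_of_nonpos hR.le hcon
    nlinarith
  have h3 : (0 : ℝ) < 8 * (c : ℝ) - 4 * b * r - r ^ 3 := by
    have e : 8 * (c : ℝ) - 4 * b * r - r ^ 3 = (2 * R - r) * (4 * (R ^ 2 + b) + 2 * R * r + r ^ 2) := by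
      rw [← hRc]
      ring
    rw [e]
    apply mul_pos (by linarith)
    positivity
  exact_mod_cast h3

theorem e11_x {X L : ℤ} (hX : ¬ (11 : ℤ) ∣ X) (hL : (11 : ℤ) ∣ L) (hL0 : L ≠ 0) : E11 ((X : ℚ) / L) := by
  obtain ⟨B, hB⟩ := hL
  refine ⟨X, B, hX, ?_, ?_⟩
  · rintro rfl
    exact hL0 (by simpa using hB)
  · rw [hB]
    push_cast
    rfl

theorem e11_w {b c X Y L : ℤ} (hX : ¬ (11 : ℤ) ∣ X) (hY : ¬ (11 : ℤ) ∣ Y) (hXY : ¬ (11 : ℤ) ∣ X + Y)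
    (hL : (11 : ℤ) ∣ L) (hL0 : L ≠ 0) (hq : (X + Y) ^ 2 + b * L ^ 2 - X * Y ≠ 0) {x y : ℚ} (hx : x = X / L)
    (hy : y = Y / L) : E11 (((x + y) * (x * y) - c) / ((x + y) ^ 2 + b - x * y)) := by
  obtain ⟨B, hB⟩ := hL
  have hB0 : B ≠ 0 := by
    rintro rfl
    exact hL0 (by simpa using hB)
  refine ⟨(X + Y) * (X * Y) - c * L ^ 3, B * ((X + Y) ^ 2 + b * L ^ 2 - X * Y), ?_, mul_ne_zero hB0 hq, ?_⟩
  · intro h
    have h1 : (11 : ℤ) ∣ (X + Y) * (X * Y) := by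
      have h2 : (11 : ℤ) ∣ c * L ^ 3 := ⟨c * B * L ^ 2, by rw [hB]; ring⟩
      have := dvd_add h h2
      rwa [sub_add_cancel] at this
    have p : Prime (11 : ℤ) := by norm_num
    rcases p.dvd_or_dvd h1 with h2 | h2
    · exact hXY h2
    · rcases p.dvd_or_dvd h2 with h3 | h3
      · exact hX h3
      · exact hY h3
  · have hLq : (L : ℚ) ≠ 0 := by exact_mod_cast hL0
    have hqq : ((X : ℚ) + Y) ^ 2 + b * L ^ 2 - X * Y ≠ 0 := by exact_mod_cast hq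
    have hBL : (11 : ℚ) * B = L := by rw [hB]; push_cast; rfl
    have e1 : (x + y) ^ 2 + b - x * y = (((X : ℚ) + Y) ^ 2 + b * L ^ 2 - X * Y) / L ^ 2 := by
      rw [hx, hy]
      field_simp
    have e2 : (x + y) * (x * y) - c = (((X : ℚ) + Y) * (X * Y) - c * L ^ 3) / L ^ 3 := by
      rw [hx, hy]
      field_simp
    rw [e1, e2]
    push_cast
    rw [show (11 : ℚ) * (B * (((X : ℚ) + Y) ^ 2 + b * L ^ 2 - X * Y)) =
      L * (((X : ℚ) + Y) ^ 2 + b * L ^ 2 - X * Y) by rw [← hBL]; ring]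
    field_simp

theorem e11_dup {b c X L : ℤ} (hX : ¬ (11 : ℤ) ∣ X) (hL : (11 : ℤ) ∣ L) (hL0 : L ≠ 0) {x : ℚ}
    (hx : x = X / L) : E11 ((x ^ 4 - 2 * b * x ^ 2 - 8 * c * x + b ^ 2) / (4 * fc (b : ℚ) c x)) := by
  have hfx : fc (b : ℚ) c x ≠ 0 := by
    rw [hx]
    exact (e11_x hX hL hL0).val
  obtain ⟨B, hB⟩ := hL
  have hB0 : B ≠ 0 := by
    rintro rfl
    exact hL0 (by simpa using hB)
  have hLq : (L : ℚ) ≠ 0 := by exact_mod_cast hL0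
  have hF : (L : ℚ) ^ 3 * fc (b : ℚ) c x = (X ^ 3 + b * X * L ^ 2 + c * L ^ 3 : ℤ) := by
    rw [hx]
    unfold fc
    push_cast
    field_simp
  have hF0 : (X ^ 3 + b * X * L ^ 2 + c * L ^ 3 : ℤ) ≠ 0 := by
    have : ((X ^ 3 + b * X * L ^ 2 + c * L ^ 3 : ℤ) : ℚ) ≠ 0 := by
      rw [← hF]
      exact mul_ne_zero (pow_ne_zero 3 hLq) hfx
    exact_mod_cast this
  refine ⟨X ^ 4 - 2 * b * X ^ 2 * L ^ 2 - 8 * c * X * L ^ 3 + b ^ 2 * L ^ 4,
    4 * B * (X ^ 3 + b * X * L ^ 2 + c * L ^ 3), ?_, mul_ne_zero (mul_ne_zero (by norm_num) hB0) hF0, ?_⟩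
  · intro h
    apply hX
    have h1 : (11 : ℤ) ∣ X ^ 4 := by
      have h2 : (11 : ℤ) ∣ 2 * b * X ^ 2 * L ^ 2 + 8 * c * X * L ^ 3 - b ^ 2 * L ^ 4 :=
        ⟨2 * b * X ^ 2 * B * L + 8 * c * X * B * L ^ 2 - b ^ 2 * B * L ^ 3, by rw [hB]; ring⟩
      have := dvd_add h h2
      have e : X ^ 4 - 2 * b * X ^ 2 * L ^ 2 - 8 * c * X * L ^ 3 + b ^ 2 * L ^ 4 +
        (2 * b * X ^ 2 * L ^ 2 + 8 * c * X * L ^ 3 - b ^ 2 * L ^ 4) = X ^ 4 := by ring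
      rwa [e] at this
    exact Int.Prime.dvd_pow' (by norm_num) h1
  · have hBL : (11 : ℚ) * B = L := by rw [hB]; push_cast; rfl
    have hF0q : ((X ^ 3 + b * X * L ^ 2 + c * L ^ 3 : ℤ) : ℚ) ≠ 0 := by exact_mod_cast hF0
    have e1 : fc (b : ℚ) c x = ((X ^ 3 + b * X * L ^ 2 + c * L ^ 3 : ℤ) : ℚ) / L ^ 3 := by
      rw [← hF]
      field_simp
    rw [e1, hx]
    push_cast
    push_cast at hF0q
    rw [show (11 : ℚ) * (4 * B * ((X : ℚ) ^ 3 + b * X * L ^ 2 + c * L ^ 3)) =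
      4 * L * ((X : ℚ) ^ 3 + b * X * L ^ 2 + c * L ^ 3) by rw [← hBL]; ring]
    field_simp

/-- The value at the double. -/
theorem dup_g {g : ℚ → ℤ} (hg : GMul g) {b c u D : ℚ} (hfu : fc b c u ≠ 0)
    (hD : D = (u ^ 4 - 2 * b * u ^ 2 - 8 * c * u + b ^ 2) / (4 * fc b c u)) (hfD : fc b c D ≠ 0) :
    g (fc b c D) = g (fc b c u) := by
  have h := dup b c u (by norm_num) hfu D hD
  have h64 : (64 * fc b c u ^ 3) = (8 * fc b c u) ^ 2 * fc b c u := by ring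
  have hne : (u ^ 6 + 5 * b * u ^ 4 + 20 * c * u ^ 3 - 5 * b ^ 2 * u ^ 2 - 4 * b * c * u - 8 * c ^ 2 -
        b ^ 3) ≠ 0 := by
    intro h0
    rw [h0] at h
    have : fc b c D * (64 * fc b c u ^ 3) ≠ 0 :=
      mul_ne_zero hfD (mul_ne_zero (by norm_num) (pow_ne_zero 3 hfu))
    exact this (by rw [h]; ring)
  have G := congrArg g h
  rw [h64, hg.mul, hg.mul, hg.pow_two (mul_ne_zero (by norm_num) hfu), hg.pow_two hne, one_mul] at G
  have h1 := hg.sq _ hfu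
  calc g (fc b c D) = g (fc b c D) * (g (fc b c u) * g (fc b c u)) := by rw [h1, mul_one]
    _ = (g (fc b c D) * g (fc b c u)) * g (fc b c u) := by ring
    _ = g (fc b c u) := by rw [G, one_mul]

/-- KEY LEMMA: two four-term identities with the same sum `h`. -/
theorem key_g {g : ℚ → ℤ} (hg : GMul g) {b c h x x' n τ w w' : ℚ}
    (hq : h ^ 2 + b - x * (h - x) ≠ 0) (hq' : h ^ 2 + b - x' * (h - x') ≠ 0)
    (hw : w = (h * (x * (h - x)) - c) / (h ^ 2 + b - x * (h - x)))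
    (hw' : w' = (h * (x' * (h - x')) - c) / (h ^ 2 + b - x' * (h - x')))
    (hτ : n ^ 2 + (3 * h ^ 2 / 4 + b) = 3 * τ ^ 2) (hτ0 : τ ≠ 0) (hn : n + (x - h / 2) ≠ 0)
    (hx' : x' - h / 2 = ((x - h / 2) * n - (3 * h ^ 2 / 4 + b)) / (n + (x - h / 2)))
    (h3 : fc b c w ≠ 0) (h6 : fc b c w' ≠ 0) :
    g (fc b c x) * g (fc b c (h - x)) * g (fc b c w) *
      (g (fc b c x') * g (fc b c (h - x')) * g (fc b c w')) = g 3 := by
  obtain ⟨q, hqd⟩ : ∃ q, q = h ^ 2 + b - x * (h - x) := ⟨_, rfl⟩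
  obtain ⟨q', hqd'⟩ : ∃ q', q' = h ^ 2 + b - x' * (h - x') := ⟨_, rfl⟩
  have f1 := four_term b c h x w hq hw
  have f2 := four_term b c h x' w' hq' hw'
  rw [← hqd] at f1 hq
  rw [← hqd'] at f2 hq'
  have hh : fc b c (-h) ≠ 0 := by
    intro h0
    rw [h0, mul_zero] at f1
    have : -q ^ 3 * fc b c w ≠ 0 := mul_ne_zero (neg_ne_zero.2 (pow_ne_zero 3 hq)) h3
    exact this f1.symm
  have g1 : ∀ {q : ℚ}, q ≠ 0 → g (-q ^ 3) = g (-1) * g q := by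
    intro q hq
    rw [show -q ^ 3 = (-1 * q) * q ^ 2 by ring, hg.mul, hg.mul, hg.pow_two hq, mul_one]
  have G1 := congrArg g f1
  have G2 := congrArg g f2
  rw [hg.mul, hg.mul, hg.mul, g1 hq] at G1
  rw [hg.mul, hg.mul, hg.mul, g1 hq'] at G2
  -- the product q q'
  have e1 : q = (x - h / 2) ^ 2 + (3 * h ^ 2 / 4 + b) := by
    rw [hqd]
    exact four_quad b h x (by norm_num)
  have e2 : q' = (x' - h / 2) ^ 2 + (3 * h ^ 2 / 4 + b) := by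
    rw [hqd']
    exact four_quad b h x' (by norm_num)
  have e3 : q' * (n + (x - h / 2)) ^ 2 = q * (3 * τ ^ 2) := by
    rw [e2, hx', quad_mul _ _ _ hn, hτ, ← e1]
  have e4 : q * q' = 3 * (q * τ / (n + (x - h / 2))) ^ 2 := by
    have hn2 : (n + (x - h / 2)) ^ 2 ≠ 0 := pow_ne_zero 2 hn
    have e6 : q * q' = 3 * (q * τ) ^ 2 / (n + (x - h / 2)) ^ 2 := by
      rw [eq_div_iff hn2]
      linear_combination q * e3
    rw [e6, div_pow]
    ring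
  have e5 : g q * g q' = g 3 := by
    rw [← hg.mul, e4, hg.mul, hg.pow_two (div_ne_zero (mul_ne_zero hq hτ0) hn), mul_one]
  have s0 := hg.sq _ hh
  have s1 := hg.sq _ h3
  have s2 := hg.sq _ h6
  have s3 : g (-1) * g (-1) = 1 := hg.sq _ (by norm_num)
  obtain ⟨A, hA⟩ : ∃ A, A = g (fc b c x) * g (fc b c (h - x)) := ⟨_, rfl⟩
  obtain ⟨A', hA'⟩ : ∃ A', A' = g (fc b c x') * g (fc b c (h - x')) := ⟨_, rfl⟩
  rw [← hA] at G1 ⊢
  rw [← hA'] at G2 ⊢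
  calc A * g (fc b c w) * (A' * g (fc b c w'))
      = (A * g (fc b c (-h))) * (A' * g (fc b c (-h))) * g (fc b c w) * g (fc b c w') := by
        linear_combination (-(A * A' * g (fc b c w) * g (fc b c w'))) * s0
    _ = (g (-1) * g (-1)) * (g q * g q') * (g (fc b c w) * g (fc b c w)) *
          (g (fc b c w') * g (fc b c w')) := by
        rw [G1, G2]
        ring
    _ = g 3 := by rw [s3, s1, s2, e5]; ring

/-- An even number of signs with product `-1` takes both values. -/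
theorem both4 {g1 g2 g3 g4 s : ℤ} (h1 : g1 * g1 = 1) (h2 : g2 * g2 = 1) (h3 : g3 * g3 = 1) (h4 : g4 * g4 = 1)
    (hs : s = 1 ∨ s = -1) (h : g1 * g2 * g3 * g4 = -1) : g1 = s ∨ g2 = s ∨ g3 = s ∨ g4 = s := by
  rcases mul_self_eq_one_iff.1 h1 with rfl | rfl <;> rcases mul_self_eq_one_iff.1 h2 with rfl | rfl <;>
    rcases mul_self_eq_one_iff.1 h3 with rfl | rfl <;> rcases mul_self_eq_one_iff.1 h4 with rfl | rfl <;>
    rcases hs with rfl | rfl <;> omega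

theorem both6 {g1 g2 g3 g4 g5 g6 s : ℤ} (h1 : g1 * g1 = 1) (h2 : g2 * g2 = 1) (h3 : g3 * g3 = 1)
    (h4 : g4 * g4 = 1) (h5 : g5 * g5 = 1) (h6 : g6 * g6 = 1)
    (hs : s = 1 ∨ s = -1) (h : g1 * g2 * g3 * g4 * g5 * g6 = -1) :
    g1 = s ∨ g2 = s ∨ g3 = s ∨ g4 = s ∨ g5 = s ∨ g6 = s := by
  rcases mul_self_eq_one_iff.1 h1 with rfl | rfl <;> rcases mul_self_eq_one_iff.1 h2 with rfl | rfl <;>
    rcases mul_self_eq_one_iff.1 h3 with rfl | rfl <;> rcases mul_self_eq_one_iff.1 h4 with rfl | rfl <;>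
    rcases mul_self_eq_one_iff.1 h5 with rfl | rfl <;> rcases mul_self_eq_one_iff.1 h6 with rfl | rfl <;>
    rcases hs with rfl | rfl <;> omega

end Pool.Agent.Lib.MP_648c71_nt.AllCub
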