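import Pool.Agent.Lib.MP_648c71_nt.EX.Defs
import Pool.Agent.Lib.MP_648c71_nt.AC.Orbit

/-!
# The seven-term orbit with explicit denominators
-/

set_option autoImplicit false

namespace Pool.Agent.Lib.MP_648c71_nt.AllCub

theorem SeqB.mono {g : ℚ → ℤ} {b c : ℚ} {s : ℤ} {B B' : ℕ} (h : SeqB g b c s B) (hB : B ≤ B') :
    SeqB g b c s B' := by
  obtain ⟨q, h0, h1, h2⟩ := h
  exact ⟨q, h0, h1.trans hB, h2⟩

theorem SeqB.seq {g : ℚ → ℤ} {b c : ℚ} {s : ℤ} {B : ℕ} (h : SeqB g b c s B) : Seq g b c s := by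
  obtain ⟨q, h0, h1, h2⟩ := h
  exact ⟨q, h0, h2⟩

/-- The choice of one of the seven sequences. -/
theorem pickB {g : ℚ → ℤ} {b c : ℚ} {s : ℤ} (W : Fin 7 → ℕ → ℚ) (hW : ∀ i, Nice (W i)) (N : Fin 7 → ℕ)
    (hN : ∀ i, 0 < N i) (hden : ∀ i k, (W i k).den ∣ N i) (k0 : ℕ)
    (h : ∀ k, k0 ≤ k → ∃ i, g (fc b c (W i k)) = s) : SeqB g b c s (∏ i, N i) := by
  choose C hC using fun i => (hW i).2.1
  obtain ⟨q, hq⟩ : ∃ q : ℕ, q = ∏ i, N i := ⟨_, rfl⟩
  have hq0 : 0 < q := by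
    rw [hq]
    exact Finset.prod_pos fun i _ => hN i
  have hqQ : (0 : ℚ) < q := by exact_mod_cast hq0
  have hint : ∀ i k, ∃ n : ℤ, W i k = n / q := by
    intro i k
    have h1 : (W i k).den ∣ q := (hden i k).trans (by
      rw [hq]
      exact Finset.dvd_prod_of_mem N (Finset.mem_univ i))
    obtain ⟨m, hm⟩ := h1
    refine ⟨(W i k).num * m, ?_⟩
    have h2 : ((W i k).den : ℚ) ≠ 0 := by exact_mod_cast (W i k).den_nz
    have h3 : (m : ℚ) ≠ 0 := by
      intro h0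
      rw [hm] at hqQ
      push_cast at hqQ
      rw [h0, mul_zero] at hqQ
      exact lt_irrefl _ hqQ
    rw [hm]
    push_cast
    rw [mul_div_mul_right _ _ h3]
    exact (Rat.num_div_den _).symm
  choose ν hν using hint
  choose ι hι using fun k => h (k + k0) (Nat.le_add_left k0 k)
  obtain ⟨C', hC'⟩ : ∃ C' : ℕ, C' = ∑ i, C i + 1 := ⟨_, rfl⟩
  refine ⟨q, hq0, hq.le, q * C' ^ (k0 + 1), 14, fun k => ν (ι k) (k + k0), ?_, ?_, ?_⟩
  · intro k
    have h1 : ((ν (ι k) (k + k0) : ℤ) : ℚ) = W (ι k) (k + k0) * q := by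
      rw [hν]
      field_simp
    have h2 : (C (ι k) : ℚ) ≤ C' := by
      have : C (ι k) ≤ C' := by
        rw [hC']
        have := Finset.single_le_sum (f := C) (fun i _ => Nat.zero_le _) (Finset.mem_univ (ι k))
        omega
      exact_mod_cast this
    have hC1 : (1 : ℚ) ≤ C' := by
      have : 1 ≤ C' := by omega
      exact_mod_cast this
    have hq1 : (1 : ℚ) ≤ q := by exact_mod_cast hq0
    have h3 : |((ν (ι k) (k + k0) : ℤ) : ℚ)| ≤ ((q : ℚ) * C' ^ (k0 + 1)) ^ (k + 1) := by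
      rw [h1, abs_mul, abs_of_pos hqQ, mul_pow, ← pow_mul]
      have i1 : |W (ι k) (k + k0)| ≤ (C' : ℚ) ^ ((k0 + 1) * (k + 1)) := by
        refine (hC (ι k) (k + k0)).trans ?_
        refine (pow_le_pow_left₀ (Nat.cast_nonneg _) h2 _).trans ?_
        apply pow_le_pow_right₀ hC1
        nlinarith [Nat.zero_le (k0 * k)]
      have i2 : (q : ℚ) ≤ (q : ℚ) ^ (k + 1) := by
        calc (q : ℚ) = (q : ℚ) ^ 1 := (pow_one _).symm
          _ ≤ _ := pow_le_pow_right₀ hq1 (by omega)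
      calc |W (ι k) (k + k0)| * q ≤ (C' : ℚ) ^ ((k0 + 1) * (k + 1)) * (q : ℚ) ^ (k + 1) :=
            mul_le_mul i1 i2 hqQ.le (by positivity)
        _ = _ := mul_comm _ _
    exact_mod_cast h3
  · intro v M
    have hsub : (Finset.range M).filter (fun k => ν (ι k) (k + k0) = v) ⊆
        Finset.univ.biUnion (fun i => (Finset.range M).filter (fun k => W i (k + k0) = v / q)) := by
      intro k hk
      rw [Finset.mem_filter] at hk
      rw [Finset.mem_biUnion]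
      refine ⟨ι k, Finset.mem_univ _, ?_⟩
      rw [Finset.mem_filter]
      refine ⟨hk.1, ?_⟩
      rw [hν, hk.2]
    refine (Finset.card_le_card hsub).trans (Finset.card_biUnion_le.trans ?_)
    have h1 : ∀ i ∈ (Finset.univ : Finset (Fin 7)),
        ((Finset.range M).filter (fun k => W i (k + k0) = v / q)).card ≤ 2 := by
      intro i _
      refine le_trans ?_ ((hW i).2.2.1 (v / q) (M + k0))
      apply Finset.card_le_card_of_injOn (fun k => k + k0)
      · intro k hk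
        rw [Finset.mem_coe, Finset.mem_filter, Finset.mem_range] at hk ⊢
        exact ⟨Nat.add_lt_add_right hk.1 k0, hk.2⟩
      · intro i _ j _ hij
        exact Nat.add_right_cancel hij
    refine (Finset.sum_le_sum h1).trans ?_
    simp
  · intro k
    dsimp only
    rw [← hν]
    exact hι k

/-- The denominator of a quadratic polynomial at an integer. -/
def dn (A B C : ℚ) : ℕ := A.den * B.den * C.den

theorem dn_pos (A B C : ℚ) : 0 < dn A B C :=
  Nat.mul_pos (Nat.mul_pos A.den_pos B.den_pos) C.den_pos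

theorem dn_dvd (A B C : ℚ) (x : ℤ) : (A * (x : ℚ) ^ 2 + B * x + C).den ∣ dn A B C := by
  unfold dn
  refine (Rat.add_den_dvd _ _).trans (mul_dvd_mul ?_ dvd_rfl)
  refine (Rat.add_den_dvd _ _).trans (mul_dvd_mul ?_ ?_)
  · refine (Rat.mul_den_dvd _ _).trans ?_
    have : (((x : ℚ)) ^ 2).den = 1 := by
      have h : ((x : ℚ)) ^ 2 = ((x ^ 2 : ℤ) : ℚ) := by push_cast; rfl
      rw [h, Rat.den_intCast]
    rw [this, mul_one]
  · refine (Rat.mul_den_dvd _ _).trans ?_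
    rw [Rat.den_intCast, mul_one]

theorem dn_NB {ι : Type*} {H : ι → ℕ} {A B C : ι → ℚ} (hA : PB H A) (hB : PB H B) (hC : PB H C) :
    NB H (fun i => dn (A i) (B i) (C i)) := (hA.den.mul hB.den).mul hC.den

/-- The product of the seven denominators. -/
def DD (b c u : ℚ) : ℕ :=
  let m : ℚ := -fc b c u / (3 * u)
  let q : ℚ := m + (3 * u ^ 2 + b)
  let β : ℚ := q * (m.den : ℚ) / 2
  dn (-(1 / (4 * fc b c u)) * q ^ 2) (-(m / 2) / fc b c u * q)
      (((m + b - u ^ 2) * (b - u ^ 2 - m) / 4 - 2 * u * c) / fc b c u) *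
    dn (-(1 / (4 * fc b c u)) * q ^ 2) ((m / 2) / fc b c u * q)
      (((-m + b - u ^ 2) * (b - u ^ 2 + m) / 4 - 2 * u * c) / fc b c u) *
    dn (-(1 / fc b c (-2 * u)) * β ^ 4) ((u ^ 2 - (b - 5 * u ^ 2)) / fc b c (-2 * u) * β ^ 2)
      (((b - 5 * u ^ 2) * u ^ 2 + 4 * u * c) / fc b c (-2 * u)) *
    dn 0 β u * dn 0 (-β) u * dn 0 β (-(2 * u)) * dn 0 (-β) (-(2 * u))

theorem DD_NB {ι : Type*} {H : ι → ℕ} (hH : ∀ i, 2 ≤ H i) {b c u : ι → ℚ} (hb : PB H b) (hc : PB H c)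
    (hu : PB H u) : NB H (fun i => DD (b i) (c i) (u i)) := by
  have K := fun x : ℚ => PB.const hH x
  have hfc : ∀ {v : ι → ℚ}, PB H v → PB H (fun i => fc (b i) (c i) (v i)) := fun hv =>
    ((hv.pow hH 3).add hH (hb.mul hH hv)).add hH hc
  have hF := hfc hu
  have hF2 : PB H (fun i => fc (b i) (c i) (-2 * u i)) := hfc ((K (-2)).mul hH hu)
  have hm : PB H (fun i => -fc (b i) (c i) (u i) / (3 * u i)) := hF.neg.div hH ((K 3).mul hH hu)
  have hu2 : PB H (fun i => u i ^ 2) := hu.pow hH 2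
  have hq : PB H (fun i => -fc (b i) (c i) (u i) / (3 * u i) + (3 * u i ^ 2 + b i)) :=
    hm.add hH (((K 3).mul hH hu2).add hH hb)
  have hmd : PB H (fun i => (((-fc (b i) (c i) (u i) / (3 * u i)).den : ℕ) : ℚ)) := by
    have h := hm.den
    obtain ⟨L, hL⟩ := h
    refine (PB.iff hH).2 ⟨⟨L, fun i => ?_⟩, ?_⟩
    · simpa using hL i
    · simpa using NB.const hH 1
  have hβ : PB H (fun i => (-fc (b i) (c i) (u i) / (3 * u i) + (3 * u i ^ 2 + b i)) *
      (((-fc (b i) (c i) (u i) / (3 * u i)).den : ℕ) : ℚ) / 2) := (hq.mul hH hmd).div hH (K 2)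
  have hα : PB H (fun i => -(1 / (4 * fc (b i) (c i) (u i)))) :=
    ((K 1).div hH ((K 4).mul hH hF)).neg
  have h2uc : PB H (fun i => 2 * u i * c i) := ((K 2).mul hH hu).mul hH hc
  have h4uc : PB H (fun i => 4 * u i * c i) := ((K 4).mul hH hu).mul hH hc
  have h5 : PB H (fun i => b i - 5 * u i ^ 2) := hb.sub hH ((K 5).mul hH hu2)
  have h2u : PB H (fun i => -(2 * u i)) := ((K 2).mul hH hu).neg
  have e1 := dn_NB (hα.mul hH (hq.pow hH 2)) (((hm.div hH (K 2)).neg.div hH hF).mul hH hq)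
    (((((hm.add hH hb).sub hH hu2).mul hH ((hb.sub hH hu2).sub hH hm)).div hH (K 4)).sub hH h2uc |>.div hH hF)
  have e2 := dn_NB (hα.mul hH (hq.pow hH 2)) (((hm.div hH (K 2)).div hH hF).mul hH hq)
    (((((hm.neg.add hH hb).sub hH hu2).mul hH ((hb.sub hH hu2).add hH hm)).div hH (K 4)).sub hH h2uc |>.div hH hF)
  have e3 := dn_NB (((K 1).div hH hF2).neg.mul hH (hβ.pow hH 4))
    (((hu2.sub hH h5).div hH hF2).mul hH (hβ.pow hH 2)) (((h5.mul hH hu2).add hH h4uc).div hH hF2)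
  have e4 := dn_NB (K 0) hβ hu
  have e5 := dn_NB (K 0) hβ.neg hu
  have e6 := dn_NB (K 0) hβ h2u
  have e7 := dn_NB (K 0) hβ.neg h2u
  exact (((((e1.mul e2).mul e3).mul e4).mul e5).mul e6).mul e7

/-- The orbit of `u`, `r = -2u`, with the denominator. -/
theorem orbit_uB {g : ℚ → ℤ} (hg : GMul g) {b c : ℚ} (u : ℚ) (hu : u ≠ 0)
    (hf2 : fc b c (-2 * u) ≠ 0) (hm : 0 < -fc b c u / (3 * u))
    (hns : ¬ IsSquare (-fc b c u / (3 * u))) : SeqB g b c (g (-1) * g (fc b c (-2 * u))) (DD b c u) := by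
  obtain ⟨m, hmd⟩ : ∃ m, m = -fc b c u / (3 * u) := ⟨_, rfl⟩
  rw [← hmd] at hm hns
  have hfu : fc b c u ≠ 0 := by
    intro h0
    rw [h0] at hmd
    simp at hmd
    exact hm.ne' hmd
  have hkap : m + (3 * u ^ 2 + b) ≠ 0 := by
    intro h0
    apply hf2
    have h1 : m * (3 * u) = -fc b c u := by
      rw [hmd]
      field_simp
    unfold fc at h1 ⊢
    have h2 : m = -(3 * u ^ 2 + b) := by linarith
    rw [h2] at h1
    linear_combination h1
  obtain ⟨q, hq⟩ : ∃ q, q = m + (3 * u ^ 2 + b) := ⟨_, rfl⟩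
  rw [← hq] at hkap
  -- the parametrisation
  have hden : (m.den : ℤ) ≠ 0 := by exact_mod_cast m.den_nz
  have hdenq : (m.den : ℚ) ≠ 0 := by exact_mod_cast m.den_nz
  have hnum : 0 < m.num := Rat.num_pos.2 hm
  have hd : 0 < m.num * m.den := mul_pos hnum (by exact_mod_cast m.den_pos)
  have hmm : m = (m.num : ℚ) / m.den := (Rat.num_div_den m).symm
  have hdns : ¬ IsSquare (m.num * m.den) := by
    rintro ⟨z, hz⟩
    apply hns
    refine ⟨(z : ℚ) / m.den, ?_⟩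
    have hz' : (m.num : ℚ) * m.den = z * z := by exact_mod_cast hz
    have : m = ((m.num : ℚ) * m.den) / (m.den * m.den) := by
      conv_lhs => rw [hmm]
      field_simp
    calc m = ((m.num : ℚ) * m.den) / (m.den * m.den) := this
      _ = (z * z : ℚ) / (m.den * m.den) := by rw [hz']
      _ = _ := by rw [div_mul_div_comm]
  obtain ⟨a, e, ha, he, hp⟩ := pell_large _ hd hdns 2
  have ha2 : 2 ≤ a := by exact_mod_cast ha
  have he1 : 1 ≤ e := by
    have : (2 : ℤ) ≤ e := by exact_mod_cast he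
    linarith
  have ha1 : 1 ≤ a := by linarith
  obtain ⟨x, hx⟩ : ∃ x : ℕ → ℤ, x = fun k => (orb (m.num * m.den) a e a e k).1 := ⟨_, rfl⟩
  obtain ⟨y, hy⟩ : ∃ y : ℕ → ℤ, y = fun k => (orb (m.num * m.den) a e a e k).2 := ⟨_, rfl⟩
  have hxy : ∀ k, x k ^ 2 - m.num * m.den * y k ^ 2 = 1 := by
    intro k
    rw [hx, hy, ← hp]
    exact (orb_facts (m.num * m.den) a e a e hd ha2 he1 hp ha1 he1 k).2.2.1
  obtain ⟨β, hβ⟩ : ∃ β : ℚ, β = q * (m.den : ℚ) / 2 := ⟨_, rfl⟩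
  obtain ⟨XX, hXX⟩ : ∃ XX : ℕ → ℚ, XX = fun k => q * (x k : ℚ) := ⟨_, rfl⟩
  obtain ⟨VV, hVV⟩ : ∃ VV : ℕ → ℚ, VV = fun k => β * (y k : ℚ) := ⟨_, rfl⟩
  have bX : Base XX := by
    rw [hXX, hx]
    exact (base_orb hd ha2 he1 hp ha1 he1 hkap).1
  have hqm : β ≠ 0 := by
    rw [hβ]
    exact div_ne_zero (mul_ne_zero hkap hdenq) (by norm_num)
  have bV : Base VV := by
    rw [hVV, hy]
    exact (base_orb hd ha2 he1 hp ha1 he1 hqm).2
  have bV2 : Base (fun k => VV k ^ 2) := by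
    obtain ⟨v1, v2, v3, v4⟩ := bV
    refine ⟨v1.pow 2, ?_, ?_, ?_⟩
    · have := growth_quad v2 1 0 0
      simpa using this
    · intro i j hij
      have h2 : VV i ^ 2 = VV j ^ 2 := hij
      rw [hVV] at h2
      dsimp only at h2
      rw [mul_pow, mul_pow] at h2
      have h3 : (y i : ℚ) ^ 2 = (y j : ℚ) ^ 2 := mul_left_cancel₀ (pow_ne_zero 2 hqm) h2
      have h4 : y i ^ 2 = y j ^ 2 := by exact_mod_cast h3
      have hyi : 1 ≤ y i := by
        rw [hy]
        exact he1.trans (orb_facts (m.num * m.den) a e a e hd ha2 he1 hp ha1 he1 i).2.1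
      have hyj : 1 ≤ y j := by
        rw [hy]
        exact he1.trans (orb_facts (m.num * m.den) a e a e hd ha2 he1 hp ha1 he1 j).2.1
      have h5 : y i = y j := by
        have := abs_eq_abs.2 (sq_eq_sq_iff_eq_or_eq_neg.1 h4)
        rwa [abs_of_nonneg (by linarith), abs_of_nonneg (by linarith)] at this
      apply v3
      rw [hVV]
      dsimp only
      rw [h5]
    · intro R
      obtain ⟨k0, hk0⟩ := v4 (|R| + 1)
      refine ⟨k0, fun k hk => ?_⟩
      have h1 := hk0 k hk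
      have h2 := abs_nonneg R
      have h3 := le_abs_self R
      rw [abs_pow]
      nlinarith
  -- the seven sequences
  obtain ⟨Y1, hY1⟩ : ∃ Y1 : ℕ → ℚ, Y1 = fun k =>
    ((XX k + m + b - u ^ 2) / 2 * (b - u ^ 2 - (XX k + m + b - u ^ 2) / 2) - 2 * u * c) / fc b c u := ⟨_, rfl⟩
  obtain ⟨Y2, hY2⟩ : ∃ Y2 : ℕ → ℚ, Y2 = fun k =>
    (((XX k + m + b - u ^ 2) / 2 - m) * (b - u ^ 2 - (XX k + m + b - u ^ 2) / 2 + m) - 2 * u * c) /
      fc b c u := ⟨_, rfl⟩
  obtain ⟨Y3, hY3⟩ : ∃ Y3 : ℕ → ℚ, Y3 = fun k =>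
    ((b - 5 * u ^ 2 + VV k ^ 2) * (u ^ 2 - VV k ^ 2) + 4 * u * c) / fc b c (-2 * u) := ⟨_, rfl⟩
  have n1 : Nice Y1 := by
    have h := bX.quad (α := -(1 / (4 * fc b c u))) (neg_ne_zero.2 (one_div_ne_zero
      (mul_ne_zero (by norm_num) hfu))) (-(m / 2) / fc b c u)
      (((m + b - u ^ 2) * (b - u ^ 2 - m) / 4 - 2 * u * c) / fc b c u)
    convert h using 1
    rw [hY1]
    funext k
    field_simp
    ring
  have d1 : ∀ k, (Y1 k).den ∣ dn (-(1 / (4 * fc b c u)) * q ^ 2) (-(m / 2) / fc b c u * q)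
      (((m + b - u ^ 2) * (b - u ^ 2 - m) / 4 - 2 * u * c) / fc b c u) := by
    intro k
    have h := dn_dvd (-(1 / (4 * fc b c u)) * q ^ 2) (-(m / 2) / fc b c u * q)
      (((m + b - u ^ 2) * (b - u ^ 2 - m) / 4 - 2 * u * c) / fc b c u) (x k)
    convert h using 2
    rw [hY1, hXX]
    field_simp
    ring
  have n2 : Nice Y2 := by
    have h := bX.quad (α := -(1 / (4 * fc b c u))) (neg_ne_zero.2 (one_div_ne_zero
      (mul_ne_zero (by norm_num) hfu))) ((m / 2) / fc b c u)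
      (((-m + b - u ^ 2) * (b - u ^ 2 + m) / 4 - 2 * u * c) / fc b c u)
    convert h using 1
    rw [hY2]
    funext k
    field_simp
    ring
  have d2 : ∀ k, (Y2 k).den ∣ dn (-(1 / (4 * fc b c u)) * q ^ 2) ((m / 2) / fc b c u * q)
      (((-m + b - u ^ 2) * (b - u ^ 2 + m) / 4 - 2 * u * c) / fc b c u) := by
    intro k
    have h := dn_dvd (-(1 / (4 * fc b c u)) * q ^ 2) ((m / 2) / fc b c u * q)
      (((-m + b - u ^ 2) * (b - u ^ 2 + m) / 4 - 2 * u * c) / fc b c u) (x k)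
    convert h using 2
    rw [hY2, hXX]
    field_simp
    ring
  have n3 : Nice Y3 := by
    have h := bV2.quad (α := -(1 / fc b c (-2 * u))) (neg_ne_zero.2 (one_div_ne_zero hf2))
      ((u ^ 2 - (b - 5 * u ^ 2)) / fc b c (-2 * u))
      (((b - 5 * u ^ 2) * u ^ 2 + 4 * u * c) / fc b c (-2 * u))
    convert h using 1
    rw [hY3]
    funext k
    field_simp
    ring
  have d3 : ∀ k, (Y3 k).den ∣ dn (-(1 / fc b c (-2 * u)) * β ^ 4)
      ((u ^ 2 - (b - 5 * u ^ 2)) / fc b c (-2 * u) * β ^ 2)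
      (((b - 5 * u ^ 2) * u ^ 2 + 4 * u * c) / fc b c (-2 * u)) := by
    intro k
    have h := dn_dvd (-(1 / fc b c (-2 * u)) * β ^ 4) ((u ^ 2 - (b - 5 * u ^ 2)) / fc b c (-2 * u) * β ^ 2)
      (((b - 5 * u ^ 2) * u ^ 2 + 4 * u * c) / fc b c (-2 * u)) (y k ^ 2)
    convert h using 2
    rw [hY3, hVV]
    push_cast
    field_simp
    ring
  have n4 : Nice (fun k => u + VV k) := by
    have h := bV.lin (β := 1) one_ne_zero u
    convert h using 1
    funext k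
    ring
  have d4 : ∀ k, (u + VV k).den ∣ dn 0 β u := by
    intro k
    have h := dn_dvd 0 β u (y k)
    convert h using 2
    rw [hVV]
    ring
  have n5 : Nice (fun k => u - VV k) := by
    have h := bV.lin (β := -1) (by norm_num) u
    convert h using 1
    funext k
    ring
  have d5 : ∀ k, (u - VV k).den ∣ dn 0 (-β) u := by
    intro k
    have h := dn_dvd 0 (-β) u (y k)
    convert h using 2
    rw [hVV]
    ring
  have n6 : Nice (fun k => VV k - 2 * u) := by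
    have h := bV.lin (β := 1) one_ne_zero (-(2 * u))
    convert h using 1
    funext k
    ring
  have d6 : ∀ k, (VV k - 2 * u).den ∣ dn 0 β (-(2 * u)) := by
    intro k
    have h := dn_dvd 0 β (-(2 * u)) (y k)
    convert h using 2
    rw [hVV]
    ring
  have n7 : Nice (fun k => -VV k - 2 * u) := by
    have h := bV.lin (β := -1) (by norm_num) (-(2 * u))
    convert h using 1
    funext k
    ring
  have d7 : ∀ k, (-VV k - 2 * u).den ∣ dn 0 (-β) (-(2 * u)) := by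
    intro k
    have h := dn_dvd 0 (-β) (-(2 * u)) (y k)
    convert h using 2
    rw [hVV]
    ring
  obtain ⟨W, hW⟩ : ∃ W : Fin 7 → ℕ → ℚ, W = ![Y1, Y2, Y3, fun k => u + VV k, fun k => u - VV k,
    fun k => VV k - 2 * u, fun k => -VV k - 2 * u] := ⟨_, rfl⟩
  obtain ⟨N, hN⟩ : ∃ N : Fin 7 → ℕ, N = ![dn (-(1 / (4 * fc b c u)) * q ^ 2) (-(m / 2) / fc b c u * q)
      (((m + b - u ^ 2) * (b - u ^ 2 - m) / 4 - 2 * u * c) / fc b c u),
    dn (-(1 / (4 * fc b c u)) * q ^ 2) ((m / 2) / fc b c u * q)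
      (((-m + b - u ^ 2) * (b - u ^ 2 + m) / 4 - 2 * u * c) / fc b c u),
    dn (-(1 / fc b c (-2 * u)) * β ^ 4) ((u ^ 2 - (b - 5 * u ^ 2)) / fc b c (-2 * u) * β ^ 2)
      (((b - 5 * u ^ 2) * u ^ 2 + 4 * u * c) / fc b c (-2 * u)),
    dn 0 β u, dn 0 (-β) u, dn 0 β (-(2 * u)), dn 0 (-β) (-(2 * u))] := ⟨_, rfl⟩
  have w0 : W 0 = Y1 := by rw [hW]; rfl
  have w1 : W 1 = Y2 := by rw [hW]; rfl
  have w2 : W 2 = Y3 := by rw [hW]; rfl
  have w3 : W 3 = fun k => u + VV k := by rw [hW]; rfl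
  have w4 : W 4 = fun k => u - VV k := by rw [hW]; rfl
  have w5 : W 5 = fun k => VV k - 2 * u := by rw [hW]; rfl
  have w6 : W 6 = fun k => -VV k - 2 * u := by rw [hW]; rfl
  have hnice : ∀ i, Nice (W i) := by
    intro i
    fin_cases i
    · exact w0 ▸ n1
    · exact w1 ▸ n2
    · exact w2 ▸ n3
    · exact w3 ▸ n4
    · exact w4 ▸ n5
    · exact w5 ▸ n6
    · exact w6 ▸ n7
  have hNpos : ∀ i, 0 < N i := by
    intro i
    rw [hN]
    fin_cases i <;> exact dn_pos _ _ _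
  have hWden : ∀ i k, (W i k).den ∣ N i := by
    intro i k
    rw [hN, hW]
    fin_cases i
    · exact d1 k
    · exact d2 k
    · exact d3 k
    · exact d4 k
    · exact d5 k
    · exact d6 k
    · exact d7 k
  have hprod : ∏ i, N i = DD b c u := by
    rw [Fin.prod_univ_seven, hN]
    unfold DD
    simp only [← hmd, ← hq, ← hβ]
    rfl
  rw [← hprod]
  choose κ0 hκ0 using fun i => (hnice i).2.2.2 (1 + |b| + |c|)
  apply pickB W hnice N hNpos hWden (∑ i, κ0 i)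
  intro k hk
  have hne : ∀ i, fc b c (W i k) ≠ 0 := fun i =>
    fc_ne_large b c (hκ0 i k ((Finset.single_le_sum (f := κ0) (fun _ _ => Nat.zero_le _)
      (Finset.mem_univ i)).trans hk))
  have hX : XX k ^ 2 - 4 * m * VV k ^ 2 = (m + (3 * u ^ 2 + b)) ^ 2 := by
    rw [← hq, hXX, hVV, hβ]
    dsimp only
    have hxy' : (x k : ℚ) ^ 2 - (m.num : ℚ) * m.den * (y k : ℚ) ^ 2 = 1 := by exact_mod_cast hxy k
    have e1 : m * m.den = m.num := by
      rw [Rat.mul_den_eq_num]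
    have e2 : (q * (x k : ℚ)) ^ 2 - 4 * m * (q * m.den / 2 * (y k : ℚ)) ^ 2 =
        q ^ 2 * ((x k : ℚ) ^ 2 - (m * m.den) * m.den * (y k : ℚ) ^ 2) := by ring
    rw [e2, e1, hxy', mul_one]
  have key := seven_term b c u (VV k) (XX k) (by norm_num) (by norm_num) hu hfu hf2 m hmd hX
    ((XX k + m + b - u ^ 2) / 2) (Y1 k) (Y2 k) (Y3 k) rfl (by rw [hY1]) (by rw [hY2]) (by rw [hY3])
  have G := congrArg g key
  have hm0 : m ≠ 0 := hm.ne'
  have p1 : g (fc b c u ^ 6) = 1 := by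
    rw [show fc b c u ^ 6 = (fc b c u ^ 3) ^ 2 by ring]
    exact hg.pow_two (pow_ne_zero 3 hfu)
  have p2 : g (-m ^ 6) = g (-1) := by
    rw [show -m ^ 6 = -1 * (m ^ 3) ^ 2 by ring, hg.mul, hg.pow_two (pow_ne_zero 3 hm0), mul_one]
  have p3 : g (fc b c (-2 * u) ^ 3) = g (fc b c (-2 * u)) := by
    rw [show fc b c (-2 * u) ^ 3 = fc b c (-2 * u) * fc b c (-2 * u) ^ 2 by ring, hg.mul,
      hg.pow_two hf2, mul_one]
  rw [hg.mul, hg.mul, hg.mul, hg.mul, hg.mul, hg.mul, hg.mul, hg.mul, p1, p2, p3, one_mul] at G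
  have hs2 : (g (-1) * g (fc b c (-2 * u))) * (g (-1) * g (fc b c (-2 * u))) = 1 := by
    calc _ = (g (-1) * g (-1)) * (g (fc b c (-2 * u)) * g (fc b c (-2 * u))) := by ring
      _ = 1 := by rw [hg.sq _ (by norm_num), hg.sq _ hf2, one_mul]
  have q0 := hne 0
  have q1 := hne 1
  have q2 := hne 2
  have q3 := hne 3
  have q4 := hne 4
  have q5 := hne 5
  have q6 := hne 6
  rw [w0] at q0
  rw [w1] at q1
  rw [w2] at q2
  rw [w3] at q3
  rw [w4] at q4
  rw [w5] at q5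
  rw [w6] at q6
  rcases seven_sign (hg.sq _ q0) (hg.sq _ q1) (hg.sq _ q2) (hg.sq _ q3) (hg.sq _ q4) (hg.sq _ q5)
    (hg.sq _ q6) hs2 (by rw [G]; ring) with h | h | h | h | h | h | h
  · exact ⟨0, by rw [w0]; exact h⟩
  · exact ⟨1, by rw [w1]; exact h⟩
  · exact ⟨2, by rw [w2]; exact h⟩
  · exact ⟨3, by rw [w3]; exact h⟩
  · exact ⟨4, by rw [w4]; exact h⟩
  · exact ⟨5, by rw [w5]; exact h⟩
  · exact ⟨6, by rw [w6]; exact h⟩

/-- The orbits have polynomial denominators. -/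
theorem orbit_PB {ι : Type*} {H : ι → ℕ} (hH : ∀ i, 2 ≤ H i) {b c r : ι → ℚ} (hb : PB H b) (hc : PB H c)
    (hr : PB H r) : ∃ K : ℕ, ∀ i, Adm (b i) (c i) (r i) → ∀ g : ℚ → ℤ, GMul g →
      SeqB g (b i) (c i) (g (-1) * g (fc (b i) (c i) (r i))) (H i ^ K) := by
  have hu : PB H (fun i => -(r i) / 2) := hr.neg.div hH (PB.const hH 2)
  obtain ⟨K, hK⟩ := DD_NB hH hb hc hu
  refine ⟨K, fun i hA g hg => ?_⟩
  have hu0 : -(r i) / 2 ≠ 0 := by
    intro h0
    apply hA.ne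
    linarith
  have e1 : -2 * (-(r i) / 2) = r i := by ring
  have hr0 := hA.ne
  have e2 : -fc (b i) (c i) (-(r i) / 2) / (3 * (-(r i) / 2)) =
      (8 * c i - 4 * b i * r i - r i ^ 3) / (12 * r i) := by
    unfold fc
    field_simp
    ring
  have := orbit_uB hg (b := b i) (c := c i) (-(r i) / 2) hu0 (by rw [e1]; exact hA.val)
    (by rw [e2]; exact hA.pos) (by rw [e2]; exact hA.nonsq)
  rw [e1] at this
  exact this.mono (hK i)

end Pool.Agent.Lib.MP_648c71_nt.AllCub
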