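import Mathlib

/-!
# A solution of the Pell equation of explicit size
-/

set_option autoImplicit false

namespace Pool.Agent.Lib.MP_648c71_nt.AllCub

/-- a good approximation of `√d` -/
def Apx (d : ℤ) (z : ℤ × ℤ) : Prop :=
  0 < z.2 ∧ |(z.2 : ℝ) * √(d : ℝ) - z.1| * z.2 < 1

theorem sqrt_le_self' {d : ℤ} (hd : 1 ≤ d) : √(d : ℝ) ≤ d := by
  have h1 : (1 : ℝ) ≤ d := by exact_mod_cast hd
  rw [Real.sqrt_le_left (by linarith)]
  nlinarith

theorem Apx.err_lt {d : ℤ} {z : ℤ × ℤ} (hz : Apx d z) : |(z.2 : ℝ) * √(d : ℝ) - z.1| < 1 := by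
  have h1 : (1 : ℝ) ≤ z.2 := by exact_mod_cast hz.1
  have h2 := hz.2
  have h3 := abs_nonneg ((z.2 : ℝ) * √(d : ℝ) - z.1)
  nlinarith

theorem Apx.p_le {d : ℤ} (hd : 1 ≤ d) {z : ℤ × ℤ} (hz : Apx d z) : |z.1| ≤ (d + 1) * z.2 := by
  have h1 : (1 : ℝ) ≤ z.2 := by exact_mod_cast hz.1
  have h2 := hz.err_lt
  have h3 := sqrt_le_self' hd
  have h4 : |(z.1 : ℝ)| ≤ |(z.2 : ℝ) * √(d : ℝ) - z.1| + |(z.2 : ℝ) * √(d : ℝ)| := by
    have := abs_sub_abs_le_abs_sub ((z.1 : ℝ)) ((z.2 : ℝ) * √(d : ℝ))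
    rw [abs_sub_comm ((z.1 : ℝ))] at this
    linarith
  have h5 : |(z.2 : ℝ) * √(d : ℝ)| ≤ z.2 * d := by
    rw [abs_of_nonneg (by positivity)]
    exact mul_le_mul_of_nonneg_left h3 (by linarith)
  have h6 : |(z.1 : ℝ)| ≤ (d + 1) * z.2 := by nlinarith
  exact_mod_cast h6

theorem Apx.norm_le {d : ℤ} (hd : 1 ≤ d) {z : ℤ × ℤ} (hz : Apx d z) :
    |z.1 ^ 2 - d * z.2 ^ 2| ≤ 2 * d + 1 := by
  have h1 : (1 : ℝ) ≤ z.2 := by exact_mod_cast hz.1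
  have hdR : (1 : ℝ) ≤ d := by exact_mod_cast hd
  have h2 := hz.err_lt
  have h2' := hz.2
  have h3 := sqrt_le_self' hd
  have hs : √(d : ℝ) * √(d : ℝ) = d := Real.mul_self_sqrt (by linarith)
  have hs0 : 0 ≤ √(d : ℝ) := Real.sqrt_nonneg _
  obtain ⟨E, hE⟩ : ∃ E, E = |(z.2 : ℝ) * √(d : ℝ) - z.1| := ⟨_, rfl⟩
  have hE0 : 0 ≤ E := by rw [hE]; exact abs_nonneg _
  rw [← hE] at h2 h2'
  have e1 : |(z.1 : ℝ) ^ 2 - d * z.2 ^ 2| = E * |(z.1 : ℝ) + z.2 * √(d : ℝ)| := by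
    have e0 : ((z.2 : ℝ) * √(d : ℝ) - z.1) * ((z.1 : ℝ) + z.2 * √(d : ℝ)) = -((z.1 : ℝ) ^ 2 - d * z.2 ^ 2) := by
      linear_combination (z.2 : ℝ) ^ 2 * hs
    rw [hE, ← abs_mul, e0, abs_neg]
  have e2 : |(z.1 : ℝ) + z.2 * √(d : ℝ)| ≤ 2 * (z.2 * √(d : ℝ)) + E := by
    have : (z.1 : ℝ) + z.2 * √(d : ℝ) = 2 * (z.2 * √(d : ℝ)) - ((z.2 : ℝ) * √(d : ℝ) - z.1) := by ring
    rw [this]
    refine (abs_sub _ _).trans ?_
    rw [← hE, abs_of_nonneg (by positivity)]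
  have e3 : |(z.1 : ℝ) ^ 2 - d * z.2 ^ 2| ≤ 2 * d + 1 := by
    rw [e1]
    have := mul_le_mul_of_nonneg_left e2 hE0
    nlinarith [mul_nonneg hE0 hs0]
  exact_mod_cast e3

theorem nonsq_norm {d : ℤ} (hns : ¬ IsSquare d) {p q : ℤ} (hq : 0 < q) : p ^ 2 - d * q ^ 2 ≠ 0 := by
  intro h
  have h1 : p ^ 2 = d * q ^ 2 := by linarith
  have h2 : q ∣ p := by
    rw [← Int.pow_dvd_pow_iff (n := 2) two_ne_zero]
    exact ⟨d, by rw [h1]; ring⟩
  obtain ⟨r, hr⟩ := h2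
  apply hns
  refine ⟨r, ?_⟩
  have h3 : q ^ 2 * d = q ^ 2 * (r * r) := by
    rw [hr] at h1
    linear_combination -h1
  exact mul_left_cancel₀ (pow_ne_zero 2 hq.ne') h3

/-- the next approximation -/
theorem Apx.next {d : ℤ} (hd : 1 ≤ d) (hns : ¬ IsSquare d) {z : ℤ × ℤ} (hz : Apx d z) :
    ∃ z' : ℤ × ℤ, Apx d z' ∧ z'.2 ≤ (2 * d + 1) * z.2 ∧
      |(z'.2 : ℝ) * √(d : ℝ) - z'.1| < |(z.2 : ℝ) * √(d : ℝ) - z.1| := by
  have hz0 := hz.1
  have hQ : 0 < (2 * d + 1) * z.2 := by positivity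
  obtain ⟨n, hn⟩ : ∃ n : ℕ, (n : ℤ) = (2 * d + 1) * z.2 := ⟨((2 * d + 1) * z.2).toNat, Int.toNat_of_nonneg hQ.le⟩
  have hn0 : 0 < n := by
    have : (0 : ℤ) < n := by rw [hn]; exact hQ
    exact_mod_cast this
  obtain ⟨j, k, hk0, hkn, hjk⟩ := Real.exists_int_int_abs_mul_sub_le (√(d : ℝ)) hn0
  have hnR : (0 : ℝ) < (n : ℝ) + 1 := by positivity
  have hk1 : (0 : ℝ) < k := by exact_mod_cast hk0
  have hkn' : (k : ℝ) ≤ n := by exact_mod_cast hkn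
  refine ⟨(j, k), ⟨hk0, ?_⟩, by rw [← hn]; exact hkn, ?_⟩
  · refine lt_of_le_of_lt (mul_le_mul_of_nonneg_right hjk hk1.le) ?_
    rw [one_div, inv_mul_lt_iff₀ hnR]
    linarith
  · refine lt_of_le_of_lt hjk ?_
    have h1 : (1 : ℝ) ≤ z.2 := by exact_mod_cast hz0
    have hdR : (1 : ℝ) ≤ d := by exact_mod_cast hd
    have h3 := sqrt_le_self' hd
    have hs : √(d : ℝ) * √(d : ℝ) = d := Real.mul_self_sqrt (by linarith)
    obtain ⟨E, hE⟩ : ∃ E, E = |(z.2 : ℝ) * √(d : ℝ) - z.1| := ⟨_, rfl⟩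
    have hE0 : 0 ≤ E := by rw [hE]; exact abs_nonneg _
    have hE1 : E < 1 := by rw [hE]; exact hz.err_lt
    rw [← hE]
    have e0 : ((z.2 : ℝ) * √(d : ℝ) - z.1) * ((z.1 : ℝ) + z.2 * √(d : ℝ)) = -((z.1 : ℝ) ^ 2 - d * z.2 ^ 2) := by
      linear_combination (z.2 : ℝ) ^ 2 * hs
    have e1 : (1 : ℝ) ≤ E * |(z.1 : ℝ) + z.2 * √(d : ℝ)| := by
      rw [hE, ← abs_mul, e0, abs_neg]
      have h5 : (1 : ℤ) ≤ |z.1 ^ 2 - d * z.2 ^ 2| := Int.one_le_abs (nonsq_norm hns hz0)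
      exact_mod_cast h5
    have e2 : |(z.1 : ℝ) + z.2 * √(d : ℝ)| ≤ 2 * (z.2 * √(d : ℝ)) + E := by
      have : (z.1 : ℝ) + z.2 * √(d : ℝ) = 2 * (z.2 * √(d : ℝ)) - ((z.2 : ℝ) * √(d : ℝ) - z.1) := by ring
      rw [this]
      refine (abs_sub _ _).trans ?_
      rw [← hE, abs_of_nonneg (by positivity)]
    have e3 : (z.2 : ℝ) * √(d : ℝ) ≤ z.2 * d := mul_le_mul_of_nonneg_left h3 (by linarith)
    have e4 : 2 * (z.2 * √(d : ℝ)) + E < (n : ℝ) + 1 := by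
      have : (n : ℝ) = (2 * d + 1) * z.2 := by exact_mod_cast hn
      rw [this]
      nlinarith
    rw [div_lt_iff₀ hnR]
    have hEpos : 0 < E := by
      rcases hE0.lt_or_eq with h | h
      · exact h
      · rw [← h, zero_mul] at e1
        linarith
    have e5 : E * |(z.1 : ℝ) + z.2 * √(d : ℝ)| < E * ((n : ℝ) + 1) :=
      mul_lt_mul_of_pos_left (lt_of_le_of_lt e2 e4) hEpos
    linarith

theorem Apx.start {d : ℤ} : ∃ z : ℤ × ℤ, Apx d z ∧ z.2 ≤ 1 := by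
  obtain ⟨j, k, hk0, hkn, hjk⟩ := Real.exists_int_int_abs_mul_sub_le (√(d : ℝ)) one_pos
  have hk1 : k = 1 := by
    have : k ≤ 1 := by exact_mod_cast hkn
    omega
  refine ⟨(j, k), ⟨hk0, ?_⟩, by exact_mod_cast hkn⟩
  refine lt_of_le_of_lt (mul_le_mul_of_nonneg_right hjk (by rw [hk1]; norm_num)) ?_
  rw [hk1]
  norm_num

/-- a sequence of approximations -/
theorem exists_apx_seq {d : ℤ} (hd : 1 ≤ d) (hns : ¬ IsSquare d) :
    ∃ z : ℕ → ℤ × ℤ, (∀ i, Apx d (z i)) ∧ (∀ i, (z i).2 ≤ (2 * d + 1) ^ i) ∧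
      StrictAnti (fun i => |((z i).2 : ℝ) * √(d : ℝ) - (z i).1|) := by
  choose! f hf using fun (z : ℤ × ℤ) (hz : Apx d z) => hz.next hd hns
  obtain ⟨z0, h0, h0'⟩ := Apx.start (d := d)
  obtain ⟨z, hz⟩ : ∃ z : ℕ → ℤ × ℤ, z = fun i => f^[i] z0 := ⟨_, rfl⟩
  have hsucc : ∀ i, z (i + 1) = f (z i) := fun i => by
    rw [hz]
    exact Function.iterate_succ_apply' f i z0
  have hA : ∀ i, Apx d (z i) := by
    intro i
    induction i with
    | zero => rw [hz]; exact h0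
    | succ i ih => rw [hsucc]; exact (hf _ ih).1
  refine ⟨z, hA, fun i => ?_, strictAnti_nat_of_succ_lt fun i => ?_⟩
  · induction i with
    | zero => rw [hz, pow_zero]; exact h0'
    | succ i ih =>
      rw [hsucc, pow_succ, mul_comm]
      exact (hf _ (hA i)).2.1.trans (mul_le_mul_of_nonneg_left ih (by positivity))
  · rw [hsucc]
    exact (hf _ (hA i)).2.2

/-- the number of classes -/
def pM (d : ℤ) : ℕ := (4 * d.toNat + 3) * ((2 * d.toNat + 2) * (2 * d.toNat + 2))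

theorem exists_pell {d : ℤ} (hd : 1 ≤ d) (hns : ¬ IsSquare d) :
    ∃ a e : ℤ, a ^ 2 - d * e ^ 2 = 1 ∧ 1 ≤ a ∧ 1 ≤ e ∧
      a ≤ 2 * (d + 1) ^ 2 * ((2 * d + 1) ^ pM d * (2 * d + 1) ^ pM d) := by
  obtain ⟨z, hA, hq, hanti⟩ := exists_apx_seq hd hns
  obtain ⟨N, hN⟩ : ∃ N : ℕ → ℤ, N = fun i => (z i).1 ^ 2 - d * (z i).2 ^ 2 := ⟨_, rfl⟩
  have hN0 : ∀ i, N i ≠ 0 := fun i => by rw [hN]; exact nonsq_norm hns (hA i).1
  have hNb : ∀ i, |N i| ≤ 2 * d + 1 := fun i => by rw [hN]; exact (hA i).norm_le hd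
  have hmod : ∀ (x : ℤ) (i : ℕ), x % N i ∈ Finset.Icc (0 : ℤ) (2 * d + 1) := by
    intro x i
    rw [Finset.mem_Icc]
    have h1 := Int.emod_nonneg x (hN0 i)
    have h2 := Int.emod_lt_abs x (hN0 i)
    exact ⟨h1, by linarith [hNb i]⟩
  obtain ⟨T, hT⟩ : ∃ T : Finset (ℤ × ℤ × ℤ), T = Finset.Icc (-(2 * d + 1)) (2 * d + 1) ×ˢ
    (Finset.Icc (0 : ℤ) (2 * d + 1) ×ˢ Finset.Icc (0 : ℤ) (2 * d + 1)) := ⟨_, rfl⟩
  have hcard : T.card = pM d := by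
    rw [hT, Finset.card_product, Finset.card_product, Int.card_Icc, Int.card_Icc]
    unfold pM
    congr 1
    · omega
    · congr 1 <;> omega
  obtain ⟨i, hi, j, hj, hij, hf⟩ := Finset.exists_ne_map_eq_of_card_lt_of_maps_to (s := Finset.range (pM d + 1))
    (t := T) (f := fun i => (N i, (z i).1 % N i, (z i).2 % N i)) (by rw [hcard, Finset.card_range]; omega) (by
      intro i _
      rw [Finset.mem_coe, hT, Finset.mem_product, Finset.mem_product]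
      refine ⟨?_, hmod _ i, hmod _ i⟩
      rw [Finset.mem_Icc]
      exact abs_le.1 (hNb i))
  rw [Finset.mem_range] at hi hj
  rw [Prod.mk.injEq, Prod.mk.injEq] at hf
  obtain ⟨hf1, hf2, hf3⟩ := hf
  rw [← hf1] at hf2 hf3
  obtain ⟨n, hn⟩ : ∃ n, n = N i := ⟨_, rfl⟩
  have hn0 : n ≠ 0 := by rw [hn]; exact hN0 i
  rw [← hn] at hf1 hf2 hf3
  obtain ⟨p, hp⟩ : ∃ p, p = (z i).1 := ⟨_, rfl⟩
  obtain ⟨q, hqq⟩ : ∃ q, q = (z i).2 := ⟨_, rfl⟩
  obtain ⟨r, hr⟩ : ∃ r, r = (z j).1 := ⟨_, rfl⟩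
  obtain ⟨t, ht⟩ : ∃ t, t = (z j).2 := ⟨_, rfl⟩
  rw [← hp, ← hr] at hf2
  rw [← hqq, ← ht] at hf3
  have k1 : p ^ 2 - d * q ^ 2 = n := by rw [hn, hN, hp, hqq]
  have k2 : r ^ 2 - d * t ^ 2 = n := by rw [hf1, hN, hr, ht]
  have hqpos : 0 < q := by rw [hqq]; exact (hA i).1
  have htpos : 0 < t := by rw [ht]; exact (hA j).1
  obtain ⟨u, hu⟩ : n ∣ p - r := Int.ModEq.dvd (show r ≡ p [ZMOD n] from hf2.symm)
  obtain ⟨v, hv⟩ : n ∣ q - t := Int.ModEq.dvd (show t ≡ q [ZMOD n] from hf3.symm)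
  have hpu : p = r + n * u := by linarith
  have hqv : q = t + n * v := by linarith
  -- the solution
  obtain ⟨x, hx⟩ : ∃ x : ℤ, x = 1 + u * r - d * v * t := ⟨_, rfl⟩
  obtain ⟨y, hy⟩ : ∃ y : ℤ, y = u * t - v * r := ⟨_, rfl⟩
  have hX : n * x = p * r - d * q * t := by
    rw [hx, hpu, hqv]
    linear_combination -k2
  have hY : n * y = p * t - r * q := by
    rw [hy, hpu, hqv]
    ring
  have hxy : x ^ 2 - d * y ^ 2 = 1 := by
    apply mul_left_cancel₀ (pow_ne_zero 2 hn0)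
    have e1 : n ^ 2 * (x ^ 2 - d * y ^ 2) = (n * x) ^ 2 - d * (n * y) ^ 2 := by ring
    rw [e1, hX, hY]
    have e2 : (p * r - d * q * t) ^ 2 - d * (p * t - r * q) ^ 2 =
        (p ^ 2 - d * q ^ 2) * (r ^ 2 - d * t ^ 2) := by ring
    rw [e2, k1, k2]
    ring
  have hy0 : y ≠ 0 := by
    intro h0
    rw [h0, mul_zero] at hY
    have e1 : p * t = r * q := by linarith
    have e2 : n * (q ^ 2 - t ^ 2) = 0 := by
      have : n * (q ^ 2 - t ^ 2) = (r ^ 2 - d * t ^ 2) * q ^ 2 - (p ^ 2 - d * q ^ 2) * t ^ 2 := by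
        rw [k1, k2]
        ring
      rw [this]
      have e3 : (p * t) ^ 2 = (r * q) ^ 2 := by rw [e1]
      linear_combination -e3
    have e3 : q ^ 2 = t ^ 2 := by
      rcases mul_eq_zero.1 e2 with h | h
      · exact absurd h hn0
      · linarith
    have e4 : q = t := by
      have := abs_eq_abs.2 (sq_eq_sq_iff_eq_or_eq_neg.1 e3)
      rwa [abs_of_pos hqpos, abs_of_pos htpos] at this
    have e5 : p = r := by
      rw [e4] at e1
      exact mul_right_cancel₀ htpos.ne' e1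
    apply hij
    apply hanti.injective
    dsimp only
    rw [← hp, ← hqq, ← hr, ← ht, e4, e5]
  refine ⟨|x|, |y|, by rw [sq_abs, sq_abs]; exact hxy, ?_, Int.one_le_abs hy0, ?_⟩
  · apply Int.one_le_abs
    intro h0
    rw [h0] at hxy
    have : 0 ≤ d * y ^ 2 := by positivity
    nlinarith
  · -- the size
    have hnabs : 1 ≤ |n| := Int.one_le_abs hn0
    have s1 : |x| ≤ |n * x| := by
      rw [abs_mul]
      exact le_mul_of_one_le_left (abs_nonneg _) hnabs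
    have b1 : |p| ≤ (d + 1) * q := by rw [hp, hqq]; exact (hA i).p_le hd
    have b2 : |r| ≤ (d + 1) * t := by rw [hr, ht]; exact (hA j).p_le hd
    have s2 : |p * r - d * q * t| ≤ 2 * (d + 1) ^ 2 * (q * t) := by
      refine (abs_sub _ _).trans ?_
      rw [abs_mul, abs_of_nonneg (show 0 ≤ d * q * t by positivity)]
      have b3 : |p| * |r| ≤ ((d + 1) * q) * ((d + 1) * t) :=
        mul_le_mul b1 b2 (abs_nonneg _) (by positivity)
      have b4 : d * q * t ≤ (d + 1) ^ 2 * (q * t) := by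
        have h0 : 0 ≤ q * t := by positivity
        have h1 : d ≤ (d + 1) ^ 2 := by nlinarith
        rw [mul_assoc]
        exact mul_le_mul_of_nonneg_right h1 h0
      have b5 : ((d + 1) * q) * ((d + 1) * t) = (d + 1) ^ 2 * (q * t) := by ring
      linarith
    have c1 : q ≤ (2 * d + 1) ^ pM d := by
      rw [hqq]
      exact (hq i).trans (pow_le_pow_right₀ (by linarith) (by omega))
    have c2 : t ≤ (2 * d + 1) ^ pM d := by
      rw [ht]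
      exact (hq j).trans (pow_le_pow_right₀ (by linarith) (by omega))
    have s3 : q * t ≤ (2 * d + 1) ^ pM d * (2 * d + 1) ^ pM d :=
      mul_le_mul c1 c2 htpos.le (by positivity)
    calc |x| ≤ |n * x| := s1
      _ = |p * r - d * q * t| := by rw [hX]
      _ ≤ 2 * (d + 1) ^ 2 * (q * t) := s2
      _ ≤ _ := mul_le_mul_of_nonneg_left s3 (by positivity)

end Pool.Agent.Lib.MP_648c71_nt.AllCub
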