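import Pool.Agent.Lib.MP_648c71_nt.EX.Config2
import Pool.Agent.Lib.MP_648c71_nt.EX.Orbit

/-!
# Both signs with a polynomial bound for the denominator, `c ≠ 0`
-/

set_option autoImplicit false

namespace Pool.Agent.Lib.MP_648c71_nt.AllCub

theorem SeqB.flip {g : ℚ → ℤ} (hg : GMul g) {b c : ℚ} {s : ℤ} {B : ℕ} (h : SeqB g b (-c) (g (-1) * s) B) :
    SeqB g b c s B := by
  obtain ⟨q, hq, hqB, C, K, n, h1, h2, h3⟩ := h
  refine ⟨q, hq, hqB, C, K, fun k => -n k, fun k => ?_, fun v N => ?_, fun k => ?_⟩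
  · rw [abs_neg]
    exact h1 k
  · have := h2 (-v) N
    refine le_trans (Finset.card_le_card ?_) this
    intro k hk
    rw [Finset.mem_filter] at hk ⊢
    exact ⟨hk.1, by linarith [hk.2]⟩
  · have h4 := h3 k
    have e : fc b c (((-n k : ℤ) : ℚ) / q) = (-1) * fc b (-c) ((n k : ℚ) / q) := by
      unfold fc
      push_cast
      ring
    have h5 : g (-1) * g (-1) = 1 := hg.sq _ (by norm_num)
    rw [e, hg.mul, h4, ← mul_assoc, h5, one_mul]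

/-- The index set `(b, c, r)`, `r` of polynomial height. -/
def I3 (K : ℕ) : Type := {v : ℤ × ℤ × ℚ // HB (Sz v.1 v.2.1 ^ K) v.2.2}

theorem seqB_pos : ∃ K : ℕ, ∀ b c : ℤ, 0 < c → ∀ g : ℚ → ℤ, GMul g → g 3 = -1 → ∀ s : ℤ, s = 1 ∨ s = -1 →
    SeqB g b c s ((2 + b.natAbs + c.natAbs) ^ K) := by
  obtain ⟨K1, h1⟩ := config
  obtain ⟨K2, h2⟩ := orbit_PB (ι := I3 K1) (H := fun v => Sz v.1.1 v.1.2.1) (fun v => Sz_two _ _)
    (b := fun v => (v.1.1 : ℚ)) (c := fun v => (v.1.2.1 : ℚ)) (r := fun v => v.1.2.2)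
    (PB.int (fun v => Sz_two _ _) ⟨1, fun v => by
      rw [pow_one]
      change v.1.1.natAbs ≤ 2 + v.1.1.natAbs + v.1.2.1.natAbs
      omega⟩)
    (PB.int (fun v => Sz_two _ _) ⟨1, fun v => by
      rw [pow_one]
      change v.1.2.1.natAbs ≤ 2 + v.1.1.natAbs + v.1.2.1.natAbs
      omega⟩) ⟨K1, fun v => v.2⟩
  refine ⟨K2, fun b c hc g hg hg3 s hs => ?_⟩
  obtain ⟨r, hA, hB, hr⟩ := h1 b c hc g hg hg3 s hs
  have h := h2 ⟨(b, c, r), hB⟩ hA g hg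
  rw [← hr]
  exact h

/-- X5. -/
theorem seqB_ne : ∃ K : ℕ, ∀ b c : ℤ, c ≠ 0 → ∀ g : ℚ → ℤ, GMul g → g 3 = -1 → ∀ s : ℤ, s = 1 ∨ s = -1 →
    SeqB g b c s ((2 + b.natAbs + c.natAbs) ^ K) := by
  obtain ⟨K, h⟩ := seqB_pos
  refine ⟨K, fun b c hc g hg hg3 s hs => ?_⟩
  rcases lt_or_gt_of_ne hc with h0 | h0
  · refine SeqB.flip hg ?_
    have hg1 : g (-1) * g (-1) = 1 := hg.sq _ (by norm_num)
    have hs' : g (-1) * s = 1 ∨ g (-1) * s = -1 := by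
      rcases mul_self_eq_one_iff.1 hg1 with h | h <;> rcases hs with rfl | rfl <;> rw [h] <;> norm_num
    have h5 := h b (-c) (by omega) g hg hg3 _ hs'
    rw [Int.natAbs_neg] at h5
    push_cast at h5
    exact h5
  · exact h b c h0 g hg hg3 s hs

end Pool.Agent.Lib.MP_648c71_nt.AllCub
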